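import Pool.Agent.P.MP_0a0487_an.GZ.TDefs

/-! Profiles on the torus. -/

set_option autoImplicit false
set_option linter.unusedSectionVars false

noncomputable section

namespace GZ

open Set Filter Topology Module
open scoped ComplexConjugate

/-- The index set of the profile. -/
abbrev Ix (b : ℕ) : Type := Fin b → Fin 3

/-- The involution of the index set. -/
def Ix.neg {b : ℕ} (i : Ix b) : Ix b := fun j => (i j).rev

/-- A symmetric periodic partition of unity with integral branches. -/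
structure Pat (b : ℕ) where
  r : Ix b → (Fin b → ℝ) → ℝ
  g : Ix b → (Fin b → ℝ) → Fin b → ℤ
  r_lip : ∀ i, ∃ K, LipschitzWith K (r i)
  r_per : ∀ i a m, r i (a + zc m) = r i a
  g_per : ∀ i a m, g i (a + zc m) = g i a + m
  g_loc : ∀ i a₀, ∃ m, ∀ᶠ a in 𝓝 a₀, r i a = 0 ∨ g i a = m
  g_bd : ∀ i a, ‖a - zc (g i a)‖ ≤ 1
  sum_sq : ∀ a, ∑ i, r i a ^ 2 = 1
  r_neg : ∀ i a, r i.neg (-a) = r i a
  g_neg : ∀ i a, r i a = 0 ∨ g i.neg (-a) = -g i a
  zero : ∀ᶠ a in 𝓝 0, (∀ i, i ≠ (fun _ => 1) → r i a = 0) ∧ r (fun _ => 1) a = 1 ∧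
    g (fun _ => 1) a = 0

/-- The average of the branches. -/
def Pat.κ {b : ℕ} (π : Pat b) (a : Fin b → ℝ) : Fin b → ℝ := ∑ i, π.r i a ^ 2 • zc (π.g i a)

end GZ
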