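import Pool.Agent.P.MP_0a0487_an.SX.Gal1
import Pool.Agent.P.MP_0a0487_an.SX.Ends
import Pool.Agent.P.MP_0a0487_an.GZ.PatDefs

/-! The Galerkin family over the torus of flat connections. -/

set_option autoImplicit false
set_option linter.unusedSectionVars false

noncomputable section

namespace SX4

open scoped ComplexOrder ContDiff
open Filter Topology Module GZ

variable {P A : Type} [TopologicalSpace P] [CompactSpace P] [CommRing A] [StarRing A] [Algebra ℂ A]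
  [StarModule ℂ A] {B : Base P A}

namespace Pre

variable (G : Pre B)

/-- Multiplication by a function. -/
def mulS {ι : Type} {w : ι → Wt} (u : B.W 0) : G.Sec w →ₗ[ℂ] G.Sec w where
  toFun s := G.mk' (fun i => u.1 * s.c i) fun i => B.mul_mem' u.2 (s.mem i) (zero_add _)
  map_add' _ _ := Sec.ext fun _ => mul_add _ _ _
  map_smul' _ _ := Sec.ext fun _ => mul_smul_comm _ _ _

/-- The twisted Dirac operator as a complex linear map. -/
def dirC (χ : G.Sec (wm 0)) : G.Sec (wp 0) →ₗ[ℂ] G.Sec (wm 0) where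
  toFun s := G.dirac 0 s + G.rho 0 χ s
  map_add' s t := by rw [map_add, map_add]; abel
  map_smul' z s := by rw [G.dirac_smul, G.rho_smul, smul_add]; rfl

/-- The lattice of integral harmonic forms and the corresponding gauge transformations. -/
structure Latt where
  b : ℕ
  hm : (Fin b → ℝ) →ₗ[ℝ] G.Sec (wm 0)
  inj : Function.Injective hm
  rng : LinearMap.range hm = LinearMap.ker G.Q
  u : (Fin b → ℤ) → B.W 0
  u_zero : (u 0).1 = 1
  u_add : ∀ m n, (u (m + n)).1 = (u m).1 * (u n).1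
  u_star : ∀ m, star (u m).1 = (u (-m)).1
  par : ∀ m γ, G.X (hm (zc m)).form γ (u m).1 = 0
  full : ∀ χ, G.Q χ = 0 → ∀ v ∈ B.W 0, star v * v = 1 → (∀ γ, G.X χ.form γ v = 0) →
    ∃ m, χ = hm (zc m)

/-- The quaternionic structure on positive spinors. -/
def jp {u : A} (hu : u ∈ B.W (1, 1)) : G.Sec (wp 0) →ₗ[ℝ] G.Sec (wp 0) :=
  G.mkL (fun s => ![star u * star (s.c 1), -(star u * star (s.c 0))])
    (fun s => mem2
      (B.mul_mem' (B.star_mem hu) (B.star_mem (s.mem 1)) (by ext <;> simp [wp]))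
      (neg_mem (B.mul_mem' (B.star_mem hu) (B.star_mem (s.mem 0)) (by ext <;> simp [wp]))))
    (fun s t i => by fin_cases i <;> simp [mul_add, add_comm])
    (fun r s i => by fin_cases i <;> simp [-Complex.coe_smul])

/-- The quaternionic structure on negative spinors. -/
def jm {u : A} (hu : u ∈ B.W (1, 1)) : G.Sec (wm 0) →ₗ[ℝ] G.Sec (wm 0) :=
  G.mkL (fun s => ![star u * star (s.c 1), -(star u * star (s.c 0))])
    (fun s => mem2
      (B.mul_mem' (B.star_mem hu) (B.star_mem (s.mem 1)) (by ext <;> simp [wm]))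
      (neg_mem (B.mul_mem' (B.star_mem hu) (B.star_mem (s.mem 0)) (by ext <;> simp [wm]))))
    (fun s t i => by fin_cases i <;> simp [mul_add, add_comm])
    (fun r s i => by fin_cases i <;> simp [-Complex.coe_smul])

/-- The Dirac operator commutes with the quaternionic structure defined by the unit `u`. -/
structure JS {u : A} (hu : u ∈ B.W (1, 1)) : Prop where
  unit : star u * u = 1
  comm : ∀ s, G.dirac 0 (G.jp hu s) = G.jm hu (G.dirac 0 s)

end Pre

namespace Geo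

variable (G : Geo B)

/-- The adjoint of `Q`. -/
def Qa : G.Sec (wp 0) →ₗ[ℝ] G.Sec (wm 0) := G.exists_Q_adj.choose

theorem Qa_ell : Pre.Ell G.Q G.Qa := G.exists_Q_adj.choose_spec

/-- Low modes of positive spinors. -/
def Ep (Λ : ℝ) : Submodule ℂ (G.Sec (wp 0)) where
  carrier := eig (G.dirac 0) (G.diracAdj 0) Λ
  add_mem' := add_mem
  zero_mem' := zero_mem _
  smul_mem' z _ hs := eig_symm Λ (gal1Mul z)
    (fun s => (congrArg _ (G.dirac_smul 0 z s)).trans (G.diracAdj_smul 0 z _)) hs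

/-- Low modes of negative spinors. -/
def Em (Λ : ℝ) : Submodule ℂ (G.Sec (wm 0)) where
  carrier := eig (G.diracAdj 0) (G.dirac 0) Λ
  add_mem' := add_mem
  zero_mem' := zero_mem _
  smul_mem' z _ hs := eig_symm Λ (gal1Mul z)
    (fun s => (congrArg _ (G.diracAdj_smul 0 z s)).trans (G.dirac_smul 0 z _)) hs

/-- Low modes of one-forms orthogonal to the harmonic forms. -/
def Ym (Λ : ℝ) : Submodule ℝ (G.Sec (wm 0)) := eig G.Q G.Qa Λ ⊓ (LinearMap.ker G.Q)ᗮ

/-- Low modes of functions of mean zero and self-dual forms. -/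
def Yp (Λ : ℝ) : Submodule ℝ (G.Sec (wp 0)) := eig G.Qa G.Q Λ ⊓ (Submodule.span ℝ {G.e1})ᗮ

theorem fd_of_real {V : Type} [AddCommGroup V] [Module ℝ V] [Module ℂ V] [IsScalarTower ℝ ℂ V]
    (E : Submodule ℂ V) (E' : Submodule ℝ V) [FiniteDimensional ℝ E'] (h : ∀ s, s ∈ E ↔ s ∈ E') :
    FiniteDimensional ℂ E := by
  have e : E.restrictScalars ℝ = E' := Submodule.ext h
  have : FiniteDimensional ℝ (E.restrictScalars ℝ) := e ▸ inferInstance
  have : FiniteDimensional ℝ E := this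
  exact Module.Finite.of_restrictScalars_finite ℝ ℂ E

instance (Λ : ℝ) : FiniteDimensional ℂ (G.Ep Λ) :=
  haveI := (G.pair (G.dirac_ell 0)).eig_fd Λ
  fd_of_real _ (eig (G.dirac 0) (G.diracAdj 0) Λ) fun _ => Iff.rfl

instance (Λ : ℝ) : FiniteDimensional ℂ (G.Em Λ) :=
  haveI := (G.pair (G.dirac_ell 0)).symm.eig_fd Λ
  fd_of_real _ (eig (G.diracAdj 0) (G.dirac 0) Λ) fun _ => Iff.rfl

instance (Λ : ℝ) : FiniteDimensional ℝ (G.Ym Λ) :=
  haveI := (G.pair G.Qa_ell).eig_fd Λ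
  Submodule.finiteDimensional_of_le inf_le_left

instance (Λ : ℝ) : FiniteDimensional ℝ (G.Yp Λ) :=
  haveI := (G.pair G.Qa_ell).symm.eig_fd Λ
  Submodule.finiteDimensional_of_le inf_le_left

/-- The orthogonal projection. -/
def pp (Λ : ℝ) : G.Sec (wp 0) →ₗ[ℂ] G.Ep Λ := (G.Ep Λ).orthogonalProjectionOnto.toLinearMap

/-- The orthogonal projection. -/
def pm (Λ : ℝ) : G.Sec (wm 0) →ₗ[ℂ] G.Em Λ := (G.Em Λ).orthogonalProjectionOnto.toLinearMap

/-- The orthogonal projection. -/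
def qp (Λ : ℝ) : G.Sec (wp 0) →ₗ[ℝ] G.Yp Λ := (G.Yp Λ).orthogonalProjectionOnto.toLinearMap

/-- The target of the projected Dirac equation. -/
abbrev Um (b : ℕ) (Λ : ℝ) : Type := Ix b → G.Em Λ

/-- The ambient space of the index bundle. -/
abbrev Ut (b : ℕ) (Λ : ℝ) : Type := (Ix b → G.Ep Λ) × (Ix b → G.Em Λ)

variable {G} (L : G.Latt) (π : Pat L.b) (Λ : ℝ)

/-- The stabilising map. -/
def io (a : Fin L.b → ℝ) : G.Um L.b Λ →ₗ[ℂ] G.Sec (wm 0) :=
  ∑ i, (π.r i a : ℂ) • (G.mulS (L.u (π.g i a)) ∘ₗ (G.Em Λ).subtype ∘ₗ LinearMap.proj i)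

/-- The adjoint of the stabilising map. -/
def pj (a : Fin L.b → ℝ) : G.Sec (wm 0) →ₗ[ℂ] G.Um L.b Λ :=
  LinearMap.pi fun i => (π.r i a : ℂ) • (G.pm Λ ∘ₗ G.mulS (L.u (-π.g i a)))

/-- The stabilised Dirac operator. -/
def Lop (a : Fin L.b → ℝ) : G.Sec (wp 0) × G.Um L.b Λ →ₗ[ℂ] G.Sec (wm 0) :=
  (G.dirC (L.hm (π.κ a))).coprod (io L π Λ a)

/-- The embedding of the index bundle into a trivial bundle. -/
def Th (a : Fin L.b → ℝ) : G.Sec (wp 0) × G.Um L.b Λ →ₗ[ℂ] G.Ut L.b Λ :=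
  (LinearMap.pi fun i => (π.r i a : ℂ) • (G.pp Λ ∘ₗ G.mulS (L.u (-π.g i a)))).prodMap
    LinearMap.id

/-- The index bundle. -/
def Wg (a : Fin L.b → ℝ) : Submodule ℂ (G.Ut L.b Λ) :=
  (LinearMap.ker (Lop L π Λ a)).map (Th L π Λ a)

/-- The spinor defined by a point of the index bundle. -/
def sp (a : Fin L.b → ℝ) (w : G.Ut L.b Λ) : G.Sec (wp 0) :=
  Classical.epsilon fun ψ => Lop L π Λ a (ψ, w.2) = 0 ∧ Th L π Λ a (ψ, w.2) = w

/-- The projected equations. -/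
def Eqn (a : Fin L.b → ℝ) (ψ : G.Sec (wp 0)) (e : G.Um L.b Λ) (y : G.Sec (wm 0)) :
    G.Um L.b Λ × G.Yp Λ :=
  (e - pj L π Λ a (G.rho 0 (y + L.hm (a - π.κ a)) ψ), G.qp Λ (G.Q y + G.sig ψ ψ))

/-- The finite-dimensional monopole map. -/
def Fg (p : (Fin L.b → ℝ) × G.Ut L.b Λ × G.Ym Λ) : G.Um L.b Λ × G.Yp Λ :=
  Eqn L π Λ p.1 (sp L π Λ p.1 p.2.1) p.2.1.2 p.2.2

/-- The size function. -/
def Ng {b : ℕ} (p : G.Ut b Λ × G.Ym Λ) : ℝ :=
  ‖p.1.1‖ + ∑ i, (p.1.2 i : G.Sec (wm 0)).nS 3 + (p.2 : G.Sec (wm 0)).nS 4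

/-- The level is so large that the index bundle is a bundle. -/
structure Lev : Prop where
  inj : ∀ a v, Lop L π Λ a v = 0 → Th L π Λ a v = 0 → v = 0
  surj : ∀ a, Function.Surjective (Lop L π Λ a)

/-- A solution of the projected equations of size at most `R`. -/
structure GS (R : ℝ) (ξ : G.Sec (wp 0)) (a : Fin L.b → ℝ) (ψ : G.Sec (wp 0)) (e : G.Um L.b Λ)
    (y : G.Ym Λ) : Prop where
  ker : Lop L π Λ a (ψ, e) = 0
  eq : Eqn L π Λ a ψ e y = (0, G.qp Λ ξ)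
  le : Ng Λ (Th L π Λ a (ψ, e), y) ≤ R

end Geo

end SX4
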