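import Mathlib

/-! Finite-dimensional models over a torus. -/

set_option autoImplicit false
set_option linter.unusedSectionVars false

noncomputable section

namespace GZ

open Set Filter Topology Module
open scoped ComplexConjugate

/-- The real vector of an integral vector. -/
def zc {b : ℕ} (m : Fin b → ℤ) : Fin b → ℝ := fun j => m j

theorem zc_add {b : ℕ} (m n : Fin b → ℤ) : zc (m + n) = zc m + zc n := by
  ext j; simp [zc]

theorem zc_neg {b : ℕ} (m : Fin b → ℤ) : zc (-m) = -zc m := by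
  ext j; simp [zc]

theorem zc_zero {b : ℕ} : zc (0 : Fin b → ℤ) = 0 := by
  ext j; simp [zc]

/-- A set of Hausdorff codimension at least one. -/
def Thin {Pm : Type} [NormedAddCommGroup Pm] [NormedSpace ℝ Pm] (S : Set Pm) : Prop :=
  S = ∅ ∨ dimH S + 1 ≤ finrank ℝ Pm

/-- A Lipschitz local frame of a family of subspaces. -/
structure IsFrame {b k : ℕ} {U : Type} [NormedAddCommGroup U] [NormedSpace ℂ U]
    (W : (Fin b → ℝ) → Submodule ℂ U) (s : Set (Fin b → ℝ))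
    (S : (Fin b → ℝ) → (Fin k → ℂ) →L[ℂ] U) : Prop where
  opn : IsOpen s
  lip : ∃ K, LipschitzOnWith K S s
  inj : ∀ a ∈ s, Function.Injective (S a)
  rng : ∀ a ∈ s, ∀ w, w ∈ W a ↔ ∃ x, S a x = w

/-- A circle equivariant map on a complex vector bundle over a torus. -/
structure Fam (b : ℕ) (U U' Y Y' : Type) [NormedAddCommGroup U] [NormedSpace ℂ U]
    [NormedAddCommGroup U'] [NormedSpace ℂ U'] [NormedAddCommGroup Y] [NormedSpace ℝ Y]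
    [NormedAddCommGroup Y'] [NormedSpace ℝ Y'] where
  k : ℕ
  W : (Fin b → ℝ) → Submodule ℂ U
  F : (Fin b → ℝ) × U × Y → U' × Y'
  W_per : ∀ a m, W (a + zc m) = W a
  F_per : ∀ a m w y, w ∈ W a → F (a + zc m, w, y) = F (a, w, y)
  F_rot : ∀ a w y (z : ℂ), ‖z‖ = 1 → w ∈ W a →
    F (a, z • w, y) = (z • (F (a, w, y)).1, (F (a, w, y)).2)
  frame : ∀ a₀, ∃ (s : Set (Fin b → ℝ)) (S : (Fin b → ℝ) → (Fin k → ℂ) →L[ℂ] U),
    a₀ ∈ s ∧ IsFrame W s S ∧ ∀ R : ℝ, ∃ K, LipschitzOnWith K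
      (fun p : (Fin b → ℝ) × (Fin k → ℂ) × Y => F (p.1, S p.1 p.2.1, p.2.2))
      (s ×ˢ Metric.closedBall 0 R)
  dim : b + 2 * k + finrank ℝ Y = 2 * finrank ℂ U' + finrank ℝ Y' + 1

variable {b : ℕ} {U U' Y Y' Z : Type} [NormedAddCommGroup U] [NormedSpace ℂ U] [NormedSpace ℝ U]
  [NormedAddCommGroup U'] [NormedSpace ℂ U'] [NormedSpace ℝ U'] [NormedAddCommGroup Y]
  [NormedSpace ℝ Y] [NormedAddCommGroup Y'] [NormedSpace ℝ Y'] [NormedAddCommGroup Z]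

/-- A nondegenerate solution near which the bundle is constant. -/
structure Fam.Base (Φ : Fam b U U' Y Y') (w₀ : U) (η₀ : Y') : Prop where
  mem : w₀ ∈ Φ.W 0
  ne : w₀ ≠ 0
  sol : Φ.F (0, w₀, 0) = (0, η₀)
  const : ∀ᶠ a in 𝓝 0, Φ.W a = Φ.W 0
  nd : ∃ (G : (Fin b → ℝ) × U × Y → U' × Y') (T : ((Fin b → ℝ) × U × Y) →L[ℝ] U' × Y'),
    HasFDerivAt G T (0, w₀, 0) ∧
    (∀ᶠ p in 𝓝 ((0, w₀, 0) : (Fin b → ℝ) × U × Y), p.2.1 ∈ Φ.W 0 → Φ.F p = G p) ∧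
    ∀ p, p.2.1 ∈ Φ.W 0 → T p = 0 →
      p.1 = 0 ∧ p.2.2 = 0 ∧ ∃ t : ℝ, p.2.1 = ((t : ℂ) * Complex.I) • w₀

/-- A quaternionic symmetry. -/
structure Fam.Sym (Φ : Fam b U U' Y Y') (j : U →L[ℝ] U) (j' : U' →L[ℝ] U') : Prop where
  j_smul : ∀ (z : ℂ) w, j (z • w) = conj z • j w
  j_j : ∀ w, j (j w) = -w
  j'_smul : ∀ (z : ℂ) w, j' (z • w) = conj z • j' w
  j'_j' : ∀ w, j' (j' w) = -w
  W_neg : ∀ a w, w ∈ Φ.W a → j w ∈ Φ.W (-a)
  F_neg : ∀ a w y, w ∈ Φ.W a →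
    Φ.F (-a, j w, -y) = (j' (Φ.F (a, w, y)).1, -(Φ.F (a, w, y)).2)

/-- A proper invariant size function. -/
structure Size (N : U × Y → ℝ) (R : ℝ) : Prop where
  cont : Continuous N
  bdd : Bornology.IsBounded {p | N p ≤ R}
  rot : ∀ z : ℂ, ‖z‖ = 1 → ∀ w y, N (z • w, y) = N (w, y)

/-- The total space. -/
def Fam.Tot (Φ : Fam b U U' Y Y') (Z : Type) : Set (((Fin b → ℝ) × U × Y) × Z) :=
  {p | p.1.2.1 ∈ Φ.W p.1.1}

/-- The orbit relation of the gauge group, extended by `j` if `c` holds. -/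
def Rel (c : Prop) (j : U →L[ℝ] U) (p q : ((Fin b → ℝ) × U × Y) × Z) : Prop :=
  ∃ (m : Fin b → ℤ) (z : ℂ), ‖z‖ = 1 ∧
    (q = ((p.1.1 + zc m, z • p.1.2.1, p.1.2.2), p.2) ∨
      c ∧ q = ((-p.1.1 + zc m, z • j p.1.2.1, -p.1.2.2), -p.2))

end GZ
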