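import Pool.Agent.P.MP_0a0487_an.SX.Abs2
import Pool.Agent.P.MP_0a0487_an.GZ.TDefs

/-! Kernels of stabilised operators. -/

set_option autoImplicit false
set_option linter.unusedSectionVars false

noncomputable section

namespace GZ

open Set Filter Topology Module
open scoped ComplexConjugate

open SX4

theorem ker_rank {V V' U : Type} [AddCommGroup V] [Module ℝ V] [AddCommGroup V'] [Module ℝ V']
    [AddCommGroup U] [Module ℝ U] [FiniteDimensional ℝ U] (D : V →ₗ[ℝ] V')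
    [FiniteDimensional ℝ (LinearMap.ker D)] [FiniteDimensional ℝ (V' ⧸ LinearMap.range D)]
    (ι : U →ₗ[ℝ] V') (hs : Function.Surjective (D.coprod ι)) :
    FiniteDimensional ℝ (LinearMap.ker (D.coprod ι)) ∧
      (finrank ℝ (LinearMap.ker (D.coprod ι)) : ℤ) = D.index + finrank ℝ U := by
  have h1 : FiniteDimensional ℝ (LinearMap.ker (D.coprod ι)) := by
    refine Module.Finite.iff_fg.2 (Submodule.fg_of_fg_map_of_fg_inf_ker (LinearMap.snd ℝ V U)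
      (IsNoetherian.noetherian _) ?_)
    have e : LinearMap.ker (D.coprod ι) ⊓ LinearMap.ker (LinearMap.snd ℝ V U) =
        (LinearMap.ker D).map (LinearMap.inl ℝ V U) := by
      rw [LinearMap.ker_snd, ← LinearMap.coprod_inl D ι, LinearMap.ker_comp,
        Submodule.map_comap_eq, inf_comm, LinearMap.coprod_inl]
    rw [e]
    exact (Module.Finite.iff_fg.1 inferInstance).map _
  refine ⟨h1, ?_⟩
  have e : ((V × U) ⧸ LinearMap.range (LinearMap.inl ℝ V U)) ≃ₗ[ℝ] U := by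
    rw [LinearMap.range_inl]
    exact LinearMap.quotKerEquivOfSurjective _ Prod.snd_surjective
  have i1 := e.symm.finiteDimensional
  have i2 : FiniteDimensional ℝ (LinearMap.ker (LinearMap.inl ℝ V U)) := by
    rw [LinearMap.ker_eq_bot.2 LinearMap.inl_injective]
    infer_instance
  have i3 : FiniteDimensional ℝ (V' ⧸ LinearMap.range (D.coprod ι)) := by
    rw [LinearMap.range_eq_top.2 hs]
    infer_instance
  have h2 := LinearMap.index_comp (f := LinearMap.inl ℝ V U) (D.coprod ι)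
  rw [LinearMap.coprod_inl, LinearMap.index_of_surjective hs,
    LinearMap.index_of_injective (f := LinearMap.inl ℝ V U) LinearMap.inl_injective,
    e.finrank_eq] at h2
  omega

section

variable {V V' U : Type} [NormedAddCommGroup V] [InnerProductSpace ℝ V] [NormedAddCommGroup V']
  [InnerProductSpace ℝ V'] [NormedAddCommGroup U] [NormedSpace ℝ U] [FiniteDimensional ℝ U]
  {D : V →ₗ[ℝ] V'} {D' : V' →ₗ[ℝ] V}

theorem surj_of_pair (h : Pair D D') (ι : U →ₗ[ℝ] V')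
    (h0 : ∀ t, D' t = 0 → (∀ e, inner ℝ (ι e) t = 0) → t = 0) :
    Function.Surjective (D.coprod ι) := by
  intro g
  have := h.symm.ker_fd
  obtain ⟨p, hp⟩ := exists_isOP (LinearMap.ker D')
  obtain ⟨p', hp'⟩ := exists_isOP (LinearMap.range (p ∘ₗ ι))
  obtain ⟨e, he⟩ := hp'.1 (p g)
  have h1 : p g - p' (p g) ∈ LinearMap.ker D' := sub_mem (hp.1 g) (he ▸ hp.1 (ι e))
  have h2 := h0 _ h1 fun e' => by
    have k1 := hp.2 (ι e') _ h1
    have k2 := hp'.2 (p g) (p (ι e')) ⟨e', rfl⟩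
    rw [inner_sub_left, real_inner_comm _ (p (ι e')), k2, sub_zero] at k1
    exact k1
  obtain ⟨s, hs⟩ := h.solve (g := g - ι e) fun t ht =>
    abs2_orth hp (by rw [map_sub, sub_eq_zero.1 h2, ← he]; exact sub_self _) t ht
  exact ⟨(s, e), by rw [LinearMap.coprod_apply, hs, sub_add_cancel]⟩

theorem coer_of_pair (h : Pair D D') (ι : U →ₗ[ℝ] V') : ∃ δ : ℝ, 0 < δ ∧ ∀ v : V × U,
    ∃ v', D.coprod ι v' = 0 ∧ δ * ‖v - v'‖ ≤ ‖D.coprod ι v‖ := by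
  have := h.symm.ker_fd
  have := h.ker_fd
  obtain ⟨p, hp⟩ := exists_isOP (LinearMap.ker D')
  obtain ⟨q, hq⟩ := exists_isOP (LinearMap.ker D)
  obtain ⟨δ, hδ, hc⟩ := h.coercive
  obtain ⟨r, hr⟩ := (p ∘ₗ ι).rangeRestrict.exists_rightInverse_of_surjective
    (LinearMap.range_rangeRestrict _)
  obtain ⟨C, hC, h1⟩ := (LinearMap.toContinuousLinearMap r).bound
  obtain ⟨C', hC', h2⟩ := (LinearMap.toContinuousLinearMap ι).bound
  have hA : 0 < (1 + C' * C) / δ + C := by positivity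
  refine ⟨((1 + C' * C) / δ + C)⁻¹, inv_pos.2 hA, fun v => ?_⟩
  obtain ⟨ψ, e⟩ := v
  obtain ⟨e₁, k1, k2⟩ : ∃ e₁, p (ι e₁) = p (ι e) ∧ ‖e₁‖ ≤ C * ‖p (ι e)‖ :=
    ⟨r ⟨_, e, rfl⟩, congrArg Subtype.val (LinearMap.congr_fun hr ⟨_, e, rfl⟩), h1 ⟨_, e, rfl⟩⟩
  have k3 : p (D ψ) = 0 := hp.eq_of (zero_mem _) fun t ht => by
    rw [sub_zero, h.adj, LinearMap.mem_ker.1 ht, inner_zero_right]
  have k4 : ‖e₁‖ ≤ C * ‖D ψ + ι e‖ := by
    have := hp.norm_le (D ψ + ι e)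
    rw [map_add, k3, zero_add] at this
    exact k2.trans (mul_le_mul_of_nonneg_left this hC.le)
  obtain ⟨ψ₀, k5⟩ := h.solve (g := ι (e - e₁)) fun t ht =>
    abs2_orth hp (by rw [map_sub, map_sub, k1, sub_self]) t ht
  have k6 : D (q (ψ + ψ₀)) = 0 := hq.1 _
  have k7 := hc _ fun u hu => hq.2 (ψ + ψ₀) u hu
  have k8 : D (ψ + ψ₀ - q (ψ + ψ₀)) = D ψ + ι e - ι e₁ := by
    rw [map_sub, k6, map_add, k5, map_sub, sub_zero, add_sub_assoc]
  have k9 : δ * ‖ψ + ψ₀ - q (ψ + ψ₀)‖ ≤ (1 + C' * C) * ‖D ψ + ι e‖ := by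
    rw [k8] at k7
    have a1 := norm_sub_le (D ψ + ι e) (ι e₁)
    have a2 : ‖ι e₁‖ ≤ C' * ‖e₁‖ := h2 e₁
    have a3 := mul_le_mul_of_nonneg_left k4 hC'.le
    linarith
  refine ⟨(q (ψ + ψ₀) - ψ₀, e - e₁), by
    rw [LinearMap.coprod_apply, map_sub, k6, k5, zero_sub, neg_add_cancel], ?_⟩
  rw [inv_mul_le_iff₀ hA, LinearMap.coprod_apply, Prod.mk_sub_mk, sub_sub_cancel, Prod.norm_mk,
    show ψ - (q (ψ + ψ₀) - ψ₀) = ψ + ψ₀ - q (ψ + ψ₀) by abel, add_mul]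
  have a1 : 0 ≤ C * ‖D ψ + ι e‖ := by positivity
  have a2 : 0 ≤ (1 + C' * C) / δ * ‖D ψ + ι e‖ := by positivity
  refine max_le (le_add_of_le_of_nonneg ?_ a1) (le_add_of_nonneg_of_le a2 k4)
  rw [div_mul_eq_mul_div, le_div_iff₀' hδ]
  exact k9

end

/-- A Lipschitz family of operators with kernels of constant dimension has Lipschitz frames. -/
theorem abs_frame {b k : ℕ} {X X' : Type} [NormedAddCommGroup X] [NormedSpace ℂ X]
    [NormedAddCommGroup X'] [NormedSpace ℂ X'] (L : (Fin b → ℝ) → X →ₗ[ℂ] X') {a₀ : Fin b → ℝ}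
    {s : Set (Fin b → ℝ)} (hs : IsOpen s) (ha : a₀ ∈ s) {δ : ℝ} (hδ : 0 < δ)
    (coer : ∀ v, ∃ v', L a₀ v' = 0 ∧ δ * ‖v - v'‖ ≤ ‖L a₀ v‖) {K : ℝ}
    (lip : ∀ a ∈ s, ∀ a' ∈ s, ∀ v, ‖L a v - L a' v‖ ≤ K * ‖a - a'‖ * ‖v‖)
    (hfd : ∀ a, FiniteDimensional ℂ (LinearMap.ker (L a)))
    (hk : ∀ a, finrank ℂ (LinearMap.ker (L a)) = k) :
    ∃ (s' : Set (Fin b → ℝ)) (S : (Fin b → ℝ) → (Fin k → ℂ) →ₗ[ℂ] X) (K' : ℝ), IsOpen s' ∧
      a₀ ∈ s' ∧ s' ⊆ s ∧ 0 ≤ K' ∧ (∀ a ∈ s', Function.Injective (S a) ∧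
        LinearMap.range (S a) = LinearMap.ker (L a) ∧ ∀ x, ‖S a x‖ ≤ K' * ‖x‖) ∧
      ∀ a ∈ s', ∀ a' ∈ s', ∀ x, ‖S a x - S a' x‖ ≤ K' * ‖a - a'‖ * ‖x‖ := by
  have := hfd a₀
  obtain ⟨q, hq⟩ := Submodule.ClosedComplemented.of_finiteDimensional (LinearMap.ker (L a₀))
  obtain ⟨j⟩ : Nonempty ((Fin k → ℂ) ≃L[ℂ] LinearMap.ker (L a₀)) :=
    ⟨ContinuousLinearEquiv.ofFinrankEq (by rw [hk, Module.finrank_fin_fun])⟩
  obtain ⟨C, hC, hj⟩ := (j : (Fin k → ℂ) →L[ℂ] LinearMap.ker (L a₀)).bound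
  obtain ⟨A, hA, h1⟩ : ∃ A : ℝ, 0 < A ∧ ∀ v, ‖v - q v‖ ≤ A * ‖L a₀ v‖ := by
    refine ⟨(1 + ‖q‖) / δ, by positivity, fun v => ?_⟩
    obtain ⟨v', k1, k2⟩ := coer v
    have k3 : v - q v = v - v' - q (v - v') := by
      rw [map_sub, show q v' = ⟨v', k1⟩ from hq ⟨v', k1⟩, Submodule.coe_sub]
      abel
    have k4 := norm_sub_le (v - v') (q (v - v'))
    have k5 : ‖(q (v - v') : X)‖ ≤ ‖q‖ * ‖v - v'‖ := q.le_opNorm _
    have k6 := mul_le_mul_of_nonneg_left k2 (show 0 ≤ 1 + ‖q‖ by positivity)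
    rw [k3, div_mul_eq_mul_div, le_div_iff₀ hδ]
    nlinarith
  have lip' : ∀ a ∈ s, ∀ a' ∈ s, ∀ v, ‖L a v - L a' v‖ ≤ (|K| + 1) * ‖a - a'‖ * ‖v‖ :=
    fun a ha a' ha' v => (lip a ha a' ha' v).trans (by
      gcongr
      linarith [le_abs_self K])
  have hK : 0 < |K| + 1 := by positivity
  have h2 : ∀ a ∈ s ∩ Metric.ball a₀ (2 * A * (|K| + 1))⁻¹, ∀ v,
      ‖v‖ ≤ 2 * ‖q v‖ + 2 * A * ‖L a v‖ := fun a ha' v => by
    have k1 := lip' a ha'.1 a₀ ha v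
    have k2 : 2 * A * (|K| + 1) * ‖a - a₀‖ ≤ 1 := by
      rw [← le_inv_mul_iff₀ (by positivity), mul_one]
      exact (mem_ball_iff_norm.1 ha'.2).le
    have k3 := mul_le_mul_of_nonneg_right k2 (norm_nonneg v)
    have k4 : ‖L a₀ v‖ ≤ ‖L a v‖ + ‖L a v - L a₀ v‖ := by
      simpa using norm_sub_le (L a v) (L a v - L a₀ v)
    have k5 : ‖v‖ ≤ ‖v - q v‖ + ‖q v‖ := by simpa using norm_add_le (v - q v) (q v)
    have k6 := mul_le_mul_of_nonneg_left (k4.trans (add_le_add le_rfl k1)) hA.le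
    have k7 := h1 v
    linarith
  have h3 : ∀ a, ∃ S : (Fin k → ℂ) →ₗ[ℂ] X, a ∈ s ∩ Metric.ball a₀ (2 * A * (|K| + 1))⁻¹ →
      (∀ x, q (S x) = j x) ∧ LinearMap.range S = LinearMap.ker (L a) := fun a => by
    by_cases ha' : a ∈ s ∩ Metric.ball a₀ (2 * A * (|K| + 1))⁻¹
    swap
    · exact ⟨0, fun k => absurd k ha'⟩
    have := hfd a
    let e := LinearMap.linearEquivOfInjective (q.toLinearMap ∘ₗ (LinearMap.ker (L a)).subtype)
      (LinearMap.ker_eq_bot.1 (LinearMap.ker_eq_bot'.2 fun v (hv : q v = 0) => by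
        have k1 := h2 a ha' v
        rw [hv, LinearMap.mem_ker.1 v.2, norm_zero, norm_zero, mul_zero, mul_zero, add_zero] at k1
        exact norm_le_zero_iff.1 k1)) ((hk a).trans (hk a₀).symm)
    refine ⟨(LinearMap.ker (L a)).subtype ∘ₗ (j.toLinearEquiv.trans e.symm).toLinearMap,
      fun _ => ⟨fun x => e.apply_symm_apply (j x), ?_⟩⟩
    rw [LinearEquiv.range_comp, Submodule.range_subtype]
  choose S hS using h3
  have h4 : ∀ a ∈ s ∩ Metric.ball a₀ (2 * A * (|K| + 1))⁻¹, ∀ x, L a (S a x) = 0 :=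
    fun a ha' x => LinearMap.mem_ker.1 ((hS a ha').2 ▸ LinearMap.mem_range_self _ x)
  have h5 : ∀ a ∈ s ∩ Metric.ball a₀ (2 * A * (|K| + 1))⁻¹, ∀ x, ‖S a x‖ ≤ 2 * C * ‖x‖ :=
    fun a ha' x => by
      have k1 := h2 a ha' (S a x)
      have k2 : ‖j x‖ ≤ C * ‖x‖ := hj x
      rw [h4 a ha', (hS a ha').1, norm_zero] at k1
      linarith
  have h6 : 0 ≤ 2 * A * (|K| + 1) * (2 * C) := by positivity
  refine ⟨_, S, 2 * C + 2 * A * (|K| + 1) * (2 * C), hs.inter Metric.isOpen_ball,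
    ⟨ha, Metric.mem_ball_self (by positivity)⟩, inter_subset_left, by positivity,
    fun a ha' => ⟨fun x y e => j.injective ?_, (hS a ha').2, fun x => (h5 a ha' x).trans ?_⟩,
    fun a ha' a' ha'' x => ?_⟩
  · rw [← (hS a ha').1, ← (hS a ha').1, e]
  · exact mul_le_mul_of_nonneg_right (le_add_of_nonneg_right h6) (norm_nonneg x)
  · have k1 := h2 a ha' (S a x - S a' x)
    have k2 := lip' a ha'.1 a' ha''.1 (S a' x)
    rw [h4 a' ha'', sub_zero] at k2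
    rw [map_sub, map_sub, (hS a ha').1, (hS a' ha'').1, sub_self, norm_zero, h4 a ha', zero_sub,
      norm_neg] at k1
    have k3 := mul_le_mul_of_nonneg_left (k2.trans (mul_le_mul_of_nonneg_left (h5 a' ha'' x)
      (by positivity))) (show 0 ≤ 2 * A by positivity)
    have k4 : 0 ≤ 2 * C * ‖a - a'‖ * ‖x‖ := by positivity
    linarith

end GZ
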