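import Pool.Agent.P.MP_0a0487_an.GZ.HDefs

/-! Transfer of relative chains through a chart. -/

set_option autoImplicit false
set_option linter.unusedSectionVars false

noncomputable section

namespace GZ

open Pool.Agent.P.MP_9699e0_gt HK3 Set Filter Topology Module

variable {X E : Type} [TopologicalSpace X] [T2Space X] [TopologicalSpace E] [T2Space E]
  (e : OpenPartialHomeomorph E X)

theorem Chart_emb {V : Set E} (hV : V ⊆ e.source) : Emb e V :=
  ⟨e.continuousOn.mono hV, e.symm,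
    e.continuousOn_symm.mono (image_subset_iff.2 fun _ hx => e.map_source (hV hx)),
    fun _ hx => e.left_inv (hV hx)⟩

theorem Chart_maps {K : Set E} (hKs : K ⊆ e.source) : MapsTo e (e.source ∩ Kᶜ) (e '' K)ᶜ := by
  rintro x hx ⟨y, hy, h⟩
  exact hx.2 (e.injOn (hKs hy) hx.1 h ▸ hy)

/-- Relative cycles are represented in a chart. -/
theorem chart_rep {K V : Set E} (hK : IsCompact K) (hV : IsOpen V) (hKV : K ⊆ V)
    (hVs : V ⊆ e.source) {n : ℕ} {ζ : C2 X (n + 1)} (hζ : Rc (e '' K) ζ) :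
    ∃ ξ ∈ chn (ZMod 2) V (n + 1), Rc K ξ ∧ Nul (e '' K) (ζ - cmap (ZMod 2) e (n + 1) ξ) := by
  have hE := Chart_emb e hVs
  obtain ⟨ξ', h1, h2, h3⟩ := exc_surj
    (hK.image_of_continuousOn (e.continuousOn.mono (hKV.trans hVs))).isClosed
    (e.isOpen_image_of_subset_source hV hVs) (image_mono hKV) hζ
  obtain ⟨ξ, hξ, rfl⟩ := hE.exists_chn h1
  rw [cmap_bd hE.1 hξ] at h2
  exact ⟨ξ, hξ, hE.mem_chn (T' := (e '' K)ᶜ) (bd_mem hξ)
    (fun y _ hy h => hy (mem_image_of_mem e h)) h2, h3⟩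

theorem chart_rc {K : Set E} (hKs : K ⊆ e.source) {n : ℕ} {ξ : C2 E (n + 1)}
    (hξ : ξ ∈ chn (ZMod 2) e.source (n + 1)) (h : Rc K ξ) :
    Rc (e '' K) (cmap (ZMod 2) e (n + 1) ξ) := by
  unfold Rc
  rw [cmap_bd e.continuousOn hξ]
  refine cmap_mem (e.continuousOn.mono inter_subset_left) (Chart_maps e hKs) ?_
  rw [chn_inter]
  exact ⟨bd_mem hξ, h⟩

theorem chart_nul {K : Set E} (hK : IsCompact K) (hKs : K ⊆ e.source) {n : ℕ} {ξ : C2 E n}
    (hξ : ξ ∈ chn (ZMod 2) e.source n) : Nul (e '' K) (cmap (ZMod 2) e n ξ) ↔ Nul K ξ := by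
  have hf := Chart_emb e Subset.rfl
  refine ⟨fun h => ?_, fun h => ?_⟩
  · have h1 := exc_inj (hK.image_of_continuousOn (e.continuousOn.mono hKs)).isClosed
      (e.isOpen_image_of_subset_source e.open_source Subset.rfl) (image_mono hKs)
      (cmap_mem hf.1 (mapsTo_image e _) hξ) h
    obtain ⟨u, hu, v, hv, h0⟩ := Submodule.mem_sup.1 h1
    obtain ⟨v', hv', rfl⟩ := hf.exists_chn (chn_mono inter_subset_left n hv)
    have h2 : v' ∈ chn (ZMod 2) Kᶜ n :=
      hf.mem_chn hv' (fun y _ hy h => hy.2 (mem_image_of_mem e h)) hv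
    have h3 : ξ - v' ∈ bdy (ZMod 2) e.source n := by
      refine hf.mem_bdy (sub_mem hξ hv') ?_
      rw [map_sub, ← h0, add_sub_cancel_right]
      exact hu
    rw [← sub_add_cancel ξ v']
    exact Submodule.add_mem_sup (bdy_mono (subset_univ _) n h3) h2
  · obtain ⟨u, hu, v, hv, rfl⟩ :=
      Submodule.mem_sup.1 (exc_inj hK.isClosed e.open_source hKs hξ h)
    rw [map_add]
    exact Submodule.add_mem_sup (cmap_bdy hf.1 (mapsTo_univ _ _) hu)
      (cmap_mem (e.continuousOn.mono inter_subset_left) (Chart_maps e hKs) hv)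

theorem Chart_iff {K K' : Set E} (hK' : IsCompact K') (h : K' ⊆ K) (hKs : K ⊆ e.source) {n : ℕ}
    {ζ : C2 X n} {ξ : C2 E n} (hξ : ξ ∈ chn (ZMod 2) e.source n)
    (h0 : Nul (e '' K) (ζ - cmap (ZMod 2) e n ξ)) : Nul (e '' K') ζ ↔ Nul K' ξ := by
  have h1 := h0.mono (image_mono h)
  rw [← chart_nul e hK' (h.trans hKs) hξ]
  exact ⟨fun h2 => by simpa using h2.sub h1, fun h2 => by simpa using h1.add h2⟩

theorem Chart_ex {K : Set E} (hK : IsCompact K) (hKs : K ⊆ e.source) {n : ℕ} {ξ : C2 E (n + 1)}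
    (h : Rc K ξ) : ∃ ζ : C2 X (n + 1), Rc (e '' K) ζ ∧ ∀ x ∈ K, Nul {e x} ζ → Nul {x} ξ := by
  obtain ⟨ξ', h1, h2, h3⟩ := exc_surj hK.isClosed e.open_source hKs h
  refine ⟨_, chart_rc e hKs h1 h2, fun x hx h4 => ?_⟩
  rw [← image_singleton, chart_nul e isCompact_singleton (singleton_subset_iff.2 (hKs hx)) h1] at h4
  simpa using (Nul.mono (singleton_subset_iff.2 hx) h3).add h4

theorem chart_locH {a : E} (ha : a ∈ e.source) {n : ℕ} (h : LocH n a) : LocH n (e a) := by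
  have hs : {a} ⊆ e.source := singleton_subset_iff.2 ha
  have rep : ∀ k (ζ : C2 X (k + 1)), Rc {e a} ζ → ∃ ξ ∈ chn (ZMod 2) e.source (k + 1), Rc {a} ξ ∧
      Nul (e '' {a}) (ζ - cmap (ZMod 2) e (k + 1) ξ) := fun k ζ hζ =>
    chart_rep e isCompact_singleton e.open_source hs Subset.rfl (by rwa [image_singleton])
  refine ⟨fun k hk ζ hζ => ?_, ?_, fun ζ ζ' hζ hζ' h1 h2 => ?_⟩
  · obtain ⟨ξ, p1, p2, p3⟩ := rep k ζ hζ
    rw [← image_singleton, Chart_iff e isCompact_singleton Subset.rfl hs p1 p3]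
    exact h.high k hk ξ p2
  · obtain ⟨ξ, p1, p2⟩ := h.ex
    obtain ⟨ζ, q1, q2⟩ := Chart_ex e isCompact_singleton hs p1
    exact ⟨ζ, by rwa [image_singleton] at q1, fun h0 => p2 (q2 a rfl h0)⟩
  · obtain ⟨ξ, p1, p2, p3⟩ := rep n ζ hζ
    obtain ⟨ξ', q1, q2, q3⟩ := rep n ζ' hζ'
    rw [← image_singleton, Chart_iff e isCompact_singleton Subset.rfl hs p1 p3] at h1
    rw [← image_singleton, Chart_iff e isCompact_singleton Subset.rfl hs q1 q3] at h2
    have h3 := p3.sub q3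
    rw [sub_sub_sub_comm, ← map_sub] at h3
    rw [← image_singleton, Chart_iff e isCompact_singleton Subset.rfl hs (sub_mem p1 q1) h3]
    exact h.uniq ξ ξ' p2 q2 h1 h2

theorem chart_good {K : Set E} (hK : IsCompact K) (hKs : K ⊆ e.source) {n : ℕ} (h : Good n K) :
    Good n (e '' K) := by
  refine ⟨fun k hk ζ hζ => ?_, fun ζ hζ h1 => ?_, ?_⟩
  · obtain ⟨ξ, p1, p2, p3⟩ := chart_rep e hK e.open_source hKs Subset.rfl hζ
    exact (Chart_iff e hK Subset.rfl hKs p1 p3).2 (h.high k hk ξ p2)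
  · obtain ⟨ξ, p1, p2, p3⟩ := chart_rep e hK e.open_source hKs Subset.rfl hζ
    refine (Chart_iff e hK Subset.rfl hKs p1 p3).2 (h.inj ξ p2 fun x hx => ?_)
    rw [← Chart_iff e isCompact_singleton (singleton_subset_iff.2 hx) hKs p1 p3, image_singleton]
    exact h1 _ (mem_image_of_mem e hx)
  · obtain ⟨ξ, p1, p2⟩ := h.ex
    obtain ⟨ζ, q1, q2⟩ := Chart_ex e hK hKs p1
    refine ⟨ζ, q1, ?_⟩
    rintro _ ⟨x, hx, rfl⟩ h0
    exact p2 x hx (q2 x hx h0)

end GZ
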