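import Pool.Agent.P.MP_0a0487_an.GZ.HgDefs
import Pool.Agent.P.MP_0a0487_an.SX.GrDefs

/-! Changing the connections. -/

set_option autoImplicit false
set_option linter.unusedSectionVars false

noncomputable section

namespace SX4

open scoped ComplexOrder ContDiff
open Filter Topology Module

variable {P A : Type} [TopologicalSpace P] [CompactSpace P] [CommRing A] [StarRing A] [Algebra ℂ A]
  [StarModule ℂ A] {B : Base P A}

/-- The connection form in weight `w`. -/
def connA (a b : Fin 4 → A) (w : Wt) (α : Fin 4) : A := (w.1 : ℂ) • a α + (w.2 : ℂ) • b α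

theorem connA_add (a b : Fin 4 → A) (u v : Wt) (α : Fin 4) :
    connA a b (u + v) α = connA a b u α + connA a b v α := by
  simp only [connA, Prod.fst_add, Prod.snd_add, Int.cast_add, add_smul]
  abel

theorem connA_star {a b : Fin 4 → A} (ha : B.Re1 a) (hb : B.Re1 b) (w : Wt) (α : Fin 4) :
    connA a b (-w) (bar α) = -star (connA a b w α) := by
  simp [connA, (ha α).2, (hb α).2, add_comm]

theorem connA_mem {a b : Fin 4 → A} (ha : B.Re1 a) (hb : B.Re1 b) (w : Wt) (α : Fin 4) :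
    connA a b w α ∈ B.W (wt α) :=
  add_mem (Submodule.smul_mem _ _ (ha α).1) (Submodule.smul_mem _ _ (hb α).1)

theorem connA_neg {a : Fin 4 → A} (ha : B.Re1 a) : B.Re1 (-a) := fun α =>
  ⟨neg_mem (ha α).1, by simp [(ha α).2]⟩

theorem connA_symm {G G' : Pre B} {a b : Fin 4 → A} (h : Pre.Cn G G' a b) :
    Pre.Cn G' G (-a) (-b) := by
  refine ⟨connA_neg h.ra, connA_neg h.rb, fun w s hs α => ?_, fun s => (h.I_eq s).symm⟩
  rw [h.D_eq w s hs]
  simp only [Pi.neg_apply, Algebra.smul_def]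
  ring

theorem connA_nrm {G G' : Pre B} {a b : Fin 4 → A} (h : Pre.Cn G G' a b) (s : A) :
    G'.nrm s = G.nrm s := by
  rw [Pre.nrm, Pre.nrm, h.I_eq]

theorem connA_zero {G G' : Pre B} {a b : Fin 4 → A} (h : Pre.Cn G G' a b) {s : A}
    (hs : s ∈ B.W 0) (α : Fin 4) : G'.D α s = G.D α s := by
  simp [h.D_eq 0 s hs]

theorem connA_nn {G G' : Pre B} {a b : Fin 4 → A} (h : Pre.Cn G G' a b) (k : ℕ) (w : Wt) :
    ∃ C : ℝ, 0 ≤ C ∧ ∀ s ∈ B.W w, G'.nn k s ≤ C * G.nn k s := by
  induction k generalizing w with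
  | zero => exact ⟨1, zero_le_one, fun s _ => by rw [one_mul]; exact (connA_nrm h s).le⟩
  | succ k ih =>
    choose C hC hk using fun α => ih (w + wt α)
    choose M hM hMle using fun α => G.nn_mul_le k (connA a b w α)
    refine ⟨1 + ∑ α, C α * (1 + M α), add_nonneg zero_le_one (Finset.sum_nonneg fun α _ =>
      mul_nonneg (hC α) (add_nonneg zero_le_one (hM α))), fun s hs => ?_⟩
    rw [G'.integ_nn_succ, add_mul, one_mul, Finset.sum_mul, connA_nrm h]
    refine add_le_add (G.nrm_le_nn _ s) (Finset.sum_le_sum fun α _ => ?_)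
    refine (hk α _ (G'.D_mem α hs)).trans ?_
    rw [mul_assoc, h.D_eq w s hs, add_mul 1, one_mul]
    refine mul_le_mul_of_nonneg_left ((G.nn_add k _ _).trans (add_le_add (G.nn_D k α s) ?_)) (hC α)
    rw [G.nn_smul, Complex.norm_I, one_mul]
    exact (hMle α s).trans (mul_le_mul_of_nonneg_left (G.nn_mono k.le_succ s) (hM α))

theorem Pre.Cn.nn_le {G G' : Pre B} {a b : Fin 4 → A} (h : Pre.Cn G G' a b) (k : ℕ) (w : Wt) :
    ∃ C : ℝ, 0 ≤ C ∧ ∀ s ∈ B.W w, G'.nn k s ≤ C * G.nn k s ∧ G.nn k s ≤ C * G'.nn k s := by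
  obtain ⟨C, hC, h1⟩ := connA_nn h k w
  obtain ⟨C', hC', h2⟩ := connA_nn (connA_symm h) k w
  refine ⟨C + C', add_nonneg hC hC', fun s hs => ⟨?_, ?_⟩⟩
  · nlinarith [h1 s hs, G.nn_nonneg k s]
  · nlinarith [h2 s hs, G'.nn_nonneg k s]

section

variable (G : Calc B) {a b : Fin 4 → A} (ha : B.Re1 a) (hb : B.Re1 b) {D : Fin 4 → A →ₗ[ℂ] A}
  (hD : ∀ (w : Wt), ∀ s ∈ B.W w, ∀ α, D α s = G.D α s + Complex.I • (connA a b w α * s))

include ha hb hD

theorem connA_D_mem {w : Wt} {s : A} (α : Fin 4) (hs : s ∈ B.W w) : D α s ∈ B.W (w + wt α) := by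
  rw [hD w s hs]
  exact add_mem (G.D_mem α hs)
    (Submodule.smul_mem _ _ (B.mul_mem' (connA_mem ha hb w α) hs (add_comm _ _)))

theorem connA_D_zero {s : A} (hs : s ∈ B.W 0) (α : Fin 4) : D α s = G.D α s := by
  simp [hD 0 s hs, connA]

theorem connA_comm {w : Wt} {s : A} (hs : s ∈ B.W w) (α β : Fin 4) :
    D α (D β s) - D β (D α s) =
      ∑ γ, (G.T α β γ + (if γ = β then Complex.I • connA a b (wt β) α else 0) -
        (if γ = α then Complex.I • connA a b (wt α) β else 0)) * D γ s +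
      ((w.1 : ℂ) • (G.F 0 α β + Complex.I • G.d1 a α β) +
        (w.2 : ℂ) • (G.F 1 α β + Complex.I • G.d1 b α β)) * s := by
  have hc := G.comm hs α β
  simp only [add_mul, sub_mul, ite_mul, zero_mul, Finset.sum_add_distrib, Finset.sum_sub_distrib,
    Finset.sum_ite_eq', Finset.mem_univ, if_true]
  rw [hD _ _ (connA_D_mem G ha hb hD β hs), hD _ _ (connA_D_mem G ha hb hD α hs), connA_add,
    connA_add]
  generalize connA a b (wt β) α = x
  generalize connA a b (wt α) β = y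
  simp only [hD w s hs, connA, map_add, map_smul, G.D_mul, Calc.d1, Calc.Fw,
    Fin.sum_univ_four] at hc ⊢
  simp only [Algebra.smul_def] at hc ⊢
  linear_combination hc

/-- The calculus with the new connections. -/
def connCalc (hB : B.Gr) : Calc B where
  D := D
  D_mul α s t := by
    refine hB.2 (fun s => D α (s * t) = D α s * t + s * D α t) (fun u s hs => ?_)
      (fun s s' h1 h2 => ?_) s
    · refine hB.2 (fun t => D α (s * t) = D α s * t + s * D α t) (fun v t ht => ?_)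
        (fun t t' h1 h2 => ?_) t
      · rw [hD _ _ (B.mul_mem hs ht), hD _ _ hs, hD _ _ ht, connA_add, G.D_mul]
        simp only [Algebra.smul_def]
        ring
      · rw [mul_add, map_add, map_add, h1, h2]
        ring
    · rw [add_mul, map_add, map_add, h1, h2]
      ring
  D_star α s := by
    refine hB.2 (fun s => star (D α s) = D (bar α) (star s)) (fun w s hs => ?_)
      (fun s t h1 h2 => ?_) s
    · rw [hD _ _ hs, hD _ _ (B.star_mem hs), connA_star ha hb, star_add, G.D_star, star_smul,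
        star_mul']
      simp
    · rw [map_add, star_add, star_add, map_add, h1, h2]
  D_mem := connA_D_mem G ha hb hD
  comm_pt α β p := by
    refine ⟨fun γ => B.ev (G.T α β γ + (if γ = β then Complex.I • connA a b (wt β) α else 0) -
        (if γ = α then Complex.I • connA a b (wt α) β else 0)) p,
      ![B.ev (G.F 0 α β + Complex.I • G.d1 a α β) p, B.ev (G.F 1 α β + Complex.I • G.d1 b α β) p],
      fun w s hs => ?_⟩
    rw [connA_comm G ha hb hD hs, map_add, map_sum, map_mul, map_add, map_smul, map_smul]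
    simp only [ContinuousMap.add_apply, ContinuousMap.coe_sum, Finset.sum_apply, map_mul,
      ContinuousMap.mul_apply, ContinuousMap.smul_apply, smul_eq_mul, Matrix.cons_val_zero,
      Matrix.cons_val_one]
  N := G.N
  e := G.e
  e_re := G.e_re
  θ := G.θ
  θ_mem := G.θ_mem
  θ_star := G.θ_star
  θ_dual α β := by
    simp only [fun k => connA_D_zero G ha hb hD (G.e_re k).1 β, G.θ_dual]
  fc Φ U hU hΦ u hu hr := by
    obtain ⟨v, hv, h3, h4⟩ := G.fc Φ U hU hΦ u hu hr
    refine ⟨v, hv, h3, fun α p => ?_⟩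
    simp only [connA_D_zero G ha hb hD hv.1, fun i => connA_D_zero G ha hb hD (hu i).1 α, h4]

end

theorem Pre.exists_cn (G : Pre B) (hB : B.Gr) {a b : Fin 4 → A} (ha : B.Re1 a) (hb : B.Re1 b) :
    ∃ G' : Pre B, Pre.Cn G G' a b := by
  choose D hD using fun α => hB.1 fun w =>
    (G.D α + Complex.I • LinearMap.mulLeft ℂ (connA a b w α)) ∘ₗ (B.W w).subtype
  have hD' : ∀ (w : Wt), ∀ s ∈ B.W w, ∀ α, D α s = G.D α s + Complex.I • (connA a b w α * s) :=
    fun w s hs α => hD α w ⟨s, hs⟩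
  have hd : ∀ p ∈ B.W 0, ∀ q ∈ B.W 0, (connCalc G.toCalc ha hb hD' hB).dd p q = G.dd p q := by
    intro p hp q hq
    have e : ∀ p ∈ B.W 0, (connCalc G.toCalc ha hb hD' hB).d0 p = G.d0 p := fun p hp =>
      funext fun α => connA_D_zero G.toCalc ha hb hD' hp α
    rw [Calc.dd, e p hp, e q hq, Calc.dd]
  refine ⟨⟨connCalc G.toCalc ha hb hD' hB, G.I, G.I_nonneg, G.I_def,
    fun p hp q hq r hr s hs => ?_⟩, ha, hb, hD', fun _ => rfl⟩
  rw [hd p hp q hq, hd r hr s hs]
  exact G.stokes p hp q hq r hr s hs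

theorem connA_moll {G G' : Pre B} {a b : Fin 4 → A} (h : Pre.Cn G G' a b) (M : Moll G) :
    Nonempty (Moll G') := by
  refine ⟨⟨M.Kc, M.mem, fun K hK => ?_, M.add, M.left, M.right, M.conj, fun K hK c hc => ?_,
    fun K hK c hc => ?_, M.J, M.J_mem, fun s hs => ?_, fun n => ?_⟩⟩
  · simpa only [connA_nrm h] using M.bdd K hK
  · obtain ⟨K', hK', hE⟩ := M.ad K hK _ hc
    exact ⟨K', hK', fun n s hs => by
      simp only [connA_zero h hs, connA_zero h (M.mem K hK n s hs), hE n s hs]⟩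
  · obtain ⟨K', hK', hE⟩ := M.der K hK _ hc
    exact ⟨K', hK', fun n s hs => by simp only [connA_zero h (M.mem K hK n s hs), hE n s hs]⟩
  · simpa only [connA_nrm h] using M.J_lim s hs
  · simpa only [h.I_eq] using M.J_adj n

theorem Geo.exists_cn (G : Geo B) (hB : B.Gr) {a b : Fin 4 → A} (ha : B.Re1 a) (hb : B.Re1 b) :
    ∃ G' : Geo B, Pre.Cn G.toPre G'.toPre a b := by
  obtain ⟨G', h⟩ := G.toPre.exists_cn hB ha hb
  have hn := fun k => connA_nn (connA_symm h) k 0
  refine ⟨⟨G', ?_, ?_, fun v hv hb => ?_, fun v hv hc => ?_,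
    G.moll.elim fun M => connA_moll h M, fun s hs hD => ?_, G.gen⟩, h⟩
  · obtain ⟨C, hC⟩ := G.sob
    obtain ⟨C1, hC1, hn⟩ := hn 1
    refine ⟨|C| * C1 ^ 2, fun v hv => ?_⟩
    rw [connA_nrm h, mul_assoc, ← mul_pow]
    exact (hC v hv).trans ((mul_le_mul_of_nonneg_right (le_abs_self C) (sq_nonneg _)).trans
      (mul_le_mul_of_nonneg_left (pow_le_pow_left₀ (G.nn_nonneg 1 v) (hn v hv) 2) (abs_nonneg C)))
  · obtain ⟨C, hC⟩ := G.sup
    obtain ⟨C1, hC1, hn⟩ := hn 4
    refine ⟨|C| * C1, fun v hv p => (hC v hv p).trans ?_⟩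
    rw [mul_assoc]
    exact (mul_le_mul_of_nonneg_right (le_abs_self C) (G.nn_nonneg 4 v)).trans
      (mul_le_mul_of_nonneg_left (hn v hv) (abs_nonneg C))
  · obtain ⟨C1, hC1, hn⟩ := hn 1
    have hpos : 0 < C1 + 1 := by positivity
    have hnorm : ‖(((C1 + 1)⁻¹ : ℝ) : ℂ)‖ = (C1 + 1)⁻¹ := by
      rw [Complex.norm_real, Real.norm_of_nonneg (by positivity)]
    obtain ⟨φ, hφ, hc⟩ := G.rel (fun n => (((C1 + 1)⁻¹ : ℝ) : ℂ) • v n)
      (fun n => Submodule.smul_mem _ _ (hv n)) fun n => by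
        rw [G.nn_smul, hnorm, inv_mul_le_iff₀ hpos]
        have := mul_le_mul_of_nonneg_left (hb n) hC1
        linarith [hn (v n) (hv n)]
    refine ⟨φ, hφ, fun ε hε => ?_⟩
    obtain ⟨n₀, hn₀⟩ := hc (ε / (C1 + 1)) (by positivity)
    refine ⟨n₀, fun m hm n hn => ?_⟩
    have h3 := hn₀ m hm n hn
    rwa [← smul_sub, G.nrm_smul, hnorm, inv_mul_le_iff₀ hpos, mul_div_cancel₀ _ hpos.ne',
      ← connA_nrm h] at h3
  · obtain ⟨u, hu, hl⟩ := G.cpl v hv fun k ε hε => by
      obtain ⟨C1, hC1, hn⟩ := hn k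
      obtain ⟨n₀, hn₀⟩ := hc k (ε / (C1 + 1)) (by positivity)
      refine ⟨n₀, fun m hm n hn' => (hn _ (sub_mem (hv m) (hv n))).trans ?_⟩
      have h3 := hn₀ m hm n hn'
      rw [le_div_iff₀ (by positivity)] at h3
      nlinarith [G'.nn_nonneg k (v m - v n)]
    exact ⟨u, hu, by simpa only [connA_nrm h] using hl⟩
  · exact G.const s hs fun α => by rw [← connA_zero h hs, hD α]

end SX4
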