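import Pool.Agent.P.MP_0a0487_an.SX.Dirac
import Pool.Agent.P.MP_0a0487_an.SX.MapA

/-! Harmonic forms. -/

set_option autoImplicit false
set_option linter.unusedSectionVars false

noncomputable section

namespace SX4

open scoped ComplexOrder ContDiff
open Filter Topology Module

variable {P A : Type} [TopologicalSpace P] [CompactSpace P] [CommRing A] [StarRing A] [Algebra ℂ A]
  [StarModule ℂ A] {B : Base P A}

namespace Pre

variable (G : Pre B)

/-- The divergence of a 1-form. -/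
def dvg (a : Fin 4 → A) : A := ∑ α, G.Dt (bar α) (a α)

theorem dvg_mem {a : Fin 4 → A} (ha : B.Form1 a) : G.dvg a ∈ B.W 0 :=
  Submodule.sum_mem _ fun α _ => G.Dt_mem _ (ha α) (by rw [wt_bar, add_neg_cancel])

theorem dvg_add (a b : Fin 4 → A) : G.dvg (a + b) = G.dvg a + G.dvg b := by
  simp only [dvg, Pi.add_apply, Dt_add, Finset.sum_add_distrib]

theorem dvg_smul (z : ℂ) (a : Fin 4 → A) : G.dvg (z • a) = z • G.dvg a := by
  simp only [dvg, Pi.smul_apply, Dt_smul, Finset.smul_sum]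

variable {G} in
theorem Sec.form_add (s t : G.Sec (wm 0)) : (s + t).form = s.form + t.form := by
  funext α; fin_cases α <;> simp [Sec.form]

variable {G} in
theorem Sec.form_smul (r : ℝ) (s : G.Sec (wm 0)) : (r • s).form = (r : ℂ) • s.form := by
  funext α; fin_cases α <;> simp [Sec.form, -Complex.coe_smul]

variable {G} in
theorem Sec.form1 (s : G.Sec (wm 0)) : B.Form1 s.form := fun α => (s.form_re α).1

/-- The operator `d⁺ + d*` on real 1-forms for an arbitrary almost Hermitian structure. -/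
def Qn : G.Sec (wm 0) →ₗ[ℝ] G.Sec (wp 0) :=
  G.mkL (fun χ => ![(-1 / 2 : ℂ) • (G.dvg χ.form + lam (G.d1 χ.form)), -G.d1 χ.form 1 3])
    (fun χ => mem2
      (Submodule.smul_mem _ _ (add_mem (G.dvg_mem χ.form1) (add_mem
        (dirac_mem (G.d1_form χ.form1 0 1).1 (by ext <;> simp [wp, wt]))
        (dirac_mem (G.d1_form χ.form1 2 3).1 (by ext <;> simp [wp, wt])))))
      (neg_mem (by simpa [wp, wt] using (G.d1_form χ.form1 1 3).1)))
    (fun s t i => by
      fin_cases i <;> simp [Sec.form_add, dvg_add, lam, G.d1_add, -smul_add] <;> module)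
    (fun r s i => by
      fin_cases i <;> simp [Sec.form_smul, dvg_smul, lam, G.d1_smul, -Complex.coe_smul] <;> module)

/-- The section defined by the `(0,1)`-part of a 1-form. -/
def ofForm {a : Fin 4 → A} (ha : B.Form1 a) : G.Sec (wm 0) :=
  G.mk' ![a 1, a 3] (mem2 (by simpa [wm, wt] using ha 1) (by simpa [wm, wt] using ha 3))

variable {G} in
/-- The real self-dual 2-form defined by a section. -/
def Sec.sd (ξ : G.Sec (wp 0)) : Fin 4 → Fin 4 → A :=
  ![![0, (1 / 2 : ℂ) • (ξ.c 0 - star (ξ.c 0)), star (ξ.c 1), 0],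
    ![-((1 / 2 : ℂ) • (ξ.c 0 - star (ξ.c 0))), 0, 0, ξ.c 1],
    ![-star (ξ.c 1), 0, 0, (1 / 2 : ℂ) • (ξ.c 0 - star (ξ.c 0))],
    ![0, -ξ.c 1, -((1 / 2 : ℂ) • (ξ.c 0 - star (ξ.c 0))), 0]]

/-- Closed real 2-forms. -/
def Z2r : Submodule ℝ (Fin 4 → Fin 4 → A) where
  carrier := {b | B.Re2 b ∧ G.Closed b}
  add_mem' := fun {a b} ha hb => ⟨ha.1.add hb.1, fun p hp q hq => by
    have e : wg (a + b) (G.dd p q) = wg a (G.dd p q) + wg b (G.dd p q) := by
      simp only [wg, Pi.add_apply]; ring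
    rw [e, map_add, ha.2 p hp q hq, hb.2 p hp q hq, add_zero]⟩
  zero_mem' := ⟨⟨fun α β => ⟨zero_mem _, by simp⟩, fun α β => by simp⟩, fun p _ q _ => by simp [wg]⟩
  smul_mem' := fun r b hb => ⟨hb.1.smul r, fun p hp q hq => by
    have e : wg (r • b) (G.dd p q) = (r : ℂ) • wg b (G.dd p q) := by
      change wg ((r : ℂ) • b) _ = _
      simp only [wg, Pi.smul_apply, Algebra.smul_def]; ring
    rw [e, map_smul, hb.2 p hp q hq, smul_zero]⟩

/-- Closed real self-dual 2-forms. -/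
def SD : Submodule ℝ (Fin 4 → Fin 4 → A) where
  carrier := {b | b ∈ G.Z2r ∧ b 0 1 = b 2 3 ∧ b 0 3 = 0 ∧ b 1 2 = 0}
  add_mem' := fun {a b} ha hb => ⟨add_mem ha.1 hb.1, by simp [ha.2, hb.2]⟩
  zero_mem' := ⟨zero_mem _, by simp⟩
  smul_mem' := fun r b hb => ⟨Submodule.smul_mem _ r hb.1, by simp [hb.2]⟩

/-- Closed real anti-self-dual 2-forms. -/
def ASD : Submodule ℝ (Fin 4 → Fin 4 → A) where
  carrier := {b | b ∈ G.Z2r ∧ b 0 1 = -b 2 3 ∧ b 0 2 = 0 ∧ b 1 3 = 0}
  add_mem' := fun {a b} ha hb => ⟨add_mem ha.1 hb.1, by simp [ha.2, hb.2, add_comm]⟩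
  zero_mem' := ⟨zero_mem _, by simp⟩
  smul_mem' := fun r b hb => ⟨Submodule.smul_mem _ r hb.1, by simp [hb.2]⟩

/-- `G'` is obtained from `G` by changing the connections by the real 1-forms `a` and `b`. -/
structure Cn (G G' : Pre B) (a b : Fin 4 → A) : Prop where
  ra : B.Re1 a
  rb : B.Re1 b
  D_eq : ∀ (w : Wt), ∀ s ∈ B.W w, ∀ α,
    G'.D α s = G.D α s + Complex.I • (((w.1 : ℂ) • a α + (w.2 : ℂ) • b α) * s)
  I_eq : ∀ s, G'.I s = G.I s

end Pre

end SX4
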