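import Pool.Agent.P.MP_0a0487_an.SX.CohGeo
import Pool.Agent.P.MP_0a0487_an.SX.Flip
import Pool.Agent.P.MP_0a0487_an.SX.GrDefs
import Pool.Agent.P.MP_0a0487_an.GZ.HgDefs

/-! The lattice of integral classes does not depend on the frame. -/

set_option autoImplicit false
set_option linter.unusedSectionVars false

noncomputable section

namespace SX4

open scoped ComplexOrder ContDiff
open Filter Topology Module

variable {P A : Type} [TopologicalSpace P] [CompactSpace P] [CommRing A] [StarRing A] [Algebra ℂ A]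
  [StarModule ℂ A] {B : Base P A}

theorem Base.Gr.flip (h : B.Gr) : B.flip.Gr := by
  refine ⟨fun d => ?_, fun p h1 h2 => h.2 p (fun w s hs => h1 (w.1, -w.2) s ?_) h2⟩
  · have le : ∀ w : Wt, B.W w ≤ B.flip.W (w.1, -w.2) := fun w s hs => by
      rw [flip_mem, neg_neg]
      exact hs
    obtain ⟨D, hD⟩ := h.1 fun w => d (w.1, -w.2) ∘ₗ Submodule.inclusion (le w)
    have key : ∀ w w' : Wt, w = w' → ∀ (s : B.flip.W w) (s' : B.flip.W w'), s.1 = s'.1 →
        d w s = d w' s' := by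
      rintro w _ rfl s s' e
      rw [Subtype.ext e]
    exact ⟨D, fun w s => (hD (w.1, -w.2) s).trans (key _ _ (by simp) _ _ rfl)⟩
  · rw [flip_mem, neg_neg]
    exact hs

theorem LatA_unit (G : Calc B) {u : A} (h1 : star u * u = 1) (α : Fin 4) :
    G.D α (star u) * u + star u * G.D α u = 0 := by
  rw [← G.D_mul, h1, G.D_one]

theorem Calc.lg_re (G : Calc B) {u : A} (hu : u ∈ B.W 0) (h1 : star u * u = 1) :
    B.Re1 (G.lg u) := fun α => by
  refine ⟨Submodule.smul_mem _ _ (B.mul_mem' (B.star_mem hu) (G.D_mem α hu) (by simp)), ?_⟩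
  simp only [Calc.lg]
  rw [star_smul, star_mul, star_star, G.D_star, eq_neg_of_add_eq_zero_left (LatA_unit G h1 _)]
  simp

theorem Calc.lg_closed (G : Calc B) {u : A} (hu : u ∈ B.W 0) (h1 : star u * u = 1) :
    G.d1 (G.lg u) = 0 := by
  funext α β
  have h := G.d1_smul (-Complex.I) (fun γ => star u * G.D γ u) α β
  rw [G.d1_mul_d0 _ hu, show G.dd (star u) u α β = 0 by
    simp only [Calc.dd, w1, Calc.d0]
    linear_combination (star u * G.D β u) * LatA_unit G h1 α - (star u * G.D α u) *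
      LatA_unit G h1 β - (G.D α (star u) * G.D β u - G.D β (star u) * G.D α u) * h1,
    smul_zero] at h
  exact h

theorem LatA_d1 (G : Calc B) {ι : Type} [Fintype ι] (c : ι → A) {e : ι → A}
    (he : ∀ k, e k ∈ B.W 0) (α β : Fin 4) :
    G.d1 (fun γ => ∑ k, c k * G.D γ (e k)) α β = ∑ k, G.dd (c k) (e k) α β := by
  rw [G.mapB_d1_sum Finset.univ fun k γ => c k * G.D γ (e k)]
  exact Finset.sum_congr rfl fun k _ => G.d1_mul_d0 _ (he k) α β

theorem LatA_tr {B' : Base P A} {G : Calc B} {G' : Calc B'} (τ τ' : (Fin 4 → A) →ₗ[A] Fin 4 → A)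
    (hW : ∀ s, s ∈ B'.W 0 ↔ s ∈ B.W 0) (h1 : ∀ a, τ (τ' a) = a) (h2 : ∀ a, τ' (τ a) = a)
    (hD : ∀ s ∈ B.W 0, τ (G.d0 s) = G'.d0 s)
    (hr : ∀ a, B'.Re1 a → G'.d1 a = 0 → B.Re1 (τ' a) ∧ G.d1 (τ' a) = 0) {b : ℕ} {u : Fin b → A}
    (hu : G.Lat u) : G'.Lat u := by
  have hl : ∀ v ∈ B.W 0, τ (G.lg v) = G'.lg v := fun v hv => by
    have e : ∀ {B : Base P A} (G : Calc B), G.lg v = (-Complex.I • star v) • G.d0 v :=
      fun G => funext fun α => (smul_mul_assoc _ _ _).symm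
    rw [e, e, map_smul, hD v hv]
  have k0 : ∀ h : Fin b → ℝ, τ (∑ i, (h i : ℂ) • G.lg (u i)) = ∑ i, (h i : ℂ) • G'.lg (u i) :=
    fun h => by simp only [map_sum, LinearMap.map_smul_of_tower, hl _ (hu.mem _)]
  have ap : ∀ {B : Base P A} (G : Calc B) (h : Fin b → ℝ) α,
      (∑ i, (h i : ℂ) • G.lg (u i)) α = ∑ i, (h i : ℂ) • G.lg (u i) α := fun G h α =>
    Finset.sum_apply _ _ _
  have inj : Function.Injective τ := Function.LeftInverse.injective h2
  refine ⟨fun i => (hW _).2 (hu.mem i), hu.unit, fun a ha h0 => ?_, fun h s hs e => ?_,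
    fun v hv hv' h s hs e => ?_⟩
  · obtain ⟨h, s, hs, e⟩ := hu.span _ (hr a ha h0).1 (hr a ha h0).2
    have e' : τ' a = ∑ i, (h i : ℂ) • G.lg (u i) + G.d0 s := funext fun α => by
      rw [e, Pi.add_apply, ap]; rfl
    refine ⟨h, s, ⟨(hW _).2 hs.1, hs.2⟩, fun α => ?_⟩
    rw [← h1 a, e', map_add, k0, hD s hs.1, Pi.add_apply, ap]; rfl
  · have e' : ∑ i, (h i : ℂ) • G.lg (u i) = G.d0 s := inj (by
      rw [k0, hD s ((hW _).1 hs)]
      exact funext fun α => (ap G' h α).trans (e α))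
    exact hu.indep h s ((hW _).1 hs) fun α => (ap G h α).symm.trans (congrFun e' α)
  · have e' : G.lg v = ∑ i, (h i : ℂ) • G.lg (u i) + G.d0 s := inj (by
      rw [map_add, k0, hD s ((hW _).1 hs), hl v ((hW _).1 hv)]
      exact funext fun α => by rw [e, Pi.add_apply, ap]; rfl)
    exact hu.int v ((hW _).1 hv) hv' h s ((hW _).1 hs) fun α => by
      rw [e', Pi.add_apply, ap]; rfl

theorem Chg.d1_eq {G G' : Pre B} {g : Matrix (Fin 4) (Fin 4) A} (h : Chg G G' g) {a : Fin 4 → A}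
    (ha : B.Form1 a) : G'.d1 (fun α => ∑ β, g α β * a β) = tr2 g (G.d1 a) := by
  have e : (fun α => ∑ β, g α β * a β) =
      fun α => ∑ k, (∑ γ, a γ * G.θ γ k) * G'.D α (G.e k) := funext fun α => by
    conv_lhs => enter [2, β]; rw [G.form1_eq a β]
    simp only [h.D_eq, Finset.mul_sum _ _ (g _ _), Finset.mul_sum _ fun β => g α β * _]
    rw [Finset.sum_comm]
    exact Finset.sum_congr rfl fun _ _ => Finset.sum_congr rfl fun _ _ => mul_left_comm _ _ _
  funext α β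
  rw [e, LatA_d1 _ _ fun k => (G.e_re k).1]
  simp only [h.dd_eq, tr2, G.d1_eq a, Finset.mul_sum]
  rw [Finset.sum_comm]
  exact Finset.sum_congr rfl fun _ _ => Finset.sum_comm

theorem Chg.lat {G G' : Pre B} {g : Matrix (Fin 4) (Fin 4) A} (h : Chg G G' g) {b : ℕ}
    {u : Fin b → A} (hu : G.Lat u) : G'.Lat u := by
  obtain ⟨g', hg', h1, h2⟩ := G.exists_frame_inv h.frame
  refine LatA_tr g.mulVecLin g'.mulVecLin (fun _ => Iff.rfl) (fun a => by simp [h1])
    (fun a => by simp [h2]) (fun s _ => funext fun α => (h.D_eq α s).symm) (fun a ha h0 => ?_) hu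
  change B.Re1 (fun α => ∑ β, g' α β * a β) ∧ G.d1 (fun α => ∑ β, g' α β * a β) = 0
  refine ⟨fun α => ⟨Submodule.sum_mem _ fun β _ =>
    B.mul_mem' (hg'.mem α β) (ha β).1 (sub_add_cancel _ _), ?_⟩, ?_⟩
  · simp only [star_sum, star_mul', hg'.star_eq, (ha _).2]
    exact sum_bar fun β => g' (bar α) β * a β
  · rw [(h.symm hg' h2).d1_eq fun α => (ha α).1, h0]
    funext α β
    simp [tr2]

theorem Flp.d1_eq {G : Pre B} {G' : Pre B.flip} (h : Flp G G') {a : Fin 4 → A}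
    (ha : B.Form1 a) (α β : Fin 4) : G'.d1 (fun γ => a (sw γ)) α β = G.d1 a (sw α) (sw β) := by
  have e : (fun γ => a (sw γ)) = fun α => ∑ k, (∑ γ, a γ * G.θ γ k) * G'.D α (G.e k) :=
    funext fun α => by simp only [h.D_eq, ← G.form1_eq a]
  rw [e, LatA_d1 G'.toCalc _ fun k => (G.e_re k).1, G.d1_eq a]
  simp only [Calc.dd, w1, Calc.d0, h.D_eq]

theorem Flp.lat {G : Pre B} {G' : Pre B.flip} (h : Flp G G') {b : ℕ} {u : Fin b → A}
    (hu : G.Lat u) : G'.Lat u := by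
  refine LatA_tr (G := G.toCalc) (G' := G'.toCalc) (LinearMap.funLeft A A sw)
    (LinearMap.funLeft A A sw) (fun _ => Iff.rfl)
    (fun a => funext fun α => congrArg a (flip_sw_sw α))
    (fun a => funext fun α => congrArg a (flip_sw_sw α))
    (fun s _ => funext fun α => (h.D_eq α s).symm) (fun a ha h0 => ?_) hu
  change B.Re1 (fun α => a (sw α)) ∧ G.d1 (fun α => a (sw α)) = 0
  have h1 : B.Form1 fun α => a (sw α) := fun α => by
    have := flip_mem_wt.1 (ha (sw α)).1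
    rwa [flip_sw_sw] at this
  refine ⟨fun α => ⟨h1 α, by rw [(ha _).2, ← flip_sw_bar]⟩, funext fun α => funext fun β => ?_⟩
  have h2 := h.d1_eq h1 (sw α) (sw β)
  simp only [flip_sw_sw] at h2
  rw [← h2]
  exact congrFun (congrFun h0 _) _

namespace Pre.Cn

variable {G G' : Pre B} {a b : Fin 4 → A} (h : Cn G G' a b)

include h

theorem D_zero {s : A} (hs : s ∈ B.W 0) (α : Fin 4) : G'.D α s = G.D α s := by
  simp [h.D_eq 0 s hs α]

theorem LatA_dd {p q : A} (hp : p ∈ B.W 0) (hq : q ∈ B.W 0) : G'.dd p q = G.dd p q := by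
  funext α β
  simp only [Calc.dd, w1, Calc.d0, h.D_zero hp, h.D_zero hq]

theorem d1_eq {c : Fin 4 → A} (hc : B.Form1 c) : G'.d1 c = G.d1 c := by
  have e : c = fun α => ∑ k, (∑ γ, c γ * G.θ γ k) * G'.D α (G.e k) :=
    funext fun α => by simp only [h.D_zero (G.e_re _).1, ← G.form1_eq c]
  funext α β
  rw [G.d1_eq c]
  conv_lhs => rw [e, LatA_d1 G'.toCalc _ fun k => (G.e_re k).1]
  simp only [h.LatA_dd (G.form1_coef_mem hc _) (G.e_re _).1]

theorem lat {n : ℕ} {u : Fin n → A} (hu : G.Lat u) : G'.Lat u :=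
  LatA_tr LinearMap.id LinearMap.id (fun _ => Iff.rfl) (fun _ => rfl) (fun _ => rfl)
    (fun _ hs => funext fun α => (h.D_zero hs α).symm)
    (fun _ ha h0 => ⟨ha, (h.d1_eq fun α => (ha α).1).symm.trans h0⟩) hu

theorem ak (hG : G.AK) : G'.AK := fun p hp q hq => by
  rw [h.I_eq, h.LatA_dd hp hq]
  exact hG p hp q hq

theorem SD_eq : G'.SD = G.SD := by
  ext c
  refine and_congr_left' (and_congr_right' (forall₄_congr fun p hp q hq => ?_))
  rw [h.I_eq, h.LatA_dd hp hq]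

end Pre.Cn

end SX4
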