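import Pool.Agent.P.MP_0a0487_an.GZ.ConnA
import Pool.Agent.P.MP_0a0487_an.GZ.LatA
import Pool.Agent.P.MP_0a0487_an.GZ.ADefs

/-! A connection adapted to a trivialisation of the canonical bundle. -/

set_option autoImplicit false
set_option linter.unusedSectionVars false

noncomputable section

namespace SX4

open scoped ComplexOrder ContDiff
open Filter Topology Module GZ

variable {P A : Type} [TopologicalSpace P] [CompactSpace P] [CommRing A] [StarRing A] [Algebra ℂ A]
  [StarModule ℂ A] {B : Base P A}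

theorem Pre.Cn.τ_eq {G G' : Pre B} {a b : Fin 4 → A} (h : Pre.Cn G G' a b) (α : Fin 4) :
    G'.τ α = G.τ α + Complex.I • ((((wt α).1 : ℤ) : ℂ) • a α + (((wt α).2 : ℤ) : ℂ) • b α) := by
  symm
  refine G'.τ_unique α (add_mem (G.τ_spec α).1 (Submodule.smul_mem _ _ (add_mem
    (Submodule.smul_mem _ _ (h.ra α).1) (Submodule.smul_mem _ _ (h.rb α).1)))) fun s hs => ?_
  rw [h.I_eq, h.I_eq, h.D_eq _ s hs, map_add, (G.τ_spec α).2 s hs, ← map_neg, ← map_neg,
    ← map_add]
  congr 1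
  simp only [Prod.fst_neg, Prod.snd_neg, Int.cast_neg, Algebra.smul_def, map_neg]
  ring

theorem Pre.js_of (G : Pre B) {u : A} (hu : u ∈ B.W (1, 1)) (h1 : star u * u = 1)
    (e1 : u * G.D 1 (star u) = G.τ 1) (e3 : u * G.D 3 (star u) = G.τ 3) : G.JS hu := by
  have k : ∀ α, u * G.D (bar α) (star u) = G.τ (bar α) →
      G.D (bar α) (star u) = G.τ (bar α) * star u ∧ G.D α (star u) = -(G.τ α * star u) := by
    intro α e
    have e' := congrArg star e
    rw [star_mul', G.D_star, G.τ_star, bar_bar, star_star] at e'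
    have e0 := congrArg (G.D α) h1
    rw [G.D_mul, G.D_one] at e0
    exact ⟨by linear_combination star u * e - G.D (bar α) (star u) * h1,
      by linear_combination star u * e0 - star u * e' - G.D α (star u) * h1⟩
  obtain ⟨k1, k0⟩ := k 0 e1
  obtain ⟨k3, k2⟩ := k 2 e3
  have b0 : bar 0 = 1 := rfl
  have b1 : bar 1 = 0 := rfl
  have b2 : bar 2 = 3 := rfl
  have b3 : bar 3 = 2 := rfl
  rw [b0] at k1
  rw [b2] at k3
  refine ⟨h1, fun s => Pre.dirac_ext ?_ ?_⟩
  · change G.D 1 (star u * star (s.c 1)) - G.Dt 2 (-(star u * star (s.c 0))) =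
      star u * star (G.D 3 (s.c 0) + G.Dt 0 (s.c 1))
    simp only [Pre.Dt, map_neg, G.D_mul, star_add, star_mul', G.D_star, G.τ_star, b0, b3, k1, k2]
    ring
  · change G.D 3 (star u * star (s.c 1)) + G.Dt 0 (-(star u * star (s.c 0))) =
      -(star u * star (G.D 1 (s.c 0) - G.Dt 2 (s.c 1)))
    simp only [Pre.Dt, map_neg, G.D_mul, star_add, star_sub, star_mul', G.D_star, G.τ_star, b1, b2,
      k3, k0]
    ring

theorem Geo.exists_js (G : Geo B) (hB : B.Gr) {v : A} (hv : v ∈ B.W (1, 1))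
    (h0 : ∀ p, B.ev v p ≠ 0) : ∃ (G' : Geo B) (a b : Fin 4 → A) (u : A) (hu : u ∈ B.W (1, 1)),
      Pre.Cn G.toPre G'.toPre a b ∧ G'.JS hu := by
  obtain ⟨t, ht, e⟩ := G.exists_normalize (ι := Unit) (s := fun _ => v) (fun _ => hv)
    fun p => ⟨(), h0 p⟩
  set u := t () with hu
  have h1 : star u * u = 1 := by simpa using e
  have hm : u ∈ B.W (1, 1) := ht ()
  have hs : star u ∈ B.W (-1, -1) := B.star_mem hm
  have hc : ∀ α, -Complex.I • (u * G.D α (star u) - G.τ α) ∈ B.W (wt α) := fun α =>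
    Submodule.smul_mem _ _ (sub_mem (B.mul_mem' hm (G.D_mem α hs) (by ext <;> simp))
      (G.τ_spec α).1)
  set c : Fin 4 → A := fun α => -Complex.I • (u * G.D α (star u) - G.τ α) with hcd
  have ha : B.Re1 ![0, 0, star (c 3), c 3] := by
    intro α
    fin_cases α
    · exact ⟨zero_mem _, star_zero _⟩
    · exact ⟨zero_mem _, star_zero _⟩
    · exact ⟨B.star_mem' (hc 3) (by decide), star_star _⟩
    · exact ⟨hc 3, rfl⟩
  have hb : B.Re1 ![star (c 1), c 1, 0, 0] := by
    intro α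
    fin_cases α
    · exact ⟨B.star_mem' (hc 1) (by decide), star_star _⟩
    · exact ⟨hc 1, rfl⟩
    · exact ⟨zero_mem _, star_zero _⟩
    · exact ⟨zero_mem _, star_zero _⟩
  obtain ⟨G', h⟩ := G.exists_cn hB ha hb
  have hI : algebraMap ℂ A Complex.I * algebraMap ℂ A Complex.I = -1 := by
    rw [← map_mul, Complex.I_mul_I, map_neg, map_one]
  refine ⟨G', _, _, u, hm, h, G'.toPre.js_of hm h1 ?_ ?_⟩
  · rw [h.τ_eq, h.D_eq _ _ hs]
    change u * (G.D 1 (star u) + Complex.I • ((((-1 : ℤ) : ℂ) • (0 : A) +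
      ((-1 : ℤ) : ℂ) • c 1) * star u)) =
      G.τ 1 + Complex.I • (((-1 : ℤ) : ℂ) • (0 : A) + ((0 : ℤ) : ℂ) • c 1)
    simp only [hcd, Int.cast_neg, Int.cast_one, Int.cast_zero, Algebra.smul_def, map_neg, map_one,
      map_zero]
    linear_combination (u * G.D 1 (star u) - G.τ 1) * (star u * u) * hI -
      (u * G.D 1 (star u) - G.τ 1) * h1
  · rw [h.τ_eq, h.D_eq _ _ hs]
    change u * (G.D 3 (star u) + Complex.I • ((((-1 : ℤ) : ℂ) • c 3 +
      ((-1 : ℤ) : ℂ) • (0 : A)) * star u)) =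
      G.τ 3 + Complex.I • (((0 : ℤ) : ℂ) • c 3 + ((-1 : ℤ) : ℂ) • (0 : A))
    simp only [hcd, Int.cast_neg, Int.cast_one, Int.cast_zero, Algebra.smul_def, map_neg, map_one,
      map_zero]
    linear_combination (u * G.D 3 (star u) - G.τ 3) * (star u * u) * hI -
      (u * G.D 3 (star u) - G.τ 3) * h1

end SX4
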