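import Pool.Agent.P.MP_0a0487_an.SX.Abs2

/-! An index is divisible by three in the presence of a cyclic grading. -/

set_option autoImplicit false
set_option linter.unusedSectionVars false

noncomputable section

namespace SX4

open Filter Topology Module

variable {V V' : Type} [NormedAddCommGroup V] [InnerProductSpace ℝ V]
  [NormedAddCommGroup V'] [InnerProductSpace ℝ V']

section alg

variable {U U' : Type} [AddCommGroup U] [Module ℝ U] [AddCommGroup U'] [Module ℝ U']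

/-- The block of a linear map between the ranges of two idempotents. -/
def Cyc3AR (q : U →ₗ[ℝ] U) (q' : U' →ₗ[ℝ] U') (T : U →ₗ[ℝ] U') :
    LinearMap.range q →ₗ[ℝ] LinearMap.range q' :=
  q'.rangeRestrict ∘ₗ T ∘ₗ (LinearMap.range q).subtype

theorem Cyc3AR_val (q : U →ₗ[ℝ] U) (q' : U' →ₗ[ℝ] U') (T : U →ₗ[ℝ] U') (x : LinearMap.range q) :
    (Cyc3AR q q' T x).1 = q' (T x.1) := rfl

theorem Cyc3AR_ker {q : U →ₗ[ℝ] U} {q' : U' →ₗ[ℝ] U'} {T : U →ₗ[ℝ] U'} (hq : ∀ s, q (q s) = q s)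
    (hT : ∀ s, q' (T s) = T (q s)) [FiniteDimensional ℝ (LinearMap.ker T)] :
    FiniteDimensional ℝ (LinearMap.ker (Cyc3AR q q' T)) := by
  refine FiniteDimensional.of_injective (((LinearMap.range q).subtype ∘ₗ
    (LinearMap.ker (Cyc3AR q q' T)).subtype).codRestrict (LinearMap.ker T) ?_) ?_
  · rintro ⟨⟨_, s, rfl⟩, hx⟩
    have h1 : q' (T (q s)) = 0 := congrArg Subtype.val hx
    rwa [hT, hq] at h1
  · intro x y e
    have h1 : x.1.1 = y.1.1 := congrArg (Subtype.val : LinearMap.ker T → U) e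
    exact Subtype.ext (Subtype.ext h1)

theorem Cyc3AR_coker {q : U →ₗ[ℝ] U} {q' : U' →ₗ[ℝ] U'} {T : U →ₗ[ℝ] U'}
    (hq' : ∀ s, q' (q' s) = q' s) (hT : ∀ s, q' (T s) = T (q s))
    [FiniteDimensional ℝ (U' ⧸ LinearMap.range T)] :
    FiniteDimensional ℝ (LinearMap.range q' ⧸ LinearMap.range (Cyc3AR q q' T)) := by
  refine Module.Finite.of_surjective ((LinearMap.range T).mapQ (LinearMap.range (Cyc3AR q q' T))
    q'.rangeRestrict ?_) fun y => ?_
  · rintro _ ⟨s, rfl⟩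
    exact ⟨⟨q s, s, rfl⟩, Subtype.ext (show q' (T (q s)) = q' (T s) by rw [← hT, hq'])⟩
  · obtain ⟨⟨_, s, rfl⟩, rfl⟩ := Submodule.Quotient.mk_surjective _ y
    exact ⟨Submodule.Quotient.mk s, rfl⟩

/-- The decomposition given by a complete family of orthogonal idempotents. -/
def Cyc3AE {p : ZMod 3 → U →ₗ[ℝ] U} (hp : ∀ i j s, p i (p j s) = if i = j then p i s else 0)
    (hs : ∀ s, ∑ i, p i s = s) : U ≃ₗ[ℝ] ∀ i, LinearMap.range (p i) :=
  LinearEquiv.ofBijective (LinearMap.pi fun i => (p i).rangeRestrict)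
    ⟨fun x y e => by
      rw [← hs x, ← hs y]
      exact Finset.sum_congr rfl fun i _ => congrArg Subtype.val (congrFun e i),
    fun x => ⟨∑ j, (x j).1, funext fun i => Subtype.ext (by
      choose s h using fun j => (x j).2
      change p i (∑ j, (x j).1) = (x i).1
      simp only [← h, map_sum, hp, Finset.sum_ite_eq, Finset.mem_univ, if_true])⟩⟩

theorem Cyc3A_sum {p : ZMod 3 → U →ₗ[ℝ] U} {p' : ZMod 3 → U' →ₗ[ℝ] U'}
    (hp : ∀ i j s, p i (p j s) = if i = j then p i s else 0)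
    (hp' : ∀ i j s, p' i (p' j s) = if i = j then p' i s else 0)
    (hs : ∀ s, ∑ i, p i s = s) (hs' : ∀ s, ∑ i, p' i s = s) {T : U →ₗ[ℝ] U'}
    (hT : ∀ i s, p' i (T s) = T (p i s)) [FiniteDimensional ℝ (LinearMap.ker T)]
    [FiniteDimensional ℝ (U' ⧸ LinearMap.range T)] :
    T.index = ∑ i, (Cyc3AR (p i) (p' i) T).index := by
  have i1 := fun i => Cyc3AR_ker (fun s => (hp i i s).trans (if_pos rfl)) (hT i)
  have i2 := fun i => Cyc3AR_coker (fun s => (hp' i i s).trans (if_pos rfl)) (hT i)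
  rw [← index_pi]
  refine (index_conj T _ (Cyc3AE hp hs) (Cyc3AE hp' hs') fun u => funext fun i =>
    Subtype.ext ?_).symm
  change p' i (T (p i u)) = p' i (T u)
  rw [← hT, hp', if_pos rfl]

/-- An isomorphism between the ranges of two conjugate maps. -/
def Cyc3AM {q r : U →ₗ[ℝ] U} (m : U ≃ₗ[ℝ] U) (hm : ∀ s, r (m s) = m (q s)) :
    LinearMap.range q ≃ₗ[ℝ] LinearMap.range r :=
  m.ofSubmodules _ _ (by
    ext y
    constructor
    · rintro ⟨_, ⟨s, rfl⟩, rfl⟩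
      exact ⟨m s, hm s⟩
    · rintro ⟨s, rfl⟩
      obtain ⟨t, rfl⟩ := m.surjective s
      exact ⟨q t, ⟨t, rfl⟩, (hm t).symm⟩)

end alg

theorem cyc3_idem {D : V →ₗ[ℝ] V'} {D' : V' →ₗ[ℝ] V} (h : Pair D D')
    (p : ZMod 3 → V →ₗ[ℝ] V) (p' : ZMod 3 → V' →ₗ[ℝ] V')
    (hp : ∀ i j s, p i (p j s) = if i = j then p i s else 0)
    (hp' : ∀ i j s, p' i (p' j s) = if i = j then p' i s else 0)
    (hs : ∀ s, ∑ i, p i s = s) (hs' : ∀ s, ∑ i, p' i s = s)
    (hD : ∀ i s, p' i (D s) = D (p i s)) (hb : ∃ C : ℝ, ∀ i s, ‖p i s‖ ≤ C * ‖s‖)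
    (m : V ≃ₗ[ℝ] V) (m' : V' ≃ₗ[ℝ] V') (hm : ∀ i s, p (i + 1) (m s) = m (p i s))
    (hm' : ∀ i s, p' (i + 1) (m' s) = m' (p' i s))
    (hC : ∃ C : ℝ, ∀ s, ‖m'.symm (D (m s)) - D s‖ ≤ C * ‖s‖) : (3 : ℤ) ∣ D.index := by
  obtain ⟨B, hb⟩ := hb
  obtain ⟨C, hC⟩ := hC
  have i1 := h.ker_fd
  have i2 := h.coker_fd
  obtain ⟨E, hE⟩ : ∃ E : V →ₗ[ℝ] V', ∀ s, E s = m'.symm (D (m s)) :=
    ⟨m'.symm.toLinearMap ∘ₗ D ∘ₗ m.toLinearMap, fun _ => rfl⟩
  have hE' : ∀ s, m' (E s) = D (m s) := fun s => by rw [hE, LinearEquiv.apply_symm_apply]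
  have hEp : ∀ i s, p' i (E s) = E (p i s) := fun i s => m'.injective (by
    rw [← hm', hE', hE', hD, hm])
  have i3 : FiniteDimensional ℝ (LinearMap.ker E) := by
    refine FiniteDimensional.of_injective ((m.toLinearMap ∘ₗ (LinearMap.ker E).subtype).codRestrict
      (LinearMap.ker D) fun x => ?_) fun x y e => Subtype.ext (m.injective (congrArg Subtype.val e))
    change D (m x.1) = 0
    rw [← hE', LinearMap.mem_ker.1 x.2, map_zero]
  have i4 : FiniteDimensional ℝ (V' ⧸ LinearMap.range E) := by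
    refine Module.Finite.of_surjective ((LinearMap.range D).mapQ (LinearMap.range E)
      m'.symm.toLinearMap ?_) fun y => ?_
    · rintro _ ⟨s, rfl⟩
      exact ⟨m.symm s, by rw [hE, LinearEquiv.apply_symm_apply]; rfl⟩
    · obtain ⟨y, rfl⟩ := Submodule.Quotient.mk_surjective _ y
      exact ⟨Submodule.Quotient.mk (m' y), congrArg _ (m'.symm_apply_apply y)⟩
  have key : ∀ i, (Cyc3AR (p (i + 1)) (p' (i + 1)) D).index ≤ (Cyc3AR (p i) (p' i) D).index := by
    intro i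
    obtain ⟨M, hM⟩ : ∃ M : V →ₗ[ℝ] V', ∀ s, M s = E (p i s) + D (s - p i s) :=
      ⟨E ∘ₗ p i + D ∘ₗ (LinearMap.id - p i), fun _ => rfl⟩
    have hMp : ∀ j s, p' j (M s) = M (p j s) := fun j s => by
      rw [hM, hM, map_add, hEp, hD, map_sub (p j), hp, hp]
      by_cases e : i = j
      · rw [e, if_pos rfl]
      · rw [if_neg e, if_neg (Ne.symm e)]
    have j1 : FiniteDimensional ℝ (LinearMap.ker M) := by
      refine Submodule.finiteDimensional_of_le (S₂ := LinearMap.ker E ⊔ LinearMap.ker D)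
        fun s hs0 => ?_
      have h0 : M s = 0 := hs0
      have h1 : E (p i s) = 0 := by
        have h2 := hMp i s
        rwa [h0, map_zero, hM, hp, if_pos rfl, sub_self, map_zero, add_zero, eq_comm] at h2
      rw [hM, h1, zero_add] at h0
      exact Submodule.mem_sup.2 ⟨_, h1, _, h0, add_sub_cancel _ _⟩
    have j2 : FiniteDimensional ℝ (V' ⧸ LinearMap.range M) := by
      refine Submodule.CoFG.of_le ?_ (Submodule.CoFG.inf i4 i2)
      rintro y ⟨⟨a, ha⟩, b, hb⟩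
      refine ⟨p i a + (b - p i b), ?_⟩
      rw [map_add, hM, hM, hp, if_pos rfl, sub_self, map_zero, add_zero, map_sub (p i), hp,
        if_pos rfl, sub_self, map_zero, zero_add, sub_zero, map_sub, ← hEp, ← hD, ha, hb,
        add_sub_cancel]
    have h1 : M.index ≤ D.index := by
      refine h.pert M (C := |C| * B) zero_lt_one fun s => ?_
      rw [hM, map_sub, zero_mul, zero_add, mul_assoc, add_sub_assoc, sub_sub_cancel_left,
        ← sub_eq_add_neg, hE]
      exact (hC _).trans ((mul_le_mul_of_nonneg_right (le_abs_self C) (norm_nonneg _)).trans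
        (mul_le_mul_of_nonneg_left (hb i s) (abs_nonneg C)))
    have h2 : Cyc3AR (p i) (p' i) M = Cyc3AR (p i) (p' i) E := by
      ext ⟨_, s, rfl⟩
      rw [Cyc3AR_val, Cyc3AR_val, hM, hp, if_pos rfl, sub_self, map_zero, add_zero]
    have h3 : ∀ j, j ≠ i → Cyc3AR (p j) (p' j) M = Cyc3AR (p j) (p' j) D := fun j hj => by
      ext ⟨_, s, rfl⟩
      rw [Cyc3AR_val, Cyc3AR_val, hM, hp, if_neg hj.symm, map_zero, zero_add, sub_zero]
    have h4 : (Cyc3AR (p (i + 1)) (p' (i + 1)) D).index = (Cyc3AR (p i) (p' i) E).index :=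
      index_conj _ _ (Cyc3AM m (hm i)) (Cyc3AM m' (hm' i)) fun u => Subtype.ext (by
        change p' (i + 1) (D (m u.1)) = m' (p' i (E u.1))
        rw [← hm', hE'])
    rw [Cyc3A_sum hp hp' hs hs' hMp, Cyc3A_sum hp hp' hs hs' hD,
      ← Finset.add_sum_erase _ _ (Finset.mem_univ i), ← Finset.add_sum_erase _ _ (Finset.mem_univ i),
      h2, Finset.sum_congr rfl fun j hj => by rw [h3 j (Finset.ne_of_mem_erase hj)]] at h1
    rw [h4]
    exact le_of_add_le_add_right h1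
  have k0 : (Cyc3AR (p 1) (p' 1) D).index ≤ (Cyc3AR (p 0) (p' 0) D).index := key 0
  have k1 : (Cyc3AR (p 2) (p' 2) D).index ≤ (Cyc3AR (p 1) (p' 1) D).index := key 1
  have k2 : (Cyc3AR (p 0) (p' 0) D).index ≤ (Cyc3AR (p 2) (p' 2) D).index := key 2
  have k3 : D.index = (Cyc3AR (p 0) (p' 0) D).index + (Cyc3AR (p 1) (p' 1) D).index +
      (Cyc3AR (p 2) (p' 2) D).index :=
    (Cyc3A_sum hp hp' hs hs' hD).trans
      (Fin.sum_univ_three fun i : ZMod 3 => (Cyc3AR (p i) (p' i) D).index)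
  omega

end SX4
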