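import Pool.Agent.P.MP_0a0487_an.SX.CohGeo
import Pool.Agent.P.MP_0a0487_an.SX.FrDefs
import Pool.Agent.P.MP_0a0487_an.SX.Flip
import Pool.Agent.P.MP_0a0487_an.GZ.HgDefs

/-! Maps which rotate the two planes. -/

set_option autoImplicit false
set_option linter.unusedSectionVars false

noncomputable section

namespace SX4

open scoped ComplexOrder ContDiff
open Filter Topology Module

variable {P A : Type} [TopologicalSpace P] [CompactSpace P] [CommRing A] [StarRing A] [Algebra ℂ A]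
  [StarModule ℂ A] {B : Base P A}

theorem cyc3B_cx (z : Fin 2 → ℂ) (v : Fin 4 → ℝ) (α : Fin 4) :
    cx (Matrix.mulVec (rot z) v) α =
      ![z 0, (starRingEnd ℂ) (z 0), z 1, (starRingEnd ℂ) (z 1)] α * cx v α := by
  fin_cases α <;>
    simp [cx, rot, Matrix.mulVec, dotProduct, Fin.sum_univ_four, Complex.ext_iff] <;>
    constructor <;> ring

theorem cyc3B_om {x y : A} (hx : x ∈ B.W 0) (hy : y ∈ B.W 0) : B.Form2 (om x y) := by
  intro α β
  fin_cases α <;> fin_cases β <;>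
    first
    | exact ⟨zero_mem _, neg_zero.symm⟩
    | exact ⟨hx, rfl⟩
    | exact ⟨hy, rfl⟩
    | exact ⟨neg_mem hx, (neg_neg _).symm⟩
    | exact ⟨neg_mem hy, (neg_neg _).symm⟩

theorem cyc3B_sw (v : Fin 4 → ℝ) (α : Fin 4) :
    cx (Matrix.mulVec (Matrix.diagonal ![1, 1, 1, -1]) v) α = cx v (sw α) := by
  fin_cases α <;> simp [cx, sw, Matrix.mulVec_diagonal, sub_eq_add_neg]

theorem cyc3B_dv (G : Calc B) (s : A) (p : P) (v : Fin 4 → ℝ) :
    G.flipC.dv s p v = G.dv s p (Matrix.mulVec (Matrix.diagonal ![1, 1, 1, -1]) v) := by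
  simp only [Calc.dv, cyc3B_sw]
  rw [← flip_sum_sw fun α => cx v (sw α) * B.ev (G.D α s) p]
  simp only [flip_sw_sw]
  rfl

theorem cyc3B_wg (G : Calc B) (p q r s : A) :
    wg (G.flipC.dd p q) (G.flipC.dd r s) = -wg (G.dd p q) (G.dd r s) := by
  simp only [wg, Calc.flipC_dd]
  simp only [Calc.dd, w1]
  have e0 : sw 0 = 0 := rfl
  have e1 : sw 1 = 1 := rfl
  have e2 : sw 2 = 3 := rfl
  have e3 : sw 3 = 2 := rfl
  simp only [e0, e1, e2, e3]
  ring

theorem cyc3B_I_dvg (G : Pre B) {a : Fin 4 → A} (ha : B.Form1 a) {s : A} (hs : s ∈ B.W 0) :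
    G.I (s * G.dvg a) = -∑ α, G.I (G.D (bar α) s * a α) := by
  rw [Pre.dvg, Finset.mul_sum, map_sum, ← Finset.sum_neg_distrib]
  refine Finset.sum_congr rfl fun α _ => ?_
  rw [G.ibp (bar α) hs (ha α) (by rw [wt_bar]; abel), neg_neg]
  rfl

namespace Map

variable {G : Pre B} (f : Map G)

theorem cyc3B_mem (n : ℕ) {s : A} (hs : s ∈ B.W 0) : f.Φ^[n] s ∈ B.W 0 := by
  induction n with
  | zero => exact hs
  | succ n ih =>
    rw [Function.iterate_succ_apply']
    exact f.mem _ ih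

theorem cyc3B_comb {ι : Type} [Fintype ι] {s p : ι → A} (hs : ∀ i, s i ∈ B.W 0)
    (hp : ∀ i, p i ∈ B.W 0) :
    f.pull1 (fun α => ∑ i, s i * G.D α (p i)) = fun α => ∑ i, f.Φ (s i) * G.D α (f.Φ (p i)) := by
  have h : B.Form1 fun α => ∑ i, s i * G.D α (p i) := fun α =>
    Submodule.sum_mem _ fun i _ => B.mul_mem' (hs i) (G.d0_form (hp i) α) (zero_add _)
  have key : ∀ (s p : ι → A) x v, ∑ α, SX4.cx v α * B.ev (∑ i, s i * G.D α (p i)) x =
      ∑ i, B.ev (s i) x * G.dv (p i) x v := fun s p x v => by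
    simp only [map_sum, map_mul, ContinuousMap.sum_apply, ContinuousMap.mul_apply, Calc.dv,
      Finset.mul_sum]
    rw [Finset.sum_comm]
    exact Finset.sum_congr rfl fun _ _ => Finset.sum_congr rfl fun _ _ => by ring
  funext α
  refine B.ext' fun x => congrFun (Base.mapA_ext
    (x := fun α => B.ev (f.pull1 (fun α => ∑ i, s i * G.D α (p i)) α) x)
    (y := fun α => B.ev (∑ i, f.Φ (s i) * G.D α (f.Φ (p i))) x) fun v => ?_) α
  rw [f.ev_pull1 h, key, key]
  exact Finset.sum_congr rfl fun i _ => by rw [f.ev_eq _ (hs i), f.chain _ (hp i)]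

theorem iter_pull1 {N : ℕ} (hf : ∀ s ∈ B.W 0, f.Φ^[N] s = s) {a : Fin 4 → A} (ha : B.Form1 a) :
    f.pull1^[N] a = a := by
  have key : ∀ n, f.pull1^[n] a =
      fun α => ∑ k, f.Φ^[n] (∑ γ, a γ * G.θ γ k) * G.D α (f.Φ^[n] (G.e k)) := by
    intro n
    induction n with
    | zero => exact funext fun α => G.form1_eq a α
    | succ n ih =>
      rw [Function.iterate_succ_apply', ih, f.cyc3B_comb
        (fun k => f.cyc3B_mem n (G.form1_coef_mem ha k)) fun k => f.cyc3B_mem n (G.e_re k).1]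
      simp only [Function.iterate_succ_apply']
  rw [key]
  funext α
  simp only [hf _ (G.form1_coef_mem ha _), hf _ (G.e_re _).1]
  exact (G.form1_eq a α).symm

theorem iter_pull2 {N : ℕ} (hf : ∀ s ∈ B.W 0, f.Φ^[N] s = s) {b : Fin 4 → Fin 4 → A}
    (hb : B.Form2 b) : f.pull2^[N] b = b := by
  have h : ∀ i : Fin G.N × Fin G.N,
      (1 / 2 : ℂ) • ∑ γ, ∑ δ, b γ δ * G.θ γ i.1 * G.θ δ i.2 ∈ B.W 0 := fun i =>
    Submodule.smul_mem _ _ (G.mapB_coef_mem hb i.1 i.2)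
  have e : b = fun α β => ∑ i : Fin G.N × Fin G.N,
      ((1 / 2 : ℂ) • ∑ γ, ∑ δ, b γ δ * G.θ γ i.1 * G.θ δ i.2) *
        G.dd (G.e i.1) (G.e i.2) α β := by
    funext α β
    rw [G.form2_eq (fun α β => (hb α β).2) α β, Fintype.sum_prod_type]
  have key : ∀ n, f.pull2^[n] b = fun α β => ∑ i : Fin G.N × Fin G.N,
      f.Φ^[n] ((1 / 2 : ℂ) • ∑ γ, ∑ δ, b γ δ * G.θ γ i.1 * G.θ δ i.2) *
        G.dd (f.Φ^[n] (G.e i.1)) (f.Φ^[n] (G.e i.2)) α β := by
    intro n
    induction n with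
    | zero => exact e
    | succ n ih =>
      rw [Function.iterate_succ_apply', ih, f.mapB_pull2_comb (fun i => f.cyc3B_mem n (h i))
        (fun i => f.cyc3B_mem n (G.e_re _).1) fun i => f.cyc3B_mem n (G.e_re _).1]
      simp only [Function.iterate_succ_apply']
  rw [key]
  simp only [hf _ (h _), hf _ (G.e_re _).1]
  exact e.symm

variable (hJ : ∀ p, IsRot (f.J p))

include hJ

theorem rot_ev (p : P) : ∃ c : Fin 4 → ℂ, (∀ α, c α * c (bar α) = 1) ∧ (∀ α, ‖c α‖ = 1) ∧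
    (∀ a, B.Form1 a → ∀ α, B.ev (f.pull1 a α) p = c α * B.ev (a α) (f.pt p)) ∧
    ∀ b, B.Form2 b → ∀ α β, B.ev (f.pull2 b α β) p = c α * c β * B.ev (b α β) (f.pt p) := by
  obtain ⟨z, hz, e⟩ := hJ p
  have h1 : ∀ m, z m * (starRingEnd ℂ) (z m) = 1 := fun m => by
    rw [Complex.mul_conj', hz]
    simp
  refine ⟨![z 0, (starRingEnd ℂ) (z 0), z 1, (starRingEnd ℂ) (z 1)], fun α => ?_, fun α => ?_,
    fun a ha α => ?_, fun b hb α β => ?_⟩
  · fin_cases α
    exacts [h1 0, (mul_comm _ _).trans (h1 0), h1 1, (mul_comm _ _).trans (h1 1)]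
  · fin_cases α
    exacts [hz 0, (Complex.norm_conj _).trans (hz 0), hz 1, (Complex.norm_conj _).trans (hz 1)]
  · refine congrFun (Base.mapA_ext (x := fun α => B.ev (f.pull1 a α) p) (y := fun α =>
      ![z 0, (starRingEnd ℂ) (z 0), z 1, (starRingEnd ℂ) (z 1)] α * B.ev (a α) (f.pt p))
      fun v => ?_) α
    rw [f.ev_pull1 ha, e]
    exact Finset.sum_congr rfl fun α _ => by rw [cyc3B_cx]; ring
  · obtain ⟨c, hc⟩ : ∃ c : Fin 4 → ℂ,
        c = ![z 0, (starRingEnd ℂ) (z 0), z 1, (starRingEnd ℂ) (z 1)] := ⟨_, rfl⟩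
    rw [← hc]
    have h2 : ∀ v, (fun α => ∑ β, SX4.cx v β * B.ev (f.pull2 b α β) p) =
        fun α => ∑ β, SX4.cx v β * (c α * c β * B.ev (b α β) (f.pt p)) := fun v =>
      Base.mapA_ext fun u => by
        have h3 := f.b2_pull2 hb p u v
        simp only [Base.b2, e, cyc3B_cx, ← hc] at h3
        simp only [Finset.mul_sum, ← mul_assoc]
        rw [h3]
        exact Finset.sum_congr rfl fun _ _ => Finset.sum_congr rfl fun _ _ => by ring
    exact congrFun (Base.mapA_ext (x := fun β => B.ev (f.pull2 b α β) p)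
      (y := fun β => c α * c β * B.ev (b α β) (f.pt p)) fun v => congrFun (h2 v) α) β

theorem rot_I {s : A} (hs : s ∈ B.W 0) : G.I (f.Φ s) = G.I s := by
  have h : ∀ {x y : A}, x ∈ B.W 0 → y ∈ B.W 0 → f.pull2 (om x y) = om (f.Φ x) (f.Φ y) := by
    intro x y hx hy
    funext α β
    refine B.ext' fun p => ?_
    obtain ⟨c, h1, -, -, h4⟩ := f.rot_ev hJ p
    have e0 : c 0 * c 1 = 1 := h1 0
    have e1 : c 1 * c 0 = 1 := h1 1
    have e2 : c 2 * c 3 = 1 := h1 2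
    have e3 : c 3 * c 2 = 1 := h1 3
    rw [h4 _ (cyc3B_om hx hy)]
    fin_cases α <;> fin_cases β <;> simp [om, e0, e1, e2, e3, f.ev_eq _ hx, f.ev_eq _ hy]
  have z : f.Φ 0 = 0 := by simpa using f.Φ_smul 0 B.one_mem
  have e := f.I_wg_pull (cyc3B_om hs (zero_mem _)) (cyc3B_om (zero_mem _) B.one_mem)
  rw [h hs (zero_mem _), h (zero_mem _) B.one_mem, z, f.Φ_one] at e
  simpa [wg, om] using e

theorem rot_nrm {a : Fin 4 → A} (ha : B.Form1 a) (α : Fin 4) :
    G.nrm (f.pull1 a α) = G.nrm (a α) := by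
  have h := (B.re0_star_mul (ha α)).1
  have e : star (f.pull1 a α) * f.pull1 a α = f.Φ (star (a α) * a α) := B.ext' fun p => by
    obtain ⟨c, -, h2, h3, -⟩ := f.rot_ev hJ p
    rw [f.ev_eq _ h, integ_ev_sq, integ_ev_sq, h3 a ha, norm_mul, h2, one_mul]
  rw [Pre.nrm, Pre.nrm, e, f.rot_I hJ h]

theorem rot_dvg {a : Fin 4 → A} (ha : B.Form1 a) : G.dvg (f.pull1 a) = f.Φ (G.dvg a) := by
  have h1 := G.dvg_mem (f.pull1_form ha)
  have h2 := G.dvg_mem ha
  have h3 := sub_mem h1 (f.mem _ h2)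
  obtain ⟨t, ht, e⟩ := f.surj _ (B.star_mem' h3 neg_zero)
  have h4 : ∀ α, G.D (bar α) t * a α ∈ B.W 0 := fun α =>
    B.mul_mem' (G.d0_form ht _) (ha α) (by rw [wt_bar, neg_add_cancel])
  have h5 : ∀ α, G.D (bar α) (f.Φ t) * f.pull1 a α = f.Φ (G.D (bar α) t * a α) := fun α =>
    B.ext' fun p => by
      obtain ⟨c, k1, -, k3, -⟩ := f.rot_ev hJ p
      have k4 := k3 _ (G.d0_form ht) (bar α)
      rw [f.pull1_d0 ht] at k4
      simp only [Calc.d0] at k4
      rw [f.ev_eq _ (h4 α), map_mul, map_mul, ContinuousMap.mul_apply, ContinuousMap.mul_apply,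
        k4, k3 a ha]
      linear_combination B.ev (G.D (bar α) t) (f.pt p) * B.ev (a α) (f.pt p) * k1 α
  refine sub_eq_zero.1 (G.nrm_eq_zero ⟨0, h3⟩ ?_)
  rw [Pre.nrm, ← e, mul_sub, map_sub, ← f.Φ_mul ht h2,
    f.rot_I hJ (B.mul_mem' ht h2 (add_zero _)), cyc3B_I_dvg G (f.pull1_form ha) (f.mem _ ht),
    cyc3B_I_dvg G ha ht]
  simp only [h5, f.rot_I hJ (h4 _), sub_self, Complex.zero_re, Real.sqrt_zero]

end Map

theorem Geo.exists_map_flip (G : Geo B) (f : Map G.toPre) (hJ : ∀ p, IsRot (f.J p)) :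
    ∃ f' : Map G.flipG.toPre, f'.Φ = f.Φ ∧ ∀ p, IsRot (f'.J p) := by
  have hS : (Matrix.diagonal ![1, 1, 1, -1] * Matrix.diagonal ![1, 1, 1, -1] : M4) = 1 := by
    rw [Matrix.diagonal_mul_diagonal, ← Matrix.diagonal_one]
    exact congrArg _ (funext fun i => by fin_cases i <;> simp)
  refine ⟨{ pt := f.pt
            Φ := f.Φ
            J := fun p => Matrix.diagonal ![1, 1, 1, -1] * f.J p * Matrix.diagonal ![1, 1, 1, -1]
            mem := f.mem
            surj := f.surj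
            ev_eq := f.ev_eq
            chain := fun s hs p v => ?_
            cov := fun s hs p hp q hq r hr t ht => ?_ }, rfl, fun p => ?_⟩
  · refine (cyc3B_dv G.toCalc _ p v).trans ((f.chain s hs p _).trans
      (Eq.trans ?_ (cyc3B_dv G.toCalc _ _ _).symm))
    rw [Matrix.mulVec_mulVec, Matrix.mulVec_mulVec, ← mul_assoc, ← mul_assoc, hS, one_mul]
  · change G.I (_ * wg (G.toCalc.flipC.dd _ _) (G.toCalc.flipC.dd _ _)) =
      G.I (_ * wg (G.toCalc.flipC.dd _ _) (G.toCalc.flipC.dd _ _))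
    rw [cyc3B_wg, cyc3B_wg, mul_neg, mul_neg, map_neg, map_neg, f.cov s hs p hp q hq r hr t ht]
  · obtain ⟨z, hz, e⟩ := hJ p
    refine ⟨![z 0, (starRingEnd ℂ) (z 1)], fun m => ?_, ?_⟩
    · fin_cases m
      exacts [hz 0, (Complex.norm_conj _).trans (hz 1)]
    · change Matrix.diagonal ![1, 1, 1, -1] * f.J p * Matrix.diagonal ![1, 1, 1, -1] = _
      rw [e]
      ext i j
      rw [Matrix.mul_diagonal, Matrix.diagonal_mul]
      fin_cases i <;> fin_cases j <;> simp [rot]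

end SX4
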