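import Pool.Agent.P.MP_0a0487_an.GZ.Cyc3A

/-! The cyclic grading defined by a map of finite order. -/

set_option autoImplicit false
set_option linter.unusedSectionVars false

noncomputable section

namespace SX4

open Filter Topology Module Polynomial

theorem Cyc3P_class {ω : ℂ} (hω : IsPrimitiveRoot ω 3) :
    ∃ cl : ℂ → ZMod 3, ∀ μ, μ ≠ 0 → cl (ω * μ) = cl μ + 1 := by
  classical
  choose r hr using fun w : ℂ => IsAlgClosed.exists_pow_nat_eq w (n := 3) (by norm_num)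
  refine ⟨fun μ => if μ = r (μ ^ 3) then 0 else if μ = ω * r (μ ^ 3) then 1 else 2, fun μ hμ => ?_⟩
  have h3 := hω.pow_eq_one
  simp only [mul_pow, h3, one_mul]
  have h1 := hr (μ ^ 3)
  generalize r (μ ^ 3) = ρ at h1
  have hρ : ρ ≠ 0 := by
    rintro rfl
    exact pow_ne_zero 3 hμ (by rw [← h1, zero_pow three_ne_zero])
  have h0 : ω ≠ 0 := hω.ne_zero three_ne_zero
  have a1 : ω * ρ ≠ ρ := fun h => hω.ne_one (by norm_num) (mul_eq_right₀ hρ |>.1 h)
  have a2 : ω * (ω * ρ) ≠ ρ := fun h =>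
    hω.pow_ne_one_of_pos_of_lt (l := 2) two_ne_zero (by norm_num)
      (mul_eq_right₀ hρ |>.1 (by rw [pow_two, mul_assoc, h]))
  have a3 : ω * (ω * ρ) ≠ ω * ρ := fun h => a1 (mul_left_cancel₀ h0 h)
  have a4 : ω * (ω * (ω * ρ)) = ρ := by linear_combination ρ * h3
  obtain ⟨i, hi, e⟩ := hω.eq_pow_of_pow_eq_one (ξ := μ / ρ) (by
    rw [div_pow, h1, div_self (pow_ne_zero 3 hμ)])
  rw [eq_div_iff hρ] at e
  subst e
  interval_cases i
  · simp [a1]
  · simp only [pow_one, a1, a2, a3, if_false, if_true]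
    rfl
  · simp only [pow_two, mul_assoc, a2, a3, a4, if_false, if_true]
    rfl

theorem Cyc3P_comm {V V' : Type} [AddCommGroup V] [Module ℂ V] [AddCommGroup V'] [Module ℂ V']
    (T : V →ₗ[ℂ] V') {g : V →ₗ[ℂ] V} {g' : V' →ₗ[ℂ] V'} (h : ∀ s, g' (T s) = T (g s)) (q : ℂ[X])
    (s : V) : aeval (A := Module.End ℂ V') g' q (T s) = T (aeval (A := Module.End ℂ V) g q s) := by
  induction q using Polynomial.induction_on generalizing s with
  | C a => simp
  | add p q hp hq => simp [hp, hq]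
  | monomial n a ih =>
    rw [pow_succ, ← mul_assoc, map_mul, map_mul (aeval g) (C a * X ^ n), aeval_X, aeval_X,
      Module.End.mul_apply, Module.End.mul_apply, h, ih]

theorem Cyc3P_bd {V : Type} [NormedAddCommGroup V] [NormedSpace ℂ V] {f : V →ₗ[ℂ] V}
    (hb : ∃ C : ℝ, ∀ s, ‖f s‖ ≤ C * ‖s‖) (q : ℂ[X]) :
    ∃ C : ℝ, ∀ s, ‖aeval (A := Module.End ℂ V) f q s‖ ≤ C * ‖s‖ := by
  obtain ⟨C, hC⟩ := hb
  refine ⟨‖aeval (f.mkContinuous C hC) q‖, fun s => ?_⟩
  have e : aeval (A := Module.End ℂ V) f q s = aeval (f.mkContinuous C hC) q s := by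
    induction q using Polynomial.induction_on generalizing s with
    | C a => simp [Algebra.algebraMap_eq_smul_one]
    | add p q hp hq => simp [hp, hq]
    | monomial n a ih =>
      rw [pow_succ, ← mul_assoc, map_mul, map_mul (aeval _) (Polynomial.C a * X ^ n), aeval_X,
        aeval_X, Module.End.mul_apply, ih]
      rfl
  rw [e]
  exact ContinuousLinearMap.le_opNorm _ _

theorem cyc3_poly {N : ℕ} (hN : 0 < N) : ∃ q : ZMod 3 → ℂ[X],
    (∀ i, (q (i + 1)).comp (C (Complex.exp (2 * Real.pi * Complex.I / 3)) * X) = q i) ∧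
    ∀ (R : Type) [Ring R] [Algebra ℂ R] (f : R), f ^ N = 1 →
      (∀ i j, aeval f (q i) * aeval f (q j) = if i = j then aeval f (q i) else 0) ∧
        ∑ i, aeval f (q i) = 1 := by
  classical
  have hω : IsPrimitiveRoot (Complex.exp (2 * Real.pi * Complex.I / 3)) 3 := by
    simpa using Complex.isPrimitiveRoot_exp 3 three_ne_zero
  generalize Complex.exp (2 * Real.pi * Complex.I / 3) = ω at hω
  obtain ⟨cl, hcl⟩ := Cyc3P_class hω
  have hM : 0 < 3 * N := by omega
  let T : Finset ℂ := nthRootsFinset (3 * N) (1 : ℂ)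
  have hT : ∀ μ, μ ∈ T ↔ μ ^ (3 * N) = 1 := fun μ => mem_nthRootsFinset hM 1
  let q : ZMod 3 → ℂ[X] := fun i =>
    Lagrange.interpolate T id fun μ => if cl μ = i then (1 : ℂ) else 0
  have hq : ∀ i, ∀ μ ∈ T, (q i).eval μ = if cl μ = i then 1 else 0 := fun i μ hμ =>
    Lagrange.eval_interpolate_at_node (v := id) _ (Set.injOn_id _) hμ
  refine ⟨q, fun i => ?_, fun R _ _ f hf => ?_⟩
  · refine Lagrange.eq_interpolate_of_eval_eq _ (Set.injOn_id _) ?_ fun μ hμ => ?_
    · rw [degree_lt_iff_coeff_zero]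
      intro m hm
      rw [comp_C_mul_X_coeff, (degree_lt_iff_coeff_zero _ _).1
        (Lagrange.degree_interpolate_lt _ (Set.injOn_id _)) m hm, zero_mul]
    · have h0 : μ ≠ 0 := by
        rintro rfl
        exact zero_ne_one ((zero_pow hM.ne').symm.trans ((hT 0).1 hμ))
      rw [eval_comp, eval_mul, eval_C, eval_X, id, hq _ _ ((hT _).2 (by
        rw [mul_pow, (hT μ).1 hμ, pow_mul, hω.pow_eq_one, one_pow, mul_one])), hcl μ h0]
      simp only [add_left_inj]
  · have key : ∀ p p' : ℂ[X], (∀ μ ∈ T, p.eval μ = p'.eval μ) → aeval f p = aeval f p' := by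
      intro p p' h
      have h1 : (X ^ (3 * N) - 1 : ℂ[X]) ∣ p - p' := by
        rw [X_pow_sub_one_eq_prod hM (Complex.isPrimitiveRoot_exp _ hM.ne')]
        refine Finset.prod_dvd_of_coprime
          ((pairwise_coprime_X_sub_C Function.injective_id).set_pairwise _) fun μ hμ => ?_
        rw [dvd_iff_isRoot, IsRoot, eval_sub, h μ hμ, sub_self]
      obtain ⟨c, hc⟩ := h1
      rw [← sub_eq_zero, ← map_sub, hc, map_mul, map_sub, map_pow, aeval_X, map_one, mul_comm 3,
        pow_mul, hf, one_pow, sub_self, zero_mul]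
    refine ⟨fun i j => ?_, ?_⟩
    · rw [← map_mul]
      split_ifs with h
      · refine key _ _ fun μ hμ => ?_
        rw [← h, eval_mul, hq i μ hμ]
        split_ifs <;> simp
      · refine (key _ 0 fun μ hμ => ?_).trans (map_zero _)
        rw [eval_mul, hq i μ hμ, hq j μ hμ, eval_zero]
        split_ifs with h1 h2
        · exact absurd (h1.symm.trans h2) h
        · exact mul_zero _
        · exact zero_mul _
        · exact zero_mul _
    · rw [← map_sum]
      refine (key _ 1 fun μ hμ => ?_).trans (map_one _)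
      rw [eval_finsetSum, Finset.sum_congr rfl fun i _ => hq i μ hμ]
      simp

theorem cyc3 {V V' : Type} [NormedAddCommGroup V] [InnerProductSpace ℝ V] [NormedSpace ℂ V]
    [IsScalarTower ℝ ℂ V] [NormedAddCommGroup V'] [InnerProductSpace ℝ V'] [NormedSpace ℂ V']
    [IsScalarTower ℝ ℂ V'] (D : V →ₗ[ℂ] V') {D' : V' →ₗ[ℝ] V} (h : Pair (D.restrictScalars ℝ) D')
    {N : ℕ} (hN : 0 < N) (f : V →ₗ[ℂ] V) (f' : V' →ₗ[ℂ] V') (hf : f ^ N = 1) (hf' : f' ^ N = 1)
    (hD : ∀ s, f' (D s) = D (f s)) (hb : ∃ C : ℝ, ∀ s, ‖f s‖ ≤ C * ‖s‖)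
    (m : V ≃ₗ[ℂ] V) (m' : V' ≃ₗ[ℂ] V')
    (hm : ∀ s, f (m s) = Complex.exp (2 * Real.pi * Complex.I / 3) • m (f s))
    (hm' : ∀ s, f' (m' s) = Complex.exp (2 * Real.pi * Complex.I / 3) • m' (f' s))
    (hC : ∃ C : ℝ, ∀ s, ‖m'.symm (D (m s)) - D s‖ ≤ C * ‖s‖) :
    (3 : ℤ) ∣ (D.restrictScalars ℝ).index := by
  obtain ⟨q, hq, H⟩ := cyc3_poly hN
  obtain ⟨h1, h2⟩ := H (Module.End ℂ V) f hf
  obtain ⟨h1', h2'⟩ := H (Module.End ℂ V') f' hf'
  have sh : ∀ {W : Type} [AddCommGroup W] [Module ℂ W] (g : W →ₗ[ℂ] W) (n : W ≃ₗ[ℂ] W),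
      (∀ s, g (n s) = Complex.exp (2 * Real.pi * Complex.I / 3) • n (g s)) → ∀ i s,
      aeval (A := Module.End ℂ W) g (q (i + 1)) (n s) =
        n (aeval (A := Module.End ℂ W) g (q i) s) := fun g n hn i s => by
    rw [← hq i, aeval_comp, map_mul, aeval_C, aeval_X, ← Algebra.smul_def]
    exact Cyc3P_comm n.toLinearMap (fun s => (hn s).trans (map_smul n _ _).symm) _ s
  refine cyc3_idem h (fun i => (aeval (A := Module.End ℂ V) f (q i)).restrictScalars ℝ)
    (fun i => (aeval (A := Module.End ℂ V') f' (q i)).restrictScalars ℝ)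
    (fun i j s => ?_) (fun i j s => ?_) (fun s => ?_) (fun s => ?_)
    (fun i s => Cyc3P_comm D hD _ s) ?_ (m.restrictScalars ℝ) (m'.restrictScalars ℝ)
    (sh f m hm) (sh f' m' hm') hC
  · refine (LinearMap.congr_fun (h1 i j) s).trans ?_
    split_ifs <;> rfl
  · refine (LinearMap.congr_fun (h1' i j) s).trans ?_
    split_ifs <;> rfl
  · exact (LinearMap.sum_apply _ _ _).symm.trans (LinearMap.congr_fun h2 s)
  · exact (LinearMap.sum_apply _ _ _).symm.trans (LinearMap.congr_fun h2' s)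
  · choose C hC using fun i => Cyc3P_bd hb (q i)
    obtain ⟨B, hB⟩ := Finite.exists_le C
    exact ⟨B, fun i s => (hC i s).trans (mul_le_mul_of_nonneg_right (hB i) (norm_nonneg s))⟩

end SX4
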