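import Pool.Agent.P.MP_0a0487_an.GZ.Cyc3B
import Pool.Agent.P.MP_0a0487_an.GZ.Cyc3P
import Pool.Agent.P.MP_0a0487_an.SX.Abs2
import Pool.Agent.P.MP_0a0487_an.SX.Spec

/-! The index is divisible by three. -/

set_option autoImplicit false
set_option linter.unusedSectionVars false

noncomputable section

namespace SX4

open scoped ComplexOrder ContDiff
open Filter Topology Module

variable {P A : Type} [TopologicalSpace P] [CompactSpace P] [CommRing A] [StarRing A] [Algebra ℂ A]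
  [StarModule ℂ A] {B : Base P A}

namespace Pre

variable (G : Pre B)

/-- The form of type `(0,1)` defined by a section. -/
def c3a (s : G.Sec (wm 0)) : Fin 4 → A := ![0, s.c 0, 0, s.c 1]

/-- The form of type `(0,2)` defined by a section. -/
def c3b (s : G.Sec (wp 0)) : Fin 4 → Fin 4 → A := ![0, ![0, 0, 0, s.c 1], 0, ![0, -s.c 1, 0, 0]]

theorem c3a_form (s : G.Sec (wm 0)) : B.Form1 (G.c3a s) := by
  intro α
  fin_cases α
  · exact zero_mem _
  · exact dirac_mem (s.mem 0) (by decide)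
  · exact zero_mem _
  · exact dirac_mem (s.mem 1) (by decide)

theorem c3b_form (s : G.Sec (wp 0)) : B.Form2 (G.c3b s) := by
  have h1 : s.c 1 ∈ B.W (wt 1 + wt 3) := dirac_mem (s.mem 1) (by decide)
  have h2 : s.c 1 ∈ B.W (wt 3 + wt 1) := dirac_mem (s.mem 1) (by decide)
  intro α β
  fin_cases α <;> fin_cases β <;> simp [c3b, h1, h2]

theorem c3a_add (s t : G.Sec (wm 0)) : G.c3a (s + t) = G.c3a s + G.c3a t := by
  funext α; fin_cases α <;> simp [c3a]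

theorem c3a_smul (z : ℂ) (s : G.Sec (wm 0)) : G.c3a (z • s) = z • G.c3a s := by
  funext α; fin_cases α <;> simp [c3a]

theorem c3b_add (s t : G.Sec (wp 0)) : G.c3b (s + t) = G.c3b s + G.c3b t := by
  funext α β; fin_cases α <;> fin_cases β <;> simp [c3b, add_comm]

theorem c3b_smul (z : ℂ) (s : G.Sec (wp 0)) : G.c3b (z • s) = z • G.c3b s := by
  funext α β; fin_cases α <;> fin_cases β <;> simp [c3b]

/-- The torsion term. -/
def c3Z : G.Sec (wm 0) →ₗ[ℝ] G.Sec (wp 0) :=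
  G.mkL (fun s => ![0, G.T 1 3 1 * s.c 0 + G.T 1 3 3 * s.c 1])
    (fun s => mem2 (zero_mem _) (add_mem (B.mul_mem' (G.T_mem 1 3 1) (s.mem 0) (by decide))
      (B.mul_mem' (G.T_mem 1 3 3) (s.mem 1) (by decide))))
    (fun s t i => by fin_cases i <;> simp; ring)
    (fun r s i => by fin_cases i <;> simp [-Complex.coe_smul])

theorem c3Z_c0 (s : G.Sec (wm 0)) : (G.c3Z s).c 0 = 0 := rfl

theorem c3Z_c1 (s : G.Sec (wm 0)) : (G.c3Z s).c 1 = G.T 1 3 1 * s.c 0 + G.T 1 3 3 * s.c 1 := rfl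

theorem c3Z_zo : IsZO G.c3Z := by
  refine ⟨![0, ![G.T 1 3 1, G.T 1 3 3]], 0, ?_, fun _ _ => zero_mem _, fun s => ?_⟩
  · simp only [Fin.forall_fin_two]
    exact ⟨⟨zero_mem _, zero_mem _⟩, dirac_mem (G.T_mem 1 3 1) (by decide),
      dirac_mem (G.T_mem 1 3 3) (by decide)⟩
  · rw [Fin.forall_fin_two, c3Z_c0, c3Z_c1]
    constructor <;> simp

/-- The natural operator on forms of type `(0,1)`. -/
def c3D : G.Sec (wm 0) →ₗ[ℂ] G.Sec (wp 0) where
  toFun s := G.diracAdj 0 s + G.c3Z s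
  map_add' s t := by rw [map_add, map_add]; abel
  map_smul' z s := by
    rw [G.diracAdj_smul, smul_add, RingHom.id_apply]
    congr 1
    exact dirac_ext (by simp [c3Z_c0]) (by simp [c3Z_c1])

theorem c3D_c0 (s : G.Sec (wm 0)) : (G.c3D s).c 0 = -G.Dt 0 (s.c 0) - G.Dt 2 (s.c 1) := add_zero _

theorem c3D_c1 (s : G.Sec (wm 0)) : (G.c3D s).c 1 =
    G.D 3 (s.c 0) - G.D 1 (s.c 1) + (G.T 1 3 1 * s.c 0 + G.T 1 3 3 * s.c 1) := rfl

theorem c3D_dvg (s : G.Sec (wm 0)) : (G.c3D s).c 0 = -G.dvg (G.c3a s) := by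
  simp [c3D_c0, dvg, c3a, Fin.sum_univ_four, bar, Dt]
  ring

theorem c3D_d1 (s : G.Sec (wm 0)) : (G.c3D s).c 1 = -G.d1 (G.c3a s) 1 3 := by
  simp [c3D_c1, Calc.d1, c3a, Fin.sum_univ_four]
  ring

/-- Multiplication by a unit function. -/
def c3m {w : Fin 2 → Wt} {v : A} (hv : v ∈ B.W 0) (v1 : star v * v = 1) :
    G.Sec w ≃ₗ[ℂ] G.Sec w where
  toFun s := G.mk' (fun i => v * s.c i) fun i => B.mul_mem' hv (s.mem i) (zero_add _)
  invFun s := G.mk' (fun i => star v * s.c i) fun i =>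
    B.mul_mem' (B.star_mem hv) (s.mem i) (by rw [neg_zero, zero_add])
  map_add' _ _ := Sec.ext fun _ => mul_add _ _ _
  map_smul' _ _ := Sec.ext fun _ => mul_smul_comm _ _ _
  left_inv s := Sec.ext fun i => by simp only [c_mk', ← mul_assoc, v1, one_mul]
  right_inv s := Sec.ext fun i => by
    rw [c_mk', c_mk', ← mul_assoc, mul_comm v, v1, one_mul]

variable {v : A} (hv : v ∈ B.W 0) (v1 : star v * v = 1)

theorem c3m_c {w : Fin 2 → Wt} (s : G.Sec w) (i : Fin 2) : (G.c3m hv v1 s).c i = v * s.c i := rfl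

theorem c3m_symm_c {w : Fin 2 → Wt} (s : G.Sec w) (i : Fin 2) :
    ((G.c3m hv v1).symm s).c i = star v * s.c i := rfl

theorem c3a_m (s : G.Sec (wm 0)) : G.c3a (G.c3m hv v1 s) = fun α => v * G.c3a s α := by
  funext α; fin_cases α <;> simp [c3a, c3m_c]

theorem c3b_m (s : G.Sec (wp 0)) : G.c3b (G.c3m hv v1 s) = fun α β => v * G.c3b s α β := by
  funext α β; fin_cases α <;> fin_cases β <;> simp [c3b, c3m_c]

theorem c3_zo : IsZO (((G.c3m hv v1).symm.toLinearMap ∘ₗ G.c3D ∘ₗ (G.c3m hv v1).toLinearMap -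
    G.c3D).restrictScalars ℝ) := by
  have hm : ∀ α, star v * G.D α v ∈ B.W (wt α) := fun α =>
    B.mul_mem' (B.star_mem hv) (G.D_mem α hv) (by simp)
  refine ⟨![![-(star v * G.D 0 v), -(star v * G.D 2 v)], ![star v * G.D 3 v, -(star v * G.D 1 v)]],
    0, ?_, fun _ _ => zero_mem _, fun s => ?_⟩
  · simp only [Fin.forall_fin_two]
    exact ⟨⟨neg_mem (dirac_mem (hm 0) (by decide)), neg_mem (dirac_mem (hm 2) (by decide))⟩,
      dirac_mem (hm 3) (by decide), neg_mem (dirac_mem (hm 1) (by decide))⟩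
  · rw [Fin.forall_fin_two]
    constructor
    · change star v * (G.c3D (G.c3m hv v1 s)).c 0 - (G.c3D s).c 0 = _
      simp [c3D_c0, c3m_c, Dt, G.D_mul]
      linear_combination
        (-(G.D 0 (s.c 0) + G.τ 0 * s.c 0) - (G.D 2 (s.c 1) + G.τ 2 * s.c 1)) * v1
    · change star v * (G.c3D (G.c3m hv v1 s)).c 1 - (G.c3D s).c 1 = _
      simp [c3D_c1, c3m_c, G.D_mul]
      linear_combination
        (G.D 3 (s.c 0) - G.D 1 (s.c 1) + (G.T 1 3 1 * s.c 0 + G.T 1 3 3 * s.c 1)) * v1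

end Pre

namespace Map

variable {G : Pre B} (f : Map G)

/-- The action on forms of type `(0,1)`. -/
def c3f : G.Sec (wm 0) →ₗ[ℂ] G.Sec (wm 0) where
  toFun s := G.ofForm (f.pull1_form (G.c3a_form s))
  map_add' s t := by
    have h := f.pull1_add (G.c3a_form s) (G.c3a_form t)
    rw [← G.c3a_add] at h
    exact Pre.dirac_ext (congrFun h 1) (congrFun h 3)
  map_smul' z s := by
    have h := f.pull1_smul z (G.c3a_form s)
    rw [← G.c3a_smul] at h
    exact Pre.dirac_ext (congrFun h 1) (congrFun h 3)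

/-- The action on functions and forms of type `(0,2)`. -/
def c3g : G.Sec (wp 0) →ₗ[ℂ] G.Sec (wp 0) where
  toFun s := G.mk' ![f.Φ (s.c 0), f.pull2 (G.c3b s) 1 3] (mem2 (f.mem _ (s.mem 0))
    (Pre.dirac_mem (f.pull2_form (G.c3b_form s) 1 3).1 (by decide)))
  map_add' s t := by
    have h := f.pull2_add (G.c3b_form s) (G.c3b_form t)
    rw [← G.c3b_add] at h
    exact Pre.dirac_ext (f.Φ_add (s.mem 0) (t.mem 0)) (congrFun₂ h 1 3)
  map_smul' z s := by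
    have h := f.pull2_smul z (G.c3b_form s)
    rw [← G.c3b_smul] at h
    exact Pre.dirac_ext (f.Φ_smul z (s.mem 0)) (congrFun₂ h 1 3)

theorem c3f_m {v : A} (hv : v ∈ B.W 0) (v1 : star v * v = 1) {z : ℂ} (hz : f.Φ v = z • v)
    (s : G.Sec (wm 0)) : f.c3f (G.c3m hv v1 s) = z • G.c3m hv v1 (f.c3f s) := by
  have h := f.pull1_mul hv (G.c3a_form s)
  rw [← G.c3a_m hv v1, hz] at h
  exact Pre.dirac_ext ((congrFun h 1).trans (smul_mul_assoc _ _ _))
    ((congrFun h 3).trans (smul_mul_assoc _ _ _))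

theorem c3g_m {v : A} (hv : v ∈ B.W 0) (v1 : star v * v = 1) {z : ℂ} (hz : f.Φ v = z • v)
    (s : G.Sec (wp 0)) : f.c3g (G.c3m hv v1 s) = z • G.c3m hv v1 (f.c3g s) := by
  have h := f.pull2_mul hv (G.c3b_form s)
  have h0 := f.Φ_mul hv (s.mem 0)
  rw [← G.c3b_m hv v1, hz] at h
  rw [hz] at h0
  exact Pre.dirac_ext (h0.trans (smul_mul_assoc _ _ _))
    ((congrFun₂ h 1 3).trans (smul_mul_assoc _ _ _))

variable (hJ : ∀ p, IsRot (f.J p))

include hJ

theorem c3_one {a : Fin 4 → A} (ha : B.Form1 a) {α : Fin 4} (h : a α = 0) : f.pull1 a α = 0 :=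
  B.ext' fun p => by
    obtain ⟨c, -, -, h1, -⟩ := f.rot_ev hJ p
    simp [h1 a ha α, h]

theorem c3_two {a b : Fin 4 → Fin 4 → A} (ha : B.Form2 a) (hb : B.Form2 b) {α β : Fin 4} (z : ℂ)
    (h : a α β = z • b α β) : f.pull2 a α β = z • f.pull2 b α β :=
  B.ext' fun p => by
    obtain ⟨c, -, -, -, h1⟩ := f.rot_ev hJ p
    simp only [h1 a ha α β, h, map_smul, ContinuousMap.smul_apply, h1 b hb α β, smul_eq_mul]
    ring

theorem c3a_f (s : G.Sec (wm 0)) : G.c3a (f.c3f s) = f.pull1 (G.c3a s) := by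
  funext α
  fin_cases α
  · exact (f.c3_one hJ (G.c3a_form s) (α := 0) rfl).symm
  · rfl
  · exact (f.c3_one hJ (G.c3a_form s) (α := 2) rfl).symm
  · rfl

theorem c3b_g (s : G.Sec (wp 0)) : G.c3b (f.c3g s) = f.pull2 (G.c3b s) := by
  have h : ∀ α β, G.c3b s α β = 0 → 0 = f.pull2 (G.c3b s) α β := fun α β h => by
    rw [f.c3_two hJ (G.c3b_form s) (G.c3b_form s) 0 (by rw [h, smul_zero]), zero_smul]
  funext α β
  fin_cases α <;> fin_cases β <;>
    first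
    | exact h _ _ rfl
    | rfl
    | exact (f.pull2_form (G.c3b_form s) 1 3).2.symm

theorem c3f_pow {N : ℕ} (hf : ∀ s ∈ B.W 0, f.Φ^[N] s = s) : f.c3f ^ N = 1 := by
  have h : ∀ (n : ℕ) s, G.c3a ((f.c3f ^ n) s) = f.pull1^[n] (G.c3a s) := fun n => by
    induction n with
    | zero => exact fun _ => rfl
    | succ n ih =>
      intro s
      rw [pow_succ, Module.End.mul_apply, ih, f.c3a_f hJ, Function.iterate_succ_apply]
  refine LinearMap.ext fun s => ?_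
  have h1 := h N s
  rw [f.iter_pull1 hf (G.c3a_form s)] at h1
  exact Pre.dirac_ext (congrFun h1 1) (congrFun h1 3)

theorem c3g_pow {N : ℕ} (hf : ∀ s ∈ B.W 0, f.Φ^[N] s = s) : f.c3g ^ N = 1 := by
  have h : ∀ (n : ℕ) s, ((f.c3g ^ n) s).c 0 = f.Φ^[n] (s.c 0) ∧
      G.c3b ((f.c3g ^ n) s) = f.pull2^[n] (G.c3b s) := fun n => by
    induction n with
    | zero => exact fun _ => ⟨rfl, rfl⟩
    | succ n ih =>
      intro s
      rw [pow_succ, Module.End.mul_apply, (ih _).1, (ih _).2, f.c3b_g hJ]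
      exact ⟨rfl, rfl⟩
  refine LinearMap.ext fun s => ?_
  obtain ⟨h0, h1⟩ := h N s
  rw [f.iter_pull2 hf (G.c3b_form s)] at h1
  exact Pre.dirac_ext (h0.trans (hf _ (s.mem 0))) (congrFun₂ h1 1 3)

theorem c3_comm (s : G.Sec (wm 0)) : f.c3g (G.c3D s) = G.c3D (f.c3f s) := by
  refine Pre.dirac_ext ?_ ?_
  · change f.Φ ((G.c3D s).c 0) = _
    rw [G.c3D_dvg, G.c3D_dvg, f.c3a_f hJ, f.rot_dvg hJ (G.c3a_form s), ← neg_one_smul ℂ,
      f.Φ_smul _ (G.dvg_mem (G.c3a_form s)), neg_one_smul]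
  · change f.pull2 (G.c3b (G.c3D s)) 1 3 = _
    rw [G.c3D_d1, f.c3a_f hJ, ← f.pull2_d1 (G.c3a_form s), ← neg_one_smul ℂ]
    exact f.c3_two hJ (G.c3b_form _) (G.d1_form (G.c3a_form s)) _
      ((G.c3D_d1 s).trans (neg_one_smul ℂ _).symm)

theorem c3f_norm (s : G.Sec (wm 0)) : ‖f.c3f s‖ = ‖s‖ := by
  rw [← sq_eq_sq₀ (norm_nonneg _) (norm_nonneg _), Pre.norm_sq_eq, Pre.norm_sq_eq,
    Fin.sum_univ_two, Fin.sum_univ_two]
  exact congrArg₂ (fun a b : ℝ => a ^ 2 + b ^ 2) (f.rot_nrm hJ (G.c3a_form s) 1)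
    (f.rot_nrm hJ (G.c3a_form s) 3)

end Map

theorem Geo.three_dvd (G : Geo B) (f : Map G.toPre) (hJ : ∀ p, IsRot (f.J p)) {N : ℕ} (hN : 0 < N)
    (hf : ∀ s ∈ B.W 0, f.Φ^[N] s = s) {v : A} (hv : v ∈ B.W 0) (v1 : star v * v = 1)
    (hfv : f.Φ v = Complex.exp (2 * Real.pi * Complex.I / 3) • v) : (3 : ℤ) ∣ G.ind 0 := by
  obtain ⟨Z', -, hE⟩ := (G.dirac_ell 0).symm.add_zo G.c3Z_zo
  have e : G.c3D.restrictScalars ℝ = G.diracAdj 0 + G.c3Z := LinearMap.ext fun _ => rfl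
  have h := cyc3 G.c3D (e ▸ G.pair hE) hN f.c3f f.c3g (f.c3f_pow hJ hf) (f.c3g_pow hJ hf)
    (f.c3_comm hJ) ⟨1, fun s => by rw [f.c3f_norm hJ, one_mul]⟩ (G.c3m hv v1) (G.c3m hv v1)
    (f.c3f_m hv v1 hfv) (f.c3g_m hv v1 hfv) ((G.c3_zo hv v1).norm_le.imp fun _ h => h.2)
  rw [e, G.index_add_zo (G.dirac_ell 0).symm G.c3Z_zo, (G.pair (G.dirac_ell 0)).index_adj] at h
  exact dvd_neg.1 h

end SX4
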