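import Pool.Agent.P.MP_0a0487_an.GZ.GoodB
import Pool.Agent.P.MP_0a0487_an.GZ.Chart

/-! The degree modulo two on a topological manifold. -/

set_option autoImplicit false
set_option linter.unusedSectionVars false

noncomputable section

namespace GZ

open Pool.Agent.P.MP_9699e0_gt HK3 Set Filter Topology Module

variable {X E E' : Type} [TopologicalSpace X] [T2Space X] [NormedAddCommGroup E] [NormedSpace ℝ E]
  [FiniteDimensional ℝ E] [NormedAddCommGroup E'] [NormedSpace ℝ E'] [FiniteDimensional ℝ E']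

/-- Images of compact sets in a chart. -/
def Deg2Pc (E : Type) [TopologicalSpace E] {X : Type} [TopologicalSpace X] (A : Set X) : Prop :=
  ∃ e : OpenPartialHomeomorph E X, ∃ K : Set E, IsCompact K ∧ K ⊆ e.source ∧ A = e '' K

theorem Deg2Pc.closed {A : Set X} (h : Deg2Pc E A) : IsClosed A := by
  obtain ⟨e, K, hK, hs, rfl⟩ := h
  exact (hK.image_of_continuousOn (e.continuousOn.mono hs)).isClosed

theorem Deg2Pc.inter {A B : Set X} (h : Deg2Pc E A) (hB : IsClosed B) : Deg2Pc E (A ∩ B) := by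
  obtain ⟨e, K, hK, hs, rfl⟩ := h
  refine ⟨e, K ∩ e ⁻¹' B, hK.of_isClosed_subset
    ((e.continuousOn.mono hs).preimage_isClosed_of_isClosed hK.isClosed hB) inter_subset_left,
    inter_subset_left.trans hs, ?_⟩
  rw [image_inter_preimage]

theorem deg2_locH {n : ℕ} (hd : finrank ℝ E = n + 2)
    (hX : ∀ x : X, ∃ e : OpenPartialHomeomorph E X, x ∈ e.target) (x : X) : LocH (n + 1) x := by
  obtain ⟨e, hx⟩ := hX x
  have := chart_locH e (e.map_target hx) (locH_lin hd (e.symm x))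
  rwa [e.right_inv hx] at this

theorem deg2_map_inter (l : List (Set X)) (B : Set X) :
    ⋃ A ∈ l.map (fun A => A ∩ B), A = (⋃ A ∈ l, A) ∩ B := by
  ext x
  simp only [List.mem_map, mem_iUnion, mem_inter_iff, exists_prop]
  constructor
  · rintro ⟨_, ⟨A, hA, rfl⟩, hx⟩
    exact ⟨⟨A, hA, hx.1⟩, hx.2⟩
  · rintro ⟨⟨A, hA, hx⟩, hB⟩
    exact ⟨_, ⟨A, hA, rfl⟩, hx, hB⟩

theorem deg2_list {n : ℕ} (hd : finrank ℝ E = n + 2)
    (hX : ∀ x : X, ∃ e : OpenPartialHomeomorph E X, x ∈ e.target) (m : ℕ) :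
    ∀ l : List (Set X), l.length = m → (∀ A ∈ l, Deg2Pc E A) → Good (n + 1) (⋃ A ∈ l, A) := by
  induction m with
  | zero =>
    intro l hl _
    rw [List.length_eq_zero_iff.1 hl]
    simpa using good_empty (n + 1)
  | succ m ih =>
    intro l hl hP
    obtain ⟨A, l', rfl⟩ := List.exists_cons_of_length_eq_add_one hl
    have hl' : l'.length = m := by simpa using hl
    have hA := hP A List.mem_cons_self
    have hP' : ∀ B ∈ l', Deg2Pc E B := fun B hB => hP B (List.mem_cons_of_mem _ hB)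
    have e1 : ⋃ B ∈ A :: l', B = (⋃ B ∈ l', B) ∪ A := by
      ext x
      simp only [List.mem_cons, mem_iUnion, mem_union, exists_prop]
      constructor
      · rintro ⟨B, rfl | hB, hx⟩
        · exact Or.inr hx
        · exact Or.inl ⟨B, hB, hx⟩
      · rintro (⟨B, hB, hx⟩ | hx)
        · exact ⟨B, Or.inr hB, hx⟩
        · exact ⟨A, Or.inl rfl, hx⟩
    rw [e1]
    refine Good.union (fun x _ => deg2_locH hd hX x)
      ((List.finite_toSet l').isClosed_biUnion fun B hB => (hP' B hB).closed) hA.closed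
      (ih l' hl' hP') ?_ ?_
    · obtain ⟨e, K, hK, hs, rfl⟩ := hA
      exact chart_good e hK hs (good_lin hd hK)
    · rw [← deg2_map_inter]
      refine ih _ (by simpa using hl') fun B hB => ?_
      obtain ⟨C, hC, rfl⟩ := List.mem_map.1 hB
      exact (hP' C hC).inter hA.closed

theorem good_compact {n : ℕ} (hd : finrank ℝ E = n + 2)
    (hX : ∀ x : X, ∃ e : OpenPartialHomeomorph E X, x ∈ e.target) {K : Set X} (hK : IsCompact K) :
    Good (n + 1) K := by
  have h1 : ∃ l : List (Set X), (∀ A ∈ l, Deg2Pc E A) ∧ K ⊆ ⋃ A ∈ l, A := by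
    refine hK.induction_on (p := fun s => ∃ l : List (Set X), (∀ A ∈ l, Deg2Pc E A) ∧
      s ⊆ ⋃ A ∈ l, A) ⟨[], by simp, by simp⟩ ?_ ?_ ?_
    · rintro s t hst ⟨l, hl, h⟩
      exact ⟨l, hl, hst.trans h⟩
    · rintro s t ⟨l, hl, h⟩ ⟨l', hl', h'⟩
      refine ⟨l ++ l', fun A hA => (List.mem_append.1 hA).elim (hl A) (hl' A), ?_⟩
      rintro x (hx | hx)
      · obtain ⟨A, hA, hxA⟩ := mem_iUnion₂.1 (h hx)
        exact mem_iUnion₂.2 ⟨A, List.mem_append_left _ hA, hxA⟩
      · obtain ⟨A, hA, hxA⟩ := mem_iUnion₂.1 (h' hx)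
        exact mem_iUnion₂.2 ⟨A, List.mem_append_right _ hA, hxA⟩
    · intro x _
      obtain ⟨e, hx⟩ := hX x
      have : ProperSpace E := FiniteDimensional.proper_real E
      obtain ⟨C, hC, hCs, hCc⟩ := local_compact_nhds (e.open_source.mem_nhds (e.map_target hx))
      have h2 := e.image_mem_nhds (e.map_target hx) hC
      rw [e.right_inv hx] at h2
      refine ⟨e '' C, mem_nhdsWithin_of_mem_nhds h2, [e '' C], fun A hA => ?_, by simp⟩
      rw [List.mem_singleton.1 hA]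
      exact ⟨e, C, hCc, hCs, rfl⟩
  obtain ⟨l, hl, hKl⟩ := h1
  have h3 := deg2_list hd hX _ (l.map fun A => A ∩ K) rfl fun B hB => by
    obtain ⟨C, hC, rfl⟩ := List.mem_map.1 hB
    exact (hl C hC).inter hK.isClosed
  rwa [deg2_map_inter, inter_eq_right.2 hKl] at h3

theorem deg2_push {Y Z : Type} [TopologicalSpace Y] [TopologicalSpace Z] {f : Y → Z}
    (hf : Continuous f) {K : Set Y} {K' : Set Z} (h : MapsTo f Kᶜ K'ᶜ) {n : ℕ} {ζ : C2 Y n}
    (hζ : Nul K ζ) : Nul K' (cmap (ZMod 2) f n ζ) := by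
  obtain ⟨a, ha, b, hb, rfl⟩ := Submodule.mem_sup.1 hζ
  rw [map_add]
  exact Submodule.add_mem_sup (cmap_bdy hf.continuousOn (mapsTo_univ f _) ha)
    (cmap_mem hf.continuousOn h hb)

theorem deg2_close {F : E → E'} {a : E} (h0 : F a = 0) {D : E →L[ℝ] E'}
    (hD : HasFDerivAt F D a) (hi : Function.Injective D) :
    ∀ᶠ x in 𝓝 a, ∀ s ∈ Icc (0 : ℝ) 1, x ≠ a → D (x - a) + s • (F x - D (x - a)) ≠ 0 := by
  obtain ⟨c, hc, hcD⟩ : ∃ c : ℝ, 0 < c ∧ ∀ v : E, c * ‖v‖ ≤ ‖D v‖ := by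
    obtain ⟨K, hK, hA⟩ := LinearMap.exists_antilipschitzWith (D : E →ₗ[ℝ] E')
      (LinearMap.ker_eq_bot.2 hi)
    have hK' : (0 : ℝ) < K := by exact_mod_cast hK
    refine ⟨(K : ℝ)⁻¹, inv_pos.mpr hK', fun v => ?_⟩
    have h1 := hA.le_mul_dist v 0
    simp only [dist_zero_right, map_zero] at h1
    rw [inv_mul_le_iff₀ hK']
    exact h1
  have h1 := hD.isLittleO.bound (half_pos hc)
  filter_upwards [h1] with x hx s hs hxa h
  rw [h0, sub_zero] at hx
  have h2 : D (x - a) = -(s • (F x - D (x - a))) := eq_neg_of_add_eq_zero_left h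
  have h3 : ‖D (x - a)‖ ≤ c / 2 * ‖x - a‖ := by
    calc ‖D (x - a)‖ = ‖s • (F x - D (x - a))‖ := by
          conv_lhs => rw [h2]
          exact norm_neg _
      _ = s * ‖F x - D (x - a)‖ := by rw [norm_smul, Real.norm_of_nonneg hs.1]
      _ ≤ 1 * ‖F x - D (x - a)‖ := mul_le_mul_of_nonneg_right hs.2 (norm_nonneg _)
      _ ≤ c / 2 * ‖x - a‖ := by rw [one_mul]; exact hx
  have h4 := hcD (x - a)
  have h5 : 0 < ‖x - a‖ := norm_pos_iff.mpr (sub_ne_zero.mpr hxa)
  nlinarith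

theorem deg2_aux {n : ℕ} (hn : finrank ℝ E = n + 2) (hd : finrank ℝ E = finrank ℝ E')
    (hX : ∀ x : X, ∃ e : OpenPartialHomeomorph E X, x ∈ e.target) (H : ℝ → X → E')
    (hH : ContinuousOn (fun p : ℝ × X => H p.1 p.2) (Icc 0 1 ×ˢ univ)) {K : Set X}
    (hK : IsCompact K) (hZ : ∀ t ∈ Icc (0 : ℝ) 1, ∀ x, H t x = 0 → x ∈ K)
    (e : OpenPartialHomeomorph E X) {v : E} (hv : v ∈ e.source) (h0 : ∀ x, H 0 x = 0 ↔ x = e v)
    {T : E →L[ℝ] E'} (hT : HasFDerivAt (fun y => H 0 (e y)) T v) (hi : Function.Injective T) :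
    ∃ x, H 1 x = 0 := by
  by_contra hne
  push Not at hne
  obtain ⟨ζ, hζ, hnz⟩ := (good_compact hn hX hK).ex
  have z0 : (0 : ℝ) ∈ Icc (0 : ℝ) 1 := ⟨le_rfl, zero_le_one⟩
  have z1 : (1 : ℝ) ∈ Icc (0 : ℝ) 1 := ⟨zero_le_one, le_rfl⟩
  have hvK : e v ∈ K := hZ 0 z0 _ ((h0 _).2 rfl)
  have hc : ∀ t ∈ Icc (0 : ℝ) 1, Continuous (H t) := fun t ht =>
    hH.comp_continuous (f := fun x : X => (t, x)) (continuous_const.prodMk continuous_id)
      fun x => ⟨ht, mem_univ x⟩
  have hu : ζ ∈ chn (ZMod 2) (univ : Set X) (n + 1 + 1) := by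
    rw [chn_univ]
    trivial
  have a1 : Nul ({0} : Set E') (cmap (ZMod 2) (H 1) (n + 1 + 1) ζ) :=
    Submodule.mem_sup_right (cmap_mem (hc 1 z1).continuousOn (fun x _ => hne x) hu)
  have a2 : Nul ({0} : Set E') (cmap (ZMod 2) (H 1) (n + 1 + 1) ζ -
      cmap (ZMod 2) (H 0) (n + 1 + 1) ζ) :=
    htpy_rel H (S := univ) (T := Kᶜ) (S' := univ) (T' := ({0} : Set E')ᶜ) hH
      (fun _ _ _ _ => mem_univ _) (fun s hs x hx h => hx.2 (hZ s hs x h)) hu hζ
  have a3 : Nul ({0} : Set E') (cmap (ZMod 2) (H 0) (n + 1 + 1) ζ) := by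
    have := a1.sub a2
    rwa [sub_sub_cancel] at this
  obtain ⟨U, hU, hUo, hvU⟩ := eventually_nhds_iff.mp
    (deg2_close (F := fun y => H 0 (e y)) ((h0 (e v)).2 rfl) hT hi)
  obtain ⟨ξ, hξ, hrξ, hnξ⟩ := chart_rep e (K := {v}) (V := U ∩ e.source) isCompact_singleton
    (hUo.inter e.open_source) (singleton_subset_iff.2 ⟨hvU, hv⟩) inter_subset_right
    (hζ.mono (K' := e '' {v}) (by rw [image_singleton]; exact singleton_subset_iff.2 hvK))
  have hce : ContinuousOn e (U ∩ e.source) := e.continuousOn.mono inter_subset_right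
  have a4 : Nul ({0} : Set E') (cmap (ZMod 2) (H 0 ∘ e) (n + 1 + 1) ξ) := by
    have h1 := deg2_push (hc 0 z0) (K' := ({0} : Set E')) (fun x hx h => hx (by
      rw [image_singleton]
      exact (h0 x).1 h)) hnξ
    rw [map_sub, cmap_comp hce hξ] at h1
    have := a3.sub h1
    rwa [sub_sub_cancel] at this
  have hGc : Continuous (fun y : E => T (y - v)) :=
    T.continuous.comp (continuous_id.sub continuous_const)
  have hG : ContinuousOn (fun p : ℝ × E => T (p.2 - v) + p.1 • (H 0 (e p.2) - T (p.2 - v)))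
      (Icc 0 1 ×ˢ (U ∩ e.source)) := by
    have h1 : ContinuousOn (fun p : ℝ × E => H 0 (e p.2)) (Icc 0 1 ×ˢ (U ∩ e.source)) :=
      (hc 0 z0).comp_continuousOn (hce.comp continuous_snd.continuousOn (fun p hp => hp.2))
    have h2 : Continuous (fun p : ℝ × E => T (p.2 - v)) := hGc.comp continuous_snd
    exact h2.continuousOn.add (continuous_fst.continuousOn.smul (h1.sub h2.continuousOn))
  have key := htpy_rel (R := ZMod 2) (fun s y => T (y - v) + s • (H 0 (e y) - T (y - v)))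
    (S := U ∩ e.source) (T := {v}ᶜ) (S' := univ) (T' := ({0} : Set E')ᶜ) hG
    (fun _ _ _ _ => mem_univ _) (fun s hs x hx => hU x hx.1.1 s hs hx.2) hξ hrξ
  have f1 : (fun y => T (y - v) + (1 : ℝ) • (H 0 (e y) - T (y - v))) = H 0 ∘ e := by
    funext x
    rw [one_smul, add_sub_cancel]
    rfl
  have f0 : (fun y => T (y - v) + (0 : ℝ) • (H 0 (e y) - T (y - v))) = fun y => T (y - v) := by
    funext x
    rw [zero_smul, add_zero]
  rw [f1, f0] at key
  have a5 : Nul ({0} : Set E') (cmap (ZMod 2) (fun y => T (y - v)) (n + 1 + 1) ξ) := by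
    have := a4.sub key
    rwa [sub_sub_cancel] at this
  let L : E ≃L[ℝ] E' :=
    (LinearMap.linearEquivOfInjective (T : E →ₗ[ℝ] E') hi hd).toContinuousLinearEquiv
  have hL : ∀ y, L y = T y := fun _ => rfl
  have a6 : Nul ({v} : Set E) ξ := by
    have h1 := deg2_push (f := fun z => L.symm z + v) (L.symm.continuous.add continuous_const)
      (K' := ({v} : Set E)) (fun z hz h => hz (by
        have h2 : L.symm z = 0 := add_eq_right.1 h
        exact L.symm.map_eq_zero_iff.1 h2)) a5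
    have h3 : ((fun z => L.symm z + v) ∘ fun y => T (y - v)) = id := by
      funext y
      change L.symm (T (y - v)) + v = y
      rw [← hL, L.symm_apply_apply, sub_add_cancel]
    rwa [cmap_comp hGc.continuousOn hξ, h3, cmap_id] at h1
  have a7 := (chart_nul e isCompact_singleton (singleton_subset_iff.2 hv)
    (chn_mono inter_subset_right _ hξ)).2 a6
  have a8 := hnξ.add a7
  rw [sub_add_cancel, image_singleton] at a8
  exact hnz _ hvK a8

/-- A unique nondegenerate zero survives a homotopy with compact zero set. -/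
theorem deg2 (hd : finrank ℝ E = finrank ℝ E')
    (hX : ∀ x : X, ∃ e : OpenPartialHomeomorph E X, x ∈ e.target) (H : ℝ → X → E')
    (hH : ContinuousOn (fun p : ℝ × X => H p.1 p.2) (Icc 0 1 ×ˢ univ)) {K : Set X}
    (hK : IsCompact K) (hZ : ∀ t ∈ Icc (0 : ℝ) 1, ∀ x, H t x = 0 → x ∈ K)
    (e : OpenPartialHomeomorph E X) {v : E} (hv : v ∈ e.source) (h0 : ∀ x, H 0 x = 0 ↔ x = e v)
    {T : E →L[ℝ] E'} (hT : HasFDerivAt (fun y => H 0 (e y)) T v) (hi : Function.Injective T) :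
    ∃ x, H 1 x = 0 := by
  have hn : finrank ℝ (E × (Fin 2 → ℝ)) = finrank ℝ E + 2 := by
    rw [finrank_prod, finrank_fin_fun]
  have hn' : finrank ℝ (E × (Fin 2 → ℝ)) = finrank ℝ (E' × (Fin 2 → ℝ)) := by
    rw [finrank_prod, finrank_prod, hd]
  obtain ⟨x, hx⟩ := deg2_aux (X := X × (Fin 2 → ℝ)) hn hn'
    (fun p => by
      obtain ⟨e', he'⟩ := hX p.1
      exact ⟨e'.prod (OpenPartialHomeomorph.refl _), he', mem_univ _⟩)
    (fun t p => (H t p.1, p.2))
    ((hH.comp (f := fun q : ℝ × X × (Fin 2 → ℝ) => (q.1, q.2.1))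
      (continuous_fst.prodMk (continuous_fst.comp continuous_snd)).continuousOn
      fun q hq => ⟨hq.1, mem_univ _⟩).prodMk (continuous_snd.comp continuous_snd).continuousOn)
    (K := K ×ˢ {0}) (hK.prod isCompact_singleton)
    (fun t ht p hp => ⟨hZ t ht p.1 (congrArg Prod.fst hp), congrArg Prod.snd hp⟩)
    (e.prod (OpenPartialHomeomorph.refl _)) (v := (v, 0)) ⟨hv, mem_univ _⟩
    (fun p => by
      rw [Prod.mk_eq_zero, h0, Prod.ext_iff]
      rfl)
    (T := T.prodMap (ContinuousLinearMap.id ℝ (Fin 2 → ℝ)))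
    (HasFDerivAt.prodMap (p := (v, (0 : Fin 2 → ℝ))) hT (hasFDerivAt_id _))
    (hi.prodMap Function.injective_id)
  exact ⟨x.1, congrArg Prod.fst hx⟩

end GZ
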