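import Pool.Agent.P.MP_0a0487_an.GZ.Deg2

/-! The degree modulo two on the quotient by an equivalence relation with slices. -/

set_option autoImplicit false
set_option linter.unusedSectionVars false

noncomputable section

namespace GZ

open Set Filter Topology Module
open scoped ComplexConjugate

/-- `s` parametrises an open set of classes. -/
structure Slc {Z E : Type} [TopologicalSpace Z] [TopologicalSpace E] (Ω : Set Z)
    (r : Z → Z → Prop) (V : Set E) (s : E → Z) : Prop where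
  opn : IsOpen V
  cont : ContinuousOn s V
  mem : MapsTo s V Ω
  inj : ∀ v ∈ V, ∀ v' ∈ V, r (s v) (s v') → v = v'
  sat : ∀ V' ⊆ V, IsOpen V' → ∃ O, IsOpen O ∧ ∀ x ∈ Ω, x ∈ O ↔ ∃ v ∈ V', r x (s v)

variable {Z E E' : Type} [TopologicalSpace Z] [NormedAddCommGroup E] [NormedSpace ℝ E]
  [FiniteDimensional ℝ E] [NormedAddCommGroup E'] [NormedSpace ℝ E'] [FiniteDimensional ℝ E']

theorem Deg2R_chart {X : Type} [TopologicalSpace X] {Ω : Set Z} {r : Z → Z → Prop} {π : Ω → X}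
    (hπ : IsQuotientMap π) (hr : ∀ x y : Ω, π x = π y ↔ r x y) {V : Set E} {s : E → Z}
    (h : Slc Ω r V s) (x₀ : Ω) : ∃ e : OpenPartialHomeomorph E X, e.source = V ∧
      ∀ v (hv : v ∈ V), e v = π ⟨s v, h.mem hv⟩ := by
  classical
  let f : E → X := fun v => if hv : v ∈ V then π ⟨s v, h.mem hv⟩ else π x₀
  have hf : ∀ v (hv : v ∈ V), f v = π ⟨s v, h.mem hv⟩ := fun v hv => dif_pos hv
  have hinj : InjOn f V := fun v hv w hw hvw => by
    rw [hf v hv, hf w hw] at hvw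
    exact h.inj v hv w hw ((hr _ _).1 hvw)
  have hc : ContinuousOn f V := by
    rw [continuousOn_iff_continuous_domRestrict]
    have h1 : Continuous fun v : V => π ⟨s v, h.mem v.2⟩ :=
      hπ.continuous.comp ((continuousOn_iff_continuous_domRestrict.1 h.cont).subtype_mk _)
    exact h1.congr fun v => (hf v v.2).symm
  refine ⟨OpenPartialHomeomorph.ofContinuousOpenRestrict (hinj.toPartialEquiv f V) hc ?_ h.opn,
    rfl, hf⟩
  intro U hU
  obtain ⟨O, hO, hO'⟩ := h.sat (Subtype.val '' U) (by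
    rintro _ ⟨u, -, rfl⟩
    exact u.2) (h.opn.isOpenMap_subtype_val U hU)
  rw [← hπ.isOpen_preimage]
  have h2 : IsOpen (Subtype.val ⁻¹' O : Set Ω) := hO.preimage continuous_subtype_val
  refine (congrArg IsOpen ?_).mp h2
  ext x
  rw [mem_preimage, hO' x x.2, mem_preimage]
  constructor
  · rintro ⟨_, ⟨u, hu, rfl⟩, hx⟩
    exact ⟨u, hu, (hf u u.2).trans ((hr x ⟨_, h.mem u.2⟩).2 hx).symm⟩
  · rintro ⟨u, hu, hx⟩
    exact ⟨u, ⟨u, hu, rfl⟩, (hr x ⟨_, h.mem u.2⟩).1 (((hf u u.2).symm.trans hx).symm)⟩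

theorem deg2r (hd : finrank ℝ E = finrank ℝ E') {Ω : Set Z} {r : Z → Z → Prop}
    (refl : ∀ x ∈ Ω, r x x) (symm : ∀ x ∈ Ω, ∀ y ∈ Ω, r x y → r y x)
    (trans : ∀ x ∈ Ω, ∀ y ∈ Ω, ∀ z ∈ Ω, r x y → r y z → r x z)
    (hcl : ∀ x ∈ Ω, ∀ y ∈ Ω, ¬ r x y → ∀ᶠ p : Z × Z in 𝓝 (x, y), p.1 ∈ Ω → p.2 ∈ Ω → ¬ r p.1 p.2)
    (hs : ∀ x ∈ Ω, ∃ (V : Set E) (s : E → Z), Slc Ω r V s ∧ ∃ v ∈ V, r x (s v))
    (H : ℝ → Z → E') (hH : ContinuousOn (fun p : ℝ × Z => H p.1 p.2) (Icc 0 1 ×ˢ Ω))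
    (hr : ∀ t ∈ Icc (0 : ℝ) 1, ∀ x ∈ Ω, ∀ y ∈ Ω, r x y → H t x = H t y) {K : Set Z}
    (hK : IsCompact K) (hKΩ : K ⊆ Ω)
    (hZ : ∀ t ∈ Icc (0 : ℝ) 1, ∀ x ∈ Ω, H t x = 0 → ∃ y ∈ K, r x y)
    {V : Set E} {s : E → Z} (h₀ : Slc Ω r V s) {v : E} (hv : v ∈ V)
    (h0 : ∀ x ∈ Ω, H 0 x = 0 ↔ r x (s v))
    {T : E →L[ℝ] E'} (hT : HasFDerivAt (fun y => H 0 (s y)) T v) (hi : Function.Injective T) :
    ∃ x ∈ Ω, H 1 x = 0 := by
  let S : Setoid Ω := ⟨fun x y => r x y, fun x => refl x x.2, fun {x y} h => symm x x.2 y y.2 h,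
    fun {x y z} h h' => trans x x.2 y y.2 z z.2 h h'⟩
  let π : Ω → Quotient S := Quotient.mk S
  have hπ : IsQuotientMap π := isQuotientMap_quotient_mk'
  have hπr : ∀ x y : Ω, π x = π y ↔ r x y := fun x y => Quotient.eq
  have hch : ∀ x : Quotient S, ∃ (V : Set E) (s : E → Z) (h : Slc Ω r V s)
      (e : OpenPartialHomeomorph E (Quotient S)), e.source = V ∧
        (∀ v (hv : v ∈ V), e v = π ⟨s v, h.mem hv⟩) ∧ ∃ v ∈ V, x = e v := by
    intro x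
    obtain ⟨x, rfl⟩ := hπ.surjective x
    obtain ⟨V, s, h, v, hv, hxv⟩ := hs x x.2
    obtain ⟨e, he, he'⟩ := Deg2R_chart hπ hπr h x
    exact ⟨V, s, h, e, he, he', v, hv, by rw [he' v hv]; exact (hπr _ _).2 hxv⟩
  have : T2Space (Quotient S) := by
    refine t2Space_iff_disjoint_nhds.2 fun x y hxy => ?_
    obtain ⟨V, s, h, e, he, he', v, hv, rfl⟩ := hch x
    obtain ⟨W, u, k, f, hf, hf', w, hw, rfl⟩ := hch y
    have h1 : ¬ r (s v) (u w) := fun h2 => hxy (by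
      rw [he' v hv, hf' w hw]
      exact (hπr _ _).2 h2)
    have h2 : ContinuousAt (Prod.map s u) (v, w) :=
      (h.cont.continuousAt (h.opn.mem_nhds hv)).prodMap (k.cont.continuousAt (k.opn.mem_nhds hw))
    have h3 := h2.eventually (hcl _ (h.mem hv) _ (k.mem hw) h1)
    rw [nhds_prod_eq, eventually_prod_iff] at h3
    obtain ⟨pa, ha, pb, hb, hab⟩ := h3
    rw [← e.map_nhds_eq (he ▸ hv), ← f.map_nhds_eq (hf ▸ hw)]
    refine Filter.disjoint_iff.2 ⟨e '' {x | pa x ∧ x ∈ V},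
      image_mem_map (ha.and (h.opn.mem_nhds hv)), f '' {x | pb x ∧ x ∈ W},
      image_mem_map (hb.and (k.opn.mem_nhds hw)), ?_⟩
    rw [Set.disjoint_left]
    rintro _ ⟨a, ⟨ha1, ha2⟩, rfl⟩ ⟨b, ⟨hb1, hb2⟩, hba⟩
    rw [he' a ha2, hf' b hb2] at hba
    exact hab ha1 hb1 (h.mem ha2) (k.mem hb2) ((hπr _ _).1 hba.symm)
  let σ : Quotient S → Ω := Function.surjInv hπ.surjective
  have hσ : ∀ x, π (σ x) = x := Function.surjInv_eq _
  have hH' : ∀ t ∈ Icc (0 : ℝ) 1, ∀ y : Ω, H t (σ (π y)) = H t y := fun t ht y =>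
    hr t ht _ (σ (π y)).2 _ y.2 ((hπr _ _).1 (hσ _))
  obtain ⟨e, he, he'⟩ := Deg2R_chart hπ hπr h₀ ⟨s v, h₀.mem hv⟩
  have h01 : (0 : ℝ) ∈ Icc (0 : ℝ) 1 := ⟨le_rfl, zero_le_one⟩
  obtain ⟨x, hx⟩ := deg2 (X := Quotient S) hd
    (fun x => by
      obtain ⟨V, s, h, e, he, -, v, hv, rfl⟩ := hch x
      exact ⟨e, e.map_source (he ▸ hv)⟩)
    (fun t x => H t (σ x))
    (by
      rintro ⟨t, x⟩ hp
      obtain ⟨V, s, h, e, he, he', v, hv, rfl⟩ := hch x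
      have hm : ∀ y ∈ e.target, e.symm y ∈ V := fun y hy => he ▸ e.map_target hy
      have h1 : ContinuousOn (fun p : ℝ × Quotient S => (p.1, s (e.symm p.2)))
          (Icc 0 1 ×ˢ e.target) :=
        continuousOn_fst.prodMk ((h.cont.comp e.continuousOn_symm hm).comp continuousOn_snd
          fun p hp => hp.2)
      have h2 : ContinuousOn (fun p : ℝ × Quotient S => H p.1 (σ p.2)) (Icc 0 1 ×ˢ e.target) := by
        refine (hH.comp h1 fun p hp => ⟨hp.1, h.mem (hm _ hp.2)⟩).congr fun p hp => ?_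
        have h3 := hH' p.1 hp.1 ⟨_, h.mem (hm _ hp.2)⟩
        rw [← he' _ (hm _ hp.2), e.right_inv hp.2] at h3
        exact h3
      have h4 : e v ∈ e.target := e.map_source (he ▸ hv)
      refine (h2 (t, e v) ⟨hp.1, h4⟩).mono_of_mem_nhdsWithin ?_
      refine mem_nhdsWithin.2 ⟨univ ×ˢ e.target, isOpen_univ.prod e.open_target,
        ⟨mem_univ _, h4⟩, fun p hp => ⟨hp.2.1, hp.1.2⟩⟩)
    (K := π '' (Subtype.val ⁻¹' K))
    ((IsInducing.subtypeVal.isCompact_preimage' hK (by rwa [Subtype.range_coe])).image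
      hπ.continuous)
    (fun t ht x hx => by
      obtain ⟨y, hy, hxy⟩ := hZ t ht _ (σ x).2 hx
      exact ⟨⟨y, hKΩ hy⟩, hy, ((hπr (σ x) ⟨y, hKΩ hy⟩).2 hxy).symm.trans (hσ x)⟩)
    e (v := v) (he ▸ hv)
    (fun x => by
      rw [h0 _ (σ x).2, he' v hv, ← hπr (σ x) ⟨s v, h₀.mem hv⟩, hσ])
    (T := T)
    (by
      refine hT.congr_of_eventuallyEq ?_
      filter_upwards [h₀.opn.mem_nhds hv] with y hy
      rw [he' y hy, hH' 0 h01])
    hi
  exact ⟨σ x, (σ x).2, hx⟩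

end GZ
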