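import Pool.Agent.P.MP_0a0487_an.GZ.FamSlc

/-! The degree modulo two on the quotient by the gauge group. -/

set_option autoImplicit false
set_option linter.unusedSectionVars false

noncomputable section

namespace GZ

open Set Filter Topology Module
open scoped ComplexConjugate

variable {b : ℕ} {U U' Y Y' Z : Type} [NormedAddCommGroup U] [NormedSpace ℂ U] [NormedSpace ℝ U]
  [IsScalarTower ℝ ℂ U] [FiniteDimensional ℂ U] [NormedAddCommGroup U'] [NormedSpace ℂ U']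
  [NormedSpace ℝ U'] [IsScalarTower ℝ ℂ U'] [FiniteDimensional ℂ U'] [NormedAddCommGroup Y]
  [NormedSpace ℝ Y] [FiniteDimensional ℝ Y] [NormedAddCommGroup Y'] [NormedSpace ℝ Y']
  [FiniteDimensional ℝ Y'] [NormedAddCommGroup Z] [NormedSpace ℝ Z] [FiniteDimensional ℝ Z]

theorem FamDegAdapt (Φ : Fam b U U' Y Y') {a : Fin b → ℝ} {w : U} (hw : w ∈ Φ.W a) (h0 : w ≠ 0) :
    ∃ k', Φ.k = k' + 1 ∧ ∃ (s : Set (Fin b → ℝ))
      (S : (Fin b → ℝ) → (Fin (k' + 1) → ℂ) →L[ℂ] U),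
      a ∈ s ∧ IsFrame Φ.W s S ∧ S a (Fin.cons 1 0) = w := by
  obtain ⟨s, S, ha, hS, -⟩ := Φ.frame a
  obtain ⟨x, hx⟩ := (hS.rng a ha w).1 hw
  have hx0 : x ≠ 0 := by
    rintro rfl
    exact h0 (by rw [← hx, map_zero])
  obtain ⟨k', g, hk, hg⟩ := exists_adapt hx0
  refine ⟨k', hk, s, _, ha, hS.comp g, ?_⟩
  rw [← hx, ← hg]
  rfl

theorem FamDegIota {k : ℕ} (S : (Fin (k + 1) → ℂ) →L[ℂ] U) :
    ∃ ι : (((Fin b → ℝ) × (ℝ × (Fin k → ℂ)) × Y) × Z) →L[ℝ] ((Fin b → ℝ) × U × Y) × Z,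
      ∀ v, ι v = ((v.1.1, S (Fin.cons (v.1.2.1.1 : ℂ) v.1.2.1.2), v.1.2.2), v.2) := by
  have e1 : ∀ (r r' : ℝ) (x x' : Fin k → ℂ), S (Fin.cons ((r + r' : ℝ) : ℂ) (x + x')) =
      S (Fin.cons (r : ℂ) x) + S (Fin.cons (r' : ℂ) x') := fun r r' x x' => by
    rw [← map_add]
    refine congrArg S (funext fun i => ?_)
    refine Fin.cases ?_ (fun i => ?_) i <;> simp
  have e2 : ∀ (c r : ℝ) (x : Fin k → ℂ), S (Fin.cons ((c • r : ℝ) : ℂ) (c • x)) =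
      c • S (Fin.cons (r : ℂ) x) := fun c r x => by
    rw [← S.map_smul_of_tower]
    refine congrArg S (funext fun i => ?_)
    refine Fin.cases ?_ (fun i => ?_) i <;> simp
  exact ⟨LinearMap.toContinuousLinearMap
    { toFun := fun v => ((v.1.1, S (Fin.cons (v.1.2.1.1 : ℂ) v.1.2.1.2), v.1.2.2), v.2)
      map_add' := fun v v' => Prod.ext (Prod.ext rfl (Prod.ext (e1 _ _ _ _) rfl)) rfl
      map_smul' := fun c v => Prod.ext (Prod.ext rfl (Prod.ext (e2 _ _ _) rfl)) rfl },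
    fun _ => rfl⟩

theorem Fam.deg (Φ : Fam b U U' Y Y') {E' : Type} [NormedAddCommGroup E'] [NormedSpace ℝ E']
    [FiniteDimensional ℝ E'] {w₀ : U} (hw : w₀ ∈ Φ.W 0) (hc : ∀ᶠ a in 𝓝 0, Φ.W a = Φ.W 0)
    {c : Prop} {j : U →L[ℝ] U} (h1 : c → ∀ (z : ℂ) w, j (z • w) = conj z • j w)
    (h2 : c → ∀ w, j (j w) = -w) (h3 : c → ∀ a w, w ∈ Φ.W a → j w ∈ Φ.W (-a))
    (hd : 2 * finrank ℂ U' + finrank ℝ Y' + finrank ℝ Z = finrank ℝ E')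
    {O : Set (((Fin b → ℝ) × U × Y) × Z)} (hO : IsOpen O) (hO0 : ∀ p ∈ O, p.1.2.1 ≠ 0)
    (hOr : ∀ p ∈ O ∩ Φ.Tot Z, ∀ q, Rel c j p q → q ∈ O)
    (H : ℝ → ((Fin b → ℝ) × U × Y) × Z → E')
    (hH : ContinuousOn (fun p : ℝ × (((Fin b → ℝ) × U × Y) × Z) => H p.1 p.2)
      (Icc 0 1 ×ˢ (O ∩ Φ.Tot Z)))
    (hr : ∀ t ∈ Icc (0 : ℝ) 1, ∀ p ∈ O ∩ Φ.Tot Z, ∀ q, Rel c j p q → H t q = H t p)
    {K : Set (((Fin b → ℝ) × U × Y) × Z)} (hK : IsCompact K) (hKO : K ⊆ O ∩ Φ.Tot Z)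
    (hZ : ∀ t ∈ Icc (0 : ℝ) 1, ∀ p ∈ O ∩ Φ.Tot Z, H t p = 0 → ∃ q ∈ K, Rel c j p q)
    {ζ₀ : Z} (hb : ((0, w₀, 0), ζ₀) ∈ O)
    (h0 : ∀ p ∈ O ∩ Φ.Tot Z, H 0 p = 0 ↔ Rel c j p ((0, w₀, 0), ζ₀))
    {G : ((Fin b → ℝ) × U × Y) × Z → E'} {T : (((Fin b → ℝ) × U × Y) × Z) →L[ℝ] E'}
    (hG : HasFDerivAt G T ((0, w₀, 0), ζ₀))
    (hG' : ∀ᶠ p in 𝓝 (((0, w₀, 0), ζ₀) : ((Fin b → ℝ) × U × Y) × Z),
      p.1.2.1 ∈ Φ.W 0 → H 0 p = G p)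
    (hT : ∀ p : ((Fin b → ℝ) × U × Y) × Z, p.1.2.1 ∈ Φ.W 0 → T p = 0 →
      p.1.1 = 0 ∧ p.1.2.2 = 0 ∧ p.2 = 0 ∧ ∃ t : ℝ, p.1.2.1 = ((t : ℂ) * Complex.I) • w₀) :
    ∃ p ∈ O ∩ Φ.Tot Z, H 1 p = 0 := by
  obtain ⟨k, hk, s, S, hs0, hS, hSw⟩ := FamDegAdapt Φ hw (hO0 _ hb)
  have hF : IsFrame Φ.W (interior {a | Φ.W a = Φ.W 0}) fun _ => S 0 :=
    ⟨isOpen_interior, ⟨0, (LipschitzWith.const _).lipschitzOnWith⟩, fun _ _ => hS.inj 0 hs0,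
      fun a ha w => by
        rw [show Φ.W a = Φ.W 0 from interior_subset (s := {a | Φ.W a = Φ.W 0}) ha]
        exact hS.rng 0 hs0 w⟩
  have ha : (0 : Fin b → ℝ) ∈ interior {a | Φ.W a = Φ.W 0} := mem_interior_iff_mem_nhds.2 hc
  obtain ⟨V, hV, hsl⟩ := Fam.slc h1 h2 Φ h3 hO hO0 hOr hF ha (y₀ := 0) (ζ₀ := ζ₀)
    (by rw [hSw]; exact hb)
  obtain ⟨ι, hι⟩ := FamDegIota (b := b) (Y := Y) (Z := Z) (S 0)
  have hv : ι ((0, (1, 0), 0), ζ₀) = ((0, w₀, 0), ζ₀) := by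
    rw [hι, ← hSw]
    rfl
  have hW : ∀ v, (ι v).1.2.1 ∈ Φ.W 0 := fun v => by
    rw [hι]
    exact (hS.rng 0 hs0 _).2 ⟨_, rfl⟩
  have hsl' : Slc (O ∩ Φ.Tot Z) (Rel c j) V ι := by
    rw [show ⇑ι = _ from funext hι]
    exact hsl
  refine deg2r ?_ (fun x _ => Rel.refl x) (fun x _ y _ h => Rel.symm h1 h2 h)
    (fun x _ y _ z _ h h' => Rel.trans h1 h2 h h') (fun x _ y _ h => ?_) (fun p hp => ?_) H hH
    (fun t ht x hx y _ h => (hr t ht x hx y h).symm) hK hKO hZ hsl' hV (by rw [hv]; exact h0)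
    (T := T.comp ι) ?_ ((injective_iff_map_eq_zero _).2 fun v hv0 => ?_)
  · have e := Φ.dim
    have e' : finrank ℝ (Fin k → ℂ) = 2 * k := by
      rw [Module.finrank_pi_fintype]
      simp [mul_comm]
    rw [← hd, finrank_prod, finrank_prod, finrank_prod, finrank_prod, e', finrank_self,
      Module.finrank_fin_fun]
    omega
  · filter_upwards [(Rel.isClosed (c := c) (j := j)).isOpen_compl.mem_nhds (x := (x, y)) h]
      with p hp _ _ using hp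
  · obtain ⟨k', hk', s', S', ha', hS', hw'⟩ := FamDegAdapt Φ hp.2 (hO0 p hp.1)
    obtain rfl : k' = k := by omega
    obtain ⟨V', hV', hq⟩ := Fam.slc h1 h2 Φ h3 hO hO0 hOr hS' ha' (y₀ := p.1.2.2) (ζ₀ := p.2)
      (by rw [hw']; exact hp.1)
    refine ⟨V', _, hq, _, hV', ?_⟩
    simp only [Complex.ofReal_one, hw']
    exact Rel.refl p
  · rw [← hv] at hG hG'
    refine (hG.comp _ ι.hasFDerivAt).congr_of_eventuallyEq ?_
    filter_upwards [ι.continuous.continuousAt.eventually hG'] with v hv' using hv' (hW v)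
  · obtain ⟨e1, e2, e3, t, e4⟩ := hT (ι v) (hW v) hv0
    rw [hι] at e1 e2 e3 e4
    rw [← hSw, ← map_smul] at e4
    have e5 := hS.inj 0 hs0 e4
    have e6 := congrArg Complex.re (congrFun e5 0)
    refine Prod.ext (Prod.ext e1 (Prod.ext (Prod.ext ?_ (funext fun i => ?_)) e2)) e3
    · simpa using e6
    · simpa using congrFun e5 i.succ

end GZ
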