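import Pool.Agent.P.MP_0a0487_an.GZ.TDefs

/-! Generic parameters. -/

set_option autoImplicit false
set_option linter.unusedSectionVars false

noncomputable section

namespace GZ

open Set Filter Topology Module
open scoped ComplexConjugate

variable {E T Pm : Type} [NormedAddCommGroup E] [NormedSpace ℝ E] [FiniteDimensional ℝ E]
  [NormedAddCommGroup T] [NormedSpace ℝ T] [FiniteDimensional ℝ T]
  [NormedAddCommGroup Pm] [NormedSpace ℝ Pm] [FiniteDimensional ℝ Pm]

theorem Thin.mono {S S' : Set Pm} (h : Thin S) (hS : S' ⊆ S) : Thin S' := by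
  rcases h with h | h
  · exact Or.inl (subset_eq_empty hS h)
  · exact Or.inr ((add_le_add_left (dimH_mono hS) 1).trans h)

theorem Thin.iUnion {ι : Type} [Countable ι] {S : ι → Set Pm} (h : ∀ i, Thin (S i)) :
    Thin (⋃ i, S i) := by
  by_cases e : ∀ i, S i = ∅
  · exact Or.inl (iUnion_eq_empty.2 e)
  · obtain ⟨j, hj⟩ := not_forall.1 e
    have : Nonempty ι := ⟨j⟩
    have h1 : (1 : ENNReal) ≤ finrank ℝ Pm := le_add_self.trans ((h j).resolve_left hj)
    refine Or.inr ?_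
    rw [dimH_iUnion, ENNReal.iSup_add]
    refine iSup_le fun i => ?_
    rcases h i with k | k
    · rw [k, dimH_empty, zero_add]
      exact h1
    · exact k

theorem Thin.union {S S' : Set Pm} (h : Thin S) (h' : Thin S') : Thin (S ∪ S') := by
  rw [union_eq_iUnion]
  exact Thin.iUnion fun b => by cases b <;> assumption

theorem Thin.dense {S : Set Pm} (h : Thin S) : Dense Sᶜ := by
  rcases h with h | h
  · rw [h, compl_empty]
    exact dense_univ
  · exact dense_compl_of_dimH_lt_finrank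
      ((ENNReal.lt_add_right (Real.dimH_ne_top S) one_ne_zero).trans_le h)

/-- An overdetermined family of equations has no solution for generic values of the parameter. -/
theorem gen (hd : finrank ℝ E < finrank ℝ T) {D : Set E} {f : E → T} {M : E → Pm →L[ℝ] T}
    (hf : ∀ x ∈ D, ∃ C : NNReal, ∃ s ∈ 𝓝[D] x, LipschitzOnWith C f s)
    (hM : ∀ x ∈ D, ∃ C : NNReal, ∃ s ∈ 𝓝[D] x, LipschitzOnWith C M s)
    (hs : ∀ x ∈ D, Function.Surjective (M x)) : Thin {π : Pm | ∃ x ∈ D, f x + M x π = 0} := by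
  have key : ∀ x₀ ∈ D, ∃ D' ∈ 𝓝[D] x₀, Thin {π : Pm | ∃ x ∈ D ∩ D', f x + M x π = 0} := by
    intro x₀ h₀
    obtain ⟨σ₀, hσ₀⟩ := (M x₀).toLinearMap.exists_rightInverse_of_surjective
      (LinearMap.range_eq_top.2 (hs x₀ h₀))
    let σ : T →L[ℝ] Pm := LinearMap.toContinuousLinearMap σ₀
    have hσ : ∀ t, M x₀ (σ t) = t := fun t => LinearMap.congr_fun hσ₀ t
    have cM : ∀ x ∈ D, ContinuousWithinAt M D x := fun x hx => by
      obtain ⟨C, s, h1, h2⟩ := hM x hx
      exact (h2.continuousOn x (mem_of_mem_nhdsWithin hx h1)).mono_of_mem_nhdsWithin h1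
    have cσ : Continuous fun A : Pm →L[ℝ] T => A.comp σ := continuous_id.clm_comp continuous_const
    refine ⟨{x | IsUnit ((M x).comp σ)}, (cσ.continuousAt.comp_continuousWithinAt (cM x₀ h₀))
      (Units.isOpen.mem_nhds ?_), Or.inr ?_⟩
    · have : (M x₀).comp σ = 1 := ContinuousLinearMap.ext hσ
      change IsUnit ((M x₀).comp σ)
      rw [this]
      exact isUnit_one
    let N := LinearMap.ker (M x₀).toLinearMap
    let G : (T × (Pm →L[ℝ] T)) × N → Pm := fun q =>
      q.2.1 - σ (Ring.inverse (q.1.2.comp σ) (q.1.1 + q.1.2 q.2.1))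
    let φ : E × N → (T × (Pm →L[ℝ] T)) × N := fun q => ((f q.1, M q.1), q.2)
    have sub : {π : Pm | ∃ x ∈ D ∩ {x | IsUnit ((M x).comp σ)}, f x + M x π = 0} ⊆
        (G ∘ φ) '' ((D ∩ {x | IsUnit ((M x).comp σ)}) ×ˢ univ) := by
      rintro π ⟨x, hx, e⟩
      refine ⟨(x, ⟨π - σ (M x₀ π), ?_⟩), ⟨hx, trivial⟩, ?_⟩
      · change M x₀ (π - σ (M x₀ π)) = 0
        rw [map_sub, hσ, sub_self]
      · have e1 : f x + M x (π - σ (M x₀ π)) = ((M x).comp σ) (-M x₀ π) := by
          rw [map_sub, ← add_sub_assoc, e, map_neg, zero_sub]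
          rfl
        have e2 : Ring.inverse ((M x).comp σ) (((M x).comp σ) (-M x₀ π)) = -M x₀ π :=
          DFunLike.congr_fun (Ring.inverse_mul_cancel _ hx.2) _
        change π - σ (M x₀ π) - σ (Ring.inverse ((M x).comp σ) (f x + M x (π - σ (M x₀ π)))) = π
        rw [e1, e2, map_neg]
        abel
    have lip : ∀ q ∈ (D ∩ {x | IsUnit ((M x).comp σ)}) ×ˢ (univ : Set N), ∃ C : NNReal,
        ∃ t ∈ 𝓝[(D ∩ {x | IsUnit ((M x).comp σ)}) ×ˢ (univ : Set N)] q,
          LipschitzOnWith C (G ∘ φ) t := by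
      rintro ⟨x, κ⟩ ⟨hx, -⟩
      have c1 : ContDiff ℝ 1 fun q : (T × (Pm →L[ℝ] T)) × N => q.1.2.comp σ :=
        contDiff_fst.snd.clm_comp contDiff_const
      have c2 : ContDiff ℝ 1 fun q : (T × (Pm →L[ℝ] T)) × N => (q.2.1 : Pm) :=
        N.subtypeL.contDiff.comp contDiff_snd
      have c3 : ContDiffAt ℝ 1 (fun q : (T × (Pm →L[ℝ] T)) × N => Ring.inverse (q.1.2.comp σ))
          (φ (x, κ)) := by
        obtain ⟨u, hu⟩ := hx.2
        refine ContDiffAt.comp (g := Ring.inverse) _ ?_ c1.contDiffAt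
        have := contDiffAt_ringInverse ℝ (n := 1) u
        rwa [hu] at this
      have c4 : ContDiffAt ℝ 1 G (φ (x, κ)) := c2.contDiffAt.sub (σ.contDiff.contDiffAt.comp _
        (c3.clm_apply (contDiff_fst.fst.add (contDiff_fst.snd.clm_apply c2)).contDiffAt))
      obtain ⟨K, t, ht, hK⟩ := c4.exists_lipschitzOnWith
      obtain ⟨C₁, s₁, m₁, l₁⟩ := hf x hx.1
      obtain ⟨C₂, s₂, m₂, l₂⟩ := hM x hx.1
      have m : (s₁ ∩ s₂) ×ˢ (univ : Set N) ∈
          𝓝[(D ∩ {x | IsUnit ((M x).comp σ)}) ×ˢ (univ : Set N)] (x, κ) := by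
        rw [nhdsWithin_prod_eq]
        exact prod_mem_prod (nhdsWithin_mono _ inter_subset_left (inter_mem m₁ m₂))
          self_mem_nhdsWithin
      have l := (((l₁.comp LipschitzWith.prod_fst.lipschitzOnWith fun q
          (hq : q ∈ (s₁ ∩ s₂) ×ˢ (univ : Set N)) => hq.1.1).prodMk
        (l₂.comp LipschitzWith.prod_fst.lipschitzOnWith fun q hq => hq.1.2)).prodMk
          LipschitzWith.prod_snd.lipschitzOnWith :
        LipschitzOnWith _ φ ((s₁ ∩ s₂) ×ˢ (univ : Set N)))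
      have c := (l.continuousOn (x, κ)
        (mem_of_mem_nhdsWithin (mk_mem_prod hx (mem_univ κ)) m)).mono_of_mem_nhdsWithin m
      exact ⟨_, _, inter_mem m (c ht), hK.comp (l.mono inter_subset_left) fun q hq => hq.2⟩
    have d1 := (dimH_mono sub).trans ((dimH_image_le_of_locally_lipschitzOn lip).trans
      ((dimH_mono (subset_univ _)).trans_eq (Real.dimH_univ_eq_finrank (E × N))))
    have d2 := (M x₀).toLinearMap.finrank_range_add_finrank_ker
    rw [LinearMap.range_eq_top.2 (hs x₀ h₀), finrank_top] at d2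
    have d3 : finrank ℝ (E × N) + 1 ≤ finrank ℝ Pm := by
      rw [finrank_prod]
      change finrank ℝ T + finrank ℝ N = _ at d2
      omega
    exact (add_le_add_left d1 1).trans (by exact_mod_cast d3)
  choose! D' h1 h2 using key
  obtain ⟨u, hu, hc, hU⟩ := TopologicalSpace.countable_cover_nhdsWithin h1
  have := hc.to_subtype
  refine (Thin.iUnion fun x : u => h2 x (hu x.2)).mono ?_
  rintro π ⟨x, hx, e⟩
  obtain ⟨y, hy, k⟩ := mem_iUnion₂.1 (hU hx)
  exact mem_iUnion.2 ⟨⟨y, hy⟩, x, ⟨hx, k⟩, e⟩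

end GZ
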