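import Pool.Agent.P.MP_0a0487_an.GZ.Slice
import Pool.Agent.P.MP_0a0487_an.GZ.Gen

/-! Generic perturbations. -/

set_option autoImplicit false
set_option linter.unusedSectionVars false

noncomputable section

namespace GZ

open Set Filter Topology Module
open scoped ComplexConjugate

variable {b : ℕ} {U U' Y Y' Z : Type} [NormedAddCommGroup U] [NormedSpace ℂ U] [NormedSpace ℝ U]
  [IsScalarTower ℝ ℂ U] [FiniteDimensional ℂ U] [NormedAddCommGroup U'] [NormedSpace ℂ U']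
  [NormedSpace ℝ U'] [IsScalarTower ℝ ℂ U'] [FiniteDimensional ℂ U'] [NormedAddCommGroup Y]
  [NormedSpace ℝ Y] [FiniteDimensional ℝ Y] [NormedAddCommGroup Y'] [NormedSpace ℝ Y']
  [FiniteDimensional ℝ Y'] [NormedAddCommGroup Z] [NormedSpace ℝ Z] [FiniteDimensional ℝ Z]

/-- Lipschitz on some neighbourhood of a point. -/
def FamGenLip {A B : Type} [PseudoMetricSpace A] [PseudoMetricSpace B] (g : A → B) (x : A) :
    Prop :=
  ∃ C : NNReal, ∃ t ∈ 𝓝 x, LipschitzOnWith C g t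

section aux

variable {A B C : Type} [PseudoMetricSpace A] [PseudoMetricSpace B] [PseudoMetricSpace C]

theorem FamGenLip.comp {g : B → C} {h : A → B} {x : A} (hg : FamGenLip g (h x))
    (hh : FamGenLip h x) : FamGenLip (fun y => g (h y)) x := by
  obtain ⟨K, t, ht, hK⟩ := hg
  obtain ⟨K', t', ht', hK'⟩ := hh
  have hc : ContinuousAt h x := hK'.continuousOn.continuousAt ht'
  refine ⟨K * K', t' ∩ h ⁻¹' t, inter_mem ht' (hc ht), ?_⟩
  exact hK.comp (hK'.mono inter_subset_left) fun y hy => hy.2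

theorem FamGenLip.prodMk {g : A → B} {h : A → C} {x : A} (hg : FamGenLip g x)
    (hh : FamGenLip h x) : FamGenLip (fun y => (g y, h y)) x := by
  obtain ⟨K, t, ht, hK⟩ := hg
  obtain ⟨K', t', ht', hK'⟩ := hh
  exact ⟨max K K', t ∩ t', inter_mem ht ht',
    (hK.mono inter_subset_left).prodMk (hK'.mono inter_subset_right)⟩

theorem FamGenLip.of_lip {g : A → B} {K : NNReal} (hg : LipschitzWith K g) (x : A) :
    FamGenLip g x :=
  ⟨K, univ, univ_mem, hg.lipschitzOnWith⟩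

theorem FamGenLip.fst {g : A → B × C} {x : A} (hg : FamGenLip g x) :
    FamGenLip (fun y => (g y).1) x :=
  (FamGenLip.of_lip LipschitzWith.prod_fst _).comp hg

theorem FamGenLip.snd {g : A → B × C} {x : A} (hg : FamGenLip g x) :
    FamGenLip (fun y => (g y).2) x :=
  (FamGenLip.of_lip LipschitzWith.prod_snd _).comp hg

theorem FamGenLip.id (x : A) : FamGenLip (fun y : A => y) x :=
  FamGenLip.of_lip LipschitzWith.id x

theorem FamGenLip.within {g : A → B} {x : A} (hg : FamGenLip g x) (D : Set A) :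
    ∃ K : NNReal, ∃ t ∈ 𝓝[D] x, LipschitzOnWith K g t := by
  obtain ⟨K, t, ht, hK⟩ := hg
  exact ⟨K, t, mem_nhdsWithin_of_mem_nhds ht, hK⟩

end aux

theorem FamGenLip.of_contDiff {𝕜 A B : Type} [RCLike 𝕜] [NormedAddCommGroup A] [NormedSpace 𝕜 A]
    [NormedAddCommGroup B] [NormedSpace 𝕜 B] {g : A → B} (hg : ContDiff 𝕜 1 g) (x : A) :
    FamGenLip g x :=
  hg.contDiffAt.exists_lipschitzOnWith

/-- The real hyperplane of vectors with real `i`-th coordinate. -/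
def FamGenV {k : ℕ} (i : Fin k) : Submodule ℝ (Fin k → ℂ) :=
  LinearMap.ker (Complex.imLm.comp (LinearMap.proj i : (Fin k → ℂ) →ₗ[ℝ] ℂ))

theorem FamGenV_mem {k : ℕ} (i : Fin k) (x : Fin k → ℂ) : x ∈ FamGenV i ↔ (x i).im = 0 :=
  Iff.rfl

theorem FamGenV_finrank {k : ℕ} (i : Fin k) : finrank ℝ (FamGenV i) + 1 = 2 * k := by
  have h := LinearMap.finrank_range_add_finrank_ker
    (Complex.imLm.comp (LinearMap.proj i : (Fin k → ℂ) →ₗ[ℝ] ℂ))
  have hr : LinearMap.range (Complex.imLm.comp (LinearMap.proj i : (Fin k → ℂ) →ₗ[ℝ] ℂ)) = ⊤ := by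
    rw [LinearMap.range_eq_top]
    intro t
    exact ⟨fun _ => (t : ℂ) * Complex.I, by simp⟩
  rw [hr, finrank_top, Module.finrank_self, Module.finrank_pi_fintype] at h
  simp only [Complex.finrank_real_complex, Finset.sum_const, Finset.card_univ, Fintype.card_fin,
    smul_eq_mul] at h
  unfold FamGenV
  omega

theorem FamGenV_rot {k : ℕ} (i : Fin k) (x : Fin k → ℂ) :
    ∃ z : ℂ, ‖z‖ = 1 ∧ ∃ x' ∈ FamGenV i, x = z • x' := by
  have hz : Complex.exp (Complex.arg (x i) * Complex.I) ≠ 0 := Complex.exp_ne_zero _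
  refine ⟨Complex.exp (Complex.arg (x i) * Complex.I), Complex.norm_exp_ofReal_mul_I _,
    (Complex.exp (Complex.arg (x i) * Complex.I))⁻¹ • x, ?_, ?_⟩
  · rw [FamGenV_mem]
    have h : (Complex.exp (Complex.arg (x i) * Complex.I))⁻¹ * x i = (‖x i‖ : ℝ) := by
      rw [inv_mul_eq_iff_eq_mul₀ hz, mul_comm]
      exact (Complex.norm_mul_exp_arg_mul_I (x i)).symm
    rw [Pi.smul_apply, smul_eq_mul, h, Complex.ofReal_im]
  · rw [smul_inv_smul₀ hz]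

theorem FamGen_frame (Φ : Fam b U U' Y Y') {T Pm : Type} [NormedAddCommGroup T] [NormedSpace ℝ T]
    [FiniteDimensional ℝ T] [NormedAddCommGroup Pm] [NormedSpace ℝ Pm] [FiniteDimensional ℝ Pm]
    (hd : 2 * finrank ℂ U' + finrank ℝ Y' + finrank ℝ Z < finrank ℝ T) {D : Set Z}
    {f : (U' × Y') × Z → T} {M : U × Z → Pm →L[ℝ] T} (hf : ContDiff ℝ 1 f)
    (hM : ∀ π, ContDiff ℝ 1 fun x => M x π)
    (hs : ∀ w : U, w ≠ 0 → ∀ ζ ∈ D, Function.Surjective (M (w, ζ))) (i : Fin Φ.k)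
    {s : Set (Fin b → ℝ)} {S : (Fin b → ℝ) → (Fin Φ.k → ℂ) →L[ℂ] U} (hS : IsFrame Φ.W s S)
    (hF : ∀ R : ℝ, ∃ K, LipschitzOnWith K
      (fun p : (Fin b → ℝ) × (Fin Φ.k → ℂ) × Y => Φ.F (p.1, S p.1 p.2.1, p.2.2))
      (s ×ˢ Metric.closedBall 0 R)) :
    Thin {π : Pm | ∃ e ∈ {e : (Fin b → ℝ) × FamGenV i × Y × Z |
        e.1 ∈ s ∧ (e.2.1 : Fin Φ.k → ℂ) ≠ 0 ∧ e.2.2.2 ∈ D},
      f (Φ.F (e.1, S e.1 e.2.1, e.2.2.1), e.2.2.2) + M (S e.1 e.2.1, e.2.2.2) π = 0} := by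
  have hv : ∀ e : (Fin b → ℝ) × FamGenV i × Y × Z,
      FamGenLip (fun e : (Fin b → ℝ) × FamGenV i × Y × Z => (e.2.1 : Fin Φ.k → ℂ)) e := fun e =>
    (FamGenLip.of_lip (LipschitzWith.subtype_val (FamGenV i : Set (Fin Φ.k → ℂ))) _).comp
      (FamGenLip.id e).snd.fst
  refine gen (f := fun e : (Fin b → ℝ) × FamGenV i × Y × Z =>
      f (Φ.F (e.1, S e.1 e.2.1, e.2.2.1), e.2.2.2))
    (M := fun e : (Fin b → ℝ) × FamGenV i × Y × Z => M (S e.1 e.2.1, e.2.2.2)) ?_ ?_ ?_ ?_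
  · have h1 := FamGenV_finrank i
    have h2 := Φ.dim
    rw [Module.finrank_prod, Module.finrank_prod, Module.finrank_prod, Module.finrank_fin_fun]
    omega
  · intro e he
    refine FamGenLip.within ?_ _
    refine (FamGenLip.of_contDiff hf _).comp (FamGenLip.prodMk ?_ (FamGenLip.id e).snd.snd.snd)
    obtain ⟨K, hK⟩ := hF (‖((e.2.1 : Fin Φ.k → ℂ), e.2.2.1)‖ + 1)
    have h1 : FamGenLip
        (fun p : (Fin b → ℝ) × (Fin Φ.k → ℂ) × Y => Φ.F (p.1, S p.1 p.2.1, p.2.2))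
        (e.1, (e.2.1 : Fin Φ.k → ℂ), e.2.2.1) := by
      refine ⟨K, _, prod_mem_nhds (hS.opn.mem_nhds he.1) ?_, hK⟩
      refine mem_of_superset (Metric.isOpen_ball.mem_nhds ?_) Metric.ball_subset_closedBall
      rw [mem_ball_zero_iff]
      exact lt_add_one _
    exact h1.comp (h := fun e : (Fin b → ℝ) × FamGenV i × Y × Z =>
      (e.1, (e.2.1 : Fin Φ.k → ℂ), e.2.2.1))
      ((FamGenLip.id e).fst.prodMk ((hv e).prodMk (FamGenLip.id e).snd.snd.fst))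
  · intro e he
    refine FamGenLip.within ?_ _
    refine (FamGenLip.of_contDiff (contDiff_clm_apply_iff.2 hM) _).comp
      (FamGenLip.prodMk ?_ (FamGenLip.id e).snd.snd.snd)
    obtain ⟨K, hK⟩ := hS.lip
    have h1 : FamGenLip S e.1 := ⟨K, s, hS.opn.mem_nhds he.1, hK⟩
    have h2 : ContDiff ℂ 1 fun q : ((Fin Φ.k → ℂ) →L[ℂ] U) × (Fin Φ.k → ℂ) => q.1 q.2 :=
      contDiff_fst.clm_apply contDiff_snd
    exact (FamGenLip.of_contDiff h2 _).comp (h := fun e : (Fin b → ℝ) × FamGenV i × Y × Z =>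
      (S e.1, (e.2.1 : Fin Φ.k → ℂ))) ((h1.comp (FamGenLip.id e).fst).prodMk (hv e))
  · intro e he
    refine hs _ (fun h => he.2.1 (hS.inj _ he.1 ?_)) _ he.2.2
    rw [h, map_zero]

theorem Fam.thin (Φ : Fam b U U' Y Y') {T Pm : Type} [NormedAddCommGroup T] [NormedSpace ℝ T]
    [FiniteDimensional ℝ T] [NormedAddCommGroup Pm] [NormedSpace ℝ Pm] [FiniteDimensional ℝ Pm]
    (hd : 2 * finrank ℂ U' + finrank ℝ Y' + finrank ℝ Z < finrank ℝ T) {D : Set Z}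
    {f : (U' × Y') × Z → T} {M : U × Z → Pm →L[ℝ] T} (hf : ContDiff ℝ 1 f)
    (hM : ∀ π, ContDiff ℝ 1 fun x => M x π)
    (hs : ∀ w : U, w ≠ 0 → ∀ ζ ∈ D, Function.Surjective (M (w, ζ)))
    (inv : ∀ (π : Pm) (x : U' × Y') (w : U) (ζ : Z) (z : ℂ), ‖z‖ = 1 →
      f ((z • x.1, x.2), ζ) + M (z • w, ζ) π = 0 → f (x, ζ) + M (w, ζ) π = 0) :
    Thin {π : Pm | ∃ (p : (Fin b → ℝ) × U × Y) (ζ : Z), p.2.1 ∈ Φ.W p.1 ∧ p.2.1 ≠ 0 ∧ ζ ∈ D ∧
      f (Φ.F p, ζ) + M (p.2.1, ζ) π = 0} := by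
  choose s S hmem hS hF using Φ.frame
  rcases Nat.eq_zero_or_pos Φ.k with hk | hk
  · left
    rw [eq_empty_iff_forall_notMem]
    rintro π ⟨p, ζ, hp, hne, -, -⟩
    obtain ⟨x, hx⟩ := ((hS p.1).rng _ (hmem p.1) _).1 hp
    have h0 : x = 0 := funext fun j => absurd j.2 (by omega)
    rw [h0, map_zero] at hx
    exact hne hx.symm
  · obtain ⟨c, hc, hcov⟩ :=
      TopologicalSpace.countable_cover_nhds (f := s) fun a => (hS a).opn.mem_nhds (hmem a)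
    have := hc.to_subtype
    refine (Thin.iUnion fun a : c =>
      FamGen_frame Φ hd hf hM hs ⟨0, hk⟩ (hS a) (hF a)).mono ?_
    rintro π ⟨⟨a, w, y⟩, ζ, hp, hne, hζ, h⟩
    have ha : a ∈ ⋃ x ∈ c, s x := hcov ▸ mem_univ a
    obtain ⟨a₀, ha₀, ha⟩ := mem_iUnion₂.1 ha
    obtain ⟨x, hx⟩ := ((hS a₀).rng _ ha _).1 hp
    obtain ⟨z, hz, x', hx', rfl⟩ := FamGenV_rot ⟨0, hk⟩ x
    rw [map_smul] at hx
    dsimp only at hx hne h
    subst hx
    refine mem_iUnion.2 ⟨⟨a₀, ha₀⟩, (a, ⟨x', hx'⟩, y, ζ), ⟨ha, ?_, hζ⟩, ?_⟩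
    · rintro (rfl : x' = 0)
      exact hne (by rw [map_zero, smul_zero])
    · rw [Φ.F_rot a _ y z hz (((hS a₀).rng _ ha _).2 ⟨x', rfl⟩)] at h
      exact inv π _ _ ζ z hz h

end GZ
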