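import Pool.Agent.P.MP_0a0487_an.GZ.Slice
import Pool.Agent.P.MP_0a0487_an.GZ.Deg2R

/-! Slices for the gauge group. -/

set_option autoImplicit false
set_option linter.unusedSectionVars false

noncomputable section

namespace GZ

open Set Filter Topology Module
open scoped ComplexConjugate

variable {b : ℕ} {U U' Y Y' Z : Type} [NormedAddCommGroup U] [NormedSpace ℂ U] [NormedSpace ℝ U]
  [IsScalarTower ℝ ℂ U] [FiniteDimensional ℂ U] [NormedAddCommGroup U'] [NormedSpace ℂ U']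
  [NormedSpace ℝ U'] [IsScalarTower ℝ ℂ U'] [FiniteDimensional ℂ U'] [NormedAddCommGroup Y]
  [NormedSpace ℝ Y] [FiniteDimensional ℝ Y] [NormedAddCommGroup Y'] [NormedSpace ℝ Y']
  [FiniteDimensional ℝ Y'] [NormedAddCommGroup Z] [NormedSpace ℝ Z] [FiniteDimensional ℝ Z]

theorem FamSlc_cz {z : ℂ} (hz : ‖z‖ = 1) : conj z * z = 1 := by
  rw [Complex.conj_mul', hz]
  simp

theorem FamSlc_zc_closed : IsClosed (range (zc : (Fin b → ℤ) → Fin b → ℝ)) := by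
  have e : range (zc : (Fin b → ℤ) → Fin b → ℝ) =
      ⋂ i, (fun a : Fin b → ℝ => a i) ⁻¹' range (Int.cast : ℤ → ℝ) := by
    ext a
    simp only [mem_range, mem_iInter, mem_preimage]
    constructor
    · rintro ⟨m, rfl⟩ i
      exact ⟨m i, rfl⟩
    · intro h
      choose m hm using h
      exact ⟨m, funext hm⟩
  rw [e]
  exact isClosed_iInter fun i =>
    Int.isClosedEmbedding_coe_real.isClosed_range.preimage (continuous_apply i)

theorem FamSlc_circ_closed : IsClosed {p : U × U | ∃ z : ℂ, ‖z‖ = 1 ∧ p.2 = z • p.1} := by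
  have h : IsClosed {q : Metric.sphere (0 : ℂ) 1 × (U × U) | q.2.2 = (q.1 : ℂ) • q.2.1} :=
    isClosed_eq (by fun_prop) (by fun_prop)
  have h2 := isClosedMap_snd_of_compactSpace _ h
  convert h2 using 1
  ext p
  constructor
  · rintro ⟨z, hz, hp⟩
    exact ⟨(⟨z, mem_sphere_zero_iff_norm.2 hz⟩, p), hp, rfl⟩
  · rintro ⟨⟨z, p'⟩, hp, rfl⟩
    exact ⟨z, mem_sphere_zero_iff_norm.1 z.2, hp⟩

theorem FamSlc_zc_small {m : Fin b → ℤ} (h : ‖zc m‖ < 1) : m = 0 := by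
  funext i
  have h1 := (norm_le_pi_norm (zc m) i).trans_lt h
  rw [zc, Real.norm_eq_abs, ← Int.cast_abs, ← Int.cast_one, Int.cast_lt] at h1
  exact Int.abs_lt_one_iff.1 h1

theorem FamSlc_sat_open {c : Prop} {j : U →L[ℝ] U} {O : Set (((Fin b → ℝ) × U × Y) × Z)}
    (hO : IsOpen O) : IsOpen {x | ∃ q ∈ O, Rel c j x q} := by
  rw [isOpen_iff_mem_nhds]
  rintro x ⟨q, hq, m, z, hz, rfl | ⟨hc, rfl⟩⟩
  · have hf : Continuous fun p : ((Fin b → ℝ) × U × Y) × Z =>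
        (((p.1.1 + zc m, z • p.1.2.1, p.1.2.2), p.2) : ((Fin b → ℝ) × U × Y) × Z) := by fun_prop
    exact mem_of_superset ((hO.preimage hf).mem_nhds hq) fun p hp => ⟨_, hp, m, z, hz, Or.inl rfl⟩
  · have hf : Continuous fun p : ((Fin b → ℝ) × U × Y) × Z =>
        (((-p.1.1 + zc m, z • j p.1.2.1, -p.1.2.2), -p.2) : ((Fin b → ℝ) × U × Y) × Z) := by
      fun_prop
    exact mem_of_superset ((hO.preimage hf).mem_nhds hq)
      fun p hp => ⟨_, hp, m, z, hz, Or.inr ⟨hc, rfl⟩⟩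

theorem FamSlc_norm {k : ℕ} {x : Fin (k + 1) → ℂ} (hx : x 0 ≠ 0) :
    ‖conj (x 0) / (‖x 0‖ : ℂ)‖ = 1 ∧
      (Fin.cons (‖x 0‖ : ℂ) ((conj (x 0) / (‖x 0‖ : ℂ)) • Fin.tail x) : Fin (k + 1) → ℂ) =
        (conj (x 0) / (‖x 0‖ : ℂ)) • x := by
  have h0 : ‖x 0‖ ≠ 0 := norm_ne_zero_iff.2 hx
  have h1 : (‖x 0‖ : ℂ) ≠ 0 := Complex.ofReal_ne_zero.2 h0
  constructor
  · rw [norm_div, Complex.norm_conj, Complex.norm_real, norm_norm, div_self h0]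
  · funext i
    refine Fin.cases ?_ (fun i => rfl) i
    rw [Fin.cons_zero, Pi.smul_apply, smul_eq_mul, div_mul_eq_mul_div, Complex.conj_mul',
      eq_div_iff h1, sq]

section rel

variable {c : Prop} {j : U →L[ℝ] U} (h1 : c → ∀ (z : ℂ) w, j (z • w) = conj z • j w)
  (h2 : c → ∀ w, j (j w) = -w)

theorem Rel.refl (p : ((Fin b → ℝ) × U × Y) × Z) : Rel c j p p := by
  exact ⟨0, 1, norm_one, Or.inl (by rw [zc_zero, add_zero, one_smul])⟩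

include h1 h2

theorem Rel.symm {p q : ((Fin b → ℝ) × U × Y) × Z} (h : Rel c j p q) : Rel c j q p := by
  obtain ⟨⟨a, w, y⟩, ζ⟩ := p
  obtain ⟨m, z, hz, rfl | ⟨hc, rfl⟩⟩ := h
  · refine ⟨-m, conj z, by rw [Complex.norm_conj, hz], Or.inl ?_⟩
    dsimp only
    rw [zc_neg, add_neg_cancel_right, smul_smul, FamSlc_cz hz, one_smul]
  · refine ⟨m, -z, by rw [norm_neg, hz], Or.inr ⟨hc, ?_⟩⟩
    dsimp only
    rw [h1 hc, h2 hc, neg_neg, neg_neg, neg_add, neg_neg, neg_add_cancel_right, smul_neg, smul_neg,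
      neg_smul, neg_neg, smul_smul, mul_comm, FamSlc_cz hz, one_smul]

theorem Rel.trans {p q r : ((Fin b → ℝ) × U × Y) × Z} (h : Rel c j p q) (h' : Rel c j q r) :
    Rel c j p r := by
  obtain ⟨⟨a, w, y⟩, ζ⟩ := p
  obtain ⟨m, z, hz, rfl | ⟨hc, rfl⟩⟩ := h <;> obtain ⟨m', z', hz', rfl | ⟨hc', rfl⟩⟩ := h'
  · refine ⟨m + m', z' * z, by rw [norm_mul, hz, hz', one_mul], Or.inl ?_⟩
    dsimp only
    rw [zc_add, add_assoc, smul_smul]
  · refine ⟨-m + m', z' * conj z, by rw [norm_mul, Complex.norm_conj, hz, hz', one_mul],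
      Or.inr ⟨hc', ?_⟩⟩
    dsimp only
    rw [zc_add, zc_neg, neg_add, add_assoc, h1 hc', smul_smul]
  · refine ⟨m + m', z' * z, by rw [norm_mul, hz, hz', one_mul], Or.inr ⟨hc, ?_⟩⟩
    dsimp only
    rw [zc_add, add_assoc, smul_smul]
  · refine ⟨-m + m', -(z' * conj z), by
      rw [norm_neg, norm_mul, Complex.norm_conj, hz, hz', one_mul], Or.inl ?_⟩
    dsimp only
    rw [zc_add, zc_neg, neg_add, neg_neg, neg_neg, neg_neg, add_assoc, h1 hc, h2 hc, smul_smul,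
      smul_neg, neg_smul]

omit h1 h2 in
theorem Rel.isClosed : IsClosed {p : (((Fin b → ℝ) × U × Y) × Z) × (((Fin b → ℝ) × U × Y) × Z) |
    Rel c j p.1 p.2} := by
  have e : {p : (((Fin b → ℝ) × U × Y) × Z) × (((Fin b → ℝ) × U × Y) × Z) | Rel c j p.1 p.2} =
      ({p | p.2.1.1 - p.1.1.1 ∈ range zc} ∩
        {p | (p.1.1.2.1, p.2.1.2.1) ∈ {p : U × U | ∃ z : ℂ, ‖z‖ = 1 ∧ p.2 = z • p.1}} ∩
        {p | p.2.1.2.2 = p.1.1.2.2} ∩ {p | p.2.2 = p.1.2}) ∪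
      ({_p | c} ∩ {p | p.2.1.1 + p.1.1.1 ∈ range zc} ∩
        {p | (j p.1.1.2.1, p.2.1.2.1) ∈ {p : U × U | ∃ z : ℂ, ‖z‖ = 1 ∧ p.2 = z • p.1}} ∩
        {p | p.2.1.2.2 = -p.1.1.2.2} ∩ {p | p.2.2 = -p.1.2}) := by
    ext ⟨⟨⟨a, w, y⟩, ζ⟩, ⟨⟨a', w', y'⟩, ζ'⟩⟩
    constructor
    · rintro ⟨m, z, hz, h | ⟨hc, h⟩⟩
      · obtain ⟨⟨rfl, rfl, rfl⟩, rfl⟩ : (a' = a + zc m ∧ w' = z • w ∧ y' = y) ∧ ζ' = ζ := by
          simpa only [Prod.mk.injEq] using h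
        exact Or.inl ⟨⟨⟨⟨m, (add_sub_cancel_left _ _).symm⟩, z, hz, rfl⟩, rfl⟩, rfl⟩
      · obtain ⟨⟨rfl, rfl, rfl⟩, rfl⟩ : (a' = -a + zc m ∧ w' = z • j w ∧ y' = -y) ∧ ζ' = -ζ := by
          simpa only [Prod.mk.injEq] using h
        exact Or.inr ⟨⟨⟨⟨hc, m, (neg_add_cancel_comm _ _).symm⟩, z, hz, rfl⟩, rfl⟩, rfl⟩
    · rintro (⟨⟨⟨⟨m, hm⟩, z, hz, hw⟩, hy⟩, hζ⟩ | ⟨⟨⟨⟨hc, m, hm⟩, z, hz, hw⟩, hy⟩, hζ⟩)
      · refine ⟨m, z, hz, Or.inl (Prod.ext (Prod.ext ?_ (Prod.ext hw hy)) hζ)⟩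
        change a' = a + zc m
        rw [hm]
        exact (add_sub_cancel a a').symm
      · refine ⟨m, z, hz, Or.inr ⟨hc, Prod.ext (Prod.ext ?_ (Prod.ext hw hy)) hζ⟩⟩
        change a' = -a + zc m
        rw [hm]
        exact (neg_add_cancel_comm_assoc a a').symm
  rw [e]
  refine IsClosed.union (((IsClosed.inter ?_ ?_).inter ?_).inter ?_)
    ((((isClosed_const.inter ?_).inter ?_).inter ?_).inter ?_)
  · exact FamSlc_zc_closed.preimage (by fun_prop)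
  · exact FamSlc_circ_closed.preimage (by fun_prop)
  · exact isClosed_eq (by fun_prop) (by fun_prop)
  · exact isClosed_eq (by fun_prop) (by fun_prop)
  · exact FamSlc_zc_closed.preimage (by fun_prop)
  · exact FamSlc_circ_closed.preimage (by fun_prop)
  · exact isClosed_eq (by fun_prop) (by fun_prop)
  · exact isClosed_eq (by fun_prop) (by fun_prop)

omit h1 h2 in
theorem Rel.tot (Φ : Fam b U U' Y Y') (h3 : c → ∀ a w, w ∈ Φ.W a → j w ∈ Φ.W (-a))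
    {p q : ((Fin b → ℝ) × U × Y) × Z} (h : Rel c j p q) (hp : p ∈ Φ.Tot Z) : q ∈ Φ.Tot Z := by
  obtain ⟨m, z, -, rfl | ⟨hc, rfl⟩⟩ := h
  · change z • p.1.2.1 ∈ Φ.W (p.1.1 + zc m)
    rw [Φ.W_per]
    exact Submodule.smul_mem _ _ hp
  · change z • j p.1.2.1 ∈ Φ.W (-p.1.1 + zc m)
    rw [Φ.W_per]
    exact Submodule.smul_mem _ _ (h3 hc _ _ hp)

theorem FamSlc_nbhd {w : U} (hw : w ≠ 0) : ∃ N : Set U, IsOpen N ∧ w ∈ N ∧
    (c → ∀ u ∈ N, ∀ u' ∈ N, ∀ z : ℂ, ‖z‖ = 1 → u' ≠ z • j u) := by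
  by_cases hc : c
  · have hD : IsClosed {p : U × U | ∃ z : ℂ, ‖z‖ = 1 ∧ p.2 = z • j p.1} :=
      FamSlc_circ_closed.preimage (f := fun p : U × U => (j p.1, p.2)) (by fun_prop)
    have hw' : (w, w) ∈ {p : U × U | ∃ z : ℂ, ‖z‖ = 1 ∧ p.2 = z • j p.1}ᶜ := by
      rintro ⟨z, hz, e⟩
      have e1 : w = z • j w := e
      have e2 : j w = -(conj z • w) := by
        conv_lhs => rw [e1]
        rw [h1 hc, h2 hc, smul_neg]
      rw [e2, smul_neg, smul_smul, mul_comm, FamSlc_cz hz, one_smul] at e1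
      have e3 : (2 : ℂ) • w = 0 := by
        rw [two_smul]
        exact add_eq_zero_iff_eq_neg.2 e1
      exact hw ((smul_eq_zero.1 e3).resolve_left two_ne_zero)
    obtain ⟨A, B, hA, hB, ha, hb, hAB⟩ := isOpen_prod_iff.1 hD.isOpen_compl w w hw'
    exact ⟨A ∩ B, hA.inter hB, ⟨ha, hb⟩, fun _ u hu u' hu' z hz e =>
      hAB (mk_mem_prod hu.1 hu'.2) ⟨z, hz, e⟩⟩
  · exact ⟨univ, isOpen_univ, mem_univ _, fun h => absurd h hc⟩

/-- The slice defined by an adapted frame. -/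
theorem Fam.slc (Φ : Fam b U U' Y Y') (h3 : c → ∀ a w, w ∈ Φ.W a → j w ∈ Φ.W (-a))
    {O : Set (((Fin b → ℝ) × U × Y) × Z)} (hO : IsOpen O) (hO0 : ∀ p ∈ O, p.1.2.1 ≠ 0)
    (hOr : ∀ p ∈ O ∩ Φ.Tot Z, ∀ q, Rel c j p q → q ∈ O) {k : ℕ} {s : Set (Fin b → ℝ)}
    {S : (Fin b → ℝ) → (Fin (k + 1) → ℂ) →L[ℂ] U} (hS : IsFrame Φ.W s S) {a₀ : Fin b → ℝ}
    (ha : a₀ ∈ s) {y₀ : Y} {ζ₀ : Z} (h : ((a₀, S a₀ (Fin.cons 1 0), y₀), ζ₀) ∈ O) :
    ∃ V : Set (((Fin b → ℝ) × (ℝ × (Fin k → ℂ)) × Y) × Z), ((a₀, (1, 0), y₀), ζ₀) ∈ V ∧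
      Slc (O ∩ Φ.Tot Z) (Rel c j) V fun v =>
        ((v.1.1, S v.1.1 (Fin.cons (v.1.2.1.1 : ℂ) v.1.2.1.2), v.1.2.2), v.2) := by
  obtain ⟨s', L, hs', ha', hss, hL, hLS⟩ := hS.coord ha
  obtain ⟨N, hN, hwN, hNc⟩ := FamSlc_nbhd h1 h2 (hO0 _ h)
  obtain ⟨K, hK⟩ := hS.lip
  let σ : ((Fin b → ℝ) × (ℝ × (Fin k → ℂ)) × Y) × Z → ((Fin b → ℝ) × U × Y) × Z := fun v =>
    ((v.1.1, S v.1.1 (Fin.cons (v.1.2.1.1 : ℂ) v.1.2.1.2), v.1.2.2), v.2)
  let V₀ : Set (((Fin b → ℝ) × (ℝ × (Fin k → ℂ)) × Y) × Z) :=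
    {v | v.1.1 ∈ s' ∩ Metric.ball a₀ (1 / 2)} ∩ {v | 0 < v.1.2.1.1}
  have hV₀ : IsOpen V₀ :=
    ((hs'.inter Metric.isOpen_ball).preimage (by fun_prop)).inter
      (isOpen_lt continuous_const (by fun_prop))
  have hσ : ContinuousOn σ V₀ := by
    have c1 : ContinuousOn (fun v : ((Fin b → ℝ) × (ℝ × (Fin k → ℂ)) × Y) × Z => S v.1.1) V₀ :=
      hK.continuousOn.comp (by fun_prop) fun v hv => hss hv.1.1
    have c2 : Continuous fun v : ((Fin b → ℝ) × (ℝ × (Fin k → ℂ)) × Y) × Z =>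
        (Fin.cons (v.1.2.1.1 : ℂ) v.1.2.1.2 : Fin (k + 1) → ℂ) :=
      Continuous.finCons (A := fun _ => ℂ) (by fun_prop) (by fun_prop)
    exact ((continuous_fst.fst.continuousOn).prodMk ((c1.clm_apply c2.continuousOn).prodMk
      (by fun_prop))).prodMk continuous_snd.continuousOn
  have hON : IsOpen (O ∩ {p | p.1.2.1 ∈ N}) := hO.inter (hN.preimage (by fun_prop))
  refine ⟨V₀ ∩ σ ⁻¹' (O ∩ {p | p.1.2.1 ∈ N}), ⟨⟨⟨ha', Metric.mem_ball_self one_half_pos⟩,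
    (one_pos : (0 : ℝ) < 1)⟩, h, hwN⟩, hσ.isOpen_inter_preimage hV₀ hON,
    hσ.mono inter_subset_left, fun v hv => ⟨hv.2.1, (hS.rng _ (hss hv.1.1.1) _).2 ⟨_, rfl⟩⟩,
    ?_, ?_⟩
  · rintro ⟨⟨a, ⟨r, x⟩, y⟩, ζ⟩ hv ⟨⟨a', ⟨r', x'⟩, y'⟩, ζ'⟩ hv' ⟨m, z, hz, e | ⟨hc, e⟩⟩
    · obtain ⟨⟨e1, e2, rfl⟩, rfl⟩ : (a' = a + zc m ∧
          S a' (Fin.cons (r' : ℂ) x') = z • S a (Fin.cons (r : ℂ) x) ∧ y' = y) ∧ ζ' = ζ := by
        simpa only [Prod.mk.injEq] using e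
      have hr : 0 < r := hv.1.2
      have hr' : 0 < r' := hv'.1.2
      have hm : m = 0 := by
        refine FamSlc_zc_small ?_
        have d1 : dist a a₀ < 1 / 2 := hv.1.1.2
        have d2 : dist a' a₀ < 1 / 2 := hv'.1.1.2
        have d3 := dist_triangle_right a' a a₀
        rw [dist_eq_norm a' a, e1, add_sub_cancel_left, ← e1] at d3
        linarith
      rw [hm, zc_zero, add_zero] at e1
      subst e1
      rw [← map_smul] at e2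
      have e3 := hS.inj _ (hss hv.1.1.1) e2
      have e4 : (r' : ℂ) = z * r := congrFun e3 0
      have e5 : r' = r := by
        have e6 := congrArg norm e4
        rwa [norm_mul, hz, one_mul, Complex.norm_real, Complex.norm_real, Real.norm_of_nonneg hr.le,
          Real.norm_of_nonneg hr'.le] at e6
      subst e5
      have e7 : z = 1 :=
        mul_right_cancel₀ (Complex.ofReal_ne_zero.2 hr.ne') (e4.symm.trans (one_mul _).symm)
      rw [e7, one_smul] at e3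
      have e8 : x' = x := funext fun i => congrFun e3 i.succ
      rw [e8]
    · exact absurd (congrArg (fun p : ((Fin b → ℝ) × U × Y) × Z => p.1.2.1) e)
        (hNc hc _ hv.2.2 _ hv'.2.2 z hz)
  · intro V' hV' hV'o
    let P₀ : Set (((Fin b → ℝ) × U × Y) × Z) := {p | p.1.1 ∈ s'}
    let x : ((Fin b → ℝ) × U × Y) × Z → Fin (k + 1) → ℂ := fun p => L p.1.1 p.1.2.1
    have hP₀ : IsOpen P₀ := hs'.preimage (by fun_prop)
    have hLc : ContinuousOn (fun p : ((Fin b → ℝ) × U × Y) × Z => L p.1.1) P₀ :=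
      hL.comp (f := fun p : ((Fin b → ℝ) × U × Y) × Z => p.1.1) (by fun_prop) fun p hp => hp
    have hx : ContinuousOn x P₀ :=
      hLc.clm_apply (g := fun p : ((Fin b → ℝ) × U × Y) × Z => p.1.2.1) (by fun_prop)
    have hx0 : ContinuousOn (fun p => x p 0) P₀ := (continuous_apply 0).comp_continuousOn hx
    let P₁ : Set (((Fin b → ℝ) × U × Y) × Z) := P₀ ∩ (fun p => x p 0) ⁻¹' {0}ᶜ
    have hP₁ : IsOpen P₁ := hx0.isOpen_inter_preimage hP₀ isOpen_compl_singleton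
    let ν : ((Fin b → ℝ) × U × Y) × Z → ((Fin b → ℝ) × (ℝ × (Fin k → ℂ)) × Y) × Z := fun p =>
      ((p.1.1, (‖x p 0‖, (conj (x p 0) / (‖x p 0‖ : ℂ)) • Fin.tail (x p)), p.1.2.2), p.2)
    have hν : ContinuousOn ν P₁ := by
      have c1 : ContinuousOn (fun p => x p 0) P₁ := hx0.mono inter_subset_left
      have c2 : ContinuousOn (fun p => conj (x p 0) / (‖x p 0‖ : ℂ)) P₁ :=
        (Complex.continuous_conj.comp_continuousOn c1).div
          (Complex.continuous_ofReal.comp_continuousOn c1.norm)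
          fun p hp => Complex.ofReal_ne_zero.2 (norm_ne_zero_iff.2 hp.2)
      have c3 : ContinuousOn (fun p => (Fin.tail (x p) : Fin k → ℂ)) P₁ :=
        continuousOn_pi.2 fun i => (continuous_apply i.succ).comp_continuousOn
          (hx.mono inter_subset_left)
      exact ((continuous_fst.fst.continuousOn).prodMk ((c1.norm.prodMk (c2.smul c3)).prodMk
        (by fun_prop))).prodMk continuous_snd.continuousOn
    refine ⟨{p | ∃ q ∈ P₁ ∩ ν ⁻¹' V', Rel c j p q},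
      FamSlc_sat_open (hν.isOpen_inter_preimage hP₁ hV'o), fun p hp => ⟨?_, ?_⟩⟩
    · rintro ⟨q, hq, hpq⟩
      refine ⟨ν q, hq.2, Rel.trans h1 h2 hpq ?_⟩
      obtain ⟨x', hx'⟩ := (hS.rng _ (hss hq.1.1) _).1 (Rel.tot Φ h3 hpq hp.2)
      have e1 : x q = x' := by
        change L q.1.1 q.1.2.1 = x'
        rw [← hx', hLS _ hq.1.1]
      obtain ⟨n1, n2⟩ := FamSlc_norm (x := x q) hq.1.2
      refine ⟨0, _, n1, Or.inl (Prod.ext (Prod.ext ?_ (Prod.ext ?_ rfl)) rfl)⟩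
      · change q.1.1 = q.1.1 + zc 0
        rw [zc_zero, add_zero]
      · change S q.1.1 (Fin.cons (‖x q 0‖ : ℂ) ((conj (x q 0) / (‖x q 0‖ : ℂ)) • Fin.tail (x q))) =
          (conj (x q 0) / (‖x q 0‖ : ℂ)) • q.1.2.1
        rw [n2, map_smul, ← hx', e1]
    · rintro ⟨v, hv, hpv⟩
      have hr : 0 < v.1.2.1.1 := (hV' hv).1.2
      have e1 : x (σ v) = Fin.cons (v.1.2.1.1 : ℂ) v.1.2.1.2 := hLS _ (hV' hv).1.1.1 _
      have e2 : x (σ v) 0 = (v.1.2.1.1 : ℂ) := congrFun e1 0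
      have e3 : ‖x (σ v) 0‖ = v.1.2.1.1 := by
        rw [e2, Complex.norm_real, Real.norm_of_nonneg hr.le]
      have e4 : ν (σ v) = v := by
        refine Prod.ext (Prod.ext rfl (Prod.ext (Prod.ext e3 ?_) rfl)) rfl
        change (conj (x (σ v) 0) / (‖x (σ v) 0‖ : ℂ)) • Fin.tail (x (σ v)) = v.1.2.1.2
        rw [e3, e2, Complex.conj_ofReal, div_self (Complex.ofReal_ne_zero.2 hr.ne'), one_smul, e1,
          Fin.tail_cons]
      refine ⟨σ v, ⟨⟨(hV' hv).1.1.1, ?_⟩, ?_⟩, hpv⟩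
      · change x (σ v) 0 ≠ 0
        rw [e2]
        exact Complex.ofReal_ne_zero.2 hr.ne'
      · change ν (σ v) ∈ V'
        rwa [e4]

end rel

end GZ
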