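import Pool.Agent.P.MP_0a0487_an.GZ.PatDefs

/-! Existence of profiles. -/

set_option autoImplicit false
set_option linter.unusedSectionVars false

noncomputable section

namespace GZ

open Set Filter Topology Module
open scoped ComplexConjugate

variable {b : ℕ}

theorem Ix.neg_neg (i : Ix b) : i.neg.neg = i := by
  funext j
  exact Fin.rev_rev (i j)

theorem Ix.sum_neg {M : Type} [AddCommMonoid M] (f : Ix b → M) : ∑ i : Ix b, f i.neg = ∑ i, f i := by
  exact Equiv.sum_comp (Function.Involutive.toPerm Ix.neg Ix.neg_neg) f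

theorem patLip_mul {X : Type} [PseudoMetricSpace X] {f g : X → ℝ} (hf : ∃ K, LipschitzWith K f)
    (hg : ∃ K, LipschitzWith K g) (bf : ∀ x, |f x| ≤ 1) (bg : ∀ x, |g x| ≤ 1) :
    ∃ K, LipschitzWith K fun x => f x * g x := by
  obtain ⟨K, hf⟩ := hf
  obtain ⟨K', hg⟩ := hg
  refine ⟨K + K', LipschitzWith.of_dist_le_mul fun x y => ?_⟩
  have h1 := hf.dist_le_mul x y
  have h2 := hg.dist_le_mul x y
  rw [Real.dist_eq] at h1 h2 ⊢
  rw [show f x * g x - f y * g y = f x * (g x - g y) + g y * (f x - f y) by ring]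
  refine (abs_add_le _ _).trans ?_
  rw [abs_mul, abs_mul, NNReal.coe_add, add_mul]
  have h3 := mul_le_of_le_one_left (abs_nonneg (g x - g y)) (bf x)
  have h4 := mul_le_of_le_one_left (abs_nonneg (f x - f y)) (bg y)
  linarith

theorem patLip_prod {X ι : Type} [PseudoMetricSpace X] (s : Finset ι) {f : ι → X → ℝ}
    (hf : ∀ j, ∃ K, LipschitzWith K (f j)) (bf : ∀ j x, |f j x| ≤ 1) :
    ∃ K, LipschitzWith K fun x => ∏ j ∈ s, f j x := by
  classical
  induction s using Finset.induction_on with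
  | empty => exact ⟨0, by simpa using LipschitzWith.const (1 : ℝ)⟩
  | insert j s hj ih =>
    simp only [Finset.prod_insert hj]
    refine patLip_mul (hf j) ih (bf j) fun x => ?_
    rw [Finset.abs_prod]
    exact Finset.prod_le_one (fun _ _ => abs_nonneg _) fun i _ => bf i x

theorem patLip_sum {X E ι : Type} [PseudoMetricSpace X] [NormedAddCommGroup E] (s : Finset ι)
    {f : ι → X → E} (hf : ∀ j, ∃ K, LipschitzWith K (f j)) :
    ∃ K, LipschitzWith K fun x => ∑ j ∈ s, f j x := by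
  classical
  induction s using Finset.induction_on with
  | empty => exact ⟨0, by simpa using LipschitzWith.const (0 : E)⟩
  | insert j s hj ih =>
    simp only [Finset.sum_insert hj]
    obtain ⟨K, h1⟩ := hf j
    obtain ⟨K', h2⟩ := ih
    exact ⟨_, h1.add h2⟩

/-- A periodic even cut-off. -/
def patS (x : ℝ) : ℝ := max 0 (min 1 (1 / 2 - Real.cos (2 * Real.pi * x)))

/-- The one dimensional profile. -/
def patR (i : Fin 3) (x : ℝ) : ℝ :=
  if i = 1 then Real.cos (Real.pi / 2 * patS x) else Real.sin (Real.pi / 2 * patS x) / √2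

/-- The one dimensional branches. -/
def patG (i : Fin 3) (x : ℝ) : ℤ := ![⌊x⌋, ⌊x + 1 / 2⌋, -⌊-x⌋] i

theorem patS_lip : ∃ K, LipschitzWith K patS :=
  ⟨_, (((LipschitzWith.const (1 / 2 : ℝ)).sub (Real.lipschitzWith_cos.comp
    (lipschitzWith_smul (2 * Real.pi)))).const_min 1).const_max 0⟩

theorem patR_lip (i : Fin 3) : ∃ K, LipschitzWith K (patR i) := by
  obtain ⟨K, h⟩ := patS_lip
  have h1 := (lipschitzWith_smul (β := ℝ) (Real.pi / 2)).comp h
  unfold patR
  split_ifs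
  · exact ⟨_, Real.lipschitzWith_cos.comp h1⟩
  · simp only [div_eq_inv_mul _ (√2)]
    exact ⟨_, (lipschitzWith_smul (β := ℝ) (√2)⁻¹).comp (Real.lipschitzWith_sin.comp h1)⟩

theorem patR_sum (x : ℝ) : ∑ i, patR i x ^ 2 = 1 := by
  have h := Real.sin_sq_add_cos_sq (Real.pi / 2 * patS x)
  have h0 : patR 0 x = Real.sin (Real.pi / 2 * patS x) / √2 := if_neg (by decide)
  have h1 : patR 1 x = Real.cos (Real.pi / 2 * patS x) := if_pos rfl
  have h2 : patR 2 x = Real.sin (Real.pi / 2 * patS x) / √2 := if_neg (by decide)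
  rw [Fin.sum_univ_three, h0, h1, h2, div_pow, Real.sq_sqrt (by norm_num)]
  linarith

theorem patR_abs (i : Fin 3) (x : ℝ) : |patR i x| ≤ 1 := by
  rw [← sq_le_one_iff_abs_le_one, ← patR_sum x]
  exact Finset.single_le_sum (f := fun i => patR i x ^ 2) (fun _ _ => sq_nonneg _)
    (Finset.mem_univ i)

theorem patR_per (i : Fin 3) (x : ℝ) (m : ℤ) : patR i (x + m) = patR i x := by
  have h : patS (x + m) = patS x := by
    unfold patS
    rw [mul_add, mul_comm _ (m : ℝ), Real.cos_add_int_mul_two_pi]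
  unfold patR
  rw [h]

theorem patG_per (i : Fin 3) (x : ℝ) (m : ℤ) : patG i (x + m) = patG i x + m := by
  fin_cases i
  · exact Int.floor_add_intCast x m
  · change ⌊x + m + 1 / 2⌋ = ⌊x + 1 / 2⌋ + m
    rw [add_right_comm, Int.floor_add_intCast]
  · change -⌊-(x + m)⌋ = -⌊-x⌋ + m
    rw [neg_add, ← sub_eq_add_neg, Int.floor_sub_intCast]
    ring

theorem patR_neg (i : Fin 3) (x : ℝ) : patR i.rev (-x) = patR i x := by
  have h : patS (-x) = patS x := by
    unfold patS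
    rw [mul_neg, Real.cos_neg]
  have h1 : ∀ i : Fin 3, i.rev = 1 ↔ i = 1 := by decide
  unfold patR
  simp only [h, h1]

theorem patS_int (n : ℤ) : ∀ᶠ x in 𝓝 (n : ℝ), patS x = 0 := by
  have h : ContinuousAt (fun x : ℝ => Real.cos (2 * Real.pi * x)) n := by fun_prop
  have e : Real.cos (2 * Real.pi * n) = 1 := by rw [mul_comm, Real.cos_int_mul_two_pi]
  have e' : (1 / 2 : ℝ) < Real.cos (2 * Real.pi * n) := by
    rw [e]
    norm_num
  filter_upwards [h.eventually (lt_mem_nhds e')] with x hx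
  exact max_eq_left (min_le_of_right_le (by linarith))

theorem patS_half {x₀ : ℝ} {n : ℤ} (hn : x₀ + 1 / 2 = n) : ∀ᶠ x in 𝓝 x₀, patS x = 1 := by
  have h : ContinuousAt (fun x : ℝ => Real.cos (2 * Real.pi * x)) x₀ := by fun_prop
  have e : Real.cos (2 * Real.pi * x₀) = -1 := by
    rw [show 2 * Real.pi * x₀ = n * (2 * Real.pi) - Real.pi by rw [← hn]; ring,
      Real.cos_int_mul_two_pi_sub_pi]
  have e' : Real.cos (2 * Real.pi * x₀) < (-1 / 2 : ℝ) := by
    rw [e]
    norm_num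
  filter_upwards [h.eventually (gt_mem_nhds e')] with x hx
  unfold patS
  rw [min_eq_left (by linarith), max_eq_right zero_le_one]

theorem patR_of_zero {x : ℝ} (h : patS x = 0) {i : Fin 3} (hi : i ≠ 1) : patR i x = 0 := by
  simp [patR, h, hi]

theorem patR_of_one {x : ℝ} (h : patS x = 1) : patR 1 x = 0 := by
  simp [patR, h]

theorem pat_floor {x₀ : ℝ} (h : x₀ ≠ ⌊x₀⌋) : ∀ᶠ x in 𝓝 x₀, ⌊x⌋ = ⌊x₀⌋ := by
  filter_upwards [Ioo_mem_nhds (lt_of_le_of_ne (Int.floor_le x₀) h.symm) (Int.lt_floor_add_one x₀)]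
    with x hx
  exact Int.floor_eq_iff.2 ⟨hx.1.le, hx.2⟩

theorem pat_loc (i : Fin 3) (x₀ : ℝ) :
    ∀ᶠ x in 𝓝 x₀, patR i x = 0 ∨ patG i x = patG i x₀ := by
  fin_cases i
  · by_cases h : x₀ = ⌊x₀⌋
    · have := patS_int ⌊x₀⌋
      rw [← h] at this
      exact this.mono fun x hx => Or.inl (patR_of_zero hx (by decide))
    · exact (pat_floor h).mono fun x hx => Or.inr hx
  · by_cases h : x₀ + 1 / 2 = ⌊x₀ + 1 / 2⌋
    · exact (patS_half h).mono fun x hx => Or.inl (patR_of_one hx)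
    · have hc : ContinuousAt (fun x : ℝ => x + 1 / 2) x₀ := by fun_prop
      exact (hc.eventually (pat_floor h)).mono fun x hx => Or.inr hx
  · by_cases h : -x₀ = ⌊-x₀⌋
    · have := patS_int (-⌊-x₀⌋)
      rw [Int.cast_neg, ← h, neg_neg] at this
      exact this.mono fun x hx => Or.inl (patR_of_zero hx (by decide))
    · have hc : ContinuousAt (fun x : ℝ => -x) x₀ := by fun_prop
      exact (hc.eventually (pat_floor h)).mono fun x hx => Or.inr (congrArg Neg.neg hx)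

theorem patG_bd (i : Fin 3) (x : ℝ) : |x - patG i x| ≤ 1 := by
  rw [abs_le]
  fin_cases i
  · change -1 ≤ x - ⌊x⌋ ∧ x - ⌊x⌋ ≤ 1
    constructor <;> linarith [Int.floor_le x, Int.lt_floor_add_one x]
  · change -1 ≤ x - ⌊x + 1 / 2⌋ ∧ x - ⌊x + 1 / 2⌋ ≤ 1
    constructor <;> linarith [Int.floor_le (x + 1 / 2), Int.lt_floor_add_one (x + 1 / 2)]
  · change -1 ≤ x - (-⌊-x⌋ : ℤ) ∧ x - (-⌊-x⌋ : ℤ) ≤ 1
    rw [Int.cast_neg]
    constructor <;> linarith [Int.floor_le (-x), Int.lt_floor_add_one (-x)]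

theorem patG_neg (i : Fin 3) (x : ℝ) : patR i x = 0 ∨ patG i.rev (-x) = -patG i x := by
  fin_cases i
  · right
    change -⌊- -x⌋ = -⌊x⌋
    rw [neg_neg]
  · by_cases h : x + 1 / 2 = ⌊x + 1 / 2⌋
    · exact Or.inl (patR_of_one (patS_half h).self_of_nhds)
    · right
      change ⌊-x + 1 / 2⌋ = -⌊x + 1 / 2⌋
      have h1 := lt_of_le_of_ne (Int.floor_le (x + 1 / 2)) (Ne.symm h)
      have h2 := Int.lt_floor_add_one (x + 1 / 2)
      rw [Int.floor_eq_iff, Int.cast_neg]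
      constructor <;> linarith
  · right
    change ⌊-x⌋ = - -⌊-x⌋
    rw [neg_neg]

theorem pat_or {P Q : Fin b → Prop} (h : ∀ j, P j ∨ Q j) : (∃ j, P j) ∨ ∀ j, Q j := by
  by_cases h1 : ∃ j, P j
  · exact Or.inl h1
  · exact Or.inr fun j => (h j).resolve_left fun hj => h1 ⟨j, hj⟩

theorem exists_pat (b : ℕ) : Nonempty (Pat b) := by
  have ev : ∀ {a₀ : Fin b → ℝ} {P : Fin b → ℝ → Prop}, (∀ j, ∀ᶠ x in 𝓝 (a₀ j), P j x) →
      ∀ᶠ a in 𝓝 a₀, ∀ j, P j (a j) := fun {a₀ P} h =>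
    eventually_all.2 fun j => (continuous_apply j).continuousAt.eventually (h j)
  have pz : ∀ {i : Ix b} {a : Fin b → ℝ}, (∃ j, patR (i j) (a j) = 0) →
      ∏ j, patR (i j) (a j) = 0 := fun ⟨j, hj⟩ => Finset.prod_eq_zero (Finset.mem_univ j) hj
  refine ⟨⟨fun i a => ∏ j, patR (i j) (a j), fun i a j => patG (i j) (a j), fun i => ?_,
    fun i a m => ?_, fun i a m => ?_, fun i a₀ => ⟨fun j => patG (i j) (a₀ j), ?_⟩, fun i a => ?_,
    fun a => ?_, fun i a => ?_, fun i a => ?_, ?_⟩⟩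
  · refine patLip_prod _ (fun j => ?_) fun j a => patR_abs _ _
    obtain ⟨K, h⟩ := patR_lip (i j)
    exact ⟨_, h.comp (LipschitzWith.eval j)⟩
  · exact Finset.prod_congr rfl fun j _ => patR_per _ _ _
  · exact funext fun j => patG_per _ _ _
  · filter_upwards [ev (P := fun j x => patR (i j) x = 0 ∨ patG (i j) x = patG (i j) (a₀ j))
      fun j => pat_loc (i j) (a₀ j)] with a ha
    exact (pat_or ha).imp pz funext
  · exact (pi_norm_le_iff_of_nonneg zero_le_one).2 fun j => patG_bd (i j) (a j)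
  · have := Finset.prod_univ_sum (fun _ : Fin b => (Finset.univ : Finset (Fin 3)))
      fun j i => patR i (a j) ^ 2
    simp only [patR_sum, Finset.prod_const_one, Fintype.piFinset_univ, Finset.prod_pow] at this
    exact this.symm
  · exact Finset.prod_congr rfl fun j _ => patR_neg _ _
  · exact (pat_or fun j => patG_neg (i j) (a j)).imp pz funext
  · have h1 : ∀ᶠ x in 𝓝 (0 : ℝ), patS x = 0 := by simpa using patS_int 0
    have h2 : ∀ᶠ x in 𝓝 (0 : ℝ), ⌊x + 1 / 2⌋ = 0 := by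
      filter_upwards [Ioo_mem_nhds (show (-1 / 2 : ℝ) < 0 by norm_num)
        (show (0 : ℝ) < 1 / 2 by norm_num)] with x hx
      rw [Int.floor_eq_iff, Int.cast_zero]
      constructor <;> linarith [hx.1, hx.2]
    filter_upwards [ev (a₀ := 0) (P := fun _ x => patS x = 0 ∧ ⌊x + 1 / 2⌋ = 0)
      fun j => h1.and h2] with a ha
    refine ⟨fun i hi => ?_, Finset.prod_eq_one fun j _ => ?_, funext fun j => (ha j).2⟩
    · obtain ⟨j, hj⟩ := Function.ne_iff.1 hi
      exact pz ⟨j, patR_of_zero (ha j).1 hj⟩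
    · simp [patR, (ha j).1]

namespace Pat

variable (π : Pat b)

theorem abs_r_le (i : Ix b) (a : Fin b → ℝ) : |π.r i a| ≤ 1 := by
  rw [← sq_le_one_iff_abs_le_one, ← π.sum_sq a]
  exact Finset.single_le_sum (f := fun i => π.r i a ^ 2) (fun _ _ => sq_nonneg _)
    (Finset.mem_univ i)

theorem κ_per (a : Fin b → ℝ) (m : Fin b → ℤ) : π.κ (a + zc m) = π.κ a + zc m := by
  simp only [κ, π.r_per, π.g_per, zc_add, smul_add, Finset.sum_add_distrib]
  rw [← Finset.sum_smul, π.sum_sq, one_smul]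

theorem κ_neg (a : Fin b → ℝ) : π.κ (-a) = -π.κ a := by
  unfold κ
  rw [← Ix.sum_neg, ← Finset.sum_neg_distrib]
  refine Finset.sum_congr rfl fun i _ => ?_
  rw [π.r_neg]
  rcases π.g_neg i a with h | h
  · simp [h]
  · rw [h, zc_neg, smul_neg]

theorem κ_bd (a : Fin b → ℝ) : ‖a - π.κ a‖ ≤ 1 := by
  have e : a - π.κ a = ∑ i, π.r i a ^ 2 • (a - zc (π.g i a)) := by
    simp only [κ, smul_sub, Finset.sum_sub_distrib]
    rw [← Finset.sum_smul, π.sum_sq, one_smul]
  rw [e, ← π.sum_sq a]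
  refine norm_sum_le_of_le _ fun i _ => ?_
  rw [norm_smul, Real.norm_of_nonneg (sq_nonneg _)]
  exact mul_le_of_le_one_right (sq_nonneg _) (π.g_bd i a)

theorem κ_zero : ∀ᶠ a in 𝓝 0, π.κ a = 0 := by
  filter_upwards [π.zero] with a ha
  refine Finset.sum_eq_zero fun i _ => ?_
  by_cases hi : i = fun _ => 1
  · rw [hi, ha.2.2, zc_zero, smul_zero]
  · simp [ha.1 i hi]

/-- Near each point the branches may be taken constant. -/
theorem exists_loc (a₀ : Fin b → ℝ) : ∃ (s : Set (Fin b → ℝ)) (m : Ix b → Fin b → ℤ),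
    IsOpen s ∧ a₀ ∈ s ∧ (∀ a ∈ s, ∀ i, π.r i a = 0 ∨ π.g i a = m i) ∧
      ∃ K, LipschitzOnWith K π.κ s := by
  choose m hm using fun i => π.g_loc i a₀
  have h := eventually_all.2 hm
  obtain ⟨K, hK⟩ := patLip_sum Finset.univ (f := fun i a => π.r i a ^ 2 • zc (m i)) fun i => by
    obtain ⟨K, hK⟩ := patLip_mul (π.r_lip i) (π.r_lip i) (π.abs_r_le i) (π.abs_r_le i)
    simp only [sq]
    exact ⟨_, (ContinuousLinearMap.toSpanSingleton ℝ (zc (m i))).lipschitz.comp hK⟩
  refine ⟨interior {a | ∀ i, π.r i a = 0 ∨ π.g i a = m i}, m, isOpen_interior,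
    mem_interior_iff_mem_nhds.2 h, fun a ha => interior_subset ha, K, fun x hx y hy => ?_⟩
  have e : ∀ a ∈ interior {a | ∀ i, π.r i a = 0 ∨ π.g i a = m i},
      π.κ a = ∑ i, π.r i a ^ 2 • zc (m i) := fun a ha => Finset.sum_congr rfl fun i _ => by
    rcases interior_subset ha i with h | h
    · simp [h]
    · rw [h]
  rw [e x hx, e y hy]
  exact hK x y

theorem κ_cont : Continuous π.κ := by
  refine continuous_iff_continuousAt.2 fun a₀ => ?_
  obtain ⟨s, m, hs, ha, -, K, hK⟩ := π.exists_loc a₀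
  exact hK.continuousOn.continuousAt (hs.mem_nhds ha)

theorem g_finite (M : ℝ) : {m : Fin b → ℤ | ∃ i a, ‖a‖ ≤ M ∧ π.g i a = m}.Finite := by
  refine (Set.finite_Icc (fun _ => -⌈M + 1⌉ : Fin b → ℤ) fun _ => ⌈M + 1⌉).subset ?_
  rintro _ ⟨i, a, ha, rfl⟩
  have key : ∀ j, |(π.g i a j : ℝ)| ≤ (⌈M + 1⌉ : ℤ) := fun j => by
    have h1 : |a j - π.g i a j| ≤ 1 := (norm_le_pi_norm (a - zc (π.g i a)) j).trans (π.g_bd i a)
    have h2 : |a j| ≤ M := (norm_le_pi_norm a j).trans ha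
    have h3 := Int.le_ceil (M + 1)
    rw [abs_le] at h1 h2 ⊢
    constructor <;> linarith [h1.1, h1.2, h2.1, h2.2]
  refine ⟨fun j => ?_, fun j => ?_⟩
  · exact_mod_cast (abs_le.1 (key j)).1
  · exact_mod_cast (abs_le.1 (key j)).2

end Pat

end GZ
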