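import Pool.Agent.P.MP_0a0487_an.GZ.Gauge
import Pool.Agent.P.MP_0a0487_an.GZ.Pat
import Pool.Agent.P.MP_0a0487_an.GZ.AbsF

/-! The index bundle for large levels. -/

set_option autoImplicit false
set_option linter.unusedSectionVars false

noncomputable section

namespace SX4

open scoped ComplexOrder ContDiff
open Filter Topology Module GZ

variable {P A : Type} [TopologicalSpace P] [CompactSpace P] [CommRing A] [StarRing A] [Algebra ℂ A]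
  [StarModule ℂ A] {B : Base P A}

namespace Geo

variable {G : Geo B} (L : G.Latt) (π : Pat L.b)

theorem io_apply (Λ : ℝ) (a : Fin L.b → ℝ) (e : G.Um L.b Λ) :
    io L π Λ a e = ∑ i, (π.r i a : ℂ) • G.mulS (L.u (π.g i a)) (e i : G.Sec (wm 0)) := by
  simp only [io, LinearMap.sum_apply, LinearMap.smul_apply, LinearMap.comp_apply,
    LinearMap.proj_apply, Submodule.subtype_apply]

theorem pj_apply (Λ : ℝ) (a : Fin L.b → ℝ) (t : G.Sec (wm 0)) (i : Ix L.b) :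
    pj L π Λ a t i = (π.r i a : ℂ) • G.pm Λ (G.mulS (L.u (-π.g i a)) t) := rfl

theorem Lop_apply (Λ : ℝ) (a : Fin L.b → ℝ) (ψ : G.Sec (wp 0)) (e : G.Um L.b Λ) :
    Lop L π Λ a (ψ, e) = G.dirC (L.hm (π.κ a)) ψ + io L π Λ a e := rfl

theorem Th_fst (Λ : ℝ) (a : Fin L.b → ℝ) (ψ : G.Sec (wp 0)) (e : G.Um L.b Λ) (i : Ix L.b) :
    (Th L π Λ a (ψ, e)).1 i = (π.r i a : ℂ) • G.pp Λ (G.mulS (L.u (-π.g i a)) ψ) := rfl

theorem Th_snd (Λ : ℝ) (a : Fin L.b → ℝ) (ψ : G.Sec (wp 0)) (e : G.Um L.b Λ) :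
    (Th L π Λ a (ψ, e)).2 = e := rfl

theorem inner_io (Λ : ℝ) (a : Fin L.b → ℝ) (e : G.Um L.b Λ) (t : G.Sec (wm 0)) :
    inner ℂ (io L π Λ a e) t =
      ∑ i, inner ℂ (e i : G.Sec (wm 0)) (pj L π Λ a t i : G.Sec (wm 0)) := by
  rw [io_apply, sum_inner]
  refine Finset.sum_congr rfl fun i _ => ?_
  rw [pj_apply, inner_smul_left, Submodule.coe_smul, inner_smul_right, G.inner_pm, L.inner_mul,
    Complex.conj_ofReal]

theorem norm_io_le (Λ : ℝ) (a : Fin L.b → ℝ) (e : G.Um L.b Λ) :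
    ‖io L π Λ a e‖ ≤ Fintype.card (Ix L.b) * ‖e‖ := by
  rw [io_apply]
  refine (norm_sum_le _ _).trans ?_
  rw [← nsmul_eq_mul, ← Finset.card_univ]
  refine Finset.sum_le_card_nsmul _ _ _ fun i _ => ?_
  rw [norm_smul, L.norm_mul, Complex.norm_real, Real.norm_eq_abs]
  exact (mul_le_of_le_one_left (norm_nonneg _) (π.abs_r_le i a)).trans (norm_le_pi_norm e i)

theorem norm_pj_le (Λ : ℝ) (a : Fin L.b → ℝ) (t : G.Sec (wm 0)) : ‖pj L π Λ a t‖ ≤ ‖t‖ := by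
  refine (pi_norm_le_iff_of_nonneg (norm_nonneg _)).2 fun i => ?_
  rw [pj_apply, norm_smul, Complex.norm_real, Real.norm_eq_abs]
  refine (mul_le_of_le_one_left (norm_nonneg _) (π.abs_r_le i a)).trans ?_
  exact ((G.isOP_pm Λ).norm_le _).trans (L.norm_mul _ _).le

theorem norm_Th_le (Λ : ℝ) (a : Fin L.b → ℝ) (ψ : G.Sec (wp 0)) (e : G.Um L.b Λ) :
    ‖(Th L π Λ a (ψ, e)).1‖ ≤ ‖ψ‖ := by
  refine (pi_norm_le_iff_of_nonneg (norm_nonneg _)).2 fun i => ?_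
  rw [Th_fst, norm_smul, Complex.norm_real, Real.norm_eq_abs]
  refine (mul_le_of_le_one_left (norm_nonneg _) (π.abs_r_le i a)).trans ?_
  exact ((G.isOP_pp Λ).norm_le _).trans (L.norm_mul _ _).le

theorem GalA_sub (χ χ' : G.Sec (wm 0)) (ψ : G.Sec (wp 0)) :
    G.dirC χ ψ = G.dirC χ' ψ + G.rho 0 (χ - χ') ψ := by
  rw [Pre.dirC_apply, Pre.dirC_apply, Pre.rho_sub_left]
  abel

theorem GalA_dirac (m : Fin L.b → ℤ) (ψ : G.Sec (wp 0)) :
    G.dirac 0 (G.mulS (L.u (-m)) ψ) = G.mulS (L.u (-m)) (G.dirC (L.hm (zc m)) ψ) := by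
  rw [← L.dirC_mul, zc_neg, map_neg, add_neg_cancel, Pre.dirC_apply, Pre.rho_zero_left, add_zero]

theorem GalA_rho : ∃ C : ℝ, 0 ≤ C ∧ ∀ a i ψ,
    ‖G.rho 0 (L.hm (zc (π.g i a)) - L.hm (π.κ a)) ψ‖ ≤ C * ‖ψ‖ := by
  obtain ⟨C, hC, h⟩ := Pre.rho_fd L.hm
  refine ⟨C * 2, by positivity, fun a i ψ => ?_⟩
  rw [← map_sub]
  refine (h _ _).trans (mul_le_mul_of_nonneg_right (mul_le_mul_of_nonneg_left ?_ hC)
    (norm_nonneg _))
  have := norm_sub_le (a - π.κ a) (a - zc (π.g i a))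
  rw [sub_sub_sub_cancel_left] at this
  linarith [π.κ_bd a, π.g_bd i a]

theorem GalA_big {b : ℕ} (π : Pat b) (a : Fin b → ℝ) :
    ∃ i, 1 ≤ (Fintype.card (Ix b) : ℝ) * |π.r i a| := by
  by_contra hn
  push Not at hn
  have h1 : ∑ i, (Fintype.card (Ix b) : ℝ) * π.r i a ^ 2 < ∑ _i : Ix b, (1 : ℝ) := by
    refine Finset.sum_lt_sum_of_nonempty Finset.univ_nonempty fun i _ => lt_of_le_of_lt ?_ (hn i)
    refine mul_le_mul_of_nonneg_left ?_ (by positivity)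
    rw [← sq_abs]
    nlinarith [π.abs_r_le i a, abs_nonneg (π.r i a)]
  rw [← Finset.mul_sum, π.sum_sq] at h1
  simp at h1

theorem GalA_pj (Λ : ℝ) (a : Fin L.b → ℝ) (t : G.Sec (wm 0))
    (h : inner ℝ (io L π Λ a (pj L π Λ a t)) t = 0) (i : Ix L.b) : pj L π Λ a t i = 0 := by
  have h1 : (inner ℂ (io L π Λ a (pj L π Λ a t)) t).re = 0 := h
  rw [inner_io, Complex.re_sum] at h1
  have h2 : ∀ j, (inner ℂ (pj L π Λ a t j : G.Sec (wm 0)) (pj L π Λ a t j : G.Sec (wm 0))).re =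
      ‖(pj L π Λ a t j : G.Sec (wm 0))‖ ^ 2 := fun j =>
    inner_self_eq_norm_sq (𝕜 := ℂ) (pj L π Λ a t j : G.Sec (wm 0))
  simp only [h2] at h1
  have h3 := (Finset.sum_eq_zero_iff_of_nonneg fun j _ => sq_nonneg _).1 h1 i (Finset.mem_univ i)
  exact Subtype.ext (norm_eq_zero.1 (pow_eq_zero_iff two_ne_zero |>.1 h3))

theorem GalA_fr {V : Type} [AddCommGroup V] [Module ℝ V] [Module ℂ V] [IsScalarTower ℝ ℂ V] :
    finrank ℝ V = 2 * finrank ℂ V := by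
  rw [← Module.finrank_mul_finrank ℝ ℂ V, Complex.finrank_real_complex]

theorem GalA_fr' {V : Type} [AddCommGroup V] [Module ℝ V] [Module ℂ V] [IsScalarTower ℝ ℂ V]
    (E : Submodule ℂ V) (E' : Submodule ℝ V) (h : ∀ s, s ∈ E ↔ s ∈ E') :
    finrank ℝ E' = 2 * finrank ℂ E := by
  have e : E.restrictScalars ℝ = E' := Submodule.ext h
  rw [← e]
  exact GalA_fr (V := E)

theorem gal_bound : ∃ C Λ₀ : ℝ, 0 ≤ C ∧ ∀ Λ ≥ Λ₀, ∀ a ψ e, Lop L π Λ a (ψ, e) = 0 →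
    ‖ψ‖ ≤ C * ‖Th L π Λ a (ψ, e)‖ := by
  obtain ⟨C, hC, hb⟩ := GalA_rho L π
  refine ⟨4 * Fintype.card (Ix L.b), 2 * C + 1, by positivity, fun Λ hΛ a ψ e h => ?_⟩
  obtain ⟨i, hi⟩ := GalA_big π a
  set n : ℝ := (Fintype.card (Ix L.b) : ℝ) with hn
  have hn0 : 0 ≤ n := by positivity
  set T := ‖Th L π Λ a (ψ, e)‖ with hT
  have hT0 : 0 ≤ T := norm_nonneg _
  have h1 : ‖e‖ ≤ T := norm_snd_le (Th L π Λ a (ψ, e))
  have h2 : |π.r i a| * ‖G.pp Λ (G.mulS (L.u (-π.g i a)) ψ)‖ ≤ T := by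
    have := (norm_le_pi_norm _ i).trans (norm_fst_le (Th L π Λ a (ψ, e)))
    rwa [Th_fst, norm_smul, Complex.norm_real, Real.norm_eq_abs] at this
  set s := G.mulS (L.u (-π.g i a)) ψ with hs
  have h3 : Λ * ‖s - (G.pp Λ s : G.Sec (wp 0))‖ ≤ ‖G.dirac 0 s‖ :=
    (G.pair (G.dirac_ell 0)).tail (G.isOP_pp Λ) s
  have h4 : ‖G.dirac 0 s‖ ≤ n * ‖e‖ + C * ‖ψ‖ := by
    rw [hs, GalA_dirac, L.norm_mul, GalA_sub _ (L.hm (π.κ a)),
      eq_neg_of_add_eq_zero_left ((Lop_apply L π Λ a ψ e).symm.trans h)]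
    refine (norm_add_le _ _).trans (add_le_add ?_ (hb a i ψ))
    rw [norm_neg]
    exact norm_io_le L π Λ a e
  have h5 : ‖ψ‖ ≤ ‖G.pp Λ s‖ + ‖s - (G.pp Λ s : G.Sec (wp 0))‖ := by
    have := norm_add_le (G.pp Λ s : G.Sec (wp 0)) (s - (G.pp Λ s : G.Sec (wp 0)))
    rwa [add_sub_cancel, hs, L.norm_mul, ← hs] at this
  have h6 : ‖G.pp Λ s‖ ≤ n * T := by
    have := mul_le_mul_of_nonneg_right hi (norm_nonneg (G.pp Λ s))
    have := mul_le_mul_of_nonneg_left h2 hn0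
    nlinarith
  have h7 : n * ‖e‖ ≤ n * T := mul_le_mul_of_nonneg_left h1 hn0
  have hx := norm_nonneg (s - (G.pp Λ s : G.Sec (wp 0)))
  have hnT : 0 ≤ n * T := mul_nonneg hn0 hT0
  have h8 : (2 * C + 1) * ‖s - (G.pp Λ s : G.Sec (wp 0))‖ ≤ n * T + C * ‖ψ‖ :=
    (mul_le_mul_of_nonneg_right hΛ hx).trans (by linarith)
  have h9 : C * ‖ψ‖ ≤ C * (n * T + ‖s - (G.pp Λ s : G.Sec (wp 0))‖) :=
    mul_le_mul_of_nonneg_left (by linarith) hC
  have h10 : (C + 1) * ‖s - (G.pp Λ s : G.Sec (wp 0))‖ ≤ (C + 1) * (n * T) := by linarith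
  have h11 := le_of_mul_le_mul_left h10 (by linarith)
  linarith

theorem exists_lev : ∃ Λ₀ : ℝ, ∀ Λ ≥ Λ₀, Lev L π Λ := by
  obtain ⟨C, Λ₀, -, hb⟩ := gal_bound L π
  obtain ⟨C', hC', hr⟩ := GalA_rho L π
  refine ⟨max Λ₀ (C' + 1), fun Λ hΛ => ⟨fun a v h1 h2 => ?_, fun a => ?_⟩⟩
  · obtain ⟨ψ, e⟩ := v
    have h3 := hb Λ ((le_max_left _ _).trans hΛ) a ψ e h1
    rw [h2, norm_zero, mul_zero] at h3
    exact Prod.ext (norm_le_zero_iff.1 h3) (congrArg Prod.snd h2 :)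
  · obtain ⟨D', hD⟩ := Pre.dirC_ell (G := G.toPre) (L.hm (π.κ a))
    refine surj_of_pair (U := G.Um L.b Λ) (G.pair hD) ((io L π Λ a).restrictScalars ℝ)
      fun t h1 h2 => ?_
    obtain ⟨i, hi⟩ := GalA_big π a
    have hi0 : π.r i a ≠ 0 := fun h => by norm_num [h] at hi
    have h3 : pj L π Λ a t i = 0 := GalA_pj L π Λ a t (h2 _) i
    rw [pj_apply, smul_eq_zero, Complex.ofReal_eq_zero, or_iff_right hi0] at h3
    set s := G.mulS (L.u (-π.g i a)) t with hs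
    have h4 : Λ * ‖s - (G.pm Λ s : G.Sec (wm 0))‖ ≤ ‖G.diracAdj 0 s‖ :=
      (G.pair (G.dirac_ell 0)).symm.tail (G.isOP_pm Λ) s
    rw [h3, Submodule.coe_zero, sub_zero, hs, L.norm_mul, ← hs] at h4
    have h5 : ∀ φ, inner ℝ φ (G.diracAdj 0 s) ≤ C' * ‖φ‖ * ‖t‖ := fun φ => by
      have e1 : inner ℂ (G.dirac 0 φ) s =
          inner ℂ (G.dirC (L.hm (zc (π.g i a))) (G.mulS (L.u (π.g i a)) φ)) t := by
        have := GalA_dirac L (π.g i a) (G.mulS (L.u (π.g i a)) φ)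
        rw [L.mul_mul, neg_add_cancel, L.mul_zero] at this
        rw [this, L.inner_mul, neg_neg, hs, L.mul_mul, add_neg_cancel, L.mul_zero]
      have e2 : inner ℝ (G.dirac 0 φ) s =
          inner ℝ (G.dirC (L.hm (zc (π.g i a))) (G.mulS (L.u (π.g i a)) φ)) t :=
        congrArg Complex.re e1
      have e3 : inner ℝ (G.dirC (L.hm (π.κ a)) (G.mulS (L.u (π.g i a)) φ)) t = 0 := by
        have := hD.adj (G.mulS (L.u (π.g i a)) φ) t
        rwa [h1, inner_zero_right] at this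
      rw [← (G.dirac_ell 0).adj, e2, GalA_sub _ (L.hm (π.κ a)), inner_add_left, e3, zero_add]
      refine (real_inner_le_norm _ _).trans (mul_le_mul_of_nonneg_right ?_ (norm_nonneg _))
      exact (hr a i _).trans_eq (by rw [L.norm_mul])
    have h6 := h5 (G.diracAdj 0 s)
    rw [real_inner_self_eq_norm_mul_norm] at h6
    have h7 : (C' + 1) * ‖t‖ ≤ ‖G.diracAdj 0 s‖ :=
      (mul_le_mul_of_nonneg_right ((le_max_right _ _).trans hΛ) (norm_nonneg _)).trans h4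
    by_contra ht
    have ht' : 0 < ‖t‖ := norm_pos_iff.2 ht
    rcases (norm_nonneg (G.diracAdj 0 s)).eq_or_lt with h8 | h8
    · nlinarith
    · have : ‖G.diracAdj 0 s‖ ≤ C' * ‖t‖ := le_of_mul_le_mul_left (by linarith) h8
      linarith

theorem Lev.rank {Λ : ℝ} (h : Lev L π Λ) (a : Fin L.b → ℝ) :
    FiniteDimensional ℂ (LinearMap.ker (Lop L π Λ a)) ∧
      2 * (finrank ℂ (LinearMap.ker (Lop L π Λ a)) : ℤ) =
        G.ind 0 + 2 * finrank ℂ (G.Um L.b Λ) := by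
  obtain ⟨D', hD⟩ := Pre.dirC_ell (G := G.toPre) (L.hm (π.κ a))
  have := (G.pair hD).ker_fd
  have := (G.pair hD).coker_fd
  obtain ⟨h1, h2⟩ := ker_rank (G.dirac 0 + G.rho 0 (L.hm (π.κ a)))
    ((io L π Λ a).restrictScalars ℝ) (h.surj a)
  refine ⟨fd_of_real _ (LinearMap.ker ((G.dirac 0 + G.rho 0 (L.hm (π.κ a))).coprod
    ((io L π Λ a).restrictScalars ℝ))) fun _ => Iff.rfl, ?_⟩
  rw [GalA_fr' (LinearMap.ker (Lop L π Λ a)) _ fun _ => Iff.rfl, GalA_fr,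
    G.index_add_zo (G.dirac_ell 0) (G.rho_zo 0 _)] at h2
  push_cast at h2
  exact h2

theorem Lop_coer (Λ : ℝ) (a : Fin L.b → ℝ) : ∃ δ : ℝ, 0 < δ ∧ ∀ v,
    ∃ v', Lop L π Λ a v' = 0 ∧ δ * ‖v - v'‖ ≤ ‖Lop L π Λ a v‖ := by
  obtain ⟨D', hD⟩ := Pre.dirC_ell (G := G.toPre) (L.hm (π.κ a))
  exact coer_of_pair (U := G.Um L.b Λ) (G.pair hD) ((io L π Λ a).restrictScalars ℝ)

end Geo

end SX4
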