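import Pool.Agent.P.MP_0a0487_an.GZ.GalA

/-! Equivariance of the Galerkin family. -/

set_option autoImplicit false
set_option linter.unusedSectionVars false

noncomputable section

namespace SX4

open scoped ComplexOrder ContDiff
open Filter Topology Module GZ

variable {P A : Type} [TopologicalSpace P] [CompactSpace P] [CommRing A] [StarRing A] [Algebra ℂ A]
  [StarModule ℂ A] {B : Base P A}

namespace Geo

variable {G : Geo B} (L : G.Latt) (π : Pat L.b)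

variable (Λ : ℝ)

theorem io_per (a : Fin L.b → ℝ) (m : Fin L.b → ℤ) (e : G.Um L.b Λ) :
    io L π Λ (a + zc m) e = G.mulS (L.u m) (io L π Λ a e) := by
  rw [io_apply, io_apply, map_sum]
  exact Finset.sum_congr rfl fun i _ => by rw [π.r_per, π.g_per, map_smul, L.mul_mul, add_comm]

theorem pj_per (a : Fin L.b → ℝ) (m : Fin L.b → ℤ) (t : G.Sec (wm 0)) :
    pj L π Λ (a + zc m) (G.mulS (L.u m) t) = pj L π Λ a t := by
  funext i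
  rw [pj_apply, pj_apply, π.r_per, π.g_per, L.mul_mul, neg_add, neg_add_cancel_right]

theorem Lop_per (a : Fin L.b → ℝ) (m : Fin L.b → ℤ) (ψ : G.Sec (wp 0)) (e : G.Um L.b Λ) :
    Lop L π Λ (a + zc m) (G.mulS (L.u m) ψ, e) = G.mulS (L.u m) (Lop L π Λ a (ψ, e)) := by
  rw [Lop_apply, Lop_apply, π.κ_per, map_add L.hm, L.dirC_mul, io_per, map_add]

theorem Th_per (a : Fin L.b → ℝ) (m : Fin L.b → ℤ) (ψ : G.Sec (wp 0)) (e : G.Um L.b Λ) :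
    Th L π Λ (a + zc m) (G.mulS (L.u m) ψ, e) = Th L π Λ a (ψ, e) := by
  refine Prod.ext (funext fun i => ?_) rfl
  rw [Th_fst, Th_fst, π.r_per, π.g_per, L.mul_mul, neg_add, neg_add_cancel_right]

theorem Eqn_per (a : Fin L.b → ℝ) (m : Fin L.b → ℤ) (ψ : G.Sec (wp 0)) (e : G.Um L.b Λ)
    (y : G.Sec (wm 0)) :
    Eqn L π Λ (a + zc m) (G.mulS (L.u m) ψ) e y = Eqn L π Λ a ψ e y := by
  rw [Eqn, Eqn, π.κ_per, add_sub_add_right_eq_sub, Pre.rho_mulS, pj_per, L.sig_mul]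

theorem Eqn_rot (a : Fin L.b → ℝ) {z : ℂ} (hz : ‖z‖ = 1) (ψ : G.Sec (wp 0)) (e : G.Um L.b Λ)
    (y : G.Sec (wm 0)) : Eqn L π Λ a (z • ψ) (z • e) y =
      (z • (Eqn L π Λ a ψ e y).1, (Eqn L π Λ a ψ e y).2) := by
  rw [Eqn, Eqn, G.rho_smul, map_smul, G.sig_unit z hz, smul_sub]

theorem mem_Wg {a : Fin L.b → ℝ} {w : G.Ut L.b Λ} :
    w ∈ Wg L π Λ a ↔ ∃ ψ, Lop L π Λ a (ψ, w.2) = 0 ∧ Th L π Λ a (ψ, w.2) = w := by
  refine ⟨?_, fun ⟨ψ, h1, h2⟩ => ⟨(ψ, w.2), h1, h2⟩⟩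
  rintro ⟨⟨ψ, e⟩, h1, rfl⟩
  exact ⟨ψ, h1, rfl⟩

theorem GalB_cont {ι V : Type} [Fintype ι] {w : ι → Wt} [NormedAddCommGroup V] [NormedSpace ℝ V]
    [FiniteDimensional ℝ V] (h : V →ₗ[ℝ] G.Sec w) (k : ℕ) : Continuous fun v => (h v).nS k := by
  obtain ⟨C, -, hC⟩ := Pre.nS_fd h k
  refine (LipschitzWith.of_le_add_mul' C fun v v' => ?_).continuous
  have := (h v').nS_add (h (v - v')) k
  rw [← map_add, add_sub_cancel] at this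
  rw [dist_eq_norm]
  linarith [hC (v - v')]

theorem GalB_le (a : Fin L.b → ℝ) (m : Fin L.b → ℤ) : Wg L π Λ a ≤ Wg L π Λ (a + zc m) :=
  fun w hw => by
    obtain ⟨ψ, h1, h2⟩ := (mem_Wg L π Λ).1 hw
    exact (mem_Wg L π Λ).2 ⟨G.mulS (L.u m) ψ, by rw [Lop_per, h1, map_zero], by rw [Th_per, h2]⟩

theorem Wg_per (a : Fin L.b → ℝ) (m : Fin L.b → ℤ) : Wg L π Λ (a + zc m) = Wg L π Λ a := by
  refine le_antisymm ?_ (GalB_le L π Λ a m)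
  have := GalB_le L π Λ (a + zc m) (-m)
  rwa [zc_neg, add_neg_cancel_right] at this

theorem size_Ng (b : ℕ) (R : ℝ) : Size (Ng Λ : G.Ut b Λ × G.Ym Λ → ℝ) R := by
  have : FiniteDimensional ℝ (G.Em Λ) := Module.Finite.trans ℂ _
  refine ⟨(continuous_fst.fst.norm.add (continuous_finsetSum _ fun i _ =>
    (GalB_cont ((G.Em Λ).subtype.restrictScalars ℝ) 3).comp
      ((continuous_apply i).comp continuous_fst.snd))).add
        ((GalB_cont (G.Ym Λ).subtype 4).comp continuous_snd),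
    isBounded_iff_forall_norm_le.2 ⟨R, fun p hp => ?_⟩, fun z hz w y => ?_⟩
  · have h0 : ‖p.1.1‖ + ∑ i, (p.1.2 i : G.Sec (wm 0)).nS 3 + (p.2 : G.Sec (wm 0)).nS 4 ≤ R := hp
    have h1 := norm_nonneg p.1.1
    have h2 : 0 ≤ ∑ i, (p.1.2 i : G.Sec (wm 0)).nS 3 :=
      Finset.sum_nonneg fun i _ => Pre.Sec.nS_nonneg _ _
    have h3 := (p.2 : G.Sec (wm 0)).nS_nonneg 4
    have h4 : ‖p.2‖ ≤ _ := (p.2 : G.Sec (wm 0)).norm_le_nS 4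
    refine max_le (max_le (by linarith) ((pi_norm_le_iff_of_nonneg (by linarith)).2 fun i => ?_))
      (by linarith)
    have h5 : ‖p.1.2 i‖ ≤ _ := (p.1.2 i : G.Sec (wm 0)).norm_le_nS 3
    have h6 := Finset.single_le_sum (f := fun i => (p.1.2 i : G.Sec (wm 0)).nS 3)
      (fun i _ => Pre.Sec.nS_nonneg _ _) (Finset.mem_univ i)
    linarith
  · simp only [Ng, Prod.smul_fst, Prod.smul_snd, Pi.smul_apply, Submodule.coe_smul, norm_smul,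
      Pre.Sec.nS_smul, hz, one_mul]

theorem Ng_nonneg {b : ℕ} (p : G.Ut b Λ × G.Ym Λ) : 0 ≤ Ng Λ p := by
  exact add_nonneg (add_nonneg (norm_nonneg _) (Finset.sum_nonneg fun i _ => Pre.Sec.nS_nonneg _ _))
    (Pre.Sec.nS_nonneg _ _)

variable {L π Λ}

theorem Lev.Fg_eq (h : Lev L π Λ) {a : Fin L.b → ℝ} {ψ : G.Sec (wp 0)} {e : G.Um L.b Λ}
    (hk : Lop L π Λ a (ψ, e) = 0) (y : G.Ym Λ) :
    Fg L π Λ (a, Th L π Λ a (ψ, e), y) = Eqn L π Λ a ψ e y := by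
  obtain ⟨h1, h2⟩ := Classical.epsilon_spec (p := fun ψ' =>
    Lop L π Λ a (ψ', e) = 0 ∧ Th L π Λ a (ψ', e) = Th L π Λ a (ψ, e)) ⟨ψ, hk, rfl⟩
  have h3 := h.inj a (_ - (ψ, e)) (by rw [map_sub, h1, hk, sub_zero]) (by rw [map_sub, h2, sub_self])
  exact congrArg (fun s => Eqn L π Λ a s e y) (congrArg Prod.fst (sub_eq_zero.1 h3))

theorem Lev.Fg_per (h : Lev L π Λ) (a : Fin L.b → ℝ) (m : Fin L.b → ℤ) (w : G.Ut L.b Λ)
    (y : G.Ym Λ) (hw : w ∈ Wg L π Λ a) : Fg L π Λ (a + zc m, w, y) = Fg L π Λ (a, w, y) := by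
  obtain ⟨ψ, h1, h2⟩ := (mem_Wg L π Λ).1 hw
  rw [← h2, h.Fg_eq h1, ← Th_per L π Λ a m, h.Fg_eq (by rw [Lop_per, h1, map_zero]), Eqn_per]

theorem Lev.Fg_rot (h : Lev L π Λ) (a : Fin L.b → ℝ) (w : G.Ut L.b Λ) (y : G.Ym Λ) (z : ℂ)
    (hz : ‖z‖ = 1) (hw : w ∈ Wg L π Λ a) : Fg L π Λ (a, z • w, y) =
      (z • (Fg L π Λ (a, w, y)).1, (Fg L π Λ (a, w, y)).2) := by
  obtain ⟨⟨ψ, e⟩, h1, rfl⟩ := hw
  have h1 : Lop L π Λ a (ψ, e) = 0 := h1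
  rw [← map_smul, Prod.smul_mk, h.Fg_eq h1,
    h.Fg_eq (by rw [← Prod.smul_mk, map_smul, h1, smul_zero]), Eqn_rot L π Λ a hz]

theorem Lev.exists_gs (h : Lev L π Λ) {R : ℝ} {ξ : G.Sec (wp 0)}
    {p : (Fin L.b → ℝ) × G.Ut L.b Λ × G.Ym Λ} (hw : p.2.1 ∈ Wg L π Λ p.1) (hR : Ng Λ p.2 ≤ R)
    (hF : Fg L π Λ p = (0, G.qp Λ ξ)) :
    ∃ ψ, GS L π Λ R ξ p.1 ψ p.2.1.2 p.2.2 ∧ Th L π Λ p.1 (ψ, p.2.1.2) = p.2.1 := by
  obtain ⟨ψ, h1, h2⟩ := (mem_Wg L π Λ).1 hw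
  refine ⟨ψ, ⟨h1, ?_, by rwa [h2]⟩, h2⟩
  rw [← h.Fg_eq h1, h2]
  exact hF

theorem GS.per {R : ℝ} {ξ : G.Sec (wp 0)} {a : Fin L.b → ℝ} {ψ : G.Sec (wp 0)} {e : G.Um L.b Λ}
    {y : G.Ym Λ} (h : GS L π Λ R ξ a ψ e y) (m : Fin L.b → ℤ) :
    GS L π Λ R ξ (a + zc m) (G.mulS (L.u m) ψ) e y := by
  exact ⟨by rw [Lop_per, h.ker, map_zero], by rw [Eqn_per, h.eq], by rw [Th_per]; exact h.le⟩

end Geo

end SX4
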