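import Pool.Agent.P.MP_0a0487_an.GZ.GalB

/-! The Galerkin family is a finite-dimensional model. -/

set_option autoImplicit false
set_option linter.unusedSectionVars false

noncomputable section

namespace GZ

variable {X E F α : Type} [NormedAddCommGroup X] [NormedAddCommGroup E] [NormedAddCommGroup F]
  [NormedAddCommGroup α] {T : Set X} {g : X → α} {f : X → E}

/-- Bounded Lipschitz functions on a set. -/
def GalCBL (T : Set X) (f : X → E) : Prop :=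
  ∃ K : ℝ, 0 ≤ K ∧ ∀ p ∈ T, ‖f p‖ ≤ K ∧ ∀ q ∈ T, ‖f p - f q‖ ≤ K * ‖p - q‖

namespace GalCBL

theorem app (hg : GalCBL T g) (hf : GalCBL T f) (b : α → E → F)
    (hb : ∀ a v v', b a (v - v') = b a v - b a v') {C C' : ℝ} (hC : 0 ≤ C) (hC' : 0 ≤ C')
    (h1 : ∀ p ∈ T, ∀ v, ‖b (g p) v‖ ≤ C * ‖v‖)
    (h2 : ∀ p ∈ T, ∀ q ∈ T, ∀ v, ‖b (g p) v - b (g q) v‖ ≤ C' * ‖g p - g q‖ * ‖v‖) :
    GalCBL T fun p => b (g p) (f p) := by
  obtain ⟨K, hK, hg⟩ := hg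
  obtain ⟨M, hM, hf⟩ := hf
  refine ⟨C * M + C' * K * M, by positivity, fun p hp => ⟨?_, fun q hq => ?_⟩⟩
  · calc _ ≤ C * ‖f p‖ := h1 p hp _
      _ ≤ C * M := by gcongr; exact (hf p hp).1
      _ ≤ _ := le_add_of_nonneg_right (by positivity)
  · calc _ ≤ ‖b (g p) (f p - f q)‖ + ‖b (g p) (f q) - b (g q) (f q)‖ := by
          rw [hb]; exact norm_sub_le_norm_sub_add_norm_sub ..
      _ ≤ C * ‖f p - f q‖ + C' * ‖g p - g q‖ * ‖f q‖ := add_le_add (h1 p hp _) (h2 p hp q hq _)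
      _ ≤ C * (M * ‖p - q‖) + C' * (K * ‖p - q‖) * M := by
          gcongr
          exacts [(hf p hp).2 q hq, (hg p hp).2 q hq, (hf q hq).1]
      _ = _ := by ring

theorem bil (hg : GalCBL T g) (hf : GalCBL T f) (b : α → E → F)
    (hb : ∀ a v v', b a (v - v') = b a v - b a v') (hb' : ∀ a a' v, b (a - a') v = b a v - b a' v)
    {C : ℝ} (hC : 0 ≤ C) (h : ∀ a v, ‖b a v‖ ≤ C * ‖a‖ * ‖v‖) :
    GalCBL T fun p => b (g p) (f p) := by
  obtain ⟨K, hK, hg'⟩ := id hg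
  refine hg.app hf b hb (C := C * K) (by positivity) hC
    (fun p hp v => (h _ _).trans (by gcongr; exact (hg' p hp).1)) fun p _ q _ v => ?_
  rw [← hb']
  exact h _ _

theorem lin (hf : GalCBL T f) (b : E → F) (hb : ∀ v v', b (v - v') = b v - b v') {C : ℝ}
    (hC : 0 ≤ C) (h : ∀ v, ‖b v‖ ≤ C * ‖v‖) : GalCBL T fun p => b (f p) :=
  hf.app hf (fun _ => b) (fun _ => hb) hC le_rfl (fun _ _ => h) (by simp)

theorem prod (hg : GalCBL T g) (hf : GalCBL T f) : GalCBL T fun p => (g p, f p) := by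
  obtain ⟨K, hK, hg⟩ := hg
  obtain ⟨M, hM, hf⟩ := hf
  refine ⟨max K M, by positivity, fun p hp => ⟨max_le_max (hg p hp).1 (hf p hp).1, fun q hq => ?_⟩⟩
  rw [max_mul_of_nonneg _ _ (norm_nonneg _)]
  exact max_le_max ((hg p hp).2 q hq) ((hf p hp).2 q hq)

theorem fst {f : X → E × F} (hf : GalCBL T f) : GalCBL T fun p => (f p).1 :=
  hf.lin Prod.fst (fun _ _ => rfl) zero_le_one fun v => by simpa using norm_fst_le v

theorem snd {f : X → E × F} (hf : GalCBL T f) : GalCBL T fun p => (f p).2 :=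
  hf.lin Prod.snd (fun _ _ => rfl) zero_le_one fun v => by simpa using norm_snd_le v

theorem add {g : X → E} (hg : GalCBL T g) (hf : GalCBL T f) : GalCBL T fun p => g p + f p :=
  (hg.prod hf).lin (fun z => z.1 + z.2) (fun _ _ => by simp only [Prod.fst_sub, Prod.snd_sub]; abel)
    zero_le_two fun v => (norm_add_le _ _).trans (by linarith [norm_fst_le v, norm_snd_le v])

theorem sub {g : X → E} (hg : GalCBL T g) (hf : GalCBL T f) : GalCBL T fun p => g p - f p :=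
  (hg.prod hf).lin (fun z => z.1 - z.2) (fun _ _ => by simp only [Prod.fst_sub, Prod.snd_sub]; abel)
    zero_le_two fun v => (norm_sub_le _ _).trans (by linarith [norm_fst_le v, norm_snd_le v])

theorem id' (hT : Bornology.IsBounded T) : GalCBL T fun p => p := by
  obtain ⟨C, hC⟩ := hT.exists_norm_le
  exact ⟨max C 1, by positivity, fun p hp => ⟨le_max_of_le_left (hC p hp),
    fun q _ => le_mul_of_one_le_left (norm_nonneg _) (le_max_right _ _)⟩⟩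

theorem lip {g : X → E} (hf : GalCBL T f) (h : ∀ p ∈ T, g p = f p) :
    ∃ K, LipschitzOnWith K g T := by
  obtain ⟨K, hK, hf⟩ := hf
  refine ⟨⟨K, hK⟩, LipschitzOnWith.of_dist_le_mul fun p hp q hq => ?_⟩
  rw [dist_eq_norm, dist_eq_norm, h p hp, h q hq]
  exact (hf p hp).2 q hq

end GalCBL

theorem galC_loc {b : ℕ} (π : Pat b) (a₀ : Fin b → ℝ) : ∃ (s : Set (Fin b → ℝ)) (K : ℝ),
    IsOpen s ∧ a₀ ∈ s ∧ Bornology.IsBounded s ∧ 0 ≤ K ∧ ∀ a ∈ s, ∀ a' ∈ s,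
      ‖π.κ a - π.κ a'‖ ≤ K * ‖a - a'‖ ∧ ∀ (V : Type) [NormedAddCommGroup V] [NormedSpace ℂ V]
        (f : (Fin b → ℤ) → V) (c : ℝ), (∀ n, ‖f n‖ ≤ c) → ∀ i,
        ‖(π.r i a : ℂ) • f (π.g i a) - (π.r i a' : ℂ) • f (π.g i a')‖ ≤ K * ‖a - a'‖ * c := by
  obtain ⟨s, m, hs, ha, hm, K₀, hκ⟩ := π.exists_loc a₀
  choose K hK using π.r_lip
  refine ⟨s ∩ Metric.ball a₀ 1, (K₀ + ∑ i, K i : NNReal), hs.inter Metric.isOpen_ball,
    ⟨ha, Metric.mem_ball_self one_pos⟩, Metric.isBounded_ball.subset Set.inter_subset_right,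
    NNReal.coe_nonneg _, fun a ha a' ha' => ⟨?_, fun V _ _ f c hf i => ?_⟩⟩
  · simpa only [dist_eq_norm] using (hκ.weaken le_self_add).dist_le_mul a ha.1 a' ha'.1
  · have e : ∀ a ∈ s, (π.r i a : ℂ) • f (π.g i a) = (π.r i a : ℂ) • f (m i) := fun a ha => by
      rcases hm a ha i with h | h <;> simp [h]
    rw [e a ha.1, e a' ha'.1, ← sub_smul, norm_smul, ← Complex.ofReal_sub, Complex.norm_real]
    refine mul_le_mul ?_ (hf _) (norm_nonneg _) (by positivity)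
    simpa only [dist_eq_norm] using ((hK i).weaken (le_add_left (Finset.single_le_sum
      (fun _ _ => zero_le) (Finset.mem_univ i)))).dist_le_mul a a'

end GZ

namespace SX4

open scoped ComplexOrder ContDiff
open Filter Topology Module GZ

variable {P A : Type} [TopologicalSpace P] [CompactSpace P] [CommRing A] [StarRing A] [Algebra ℂ A]
  [StarModule ℂ A] {B : Base P A}

namespace Geo

variable {G : Geo B} (L : G.Latt) (π : Pat L.b)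

theorem galC_loc (Λ : ℝ) (a₀ : Fin L.b → ℝ) : ∃ (s : Set (Fin L.b → ℝ)) (K : ℝ),
    IsOpen s ∧ a₀ ∈ s ∧ Bornology.IsBounded s ∧ 0 ≤ K ∧ ∀ a ∈ s, ∀ a' ∈ s,
      ‖π.κ a - π.κ a'‖ ≤ K * ‖a - a'‖ ∧
      (∀ t, ‖pj L π Λ a t - pj L π Λ a' t‖ ≤ K * ‖a - a'‖ * ‖t‖) ∧
      (∀ v, ‖Th L π Λ a v - Th L π Λ a' v‖ ≤ K * ‖a - a'‖ * ‖v‖) ∧
      ∀ e, ‖io L π Λ a e - io L π Λ a' e‖ ≤ Fintype.card (Ix L.b) * (K * ‖a - a'‖ * ‖e‖) := by
  obtain ⟨s, K, hs, ha, hb, hK, h⟩ := GZ.galC_loc π a₀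
  refine ⟨s, K, hs, ha, hb, hK, fun a ha a' ha' => ⟨(h a ha a' ha').1, fun t => ?_, fun v => ?_,
    fun e => ?_⟩⟩
  · refine (pi_norm_le_iff_of_nonneg (by positivity)).2 fun i => ?_
    exact (h a ha a' ha').2 _ (fun n => G.pm Λ (G.mulS (L.u (-n)) t)) _ (fun n =>
      (Submodule.norm_orthogonalProjectionOnto_apply_le _ _).trans (L.norm_mul _ _).le) i
  · refine max_le ((pi_norm_le_iff_of_nonneg (by positivity)).2 fun i => ?_) ?_
    · exact (h a ha a' ha').2 _ (fun n => G.pp Λ (G.mulS (L.u (-n)) v.1)) _ (fun n =>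
        (Submodule.norm_orthogonalProjectionOnto_apply_le _ _).trans
          ((L.norm_mul _ _).le.trans (norm_fst_le v))) i
    · exact (congrArg norm (sub_self v.2)).le.trans (by rw [norm_zero]; positivity)
  · rw [io_apply, io_apply, ← Finset.sum_sub_distrib, ← nsmul_eq_mul, ← Finset.card_univ]
    refine (norm_sum_le _ _).trans (Finset.sum_le_card_nsmul _ _ _ fun i _ => ?_)
    exact (h a ha a' ha').2 _ (fun n => G.mulS (L.u n) (e i : G.Sec (wm 0))) _ (fun n =>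
      (L.norm_mul _ _).le.trans (norm_le_pi_norm e i)) i

theorem galC_Th (Λ : ℝ) (a : Fin L.b → ℝ) (v : G.Sec (wp 0) × G.Um L.b Λ) :
    ‖Th L π Λ a v‖ ≤ ‖v‖ :=
  max_le_max (norm_Th_le L π Λ a v.1 v.2) le_rfl

theorem galC_sig (Λ : ℝ) : ∃ C : ℝ, 0 ≤ C ∧ ∀ ψ ψ' : G.Sec (wp 0),
    ‖G.qp Λ (G.sig ψ ψ')‖ ≤ C * ‖ψ‖ * ‖ψ'‖ := by
  obtain ⟨C, hC, h⟩ := Pre.sig_fd (G.Yp Λ)
  refine ⟨C, hC, fun ψ ψ' => ?_⟩
  have h1 := h _ (G.qp Λ (G.sig ψ ψ')).2 ψ ψ'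
  have h2 := (G.isOP_qp Λ).2 (G.sig ψ ψ') _ (G.qp Λ (G.sig ψ ψ')).2
  change inner ℝ (_ - (G.qp Λ (G.sig ψ ψ') : G.Sec (wp 0))) _ = 0 at h2
  rw [inner_sub_left, sub_eq_zero, real_inner_self_eq_norm_mul_norm] at h2
  rw [h2, abs_mul_self] at h1
  change ‖(G.qp Λ (G.sig ψ ψ') : G.Sec (wp 0))‖ ≤ _
  rcases (norm_nonneg (G.qp Λ (G.sig ψ ψ') : G.Sec (wp 0))).eq_or_lt with h0 | h0
  · rw [← h0]; positivity
  · exact le_of_mul_le_mul_left (h1.trans_eq (by ring)) h0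

variable {L π} {Λ : ℝ}

theorem Lev.frame (h : Lev L π Λ) {k : ℕ}
    (hk : ∀ a, finrank ℂ (LinearMap.ker (Lop L π Λ a)) = k) (a₀ : Fin L.b → ℝ) :
    ∃ (s : Set (Fin L.b → ℝ)) (S : (Fin L.b → ℝ) → (Fin k → ℂ) →L[ℂ] G.Ut L.b Λ),
      a₀ ∈ s ∧ IsFrame (U := G.Ut L.b Λ) (Wg L π Λ) s S ∧ ∀ R : ℝ, ∃ K, LipschitzOnWith K
        (fun p : (Fin L.b → ℝ) × (Fin k → ℂ) × G.Ym Λ => Fg L π Λ (p.1, S p.1 p.2.1, p.2.2))
        (s ×ˢ Metric.closedBall 0 R) := by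
  obtain ⟨s, K, hs, ha, hb, hK, hl⟩ := galC_loc L π Λ a₀
  obtain ⟨δ, hδ, hc⟩ := Lop_coer L π Λ a₀
  obtain ⟨C, hC, hρ⟩ := Pre.rho_fd L.hm
  have lip : ∀ a ∈ s, ∀ a' ∈ s, ∀ v, ‖Lop L π Λ a v - Lop L π Λ a' v‖ ≤
      (C * K + Fintype.card (Ix L.b) * K) * ‖a - a'‖ * ‖v‖ := fun a ha a' ha' v => by
    have e : Lop L π Λ a v - Lop L π Λ a' v = G.rho 0 (L.hm (π.κ a - π.κ a')) v.1 +
        (io L π Λ a v.2 - io L π Λ a' v.2) := by
      rw [map_sub, Pre.rho_sub_left, Lop_apply L π Λ a v.1 v.2, Lop_apply L π Λ a' v.1 v.2,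
        Pre.dirC_apply, Pre.dirC_apply]
      abel
    rw [e]
    calc _ ≤ C * ‖π.κ a - π.κ a'‖ * ‖v.1‖ + Fintype.card (Ix L.b) * (K * ‖a - a'‖ * ‖v.2‖) :=
          (norm_add_le _ _).trans (add_le_add (hρ _ _) ((hl a ha a' ha').2.2.2 _))
      _ ≤ C * (K * ‖a - a'‖) * ‖v‖ + Fintype.card (Ix L.b) * (K * ‖a - a'‖ * ‖v‖) := by
          gcongr
          exacts [(hl a ha a' ha').1, norm_fst_le v, norm_snd_le v]
      _ = _ := by ring
  have fr := abs_frame (k := k) (X := G.Sec (wp 0) × G.Um L.b Λ) (X' := G.Sec (wm 0)) (Lop L π Λ)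
    hs ha hδ (K := C * K + Fintype.card (Ix L.b) * K) hc
  obtain ⟨s', S, K', hs', ha', hss, hK', hS, hS'⟩ := fr lip (fun a => (h.rank L π a).1) hk
  have hker : ∀ a ∈ s', ∀ x, Lop L π Λ a (S a x) = 0 := fun a ha x =>
    LinearMap.mem_ker.1 ((hS a ha).2.1 ▸ LinearMap.mem_range_self _ x)
  refine ⟨s', fun a => LinearMap.toContinuousLinearMap (Th L π Λ a ∘ₗ S a), ha',
    ⟨hs', ⟨⟨K' + K * K', by positivity⟩, LipschitzOnWith.of_dist_le_mul fun a ha a' ha' => ?_⟩,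
      fun a ha => ?_, fun a ha w => ?_⟩, fun R => ?_⟩
  · rw [dist_eq_norm, dist_eq_norm]
    refine ContinuousLinearMap.opNorm_le_bound _
      (mul_nonneg (NNReal.coe_nonneg _) (norm_nonneg _)) fun x => ?_
    calc _ ≤ ‖Th L π Λ a (S a x - S a' x)‖ + ‖Th L π Λ a (S a' x) - Th L π Λ a' (S a' x)‖ := by
          rw [map_sub]; exact norm_sub_le_norm_sub_add_norm_sub ..
      _ ≤ K' * ‖a - a'‖ * ‖x‖ + K * ‖a - a'‖ * (K' * ‖x‖) :=
          add_le_add ((galC_Th ..).trans (hS' a ha a' ha' x))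
            (((hl a (hss ha) a' (hss ha')).2.2.1 _).trans (by gcongr; exact (hS a' ha').2.2 x))
      _ = (K' + K * K') * ‖a - a'‖ * ‖x‖ := by ring
  · refine (injective_iff_map_eq_zero _).2 fun x hx => (hS a ha).1 ?_
    rw [map_zero]
    exact h.inj a _ (hker a ha x) hx
  · rw [Wg, ← (hS a ha).2.1, ← LinearMap.range_comp]
    rfl
  have hT : GalCBL (s' ×ˢ Metric.closedBall (0 : (Fin k → ℂ) × G.Ym Λ) R) fun p => p :=
    .id' ((hb.subset hss).prod Metric.isBounded_closedBall)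
  have hv := hT.fst.app hT.snd.fst (fun a x => S a x) (fun _ => map_sub _) hK' hK'
    (fun p hp => (hS _ hp.1).2.2) fun p hp q hq => hS' _ hp.1 _ hq.1
  have hκ : GalCBL (s' ×ˢ Metric.closedBall (0 : (Fin k → ℂ) × G.Ym Λ) R)
      fun p => p.1 - π.κ p.1 := by
    refine ⟨1 + K, by positivity, fun p hp => ⟨(π.κ_bd _).trans (by linarith), fun q hq => ?_⟩⟩
    rw [sub_sub_sub_comm]
    have := norm_fst_le (p - q)
    calc _ ≤ ‖(p - q).1‖ + K * ‖(p - q).1‖ :=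
          (norm_sub_le _ _).trans (add_le_add le_rfl (hl _ (hss hp.1) _ (hss hq.1)).1)
      _ ≤ ‖p - q‖ + K * ‖p - q‖ := by gcongr
      _ = _ := by ring
  obtain ⟨C₁, hC₁, h₁⟩ := Pre.rho_fd ((G.Ym Λ).subtype.coprod L.hm)
  obtain ⟨C₂, hC₂, h₂⟩ := galC_sig (G := G) Λ
  have h3 := (hT.snd.snd.prod hκ).bil hv.fst
    (fun z ψ => G.rho 0 ((G.Ym Λ).subtype.coprod L.hm z) ψ) (fun _ => map_sub _)
    (fun _ _ _ => by rw [map_sub, Pre.rho_sub_left]) hC₁ h₁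
  have h4 := hT.fst.app h3 (fun a t => pj L π Λ a t) (fun _ => map_sub _) zero_le_one hK
    (fun p _ t => by simpa using norm_pj_le L π Λ p.1 t)
    fun p hp q hq => (hl _ (hss hp.1) _ (hss hq.1)).2.1
  have h5 := hv.fst.bil hv.fst (fun ψ ψ' => G.qp Λ (G.sig ψ ψ'))
    (fun _ _ _ => by rw [map_sub, map_sub])
    (fun a a' v => by rw [G.sig_comm a, G.sig_comm a', G.sig_comm _ v, map_sub, map_sub]) hC₂ h₂
  have h6 := hT.snd.snd.lin
    (LinearMap.toContinuousLinearMap (G.qp Λ ∘ₗ G.Q ∘ₗ (G.Ym Λ).subtype)) (map_sub _)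
    (norm_nonneg _) (ContinuousLinearMap.le_opNorm _)
  refine ((hv.snd.sub h4).prod (h6.add h5)).lip fun p hp => ?_
  refine (h.Fg_eq (hker _ hp.1 p.2.1) p.2.2).trans ?_
  rw [Eqn, map_add]
  rfl

theorem Lev.exists_fam [Nonempty P] (h : Lev L π Λ) :
    ∃ Φ : Fam L.b (G.Ut L.b Λ) (G.Um L.b Λ) (G.Ym Λ) (G.Yp Λ),
      Φ.W = Wg L π Λ ∧ Φ.F = Fg L π Λ := by
  have h0 := (h.rank L π 0).2
  have h1 := G.dim_Y L Λ
  exact ⟨⟨finrank ℂ (LinearMap.ker (Lop L π Λ 0)), Wg L π Λ, Fg L π Λ, Wg_per L π Λ, h.Fg_per,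
    h.Fg_rot, h.frame fun a => by have := (h.rank L π a).2; omega, by omega⟩, rfl, rfl⟩

end Geo

end SX4
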