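import Pool.Agent.P.MP_0a0487_an.GZ.GalA

/-! Projected solutions converge to solutions. -/

set_option autoImplicit false
set_option linter.unusedSectionVars false

noncomputable section

namespace SX4

open scoped ComplexOrder ContDiff
open Filter Topology Module GZ

variable {P A : Type} [TopologicalSpace P] [CompactSpace P] [CommRing A] [StarRing A] [Algebra ℂ A]
  [StarModule ℂ A] {B : Base P A}

namespace Geo

variable {G : Geo B} (L : G.Latt) (π : Pat L.b)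

theorem galD_sum {ι κ : Type} [Fintype ι] {w : ι → Wt} (s : Finset κ) (f : κ → G.Sec w) (k : ℕ) :
    (∑ j ∈ s, f j).nS k ≤ ∑ j ∈ s, (f j).nS k :=
  Finset.le_sum_of_subadditive (fun x : G.Sec w => x.nS k)
    (by rw [← zero_smul ℝ (0 : G.Sec w), Pre.Sec.nS_rsmul, abs_zero, zero_mul])
    (fun x y => x.nS_add y k) s f

theorem galD_rho (k : ℕ) :
    ∃ C : ℝ, 0 ≤ C ∧ ∀ v ψ, (G.rho 0 (L.hm v) ψ).nS k ≤ C * ‖v‖ * ψ.nS k := by
  choose c h0 hc using fun j : Fin L.b =>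
    (G.rho_zo 0 (L.hm fun l => if j = l then 1 else 0)).nS_le k
  refine ⟨∑ j, c j, Finset.sum_nonneg fun j _ => h0 j, fun v ψ => ?_⟩
  let T : G.Sec (wm 0) →ₗ[ℝ] G.Sec (wm 0) :=
    ⟨⟨fun χ => G.rho 0 χ ψ, fun _ _ => G.rho_add_left 0 _ _ ψ⟩, fun r _ => G.rho_smul_left 0 r _ ψ⟩
  refine ((congrArg (·.nS k) ((T ∘ₗ L.hm).pi_apply_eq_sum_univ v)).trans_le
    (galD_sum _ _ k)).trans ?_
  rw [Finset.sum_mul, Finset.sum_mul]
  refine Finset.sum_le_sum fun j _ => ?_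
  rw [Pre.Sec.nS_rsmul, mul_comm (c j), mul_assoc]
  exact mul_le_mul (norm_le_pi_norm v j) (hc j ψ) (Pre.Sec.nS_nonneg _ k) (norm_nonneg v)

theorem galD_mul (M : ℝ) (k : ℕ) : ∃ C : ℝ, 0 ≤ C ∧ ∀ i a, ‖a‖ ≤ M → ∀ s : G.Sec (wm 0),
    (G.mulS (L.u (π.g i a)) s).nS k ≤ C * s.nS k ∧
      (G.mulS (L.u (-π.g i a)) s).nS k ≤ C * s.nS k := by
  choose c h0 hc using fun m => Pre.mulS_nS (G := G.toPre) (w := wm 0) (L.u m) k
  refine ⟨∑ m ∈ (π.g_finite M).toFinset, (c m + c (-m)),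
    Finset.sum_nonneg fun m _ => add_nonneg (h0 _) (h0 _), fun i a ha s => ?_⟩
  have h := Finset.single_le_sum (f := fun m => c m + c (-m))
    (fun m _ => add_nonneg (h0 _) (h0 _)) ((π.g_finite M).mem_toFinset.2 ⟨i, a, ha, rfl⟩)
  exact ⟨(hc _ s).trans (mul_le_mul_of_nonneg_right (by linarith [h0 (-π.g i a)]) (s.nS_nonneg k)),
    (hc _ s).trans (mul_le_mul_of_nonneg_right (by linarith [h0 (π.g i a)]) (s.nS_nonneg k))⟩

theorem galD_r (i : Ix L.b) (a : Fin L.b → ℝ) : ‖(π.r i a : ℂ)‖ ≤ 1 :=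
  (Complex.norm_real _).trans_le (π.abs_r_le i a)

theorem galD_step (M : ℝ) (k : ℕ) : ∃ C : ℝ, 0 ≤ C ∧ ∀ (Λ : ℝ) a ψ (e : G.Um L.b Λ), ‖a‖ ≤ M →
    Lop L π Λ a (ψ, e) = 0 →
      ψ.nS (k + 1) ≤ C * (ψ.nS k + ∑ i, (e i : G.Sec (wm 0)).nS k) := by
  obtain ⟨C1, a1, h1⟩ := (G.dirac_ell 0).fo.est (G.dirac_ell 0).gar k
  obtain ⟨C2, a2, h2⟩ := galD_rho L k
  obtain ⟨C3, a3, h3⟩ := galD_mul L π M k
  refine ⟨C1 * (C2 * (|M| + 1) + 1 + C3), by positivity, fun Λ a ψ e ha h => (h1 ψ).trans ?_⟩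
  rw [Lop_apply, Pre.dirC_apply, add_assoc, add_eq_zero_iff_eq_neg] at h
  have b1 : ‖π.κ a‖ ≤ |M| + 1 := by
    linarith [π.κ_bd a, norm_sub_norm_le (π.κ a) a, norm_sub_rev (π.κ a) a, le_abs_self M]
  have b2 := (h2 (π.κ a) ψ).trans (mul_le_mul_of_nonneg_right
    (mul_le_mul_of_nonneg_left b1 a2) (ψ.nS_nonneg k))
  have b3 : (io L π Λ a e).nS k ≤ C3 * ∑ i, (e i : G.Sec (wm 0)).nS k := by
    rw [io_apply, Finset.mul_sum]
    refine (galD_sum _ _ k).trans (Finset.sum_le_sum fun i _ => ?_)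
    rw [Pre.Sec.nS_smul]
    exact (mul_le_of_le_one_left (Pre.Sec.nS_nonneg _ k) (galD_r L π i a)).trans (h3 i a ha _).1
  have b4 := Pre.Sec.nS_add (G.rho 0 (L.hm (π.κ a)) ψ) (io L π Λ a e) k
  have b5 : 0 ≤ ∑ i, (e i : G.Sec (wm 0)).nS k := Finset.sum_nonneg fun i _ => Pre.Sec.nS_nonneg _ k
  rw [h, Pre.Sec.nS_neg, mul_assoc]
  refine mul_le_mul_of_nonneg_left ?_ a1
  nlinarith [mul_nonneg a3 (ψ.nS_nonneg k), mul_nonneg (show 0 ≤ C2 * (|M| + 1) by positivity) b5]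

theorem galD_t {k : ℕ} (hk : 4 ≤ k) : ∃ C : ℝ, 0 ≤ C ∧ ∀ a ψ (y : G.Sec (wm 0)),
    (G.rho 0 (y + L.hm (a - π.κ a)) ψ).nS k ≤ C * ((y.nS k + 1) * ψ.nS k) := by
  obtain ⟨C1, a1, h1⟩ := G.rho_alg hk
  obtain ⟨C2, a2, h2⟩ := Pre.nS_fd L.hm k
  refine ⟨C1 * (C2 + 1), by positivity, fun a ψ y => (h1 _ _).trans ?_⟩
  rw [mul_assoc, ← mul_assoc (C2 + 1)]
  refine mul_le_mul_of_nonneg_left (mul_le_mul_of_nonneg_right ?_ (ψ.nS_nonneg k)) a1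
  have b1 := (h2 (a - π.κ a)).trans (mul_le_of_le_one_right a2 (π.κ_bd a))
  nlinarith [y.nS_add (L.hm (a - π.κ a)) k, mul_nonneg a2 (y.nS_nonneg k)]

theorem galD_e (M : ℝ) {k : ℕ} (hk : 4 ≤ k) : ∃ C : ℝ, 0 ≤ C ∧
    ∀ (Λ : ℝ) a ψ (e : G.Um L.b Λ) (y : G.Sec (wm 0)), ‖a‖ ≤ M → (Eqn L π Λ a ψ e y).1 = 0 →
      ∑ i, (e i : G.Sec (wm 0)).nS k ≤ C * ((y.nS k + 1) * ψ.nS k) := by
  obtain ⟨C1, a1, h1⟩ := galD_t L π hk
  obtain ⟨C2, a2, h2⟩ := galD_mul L π M k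
  obtain ⟨C3, a3, h3⟩ := G.proj_nS (G.dirac_ell 0) k
  refine ⟨Fintype.card (Ix L.b) * (C3 * (C2 * C1)), by positivity, fun Λ a ψ e y ha h => ?_⟩
  rw [mul_assoc, ← nsmul_eq_mul]
  refine Finset.sum_le_card_nsmul _ _ _ fun i _ => ?_
  rw [sub_eq_zero.1 h, pj_apply, Submodule.coe_smul, Pre.Sec.nS_smul, mul_assoc, mul_assoc]
  exact (mul_le_of_le_one_left (Pre.Sec.nS_nonneg _ k) (galD_r L π i a)).trans
    (((h3 Λ _ _ (G.isOP_pp Λ) (G.isOP_pm Λ)).2 _).trans (mul_le_mul_of_nonneg_left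
      ((h2 i a ha _).2.trans (mul_le_mul_of_nonneg_left (h1 _ _ _) a2)) a3))

theorem galD_tail (M : ℝ) : ∃ C : ℝ, 0 ≤ C ∧ ∀ (Λ : ℝ) a t, 0 ≤ Λ → ‖a‖ ≤ M →
    Λ * ‖t - io L π Λ a (pj L π Λ a t)‖ ≤ C * t.nS 1 := by
  obtain ⟨C1, a1, h1⟩ := (G.dirac_ell 0).fo'.nS_le 0
  obtain ⟨C2, a2, h2⟩ := galD_mul L π M 1
  refine ⟨Fintype.card (Ix L.b) * (C1 * C2), by positivity, fun Λ a t hΛ ha => ?_⟩
  have e : t - io L π Λ a (pj L π Λ a t) = ∑ i, (π.r i a : ℂ) • G.mulS (L.u (π.g i a))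
      ((π.r i a : ℂ) • (G.mulS (L.u (-π.g i a)) t - (G.pm Λ (G.mulS (L.u (-π.g i a)) t)).1)) := by
    simp only [io_apply, pj_apply, Submodule.coe_smul, smul_sub, map_sub, Finset.sum_sub_distrib]
    congr 1
    simp only [map_smul, L.mul_mul, add_neg_cancel, L.mul_zero, smul_smul, ← Finset.sum_smul, ← sq]
    rw [show ∑ i, (π.r i a : ℂ) ^ 2 = 1 by exact_mod_cast π.sum_sq a, one_smul]
  rw [e, mul_assoc, ← nsmul_eq_mul]
  refine (mul_le_mul_of_nonneg_left (norm_sum_le _ _) hΛ).trans ?_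
  rw [Finset.mul_sum]
  refine Finset.sum_le_card_nsmul _ _ _ fun i _ => ?_
  rw [norm_smul, L.norm_mul, norm_smul, mul_assoc]
  refine (mul_le_mul_of_nonneg_left ((mul_le_of_le_one_left (by positivity) (galD_r L π i a)).trans
    (mul_le_of_le_one_left (norm_nonneg _) (galD_r L π i a))) hΛ).trans ?_
  exact ((G.pair (G.dirac_ell 0)).symm.tail (G.isOP_pm Λ) _).trans ((Pre.Sec.norm_le_nS _ 0).trans
    ((h1 _).trans (mul_le_mul_of_nonneg_left (h2 i a ha t).2 a1)))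

theorem galD_q {Λ R : ℝ} {ξ : G.Sec (wp 0)} (hξ : inner ℝ G.e1 ξ = 0) {a ψ e y}
    (h : GS L π Λ R ξ a ψ e y) {q} (hq : IsOP (eig G.Qa G.Q Λ) q) :
    q (G.Q y + (G.sig ψ ψ - ξ)) = 0 := by
  refine hq.eq_of (zero_mem _) ?_
  rw [sub_zero, ← G.qp_eq_zero, ← add_sub_assoc, map_sub, sub_eq_zero]
  · exact congrArg Prod.snd h.eq
  · rw [inner_add_right, inner_sub_right, hξ, G.inner_e1_sig, sub_zero, add_zero]
    exact congrArg Complex.re (G.inner_e1_Q _)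

theorem Ng_le : ∃ C : ℝ, 0 ≤ C ∧ ∀ (Λ : ℝ) (a : Fin L.b → ℝ) ψ e (y : G.Ym Λ), ‖a‖ ≤ 1 →
    (Eqn L π Λ a ψ e y).1 = 0 →
    Ng Λ (Th L π Λ a (ψ, e), y) ≤ C * (1 + ψ.nS 4 + (y : G.Sec (wm 0)).nS 4) ^ 2 := by
  obtain ⟨C, hC, h⟩ := galD_e L π 1 le_rfl
  refine ⟨C + 1, by positivity, fun Λ a ψ e y ha he => ?_⟩
  have b1 := (norm_Th_le L π Λ a ψ e).trans (ψ.norm_le_nS 4)
  have b2 := (Finset.sum_le_sum fun i _ =>
    (e i : G.Sec (wm 0)).nS_mono (show 3 ≤ 4 by norm_num)).trans (h Λ a ψ e y ha he)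
  have b3 := ψ.nS_nonneg 4
  have b4 := (y : G.Sec (wm 0)).nS_nonneg 4
  have b5 := mul_le_mul_of_nonneg_left (show ((y : G.Sec (wm 0)).nS 4 + 1) * ψ.nS 4 ≤
    (1 + ψ.nS 4 + (y : G.Sec (wm 0)).nS 4) ^ 2 by nlinarith) hC
  simp only [Ng, Th_snd]
  nlinarith

theorem gal_boot {Z : Type} [NormedAddCommGroup Z] [NormedSpace ℝ Z] [FiniteDimensional ℝ Z]
    (ξ : Z →ₗ[ℝ] G.Sec (wp 0)) (hξ : ∀ z, inner ℝ G.e1 (ξ z) = 0) (R M : ℝ) (k : ℕ) :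
    ∃ C Λ₀ : ℝ, ∀ Λ ≥ Λ₀, ∀ z a ψ e y, ‖z‖ ≤ M → ‖a‖ ≤ M → GS L π Λ R (ξ z) a ψ e y →
      ψ.nS k + (y : G.Sec (wm 0)).nS k ≤ C := by
  obtain ⟨C0, Λ₀, a0, h0⟩ := gal_bound L π
  have s0 : ∀ {Λ} (e : G.Um L.b Λ), 0 ≤ ∑ i, (e i : G.Sec (wm 0)).nS 3 := fun e =>
    Finset.sum_nonneg fun i _ => Pre.Sec.nS_nonneg _ 3
  have h1 : ∀ l ≤ 4, ∃ C : ℝ, ∀ Λ ≥ Λ₀, ∀ z a ψ e y, ‖a‖ ≤ M → GS L π Λ R (ξ z) a ψ e y →
      ψ.nS l ≤ C := by
    intro l hl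
    induction l with
    | zero =>
      refine ⟨Fintype.card (Fin 2) * (C0 * R), fun Λ hΛ z a ψ e y _ h => ψ.nS_zero_le.trans
        (mul_le_mul_of_nonneg_left ((h0 Λ hΛ a ψ e h.ker).trans
          (mul_le_mul_of_nonneg_left ?_ a0)) (Nat.cast_nonneg _))⟩
      have b1 := h.le
      have b2 : ‖e‖ ≤ ∑ i, (e i : G.Sec (wm 0)).nS 3 :=
        (pi_norm_le_iff_of_nonneg (s0 e)).2 fun i => (Pre.Sec.norm_le_nS (e i).1 3).trans
          (Finset.single_le_sum (f := fun i => (e i : G.Sec (wm 0)).nS 3)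
            (fun i _ => Pre.Sec.nS_nonneg _ 3) (Finset.mem_univ i))
      simp only [Ng, Th_snd] at b1
      refine max_le ?_ ?_
      · linarith [s0 e, (y : G.Sec (wm 0)).nS_nonneg 4]
      · linarith [norm_nonneg (Th L π Λ a (ψ, e)).1, (y : G.Sec (wm 0)).nS_nonneg 4,
          congrArg norm (Th_snd L π Λ a ψ e)]
    | succ l ih =>
      obtain ⟨C, hC⟩ := ih (by omega)
      obtain ⟨C1, a1, h1⟩ := galD_step L π M l
      refine ⟨C1 * (C + R), fun Λ hΛ z a ψ e y ha h => (h1 Λ a ψ e ha h.ker).trans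
        (mul_le_mul_of_nonneg_left (add_le_add (hC Λ hΛ z a ψ e y ha h) ?_) a1)⟩
      have b1 := h.le
      have b2 := Finset.sum_le_sum (s := Finset.univ) fun i _ =>
        (e i : G.Sec (wm 0)).nS_mono (show l ≤ 3 by omega)
      simp only [Ng, Th_snd] at b1
      linarith [norm_nonneg (Th L π Λ a (ψ, e)).1, (y : G.Sec (wm 0)).nS_nonneg 4]
  have h2 : ∀ l, 4 ≤ l → ∃ C : ℝ, ∀ Λ ≥ Λ₀, ∀ z a ψ e y, ‖z‖ ≤ M → ‖a‖ ≤ M →
      GS L π Λ R (ξ z) a ψ e y → ψ.nS l + (y : G.Sec (wm 0)).nS l ≤ C := by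
    intro l hl
    induction l, hl using Nat.le_induction with
    | base =>
      obtain ⟨C, hC⟩ := h1 4 le_rfl
      refine ⟨C + R, fun Λ hΛ z a ψ e y _ ha h => add_le_add (hC Λ hΛ z a ψ e y ha h) ?_⟩
      have b1 := h.le
      simp only [Ng, Th_snd] at b1
      linarith [norm_nonneg (Th L π Λ a (ψ, e)).1, s0 e]
    | succ l hl ih =>
      obtain ⟨C, hC⟩ := ih
      obtain ⟨C1, a1, h1⟩ := galD_step L π M l
      obtain ⟨C2, a2, h2⟩ := galD_e L π M hl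
      obtain ⟨C3, a3, h3⟩ := gal1_step G.Qa_ell l
      obtain ⟨C4, a4, h4⟩ := G.sig_alg hl
      obtain ⟨C5, a5, h5⟩ := Pre.nS_fd ξ l
      refine ⟨C1 * (C + C2 * ((C + 1) * C)) + C3 * (C4 * (C * C) + C5 * M + C),
        fun Λ hΛ z a ψ e y hz ha h => ?_⟩
      have b0 := hC Λ hΛ z a ψ e y hz ha h
      have b1 := ψ.nS_nonneg l
      have b2 := (y : G.Sec (wm 0)).nS_nonneg l
      have b3 : ψ.nS l ≤ C := by linarith
      have b4 : (y : G.Sec (wm 0)).nS l ≤ C := by linarith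
      obtain ⟨q, hq⟩ := gal1_ex G.Qa_ell.symm Λ
      exact add_le_add ((h1 Λ a ψ e ha h.ker).trans (mul_le_mul_of_nonneg_left (add_le_add b3
        ((h2 Λ a ψ e y ha (congrArg Prod.fst h.eq)).trans (mul_le_mul_of_nonneg_left
          (mul_le_mul (by linarith) b3 b1 (by linarith)) a2))) a1))
        ((h3 Λ q hq y y.2.1 _ (galD_q L π (hξ z) h hq)).trans (mul_le_mul_of_nonneg_left
          (add_le_add ((Pre.Sec.nS_sub _ _ l).trans (add_le_add ((h4 _ _).trans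
            (mul_le_mul_of_nonneg_left (mul_le_mul b3 b3 b1 (b1.trans b3)) a4))
            ((h5 z).trans (mul_le_mul_of_nonneg_left hz a5)))) b4) a3))
  obtain ⟨C, hC⟩ := h2 _ (le_max_right k 4)
  exact ⟨C, Λ₀, fun Λ hΛ z a ψ e y hz ha h => (add_le_add (Pre.Sec.nS_mono _ (le_max_left k 4))
    (Pre.Sec.nS_mono _ (le_max_left k 4))).trans (hC Λ hΛ z a ψ e y hz ha h)⟩

theorem gal_limit {Z : Type} [NormedAddCommGroup Z] [NormedSpace ℝ Z] [FiniteDimensional ℝ Z]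
    (ξ : Z →ₗ[ℝ] G.Sec (wp 0)) (hξ : ∀ z, inner ℝ G.e1 (ξ z) = 0) {Λ : ℕ → ℝ}
    (hΛ : Tendsto Λ atTop atTop) {R : ℝ} {z : ℕ → Z} {z₀ : Z} (hz : Tendsto z atTop (𝓝 z₀))
    {a : ℕ → Fin L.b → ℝ} {a₀ : Fin L.b → ℝ} (ha : Tendsto a atTop (𝓝 a₀))
    {ψ : ℕ → G.Sec (wp 0)} {e : ∀ n, G.Um L.b (Λ n)} {y : ∀ n, G.Ym (Λ n)}
    (hs : ∀ n, GS L π (Λ n) R (ξ (z n)) (a n) (ψ n) (e n) (y n)) :
    ∃ (φ : ℕ → ℕ) (ψ₀ : G.Sec (wp 0)) (y₀ : G.Sec (wm 0)), StrictMono φ ∧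
      (∀ k, Tendsto (fun n => (ψ (φ n) - ψ₀).nS k + ((y (φ n) : G.Sec (wm 0)) - y₀).nS k)
        atTop (𝓝 0)) ∧ y₀ ∈ (LinearMap.ker G.Q)ᗮ ∧ G.SW (ξ z₀) ψ₀ (L.hm a₀ + y₀) := by
  obtain ⟨M1, hM1⟩ := hz.norm.bddAbove_range
  obtain ⟨M2, hM2⟩ := ha.norm.bddAbove_range
  have hb : ∀ k, ∃ C : ℝ, ∀ n, (ψ n).nS k + (y n : G.Sec (wm 0)).nS k ≤ C := fun k => by
    obtain ⟨C, Λ₀, h⟩ := gal_boot L π ξ hξ R (max M1 M2) k
    obtain ⟨C', hC'⟩ := (isBoundedUnder_of_eventually_le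
      ((hΛ.eventually_ge_atTop Λ₀).mono fun n hn => h _ hn _ _ _ _ _
        (le_max_of_le_left (hM1 ⟨n, rfl⟩)) (le_max_of_le_right (hM2 ⟨n, rfl⟩))
        (hs n))).bddAbove_range
    exact ⟨C', fun n => hC' ⟨n, rfl⟩⟩
  obtain ⟨φ, ψ₀, y₀, h1, h2⟩ := gal1_montel ψ (fun n => (y n : G.Sec (wm 0))) hb
  have hφ := h1.tendsto_atTop
  refine ⟨φ, ψ₀, y₀, h1, h2, (Submodule.isClosed_orthogonal _).mem_of_tendsto
    (gal1_tend (gal1_right (h2 0))) (.of_forall fun n => (y (φ n)).2.2), ?_, ?_⟩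
  · obtain ⟨C1, -, a1⟩ := (G.dirac_ell 0).fo.nS_le 0
    obtain ⟨C2, -, a2⟩ := Pre.nS_fd L.hm 4
    obtain ⟨C3, c3, a3⟩ := galD_tail L π M2
    obtain ⟨C4, c4, a4⟩ := galD_t L π le_rfl
    obtain ⟨C, hC⟩ := hb 4
    have b1 : Tendsto (fun n => G.dirac 0 (ψ (φ n))) atTop (𝓝 (G.dirac 0 ψ₀)) := by
      refine gal1_tend (k := 0) (squeeze_zero (fun _ => Pre.Sec.nS_nonneg _ 0) (fun n => ?_)
        (by simpa using (gal1_left (h2 1)).const_mul C1))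
      rw [← map_sub]
      exact a1 _
    have b2 : Tendsto (fun n => (L.hm (a (φ n)) + y (φ n) - (L.hm a₀ + y₀)).nS 4) atTop (𝓝 0) := by
      refine squeeze_zero (fun _ => Pre.Sec.nS_nonneg _ 4) (fun n => ?_) (by
        simpa using ((tendsto_iff_norm_sub_tendsto_zero.1 (ha.comp hφ)).const_mul C2).add
          (gal1_right (h2 4)))
      rw [add_sub_add_comm, ← map_sub]
      exact (Pre.Sec.nS_add _ _ 4).trans (add_le_add (a2 _) le_rfl)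
    refine tendsto_nhds_unique (b1.add (gal1_bil (G.rho_add_left 0) (G.rho_alg le_rfl) b2
      (gal1_left (h2 4)))) (tendsto_zero_iff_norm_tendsto_zero.2 (squeeze_zero'
        (.of_forall fun _ => norm_nonneg _) ?_
        ((hΛ.comp hφ).const_div_atTop (C3 * (C4 * ((C + 1) * C))))))
    filter_upwards [(hΛ.comp hφ).eventually_gt_atTop 0] with n hn
    simp only [Function.comp] at hn ⊢
    generalize φ n = m at hn ⊢
    have b3 := (Lop_apply L π _ _ _ _).symm.trans (hs m).ker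
    have b4 := (ψ m).nS_nonneg 4
    have b5 := (y m : G.Sec (wm 0)).nS_nonneg 4
    have b6 := (a3 (Λ m) (a m) _ (le_of_lt hn) (hM2 ⟨m, rfl⟩)).trans (mul_le_mul_of_nonneg_left
      (((Pre.Sec.nS_mono _ (show 1 ≤ 4 by norm_num)).trans (a4 (a m) (ψ m) (y m))).trans
        (mul_le_mul_of_nonneg_left (mul_le_mul (show _ ≤ C + 1 by linarith [hC m])
          (show _ ≤ C by linarith [hC m]) b4 (by linarith [hC m])) c4)) c3)
    rw [← sub_eq_zero.1 (congrArg Prod.fst (hs m).eq),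
      eq_neg_of_add_eq_zero_right b3, sub_neg_eq_add, Pre.dirC_apply,
      add_left_comm, ← G.rho_add_left, add_assoc, ← map_add, sub_add_cancel, add_comm (y m).1,
      mul_comm] at b6
    exact (le_div_iff₀ hn).2 b6
  · choose q hq using fun n => gal1_ex G.Qa_ell.symm (Λ (φ n))
    have := gal1_lim G.Qa_ell (hΛ.comp hφ) hq (gal1_right (h2 1))
      ((gal1_bil gal1_sig_add (G.sig_alg le_rfl) (gal1_left (h2 4)) (gal1_left (h2 4))).sub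
        ((ξ.continuous_of_finiteDimensional.tendsto z₀).comp (hz.comp hφ)))
      fun n => galD_q L π (hξ _) (hs _) (hq n)
    rw [map_add, L.Q_hm, zero_add, sub_eq_iff_eq_add.1 this, add_neg_cancel_left]

end Geo

end SX4
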