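import Pool.Agent.P.MP_0a0487_an.GZ.GalA

/-! The family near the trivial connection. -/

set_option autoImplicit false
set_option linter.unusedSectionVars false

noncomputable section

namespace SX4

open scoped ComplexOrder ContDiff
open Filter Topology Module GZ

variable {P A : Type} [TopologicalSpace P] [CompactSpace P] [CommRing A] [StarRing A] [Algebra ℂ A]
  [StarModule ℂ A] {B : Base P A}

namespace Geo

variable {G : Geo B} (L : G.Latt) (π : Pat L.b)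

omit L π in
/-- Local uniqueness for the projected equations. -/
theorem gal_uniq_seq [Nonempty P] {c : ℝ} (hc : 0 < c)
    (h1 : ∀ ψ χ, G.dirac 0 ψ + c • G.rho 0 χ G.e1 = 0 → G.Q χ + (2 * c) • G.sig G.e1 ψ = 0 →
      χ = 0 ∧ ∃ t : ℝ, ψ = ((t : ℂ) * Complex.I) • G.e1) {Λ : ℕ → ℝ}
    (hΛ : Tendsto Λ atTop atTop) {ψ : ℕ → G.Sec (wp 0)} {χ : ℕ → G.Sec (wm 0)}
    (hs : ∀ n, G.GalSol G.Qa (Λ n) (((c : ℂ) ^ 2 * Complex.I / 2) • G.e1) (ψ n) (χ n)) {z : ℂ}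
    (hz : ‖z‖ = 1)
    (hl : ∀ k, Tendsto (fun n => (ψ n - z • (c : ℂ) • G.e1).nS k + (χ n).nS k) atTop (𝓝 0)) :
    ∃ n, χ n = 0 ∧ ∃ z' : ℂ, ‖z'‖ = 1 ∧ ψ n = z' • (c : ℂ) • G.e1 := by
  by_contra hcon
  obtain ⟨m, hm, hm'⟩ := gal1_e1 (G := G)
  choose w hw hw' using fun n => Complex.exists_norm_eq_mul_self (inner ℂ G.e1 (ψ n))
  have hz0 : z ≠ 0 := norm_ne_zero_iff.1 (hz ▸ one_ne_zero)
  have h6 := (tendsto_const_nhds (x := G.e1)).inner (𝕜 := ℂ) (gal1_tend (gal1_left (hl 0)))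
  rw [inner_smul_right, inner_smul_right, hm', ← Complex.ofReal_mul] at h6
  have h0 : ((c * m : ℝ) : ℂ) ≠ 0 := Complex.ofReal_ne_zero.2 (mul_pos hc hm).ne'
  have h7 : Tendsto (fun n => ‖w n * z - 1‖) atTop (𝓝 0) := by
    have h8 := ((((Complex.continuous_ofReal.tendsto _).comp h6.norm).div h6
      (mul_ne_zero hz0 h0)).mul_const z).sub_const 1
    rw [norm_mul, hz, one_mul, Complex.norm_real, Real.norm_of_nonneg (mul_pos hc hm).le,
      show ((c * m : ℝ) : ℂ) / (z * ((c * m : ℝ) : ℂ)) * z - 1 = 0 by field_simp; ring] at h8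
    refine (tendsto_zero_iff_norm_tendsto_zero.1 h8).congr' ?_
    filter_upwards [h6.eventually_ne (mul_ne_zero hz0 h0)] with n hn
    simp only [Function.comp, Pi.div_apply]
    rw [hw' n, mul_div_cancel_right₀ _ hn]
  have h4 : ∀ k, Tendsto (fun n => (w n • ψ n - c • G.e1).nS k) atTop (𝓝 0) := fun k => by
    have h8 := (gal1_left (hl k)).add (h7.mul_const (((c : ℂ) • G.e1).nS k))
    rw [zero_mul, add_zero] at h8
    refine squeeze_zero (fun _ => Pre.Sec.nS_nonneg _ k) (fun n => ?_) h8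
    have h9 := Pre.Sec.nS_add (w n • (ψ n - z • (c : ℂ) • G.e1)) ((w n * z - 1) • (c : ℂ) • G.e1) k
    rw [Pre.Sec.nS_smul (w n), hw, one_mul, Pre.Sec.nS_smul (w n * z - 1), smul_sub, sub_smul,
      one_smul, smul_smul (w n) z, sub_add_sub_cancel] at h9
    exact h9
  have hs' := fun n => (hs n).rot (hw n)
  refine G.gal1_core G.Qa_ell h1 hΛ (fun n => w n • ψ n - c • G.e1)
    (fun n => w n • ψ n) (fun n => w n • ψ n + c • G.e1) χ
    (fun n => sub_mem (hs' _).mem (Submodule.smul_mem _ _ (ker_le_eig _ _ _ G.dirac_e1)))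
    (fun n => (hs _).mem') h4 (fun k => ?_) (fun n y hy => ?_)
    (fun n y hy => ?_) (fun n => ?_) fun n e => hcon ⟨n, e.2, (w n)⁻¹, ?_, ?_⟩
  · refine (h4 k).congr fun n => ?_
    rw [two_mul, add_smul, add_sub_add_right_eq_sub]
  · rw [map_sub, map_smul _ c, G.dirac_e1, smul_zero, sub_zero]
    exact (hs' _).eq y hy
  · rw [← (hs' _).eq' y hy, gal1_sig_add, map_sub, map_sub, G.sig_comm (c • G.e1) (w n • ψ n),
      sub_add_sub_cancel, gal1_sig_smul, map_smul _ c, G.sig_e1, gal1_rs, gal1_rs, smul_smul, smul_smul,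
      add_sub_assoc, show (c : ℂ) * c * (Complex.I / 2) = (c : ℂ) ^ 2 * Complex.I / 2 by ring]
  · rw [inner_sub_right, gal1_rs, inner_smul_right, inner_smul_right, hm', ← hw']
    simp
  · rw [norm_inv, hw, inv_one]
  · rw [← gal1_rs, ← sub_eq_zero.1 e.1,
      inv_smul_smul₀ (norm_ne_zero_iff.1 (hw n ▸ one_ne_zero))]

/-- Near the trivial connection the family is constant. -/
theorem near_zero : ∀ᶠ a in 𝓝 (0 : Fin L.b → ℝ), π.κ a = 0 ∧ ∀ Λ : ℝ,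
    (∀ ψ e, Lop L π Λ a (ψ, e) = G.dirac 0 ψ + (e (fun _ => 1) : G.Sec (wm 0))) ∧
    (∀ t, pj L π Λ a t = Pi.single (fun _ => 1) (G.pm Λ t)) ∧
    ∀ ψ e, Th L π Λ a (ψ, e) = (Pi.single (fun _ => 1) (G.pp Λ ψ), e) := by
  filter_upwards [π.zero, π.κ_zero] with a ⟨h1, h2, h3⟩ h4
  refine ⟨h4, fun Λ => ⟨fun ψ e => ?_, fun t => funext fun i => ?_, fun ψ e =>
    Prod.ext (funext fun i => ?_) rfl⟩⟩
  · rw [Lop_apply, h4, map_zero, Pre.dirC_apply, Pre.rho_zero_left, add_zero, io_apply,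
      Finset.sum_eq_single (fun _ => 1) (fun i _ hi => by rw [h1 i hi, Complex.ofReal_zero, zero_smul])
        (fun h => (h (Finset.mem_univ _)).elim), h2, h3, L.mul_zero, Complex.ofReal_one, one_smul]
  · rw [pj_apply]
    by_cases hi : i = fun _ => 1
    · rw [hi, h2, h3, neg_zero, L.mul_zero, Complex.ofReal_one, one_smul, Pi.single_eq_same]
    · rw [h1 i hi, Complex.ofReal_zero, zero_smul, Pi.single_eq_of_ne hi]
  · rw [Th_fst]
    dsimp only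
    by_cases hi : i = fun _ => 1
    · rw [hi, h2, h3, neg_zero, L.mul_zero, Complex.ofReal_one, one_smul, Pi.single_eq_same]
    · rw [h1 i hi, Complex.ofReal_zero, zero_smul, Pi.single_eq_of_ne hi]

omit L π in
theorem mem_Ep_of {Λ : ℝ} {ψ : G.Sec (wp 0)} (h : G.dirac 0 ψ ∈ G.Em Λ) : ψ ∈ G.Ep Λ := by
  obtain ⟨p, hp⟩ := gal1_ex (G.dirac_ell 0) Λ
  obtain ⟨q, hq⟩ := gal1_ex (G.dirac_ell 0).symm Λ
  have h1 := (G.pair (G.dirac_ell 0)).op_comm hp hq ψ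
  rw [hq.apply_of_mem h, ← sub_eq_zero, ← map_sub] at h1
  have h2 := hp.2 ψ _ (ker_le_eig _ _ Λ h1)
  rw [inner_self_eq_zero, sub_eq_zero] at h2
  rw [h2]
  exact hp.1 ψ

theorem near_galSol : ∀ᶠ a in 𝓝 (0 : Fin L.b → ℝ), ∀ (Λ R : ℝ) ξ ψ e y, inner ℝ G.e1 ξ = 0 →
    GS L π Λ R ξ a ψ e y → G.GalSol G.Qa Λ ξ ψ ((y : G.Sec (wm 0)) + L.hm a) ∧
      (G.dirac 0 ψ = 0 → e = 0) := by
  filter_upwards [near_zero L π] with a ⟨h1, h2⟩ Λ R ξ ψ e y hξ hs
  obtain ⟨h3, h4, -⟩ := h2 Λ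
  have h5 := hs.ker
  rw [h3] at h5
  have h6 : e = Pi.single (fun _ => 1) (G.pm Λ (G.rho 0 (y + L.hm a) ψ)) := by
    have := congrArg Prod.fst hs.eq
    rwa [Eqn, h4, h1, sub_zero, sub_eq_zero] at this
  have h7 : e (fun _ => 1) = G.pm Λ (G.rho 0 (y + L.hm a) ψ) := by
    rw [h6, Pi.single_eq_same]
  have h8 : G.qp Λ (G.Q y + G.sig ψ ψ - ξ) = 0 := by
    rw [map_sub, sub_eq_zero]
    exact congrArg Prod.snd hs.eq
  have h9 := eq_neg_of_add_eq_zero_left h5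
  refine ⟨⟨mem_Ep_of (h9 ▸ neg_mem (e _).2), add_mem y.2.1 (ker_le_eig _ _ Λ (L.Q_hm a)),
    fun u hu => ?_, ?_⟩, fun h => ?_⟩
  · rw [h9, h7, neg_add_eq_sub]
    exact (G.isOP_pm Λ).2 _ u hu
  · rw [map_add, L.Q_hm, add_zero]
    refine (G.qp_eq_zero ?_).1 h8
    have h10 : inner ℝ G.e1 (G.Q y) = 0 := congrArg Complex.re (G.inner_e1_Q y)
    rw [inner_sub_right, inner_add_right, h10, G.inner_e1_sig, hξ, add_zero, sub_zero]
  · rw [h, zero_add, Submodule.coe_eq_zero] at h5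
    rw [h6, ← h7, h5, Pi.single_zero]

end Geo

end SX4
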