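import Pool.Agent.P.MP_0a0487_an.GZ.TDefs

/-! Frames and compactness. -/

set_option autoImplicit false
set_option linter.unusedSectionVars false

noncomputable section

namespace GZ

open Set Filter Topology Module
open scoped ComplexConjugate

variable {b : ℕ} {U U' Y Y' Z : Type} [NormedAddCommGroup U] [NormedSpace ℂ U] [NormedSpace ℝ U]
  [IsScalarTower ℝ ℂ U] [FiniteDimensional ℂ U] [NormedAddCommGroup U'] [NormedSpace ℂ U']
  [NormedSpace ℝ U'] [IsScalarTower ℝ ℂ U'] [FiniteDimensional ℂ U'] [NormedAddCommGroup Y]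
  [NormedSpace ℝ Y] [FiniteDimensional ℝ Y] [NormedAddCommGroup Y'] [NormedSpace ℝ Y']
  [FiniteDimensional ℝ Y'] [NormedAddCommGroup Z] [NormedSpace ℝ Z] [FiniteDimensional ℝ Z]

/-- A frame whose first vector at `a₀` is prescribed. -/
theorem exists_adapt {k : ℕ} {x₀ : Fin k → ℂ} (hx : x₀ ≠ 0) :
    ∃ (k' : ℕ) (g : (Fin (k' + 1) → ℂ) ≃L[ℂ] (Fin k → ℂ)), k = k' + 1 ∧
      g (Fin.cons 1 0) = x₀ := by
  rcases k with _ | k
  · exact absurd (Subsingleton.elim _ _) hx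
  obtain ⟨g, hg⟩ := SeparatingDual.exists_continuousLinearEquiv_apply_eq (R := ℂ)
    (x := (Fin.cons 1 0 : Fin (k + 1) → ℂ)) (fun h => by simpa using congrFun h 0) hx
  exact ⟨k, g, rfl, hg⟩

theorem IsFrame.comp {k k' : ℕ} {W : (Fin b → ℝ) → Submodule ℂ U} {s : Set (Fin b → ℝ)}
    {S : (Fin b → ℝ) → (Fin k → ℂ) →L[ℂ] U} (h : IsFrame W s S)
    (g : (Fin k' → ℂ) ≃L[ℂ] (Fin k → ℂ)) :
    IsFrame W s fun a => (S a).comp (g : (Fin k' → ℂ) →L[ℂ] (Fin k → ℂ)) := by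
  obtain ⟨K, hK⟩ := h.lip
  refine ⟨h.opn, ⟨_, ((ContinuousLinearMap.compL ℂ _ _ U).flip
    (g : (Fin k' → ℂ) →L[ℂ] (Fin k → ℂ))).lipschitz.comp_lipschitzOnWith hK⟩,
    fun a ha => (h.inj a ha).comp g.injective, fun a ha w => ?_⟩
  rw [h.rng a ha]
  exact g.surjective.exists

/-- Continuous coordinates. -/
theorem IsFrame.coord {k : ℕ} {W : (Fin b → ℝ) → Submodule ℂ U} {s : Set (Fin b → ℝ)}
    {S : (Fin b → ℝ) → (Fin k → ℂ) →L[ℂ] U} (h : IsFrame W s S) {a₀ : Fin b → ℝ} (ha : a₀ ∈ s) :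
    ∃ (s' : Set (Fin b → ℝ)) (L : (Fin b → ℝ) → U →L[ℂ] (Fin k → ℂ)), IsOpen s' ∧ a₀ ∈ s' ∧
      s' ⊆ s ∧ ContinuousOn L s' ∧ ∀ a ∈ s', ∀ x, L a (S a x) = x := by
  obtain ⟨K, hK⟩ := h.lip
  obtain ⟨L₀, hL⟩ := (S a₀ : (Fin k → ℂ) →ₗ[ℂ] U).exists_leftInverse_of_injective
    (LinearMap.ker_eq_bot.2 (h.inj a₀ ha))
  set L : U →L[ℂ] (Fin k → ℂ) := LinearMap.toContinuousLinearMap L₀
  have hc : ContinuousOn (fun a => L.comp (S a)) s := continuousOn_const.clm_comp hK.continuousOn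
  refine ⟨s ∩ (fun a => L.comp (S a)) ⁻¹' {x | IsUnit x},
    fun a => (Ring.inverse (L.comp (S a))).comp L, hc.isOpen_inter_preimage h.opn Units.isOpen,
    ⟨ha, ?_⟩, inter_subset_left, ContinuousOn.clm_comp (fun a ha => ?_) continuousOn_const,
    fun a ha x => ?_⟩
  · have : L.comp (S a₀) = 1 := ContinuousLinearMap.ext fun x => LinearMap.congr_fun hL x
    exact (this ▸ isUnit_one : IsUnit (L.comp (S a₀)))
  · obtain ⟨u, hu⟩ := ha.2
    exact (NormedRing.inverse_continuousAt u).comp_continuousWithinAt_of_eq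
      ((hc a ha.1).mono inter_subset_left) hu.symm
  · exact congrArg (fun T : (Fin k → ℂ) →L[ℂ] (Fin k → ℂ) => T x) (Ring.inverse_mul_cancel _ ha.2)

theorem exists_red (a : Fin b → ℝ) : ∃ a' ∈ Icc (0 : Fin b → ℝ) 1, ∃ m, a = a' + zc m := by
  refine ⟨fun j => Int.fract (a j), ⟨fun j => Int.fract_nonneg _,
    fun j => (Int.fract_lt_one _).le⟩, fun j => ⌊a j⌋, funext fun j => ?_⟩
  simp [zc]

theorem Fam.slice_loc (Φ : Fam b U U' Y Y') (a₀ : Fin b → ℝ) : ∃ (s : Set (Fin b → ℝ))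
    (S : (Fin b → ℝ) → (Fin Φ.k → ℂ) →L[ℂ] U) (L : (Fin b → ℝ) → U →L[ℂ] (Fin Φ.k → ℂ)),
    s ∈ 𝓝 a₀ ∧ ContinuousAt S a₀ ∧ ContinuousAt L a₀ ∧
      (∀ a ∈ s, ∀ w, w ∈ Φ.W a ↔ S a (L a w) = w) ∧ ∀ x y, ContinuousAt
        (fun p : (Fin b → ℝ) × (Fin Φ.k → ℂ) × Y => Φ.F (p.1, S p.1 p.2.1, p.2.2)) (a₀, x, y) := by
  obtain ⟨s, S, ha, hS, hF⟩ := Φ.frame a₀
  obtain ⟨s', L, h1, h2, h3, h4, h5⟩ := hS.coord ha
  obtain ⟨K, hK⟩ := hS.lip
  refine ⟨s', S, L, h1.mem_nhds h2, hK.continuousOn.continuousAt (hS.opn.mem_nhds ha),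
    h4.continuousAt (h1.mem_nhds h2), fun a ha w => ?_, fun x y => ?_⟩
  · rw [hS.rng a (h3 ha)]
    exact ⟨fun ⟨x, hx⟩ => by rw [← hx, h5 a ha], fun h => ⟨_, h⟩⟩
  · obtain ⟨K, hK⟩ := hF (‖(x, y)‖ + 1)
    exact hK.continuousOn.continuousAt (prod_mem_nhds (hS.opn.mem_nhds ha)
      (Metric.closedBall_mem_nhds_of_mem (mem_ball_zero_iff.2 (lt_add_one _))))

theorem Fam.isClosed (Φ : Fam b U U' Y Y') :
    IsClosed {p : (Fin b → ℝ) × U × Y | p.2.1 ∈ Φ.W p.1} := by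
  refine isClosed_of_closure_subset fun p hp => ?_
  obtain ⟨s, S, L, hs, hS, hL, hW, -⟩ := Φ.slice_loc p.1
  have hc : ContinuousAt (fun q : (Fin b → ℝ) × U × Y => S q.1 (L q.1 q.2.1) - q.2.1) p :=
    ((hS.comp continuousAt_fst).clm_apply
      ((hL.comp continuousAt_fst).clm_apply continuousAt_snd.fst)).sub continuousAt_snd.fst
  refine (hW _ (mem_of_mem_nhds hs) _).2 (sub_eq_zero.1 ?_)
  exact isClosed_singleton.mem_of_frequently_of_tendsto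
    (((mem_closure_iff_frequently.1 hp).and_eventually (continuousAt_fst hs)).mono
      fun q hq => sub_eq_zero.2 ((hW _ hq.2 _).1 hq.1)) hc

theorem Fam.F_cont (Φ : Fam b U U' Y Y') : ContinuousOn Φ.F {p | p.2.1 ∈ Φ.W p.1} := by
  intro p hp
  obtain ⟨s, S, L, hs, -, hL, hW, hF⟩ := Φ.slice_loc p.1
  have hc : ContinuousAt (fun q : (Fin b → ℝ) × U × Y => (q.1, L q.1 q.2.1, q.2.2)) p :=
    continuousAt_fst.prodMk (((hL.comp continuousAt_fst).clm_apply continuousAt_snd.fst).prodMk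
      continuousAt_snd.snd)
  refine ((hF _ _).comp_of_eq hc rfl).continuousWithinAt.congr_of_eventuallyEq_of_mem ?_ hp
  filter_upwards [self_mem_nhdsWithin, mem_nhdsWithin_of_mem_nhds (continuousAt_fst hs)]
    with q h1 h2
  rw [Function.comp_apply, (hW _ h2 _).1 h1]

theorem Fam.isCompact (Φ : Fam b U U' Y Y') {N : U × Y → ℝ} {R : ℝ} (hN : Size N R) :
    IsCompact {p : (Fin b → ℝ) × U × Y | p.1 ∈ Icc 0 1 ∧ p.2.1 ∈ Φ.W p.1 ∧ N p.2 ≤ R} := by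
  have := FiniteDimensional.proper ℂ U
  have := FiniteDimensional.proper ℝ Y
  refine Metric.isCompact_of_isClosed_isBounded ((isClosed_Icc.preimage continuous_fst).inter
    (Φ.isClosed.inter (isClosed_le (hN.cont.comp continuous_snd) continuous_const))) ?_
  exact ((Metric.isBounded_Icc 0 1).prod hN.bdd).subset fun p hp => ⟨hp.1, hp.2.2⟩

/-- Open properties of solutions hold for approximate solutions. -/
theorem Fam.pert (Φ : Fam b U U' Y Y') {N : U × Y → ℝ} {R : ℝ} (hN : Size N R) {C : Set Z}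
    (hC : IsCompact C) {η : Z → Y'} (hη : Continuous η) {O : Set ((U × Y) × Z)} (hO : IsOpen O)
    (h : ∀ ζ ∈ C, ∀ p : (Fin b → ℝ) × U × Y, p.2.1 ∈ Φ.W p.1 → N p.2 ≤ R → Φ.F p = (0, η ζ) →
      (p.2, ζ) ∈ O) :
    ∃ δ > 0, ∀ ζ₀ ∈ C, ∀ ζ, ‖ζ - ζ₀‖ ≤ δ → ∀ p : (Fin b → ℝ) × U × Y, p.2.1 ∈ Φ.W p.1 →
      N p.2 ≤ R → ‖Φ.F p - (0, η ζ)‖ ≤ δ → (p.2, ζ) ∈ O := by
  have := FiniteDimensional.proper ℝ Z
  have hK := ((Φ.isCompact hN).prod (hC.prod (isCompact_closedBall (0 : Z) 1))).inter_right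
    (hO.isClosed_compl.preimage (f := fun q => (q.1.2, q.2.1 + q.2.2)) (by fun_prop))
  obtain ⟨ε, hε, hK⟩ := hK.exists_forall_le' (a := (0 : ℝ))
    (f := fun q => ‖q.2.2‖ + ‖Φ.F q.1 - (0, η (q.2.1 + q.2.2))‖)
    (ContinuousOn.add (by fun_prop) (ContinuousOn.norm (ContinuousOn.sub
      (Φ.F_cont.comp continuousOn_fst fun q hq => hq.1.1.2.1) (by fun_prop)))) fun q hq => by
      refine lt_of_not_ge fun h0 => hq.2 ?_
      have h1 : q.2.2 = 0 := norm_le_zero_iff.1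
        (le_trans (le_add_of_nonneg_right (norm_nonneg _)) h0)
      have h2 := sub_eq_zero.1 (norm_le_zero_iff.1
        (le_trans (le_add_of_nonneg_left (norm_nonneg _)) h0))
      rw [h1, add_zero] at h2
      change (q.1.2, q.2.1 + q.2.2) ∈ O
      rw [h1, add_zero]
      exact h _ hq.1.2.1 _ hq.1.1.2.1 hq.1.1.2.2 h2
  refine ⟨min 1 (ε / 3), by positivity, fun ζ₀ h0 ζ h1 ⟨a, w, y⟩ h2 h3 h4 => ?_⟩
  obtain ⟨a, ha, m, rfl⟩ := exists_red a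
  rw [Φ.W_per] at h2
  rw [Φ.F_per _ _ _ _ h2] at h4
  by_contra h5
  have := hK ((a, w, y), ζ₀, ζ - ζ₀) ⟨⟨⟨ha, h2, h3⟩, h0,
    mem_closedBall_zero_iff.2 (h1.trans (min_le_left _ _))⟩, by simpa using h5⟩
  simp only [add_sub_cancel] at this
  linarith [min_le_right 1 (ε / 3)]

end GZ
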