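import Pool.Agent.P.MP_0a0487_an.GZ.GalB
import Pool.Agent.P.MP_0a0487_an.GZ.GalD
import Pool.Agent.P.MP_0a0487_an.GZ.GalU
import Pool.Agent.P.MP_0a0487_an.GZ.Slice
import Pool.Agent.P.MP_0a0487_an.SX.Apri

/-! Boundary conditions for large levels. -/

set_option autoImplicit false
set_option linter.unusedSectionVars false

noncomputable section

namespace SX4

open scoped ComplexOrder ContDiff
open Filter Topology Module GZ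

variable {P A : Type} [TopologicalSpace P] [CompactSpace P] [CommRing A] [StarRing A] [Algebra ℂ A]
  [StarModule ℂ A] {B : Base P A}

namespace Geo

variable {G : Geo B} (L : G.Latt) (π : Pat L.b)

theorem GalE_seq {Z : Type} [NormedAddCommGroup Z] [NormedSpace ℝ Z]
    [FiniteDimensional ℝ Z] (ξ : Z →ₗ[ℝ] G.Sec (wp 0)) (hξ : ∀ z, inner ℝ G.e1 (ξ z) = 0)
    {C : Set Z} (hC : IsCompact C) {Λ : ℕ → ℝ} (hΛ : ∀ n : ℕ, (n : ℝ) ≤ Λ n) {R : ℝ}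
    {z : ℕ → Z} (hz : ∀ n, z n ∈ C) {a : ℕ → Fin L.b → ℝ} {ψ : ℕ → G.Sec (wp 0)}
    {e : ∀ n, G.Um L.b (Λ n)} {y : ∀ n, G.Ym (Λ n)}
    (hs : ∀ n, GS L π (Λ n) R (ξ (z n)) (a n) (ψ n) (e n) (y n)) :
    ∃ (φ : ℕ → ℕ) (m : ℕ → Fin L.b → ℤ) (z₀ : Z) (a₀ : Fin L.b → ℝ) (ψ₀ : G.Sec (wp 0))
      (y₀ : G.Sec (wm 0)), Tendsto (fun n => Λ (φ n)) atTop atTop ∧ z₀ ∈ C ∧ ‖a₀‖ ≤ 1 ∧
      (∀ n, ‖a (φ n) + zc (m n)‖ ≤ 1) ∧ Tendsto (fun n => a (φ n) + zc (m n)) atTop (𝓝 a₀) ∧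
      (∀ k, Tendsto (fun n => (G.mulS (L.u (m n)) (ψ (φ n)) - ψ₀).nS k +
        ((y (φ n) : G.Sec (wm 0)) - y₀).nS k) atTop (𝓝 0)) ∧
      y₀ ∈ (LinearMap.ker G.Q)ᗮ ∧ G.SW (ξ z₀) ψ₀ (L.hm a₀ + y₀) := by
  have hI : ∀ v ∈ Set.Icc (0 : Fin L.b → ℝ) 1, ‖v‖ ≤ 1 := fun v hv =>
    (pi_norm_le_iff_of_nonneg zero_le_one).2 fun i => by
      have h0 : (0 : ℝ) ≤ v i := hv.1 i
      have h1 : v i ≤ 1 := hv.2 i
      rw [Real.norm_eq_abs, abs_le]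
      constructor <;> linarith
  choose a' ha' m hm using fun n => exists_red (a n)
  have hred : ∀ n, a n + zc (-m n) = a' n := fun n => by
    rw [hm n, zc_neg, add_neg_cancel_right]
  have hΛt : Tendsto Λ atTop atTop := tendsto_atTop_mono hΛ tendsto_natCast_atTop_atTop
  obtain ⟨p, hp, φ₁, hφ₁, hl⟩ := (hC.prod (isCompact_Icc (a := (0 : Fin L.b → ℝ))
    (b := 1))).tendsto_subseq (x := fun n => (z n, a n + zc (-m n)))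
    (fun n => ⟨hz n, by rw [hred n]; exact ha' n⟩)
  have hz1 : Tendsto (fun n => z (φ₁ n)) atTop (𝓝 p.1) := (continuous_fst.tendsto p).comp hl
  have ha1 : Tendsto (fun n => a (φ₁ n) + zc (-m (φ₁ n))) atTop (𝓝 p.2) :=
    (continuous_snd.tendsto p).comp hl
  obtain ⟨φ₂, ψ₀, y₀, hφ₂, hlim, hy, hsw⟩ := gal_limit L π ξ hξ (Λ := fun n => Λ (φ₁ n))
    (hΛt.comp hφ₁.tendsto_atTop) hz1 ha1 (e := fun n => e (φ₁ n)) (y := fun n => y (φ₁ n))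
    (fun n => (hs (φ₁ n)).per (-m (φ₁ n)))
  refine ⟨fun n => φ₁ (φ₂ n), fun n => -m (φ₁ (φ₂ n)), p.1, p.2, ψ₀, y₀,
    hΛt.comp (hφ₁.comp hφ₂).tendsto_atTop, hp.1, hI _ hp.2, fun n => hI _ ?_,
    ha1.comp hφ₂.tendsto_atTop, hlim, hy, hsw⟩
  rw [hred]
  exact ha' _

theorem GalE_perp {v : G.Sec (wm 0)} (hv : v ∈ (LinearMap.ker G.Q)ᗮ) (h : G.Q v = 0) : v = 0 :=
  inner_self_eq_zero.1 (Submodule.inner_right_of_mem_orthogonal (𝕜 := ℝ)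
    (K := LinearMap.ker G.Q) h hv)

theorem GalE_le {ι : Type} [Fintype ι] {w : ι → Wt} (s t : G.Sec w) (k : ℕ) :
    s.nS k ≤ (s - t).nS k + t.nS k := by
  have := Pre.Sec.nS_add (s - t) t k
  rwa [sub_add_cancel] at this

theorem gal_bd (h : G.AK) {Z : Type} [NormedAddCommGroup Z] [NormedSpace ℝ Z]
    [FiniteDimensional ℝ Z] (ξ : Z →ₗ[ℝ] G.Sec (wp 0)) (hξ : ∀ z, inner ℝ G.e1 (ξ z) = 0)
    {C : Set Z} (hC : IsCompact C) (irr : ∀ z ∈ C, ∀ χ, ¬ G.SW (ξ z) 0 χ) :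
    ∃ R₀ : ℝ, ∀ R : ℝ, ∃ Λ₀ : ℝ, ∀ Λ ≥ Λ₀, ∀ z ∈ C, ∀ a ψ e y, GS L π Λ R (ξ z) a ψ e y →
      Ng Λ (Th L π Λ a (ψ, e), y) ≤ R₀ ∧ Th L π Λ a (ψ, e) ≠ 0 := by
  obtain ⟨M, hM⟩ := hC.isBounded.exists_norm_le
  obtain ⟨C₁, hC₁, h₁⟩ := Pre.nS_fd ξ 4
  obtain ⟨C₂, hC₂, h₂⟩ := Pre.nS_fd L.hm 4
  obtain ⟨R₁, hR₁⟩ := G.apriori h (max (C₁ * M) C₂)
  obtain ⟨C₃, hC₃, h₃⟩ := Ng_le L π
  obtain ⟨C₄, Λ₄, -, h₄⟩ := gal_bound L π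
  refine ⟨C₃ * (2 + R₁ + C₂) ^ 2, fun R => ?_⟩
  by_contra hcon
  have hex : ∀ n : ℕ, ∃ Λ : ℝ, (n : ℝ) ≤ Λ ∧ ∃ z ∈ C, ∃ a ψ e y, GS L π Λ R (ξ z) a ψ e y ∧
      ¬ (Ng Λ (Th L π Λ a (ψ, e), y) ≤ C₃ * (2 + R₁ + C₂) ^ 2 ∧ Th L π Λ a (ψ, e) ≠ 0) := by
    intro n
    by_contra hn
    refine hcon ⟨n, fun Λ hΛ z hz a ψ e y hs => ?_⟩
    by_contra hb
    exact hn ⟨Λ, hΛ, z, hz, a, ψ, e, y, hs, hb⟩
  choose Λ hΛ z hz a ψ e y hs hb using hex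
  obtain ⟨φ, m, z₀, a₀, ψ₀, y₀, hΛt, hz₀, ha₀, ha, -, hl, hy, hsw⟩ :=
    GalE_seq L π ξ hξ hC hΛ hz hs
  have hhm : (L.hm a₀).nS 4 ≤ C₂ := (h₂ a₀).trans (mul_le_of_le_one_right hC₂ ha₀)
  have hap := hR₁ _ _ _ hsw
    (((h₁ z₀).trans (mul_le_mul_of_nonneg_left (hM z₀ hz₀) hC₁)).trans (le_max_left _ _))
    (fun u hu => by
      have e0 : inner ℝ y₀ u = 0 :=
        Submodule.inner_left_of_mem_orthogonal (K := LinearMap.ker G.Q) hu hy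
      rw [inner_add_left, e0, add_zero]
      refine (real_inner_le_norm _ _).trans (mul_le_mul_of_nonneg_right ?_ (norm_nonneg _))
      exact ((Pre.Sec.norm_le_nS _ 4).trans hhm).trans (le_max_right _ _))
  have hy₀ : y₀.nS 4 ≤ (L.hm a₀ + y₀).nS 4 + C₂ := by
    have := Pre.Sec.nS_sub (L.hm a₀ + y₀) (L.hm a₀) 4
    rw [add_sub_cancel_left] at this
    linarith
  have hzero : ∀ᶠ n in atTop, ψ (φ n) = 0 := by
    filter_upwards [(hl 4).eventually (gt_mem_nhds zero_lt_one), hΛt.eventually_ge_atTop Λ₄]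
      with n hn hn'
    have hs' := (hs (φ n)).per (m n)
    have hN := h₃ (Λ (φ n)) _ _ _ _ (ha n) (congrArg Prod.fst hs'.eq)
    rw [Th_per] at hN
    have e1 := GalE_le (G.mulS (L.u (m n)) (ψ (φ n))) ψ₀ 4
    have e2 := GalE_le (y (φ n) : G.Sec (wm 0)) y₀ 4
    have e3 := Pre.Sec.nS_nonneg (G.mulS (L.u (m n)) (ψ (φ n))) 4
    have e4 := Pre.Sec.nS_nonneg (y (φ n) : G.Sec (wm 0)) 4
    have hN' := hN.trans (mul_le_mul_of_nonneg_left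
      (pow_le_pow_left₀ (by linarith) (b := 2 + R₁ + C₂) (by linarith) 2) hC₃)
    have hT : Th L π (Λ (φ n)) (a (φ n)) (ψ (φ n), e (φ n)) = 0 := by
      by_contra hT
      exact hb (φ n) ⟨hN', hT⟩
    have := h₄ _ hn' _ _ _ (hs (φ n)).ker
    rw [hT, norm_zero, mul_zero] at this
    exact norm_le_zero_iff.1 this
  have hψ₀ : ‖ψ₀‖ ≤ 0 := by
    refine ge_of_tendsto (hl 0) ?_
    filter_upwards [hzero] with n hn
    rw [hn, map_zero, zero_sub, Pre.Sec.nS_neg]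
    have e1 := Pre.Sec.norm_le_nS ψ₀ 0
    have e2 := Pre.Sec.nS_nonneg ((y (φ n) : G.Sec (wm 0)) - y₀) 0
    linarith
  rw [norm_le_zero_iff.1 hψ₀] at hsw
  exact irr z₀ hz₀ _ hsw

theorem gal_none {ξ : G.Sec (wp 0)} (hξ : inner ℝ G.e1 ξ = 0) (h : ∀ ψ χ, ¬ G.SW ξ ψ χ) (R : ℝ) :
    ∃ Λ₀ : ℝ, ∀ Λ ≥ Λ₀, ∀ a ψ e y, ¬ GS L π Λ R ξ a ψ e y := by
  by_contra hcon
  have hex : ∀ n : ℕ, ∃ Λ : ℝ, (n : ℝ) ≤ Λ ∧ ∃ a ψ e y, GS L π Λ R ξ a ψ e y := by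
    intro n
    by_contra hn
    exact hcon ⟨n, fun Λ hΛ a ψ e y hs => hn ⟨Λ, hΛ, a, ψ, e, y, hs⟩⟩
  choose Λ hΛ a ψ e y hs using hex
  obtain ⟨φ, m, z₀, a₀, ψ₀, y₀, -, hz₀, -, -, -, -, -, hsw⟩ :=
    GalE_seq L π (LinearMap.toSpanSingleton ℝ _ ξ)
      (fun z => by rw [LinearMap.toSpanSingleton_apply, real_inner_smul_right, hξ, mul_zero])
      (isCompact_singleton (x := (1 : ℝ))) hΛ (z := fun _ => 1) (fun _ => rfl) (R := R)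
      (a := a) (ψ := ψ) (e := e) (y := y)
      (fun n => by rw [LinearMap.toSpanSingleton_apply, one_smul]; exact hs n)
  rw [Set.mem_singleton_iff.1 hz₀, LinearMap.toSpanSingleton_apply, one_smul] at hsw
  exact h _ _ hsw

theorem gal_one [Nonempty P] {c : ℝ} (hc : 0 < c)
    (h0 : ∀ ψ χ, G.SW (((c : ℂ) ^ 2 * Complex.I / 2) • G.e1) ψ χ →
      ∃ (m : Fin L.b → ℤ) (z : ℂ), ‖z‖ = 1 ∧ χ = L.hm (zc m) ∧
        ψ = z • G.mulS (L.u m) ((c : ℂ) • G.e1))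
    (h1 : ∀ ψ χ, G.dirac 0 ψ + c • G.rho 0 χ G.e1 = 0 → G.Q χ + (2 * c) • G.sig G.e1 ψ = 0 →
      χ = 0 ∧ ∃ t : ℝ, ψ = ((t : ℂ) * Complex.I) • G.e1) (R : ℝ) :
    ∃ Λ₀ : ℝ, ∀ Λ ≥ Λ₀, ∀ a ψ e y,
      GS L π Λ R (((c : ℂ) ^ 2 * Complex.I / 2) • G.e1) a ψ e y →
      ∃ (m : Fin L.b → ℤ) (z : ℂ), ‖z‖ = 1 ∧ a = zc m ∧
        Th L π Λ a (ψ, e) = z • Th L π Λ 0 ((c : ℂ) • G.e1, 0) ∧ y = 0 := by
  have hξ : inner ℝ G.e1 (((c : ℂ) ^ 2 * Complex.I / 2) • G.e1) = 0 := by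
    change (inner ℂ G.e1 (((c : ℂ) ^ 2 * Complex.I / 2) • G.e1)).re = 0
    rw [inner_smul_right, inner_self_eq_norm_sq_to_K]
    have : ((c : ℂ) ^ 2 * Complex.I / 2) * ((‖G.e1‖ : ℝ) : ℂ) ^ 2 =
        ((c ^ 2 * ‖G.e1‖ ^ 2 / 2 : ℝ) : ℂ) * Complex.I := by
      push_cast
      ring
    exact (congrArg Complex.re this).trans (by simp only [Complex.mul_I_re, Complex.ofReal_im,
      neg_zero])
  by_contra hcon
  have hex : ∀ n : ℕ, ∃ Λ : ℝ, (n : ℝ) ≤ Λ ∧ ∃ a ψ e y,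
      GS L π Λ R (((c : ℂ) ^ 2 * Complex.I / 2) • G.e1) a ψ e y ∧
      ¬ ∃ (m : Fin L.b → ℤ) (z : ℂ), ‖z‖ = 1 ∧ a = zc m ∧
        Th L π Λ a (ψ, e) = z • Th L π Λ 0 ((c : ℂ) • G.e1, 0) ∧ y = 0 := by
    intro n
    by_contra hn
    refine hcon ⟨n, fun Λ hΛ a ψ e y hs => ?_⟩
    by_contra hb
    exact hn ⟨Λ, hΛ, a, ψ, e, y, hs, hb⟩
  choose Λ hΛ a ψ e y hs hb using hex
  obtain ⟨φ, m, z₀, a₀, ψ₀, y₀, hΛt, hz₀, -, -, hal, hl, hy, hsw⟩ :=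
    GalE_seq L π (LinearMap.toSpanSingleton ℝ _ (((c : ℂ) ^ 2 * Complex.I / 2) • G.e1))
      (fun z => by rw [LinearMap.toSpanSingleton_apply, real_inner_smul_right, hξ, mul_zero])
      (isCompact_singleton (x := (1 : ℝ))) hΛ (z := fun _ => 1) (fun _ => rfl) (R := R)
      (a := a) (ψ := ψ) (e := e) (y := y)
      (fun n => by rw [LinearMap.toSpanSingleton_apply, one_smul]; exact hs n)
  rw [Set.mem_singleton_iff.1 hz₀, LinearMap.toSpanSingleton_apply, one_smul] at hsw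
  obtain ⟨m₀, z, hz, hχ, hψ⟩ := h0 _ _ hsw
  have hy0 : y₀ = 0 := by
    refine GalE_perp hy ?_
    rw [eq_sub_of_add_eq' hχ, map_sub, L.Q_hm, L.Q_hm, sub_zero]
  rw [hy0, add_zero] at hχ
  have ha0 : a₀ = zc m₀ := L.inj hχ
  have hal' : Tendsto (fun n => a (φ n) + zc (-m₀ + m n)) atTop (𝓝 0) := by
    have := hal.sub_const a₀
    rw [sub_self] at this
    refine this.congr fun n => ?_
    rw [ha0, zc_add, zc_neg]
    abel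
  have hl' : ∀ k, Tendsto (fun n => (G.mulS (L.u (-m₀ + m n)) (ψ (φ n)) -
      z • (c : ℂ) • G.e1).nS k + ((y (φ n) : G.Sec (wm 0)) +
        L.hm (a (φ n) + zc (-m₀ + m n))).nS k) atTop (𝓝 0) := by
    intro k
    obtain ⟨C₁, hC₁, h₁⟩ := Pre.mulS_nS (G := G.toPre) (w := wp 0) (L.u (-m₀)) k
    obtain ⟨C₂, hC₂, h₂⟩ := Pre.nS_fd L.hm k
    have ht := ((hl k).const_mul (C₁ + 1)).add (hal'.norm.const_mul C₂)
    rw [mul_zero, norm_zero, mul_zero, add_zero] at ht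
    refine squeeze_zero (fun n => add_nonneg (Pre.Sec.nS_nonneg _ _) (Pre.Sec.nS_nonneg _ _))
      (fun n => ?_) ht
    have e0 : G.mulS (L.u (-m₀ + m n)) (ψ (φ n)) - z • (c : ℂ) • G.e1 =
        G.mulS (L.u (-m₀)) (G.mulS (L.u (m n)) (ψ (φ n)) - ψ₀) := by
      rw [map_sub, L.mul_mul, hψ, map_smul, L.mul_mul, neg_add_cancel, L.mul_zero]
    have e1 := h₁ (G.mulS (L.u (m n)) (ψ (φ n)) - ψ₀)
    have e2 := Pre.Sec.nS_add (y (φ n) : G.Sec (wm 0)) (L.hm (a (φ n) + zc (-m₀ + m n))) k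
    have e3 := h₂ (a (φ n) + zc (-m₀ + m n))
    have e4 := Pre.Sec.nS_nonneg (G.mulS (L.u (m n)) (ψ (φ n)) - ψ₀) k
    have e5 := mul_nonneg hC₁ (Pre.Sec.nS_nonneg (y (φ n) : G.Sec (wm 0)) k)
    rw [e0, hy0, sub_zero]
    linarith
  obtain ⟨N, hN⟩ := eventually_atTop.1 (hal'.eventually (near_galSol L π))
  have hg := fun n => hN (n + N) (Nat.le_add_left N n) _ _ _ _ _ _ hξ
    ((hs (φ (n + N))).per (-m₀ + m (n + N)))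
  obtain ⟨n, hχ0, z', hz', hψ'⟩ := gal_uniq_seq hc h1 (hΛt.comp (tendsto_add_atTop_nat N))
    (fun n => (hg n).1) hz (fun k => (hl' k).comp (tendsto_add_atTop_nat N))
  have hyn : (y (φ (n + N)) : G.Sec (wm 0)) = 0 := by
    refine GalE_perp (y (φ (n + N))).2.2 ?_
    rw [eq_neg_of_add_eq_zero_left hχ0, map_neg, L.Q_hm, neg_zero]
  rw [hyn, zero_add] at hχ0
  have han : a (φ (n + N)) + zc (-m₀ + m (n + N)) = 0 := L.inj (hχ0.trans (map_zero _).symm)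
  have hen : e (φ (n + N)) = 0 := (hg n).2 (by
    rw [hψ', G.dirac_smul, G.dirac_smul, G.dirac_e1, smul_zero, smul_zero])
  refine hb (φ (n + N)) ⟨-(-m₀ + m (n + N)), z', hz', ?_, ?_, Subtype.ext hyn⟩
  · rw [zc_neg]
    exact eq_neg_of_add_eq_zero_left han
  · rw [← Th_per L π _ _ (-m₀ + m (n + N)), han, hψ', hen, ← map_smul, Prod.smul_mk, smul_zero]

end Geo

end SX4
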