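import Pool.Agent.P.MP_0a0487_an.GZ.GalB
import Pool.Agent.P.MP_0a0487_an.GZ.GalU

/-! The base point. -/

set_option autoImplicit false
set_option linter.unusedSectionVars false

noncomputable section

namespace SX4

open scoped ComplexOrder ContDiff
open Filter Topology Module GZ

variable {P A : Type} [TopologicalSpace P] [CompactSpace P] [CommRing A] [StarRing A] [Algebra ℂ A]
  [StarModule ℂ A] {B : Base P A}

theorem galF_quad {X Z : Type} [NormedAddCommGroup X] [NormedSpace ℝ X] [FiniteDimensional ℝ X]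
    [NormedAddCommGroup Z] [NormedSpace ℝ Z] (L : X →ₗ[ℝ] Z) (M : X →ₗ[ℝ] X →ₗ[ℝ] Z) (x : X) :
    ∃ T : X →L[ℝ] Z, HasFDerivAt (fun x => L x + M x x) T x ∧
      ∀ v, T v = L v + (M x v + M v x) := by
  let L' : X →L[ℝ] Z := LinearMap.toContinuousLinearMap L
  let M' : X →L[ℝ] X →L[ℝ] Z := LinearMap.toContinuousLinearMap
    ((LinearMap.toContinuousLinearMap : (X →ₗ[ℝ] Z) ≃ₗ[ℝ] X →L[ℝ] Z).toLinearMap ∘ₗ M)
  exact ⟨_, L'.hasFDerivAt.add (M'.hasFDerivAt.clm_apply (hasFDerivAt_id x)), fun v => rfl⟩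

namespace Geo

variable {G : Geo B} (L : G.Latt) (π : Pat L.b)

theorem Ng_base (Λ : ℝ) (ψ : G.Sec (wp 0)) : Ng Λ (Th L π Λ 0 (ψ, 0), 0) ≤ ‖ψ‖ := by
  have h0 : ∀ (k : ℕ) (w : Fin 2 → Wt), (0 : G.Sec w).nS k = 0 := fun k w => by
    simp [Pre.Sec.nS, G.nn_zero]
  simpa [Ng, Th_snd, h0] using norm_Th_le L π Λ 0 ψ 0

theorem galF_mem {Λ : ℝ} {a : Fin L.b → ℝ}
    (h1 : ∀ ψ e, Lop L π Λ a (ψ, e) = G.dirac 0 ψ + (e (fun _ => 1) : G.Sec (wm 0)))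
    (h2 : ∀ ψ e, Th L π Λ a (ψ, e) = (Pi.single (fun _ => 1) (G.pp Λ ψ), e)) (w : G.Ut L.b Λ) :
    w ∈ Wg L π Λ a ↔ G.dirac 0 (w.1 (fun _ => 1)) + (w.2 (fun _ => 1) : G.Sec (wm 0)) = 0 ∧
      (Pi.single (fun _ => 1) (G.pp Λ (w.1 (fun _ => 1))), w.2) = w := by
  rw [mem_Wg]
  simp only [h1, h2]
  refine ⟨fun ⟨ψ, a1, a2⟩ => ?_, fun h => ⟨_, h⟩⟩
  have b1 : ψ ∈ G.Ep Λ := mem_Ep_of (by
    rw [eq_neg_of_add_eq_zero_left a1]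
    exact neg_mem (w.2 _).2)
  have b2 : (w.1 (fun _ => 1) : G.Sec (wp 0)) = ψ := by
    rw [← a2]
    dsimp only
    rw [Pi.single_eq_same]
    exact (G.isOP_pp Λ).apply_of_mem b1
  rw [b2]
  exact ⟨a1, a2⟩

theorem galF_model (Λ : ℝ) (x₀ : (Fin L.b → ℝ) × G.Ut L.b Λ × G.Ym Λ) :
    ∃ T : ((Fin L.b → ℝ) × G.Ut L.b Λ × G.Ym Λ) →L[ℝ] G.Um L.b Λ × G.Yp Λ,
      HasFDerivAt (fun p : (Fin L.b → ℝ) × G.Ut L.b Λ × G.Ym Λ =>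
        ((p.2.1.2 - Pi.single (fun _ => 1) (G.pm Λ (G.rho 0 (p.2.2 + L.hm p.1)
          (p.2.1.1 (fun _ => 1)))), G.qp Λ (G.Q p.2.2 + G.sig (p.2.1.1 (fun _ => 1))
            (p.2.1.1 (fun _ => 1)))) : G.Um L.b Λ × G.Yp Λ)) T x₀ ∧
      ∀ p, T p = (p.2.1.2 - Pi.single (fun _ => 1) (G.pm Λ (G.rho 0 (x₀.2.2 + L.hm x₀.1)
        (p.2.1.1 (fun _ => 1)) + G.rho 0 (p.2.2 + L.hm p.1) (x₀.2.1.1 (fun _ => 1)))),
          G.qp Λ (G.Q p.2.2 + (G.sig (x₀.2.1.1 (fun _ => 1)) (p.2.1.1 (fun _ => 1)) +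
            G.sig (p.2.1.1 (fun _ => 1)) (x₀.2.1.1 (fun _ => 1))))) := by
  have : FiniteDimensional ℝ (G.Ut L.b Λ) := Module.Finite.trans ℂ _
  let u : ((Fin L.b → ℝ) × G.Ut L.b Λ × G.Ym Λ) →ₗ[ℝ] G.Ut L.b Λ :=
    LinearMap.fst ℝ _ _ ∘ₗ LinearMap.snd ℝ _ _
  let y : ((Fin L.b → ℝ) × G.Ut L.b Λ × G.Ym Λ) →ₗ[ℝ] G.Sec (wm 0) :=
    (G.Ym Λ).subtype ∘ₗ LinearMap.snd ℝ _ _ ∘ₗ LinearMap.snd ℝ _ _
  let σ : ((Fin L.b → ℝ) × G.Ut L.b Λ × G.Ym Λ) →ₗ[ℝ] G.Sec (wp 0) :=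
    ((G.Ep Λ).subtype ∘ₗ LinearMap.proj (fun _ => 1) ∘ₗ LinearMap.fst ℂ _ _).restrictScalars ℝ ∘ₗ u
  let s : G.Sec (wm 0) →ₗ[ℝ] G.Um L.b Λ :=
    (LinearMap.single ℂ (fun _ => G.Em Λ) (fun _ => 1) ∘ₗ G.pm Λ).restrictScalars ℝ
  let ρ : G.Sec (wm 0) →ₗ[ℝ] G.Sec (wp 0) →ₗ[ℝ] G.Sec (wm 0) :=
    { toFun := G.rho 0
      map_add' := fun χ χ' => LinearMap.ext (G.rho_add_left 0 χ χ')
      map_smul' := fun r χ => LinearMap.ext (G.rho_smul_left 0 r χ) }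
  let τ : G.Sec (wp 0) →ₗ[ℝ] G.Sec (wp 0) →ₗ[ℝ] G.Sec (wp 0) :=
    { toFun := G.sig
      map_add' := fun s t => LinearMap.ext (gal1_sig_add s t)
      map_smul' := fun r s => LinearMap.ext (gal1_sig_smul r s) }
  obtain ⟨T, h1, h2⟩ := galF_quad (Z := G.Um L.b Λ × G.Yp Λ)
    ((LinearMap.snd ℝ _ _ ∘ₗ u).prod (G.qp Λ ∘ₗ G.Q ∘ₗ y))
    ((ρ.compl₁₂ (y + L.hm ∘ₗ LinearMap.fst ℝ _ _) σ).compr₂ (LinearMap.inl ℝ _ (G.Yp Λ) ∘ₗ (-s)) +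
      (τ.compl₁₂ σ σ).compr₂ (LinearMap.inr ℝ (G.Um L.b Λ) _ ∘ₗ G.qp Λ)) x₀
  refine ⟨T, ?_, fun p => (h2 p).trans (Prod.ext ?_ ?_)⟩
  · refine h1.congr_of_eventuallyEq (Eventually.of_forall fun p => Prod.ext ?_ ?_)
    · exact (sub_eq_add_neg _ _).trans (congrArg _ (add_zero _).symm)
    · exact (map_add _ _ _).trans (congrArg _ (zero_add _).symm)
  · change _ + (-s _ + 0 + (-s _ + 0)) = _ - s _
    rw [add_zero, add_zero, ← neg_add, ← map_add, ← sub_eq_add_neg]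
    rfl
  · change G.qp Λ _ + (0 + G.qp Λ _ + (0 + G.qp Λ _)) = _
    rw [zero_add, zero_add, ← map_add, ← map_add]
    rfl

theorem gal_base [Nonempty P] {c : ℝ} (hc : 0 < c)
    (h1 : ∀ ψ χ, G.dirac 0 ψ + c • G.rho 0 χ G.e1 = 0 → G.Q χ + (2 * c) • G.sig G.e1 ψ = 0 →
      χ = 0 ∧ ∃ t : ℝ, ψ = ((t : ℂ) * Complex.I) • G.e1) :
    ∃ Λ₀ : ℝ, ∀ Λ ≥ Λ₀, Lev L π Λ →
      ∀ Φ : Fam L.b (G.Ut L.b Λ) (G.Um L.b Λ) (G.Ym Λ) (G.Yp Λ), Φ.W = Wg L π Λ →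
      Φ.F = Fg L π Λ → Φ.Base (Th L π Λ 0 ((c : ℂ) • G.e1, 0))
        (G.qp Λ (((c : ℂ) ^ 2 * Complex.I / 2) • G.e1)) := by
  obtain ⟨Λ₀, nd⟩ := G.gal_nd G.Qa_ell h1
  refine ⟨Λ₀, fun Λ hΛ lev Φ hW hF => ?_⟩
  have nz := near_zero L π
  obtain ⟨k0, n0⟩ := nz.self_of_nhds
  obtain ⟨n1, n2, n3⟩ := n0 Λ
  have c0 : (c : ℂ) ≠ 0 := Complex.ofReal_ne_zero.2 hc.ne'
  have z1 : G.dirac 0 ((c : ℂ) • G.e1) = 0 := by rw [G.dirac_smul, G.dirac_e1, smul_zero]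
  have z2 : Lop L π Λ 0 ((c : ℂ) • G.e1, 0) = 0 := by
    rw [n1, z1]
    exact add_zero _
  have z3 : ((Th L π Λ 0 ((c : ℂ) • G.e1, 0)).1 (fun _ => 1) : G.Sec (wp 0)) = c • G.e1 := by
    rw [n3]
    dsimp only
    rw [Pi.single_eq_same]
    exact (G.isOP_pp Λ).apply_of_mem (ker_le_eig _ _ _ z1)
  obtain ⟨T, hT, hT'⟩ := galF_model L Λ (0, Th L π Λ 0 ((c : ℂ) • G.e1, 0), 0)
  refine ⟨hW ▸ (mem_Wg L π Λ).2 ⟨_, z2, rfl⟩, fun h => ?_, ?_, ?_, _, T, hT, ?_,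
    fun p hp h => ?_⟩
  · obtain ⟨m, hm, e⟩ := G.gal1_e1
    rw [(smul_eq_zero.1 (congrArg Prod.fst (lev.inj 0 _ z2 h))).resolve_left c0,
      inner_zero_left] at e
    exact hm.ne' (Complex.ofReal_eq_zero.1 e.symm)
  · rw [hF, lev.Fg_eq z2]
    refine Prod.ext (by simp [Eqn, k0, Pre.rho_zero_left]) (congrArg (G.qp Λ) ?_)
    rw [Submodule.coe_zero, map_zero, zero_add, ← gal1_rs, map_smul, gal1_sig_smul, G.sig_e1,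
      gal1_rs, gal1_rs, smul_smul, smul_smul]
    congr 1
    ring
  · filter_upwards [nz] with a ha
    ext w
    rw [hW, galF_mem L π (ha.2 Λ).1 (ha.2 Λ).2.2, galF_mem L π n1 n3]
  · filter_upwards [(continuous_fst.tendsto _).eventually nz] with p ha hp
    rw [hW, galF_mem L π n1 n3, ← (ha.2 Λ).1, ← (ha.2 Λ).2.2] at hp
    have e := lev.Fg_eq hp.1 p.2.2
    rw [hp.2] at e
    rw [hF]
    refine e.trans ?_
    rw [Eqn, ha.1, sub_zero, (ha.2 Λ).2.1]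
  · rw [hW, galF_mem L π n1 n3] at hp
    rw [hT', z3, Prod.mk_eq_zero, Submodule.coe_zero, map_zero, add_zero, Pre.rho_zero_left,
      zero_add, sub_eq_zero, map_smul (G.rho 0 _), map_smul (G.sig _), gal1_sig_smul,
      G.sig_comm _ G.e1, ← add_smul, ← two_mul, G.qp_eq_zero (by
        rw [inner_add_right, real_inner_smul_right, G.inner_e1_sig, mul_zero, add_zero]
        exact congrArg Complex.re (G.inner_e1_Q _))] at h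
    obtain ⟨b1, t, b2⟩ := nd Λ hΛ _ (p.2.1.1 (fun _ => 1)).2 (p.2.2 + L.hm p.1)
      (add_mem p.2.2.2.1 (ker_le_eig _ _ _ (L.Q_hm _)))
      (fun u hu => by
        rw [eq_neg_of_add_eq_zero_left hp.1, h.1, Pi.single_eq_same, neg_add_eq_sub]
        exact (G.isOP_pm Λ).2 _ u hu)
      (by rw [map_add, L.Q_hm, add_zero]; exact h.2)
    have b3 : L.hm p.1 = 0 := by
      have b4 := p.2.2.2.2 _ (L.Q_hm p.1)
      rwa [eq_neg_of_add_eq_zero_left b1, inner_neg_right, neg_eq_zero, inner_self_eq_zero] at b4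
    rw [b3, add_zero] at b1
    refine ⟨L.inj (b3.trans (map_zero _).symm), Subtype.ext b1, t / c, ?_⟩
    rw [← hp.2, ← n3, h.1, b1, b3, add_zero, Pre.rho_zero_left, smul_zero, map_zero,
      Pi.single_zero, b2, ← map_smul, Prod.smul_mk, smul_zero, smul_smul]
    congr 3
    push_cast
    field_simp

end Geo

end SX4
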