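import Pool.Agent.P.MP_0a0487_an.GZ.Gauge

/-! The quaternionic structure. -/

set_option autoImplicit false
set_option linter.unusedSectionVars false

noncomputable section

namespace SX4

open scoped ComplexOrder ContDiff
open Filter Topology Module GZ

variable {P A : Type} [TopologicalSpace P] [CompactSpace P] [CommRing A] [StarRing A] [Algebra ℂ A]
  [StarModule ℂ A] {B : Base P A}

namespace Pre

variable {G : Pre B} {u : A} (hu : u ∈ B.W (1, 1))

theorem JAlg_jp0 (s : G.Sec (wp 0)) : (G.jp hu s).c 0 = star u * star (s.c 1) := rfl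

theorem JAlg_jp1 (s : G.Sec (wp 0)) : (G.jp hu s).c 1 = -(star u * star (s.c 0)) := rfl

theorem JAlg_jm0 (s : G.Sec (wm 0)) : (G.jm hu s).c 0 = star u * star (s.c 1) := rfl

theorem JAlg_jm1 (s : G.Sec (wm 0)) : (G.jm hu s).c 1 = -(star u * star (s.c 0)) := rfl

theorem JAlg_ext {w : Fin 2 → Wt} {s t : G.Sec w} (h0 : s.c 0 = t.c 0) (h1 : s.c 1 = t.c 1) :
    s = t := Sec.ext (Fin.forall_fin_two.2 ⟨h0, h1⟩)

theorem JAlg_re (h : star u * u = 1) (a b : A) :
    (G.I (star (star u * star a) * (star u * star b))).re = (G.I (star a * b)).re := by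
  have e : star (star u * star a) * (star u * star b) = star (star a * b) := by
    simp only [star_mul', star_star]
    linear_combination a * star b * h
  rw [e, G.I_star, Complex.conj_re]

theorem jp_smul (z : ℂ) (s : G.Sec (wp 0)) :
    G.jp hu (z • s) = (starRingEnd ℂ) z • G.jp hu s := by
  refine JAlg_ext ?_ ?_ <;>
    simp only [JAlg_jp0, JAlg_jp1, Sec.c_smul, star_smul, mul_smul_comm, smul_neg] <;> rfl

theorem jm_smul (z : ℂ) (s : G.Sec (wm 0)) :
    G.jm hu (z • s) = (starRingEnd ℂ) z • G.jm hu s := by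
  refine JAlg_ext ?_ ?_ <;>
    simp only [JAlg_jm0, JAlg_jm1, Sec.c_smul, star_smul, mul_smul_comm, smul_neg] <;> rfl

theorem jm_nS (k : ℕ) : ∃ C : ℝ, 0 ≤ C ∧ ∀ s, (G.jm hu s).nS k ≤ C * s.nS k := by
  refine IsZO.nS_le ⟨0, ![![0, star u], ![-star u, 0]], fun _ _ => zero_mem _, ?_, fun s => ?_⟩ k
  · simp only [Fin.forall_fin_two]
    exact ⟨⟨zero_mem _, B.star_mem' hu (by ext <;> simp [wm])⟩,
      neg_mem (B.star_mem' hu (by ext <;> simp [wm])), zero_mem _⟩
  · simp [Fin.forall_fin_two, JAlg_jm0, JAlg_jm1]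

theorem rho_jp (χ : G.Sec (wm 0)) (s : G.Sec (wp 0)) :
    G.rho 0 (-χ) (G.jp hu s) = G.jm hu (G.rho 0 χ s) := by
  refine JAlg_ext ?_ ?_
  · change Complex.I • (-χ.c 0 * (star u * star (s.c 1)) -
        star (-χ.c 1) * -(star u * star (s.c 0))) =
      star u * star (Complex.I • (χ.c 1 * s.c 0 + star (χ.c 0) * s.c 1))
    simp only [star_smul, star_add, star_mul', star_star, star_neg, Complex.star_def,
      Complex.conj_I, neg_smul]
    simp only [Algebra.smul_def]
    ring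
  · change Complex.I • (-χ.c 1 * (star u * star (s.c 1)) +
        star (-χ.c 0) * -(star u * star (s.c 0))) =
      -(star u * star (Complex.I • (χ.c 0 * s.c 0 - star (χ.c 1) * s.c 1)))
    simp only [star_smul, star_sub, star_mul', star_star, star_neg, Complex.star_def,
      Complex.conj_I, neg_smul]
    simp only [Algebra.smul_def]
    ring

theorem jp_mul (L : G.Latt) (m : Fin L.b → ℤ) (s : G.Sec (wp 0)) :
    G.jp hu (G.mulS (L.u m) s) = G.mulS (L.u (-m)) (G.jp hu s) := by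
  refine JAlg_ext ?_ ?_ <;> simp only [JAlg_jp0, JAlg_jp1, mulS_c, star_mul', L.u_star] <;> ring

theorem jm_mul (L : G.Latt) (m : Fin L.b → ℤ) (s : G.Sec (wm 0)) :
    G.jm hu (G.mulS (L.u m) s) = G.mulS (L.u (-m)) (G.jm hu s) := by
  refine JAlg_ext ?_ ?_ <;> simp only [JAlg_jm0, JAlg_jm1, mulS_c, star_mul', L.u_star] <;> ring

variable {hu} (h : G.JS hu)

include h

theorem JS.jp_jp (s : G.Sec (wp 0)) : G.jp hu (G.jp hu s) = -s := by
  refine JAlg_ext ?_ ?_ <;>
    simp only [JAlg_jp0, JAlg_jp1, Sec.c_neg, star_neg, star_mul', star_star]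
  · linear_combination -s.c 0 * h.unit
  · linear_combination -s.c 1 * h.unit

theorem JS.jm_jm (s : G.Sec (wm 0)) : G.jm hu (G.jm hu s) = -s := by
  refine JAlg_ext ?_ ?_ <;>
    simp only [JAlg_jm0, JAlg_jm1, Sec.c_neg, star_neg, star_mul', star_star]
  · linear_combination -s.c 0 * h.unit
  · linear_combination -s.c 1 * h.unit

theorem JS.inner_jp (s t : G.Sec (wp 0)) :
    inner ℝ (G.jp hu s) (G.jp hu t) = inner ℝ s t := by
  simp only [inner_real, Fin.sum_univ_two, JAlg_jp0, JAlg_jp1, star_neg, neg_mul_neg,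
    JAlg_re h.unit]
  exact add_comm _ _

theorem JS.inner_jm (s t : G.Sec (wm 0)) :
    inner ℝ (G.jm hu s) (G.jm hu t) = inner ℝ s t := by
  simp only [inner_real, Fin.sum_univ_two, JAlg_jm0, JAlg_jm1, star_neg, neg_mul_neg,
    JAlg_re h.unit]
  exact add_comm _ _

theorem JS.sig_jp (s : G.Sec (wp 0)) : G.sig (G.jp hu s) (G.jp hu s) = -G.sig s s := by
  refine JAlg_ext ?_ ?_
  · change (Complex.I / 4) • (star (star u * star (s.c 1)) * (star u * star (s.c 1)) +
        star (star u * star (s.c 1)) * (star u * star (s.c 1)) -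
        star (-(star u * star (s.c 0))) * -(star u * star (s.c 0)) -
        star (-(star u * star (s.c 0))) * -(star u * star (s.c 0))) =
      -((Complex.I / 4) • (star (s.c 0) * s.c 0 + star (s.c 0) * s.c 0 -
        star (s.c 1) * s.c 1 - star (s.c 1) * s.c 1))
    rw [← smul_neg]
    congr 1
    simp only [star_neg, star_mul', star_star]
    linear_combination (2 * star (s.c 1) * s.c 1 - 2 * star (s.c 0) * s.c 0) * h.unit
  · change (Complex.I / 2) • (star (star u * star (s.c 1)) * -(star u * star (s.c 0)) +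
        star (star u * star (s.c 1)) * -(star u * star (s.c 0))) =
      -((Complex.I / 2) • (star (s.c 0) * s.c 1 + star (s.c 0) * s.c 1))
    rw [← smul_neg]
    congr 1
    simp only [star_mul', star_star]
    linear_combination (-2 * star (s.c 0) * s.c 1) * h.unit

theorem JS.comm' (t : G.Sec (wm 0)) :
    G.diracAdj 0 (G.jm hu t) = G.jp hu (G.diracAdj 0 t) := by
  refine ext_inner_left ℝ fun v => ?_
  obtain ⟨s, rfl⟩ : ∃ s, G.jp hu s = v := ⟨-G.jp hu v, by rw [map_neg, h.jp_jp, neg_neg]⟩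
  rw [← (G.dirac_ell 0).adj, h.comm, h.inner_jm, h.inner_jp, (G.dirac_ell 0).adj]

end Pre

namespace Geo

variable {G : Geo B} {u : A} {hu : u ∈ B.W (1, 1)} (h : G.JS hu)

include h

theorem jp_mem {Λ : ℝ} {s : G.Sec (wp 0)} (hs : s ∈ G.Ep Λ) : G.jp hu s ∈ G.Ep Λ := by
  exact eig_symm Λ (G.jp hu) (fun s => by rw [h.comm, h.comm']) hs

theorem jm_mem {Λ : ℝ} {s : G.Sec (wm 0)} (hs : s ∈ G.Em Λ) : G.jm hu s ∈ G.Em Λ := by
  exact eig_symm Λ (G.jm hu) (fun s => by rw [h.comm', h.comm]) hs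

theorem pp_jp (Λ : ℝ) (s : G.Sec (wp 0)) :
    (G.pp Λ (G.jp hu s) : G.Sec (wp 0)) = G.jp hu (G.pp Λ s) := by
  refine (G.isOP_pp Λ).eq_of (jp_mem h (G.pp Λ s).2) fun v hv => ?_
  have e : v = G.jp hu (-G.jp hu v) := by rw [map_neg, h.jp_jp, neg_neg]
  rw [e, ← map_sub, h.inner_jp]
  exact (G.isOP_pp Λ).2 s _ (neg_mem (jp_mem h hv))

theorem pm_jm (Λ : ℝ) (s : G.Sec (wm 0)) :
    (G.pm Λ (G.jm hu s) : G.Sec (wm 0)) = G.jm hu (G.pm Λ s) := by
  refine (G.isOP_pm Λ).eq_of (jm_mem h (G.pm Λ s).2) fun v hv => ?_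
  have e : v = G.jm hu (-G.jm hu v) := by rw [map_neg, h.jm_jm, neg_neg]
  rw [e, ← map_sub, h.inner_jm]
  exact (G.isOP_pm Λ).2 s _ (neg_mem (jm_mem h hv))

end Geo

end SX4
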