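import Pool.Agent.P.MP_0a0487_an.GZ.GalB
import Pool.Agent.P.MP_0a0487_an.GZ.JAlg

/-! The quaternionic symmetry of the Galerkin family. -/

set_option autoImplicit false
set_option linter.unusedSectionVars false

noncomputable section

namespace SX4

open scoped ComplexOrder ContDiff
open Filter Topology Module GZ

variable {P A : Type} [TopologicalSpace P] [CompactSpace P] [CommRing A] [StarRing A] [Algebra ℂ A]
  [StarModule ℂ A] {B : Base P A}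

namespace Geo

variable {G : Geo B} (L : G.Latt) (π : Pat L.b)

section

variable {u : A} {hu : u ∈ B.W (1, 1)} (h : G.JS hu) (Λ : ℝ)

/-- The symmetry of the negative modes. -/
def GalJm (b : ℕ) : G.Um b Λ →ₗ[ℝ] G.Um b Λ where
  toFun e i := ⟨G.jm hu (e i.neg), jm_mem h (e i.neg).2⟩
  map_add' _ _ := funext fun _ => Subtype.ext (map_add _ _ _)
  map_smul' _ _ := funext fun _ => Subtype.ext (map_smul _ _ _)

/-- The symmetry of the positive modes. -/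
def GalJp (b : ℕ) : (Ix b → G.Ep Λ) →ₗ[ℝ] Ix b → G.Ep Λ where
  toFun e i := ⟨G.jp hu (e i.neg), jp_mem h (e i.neg).2⟩
  map_add' _ _ := funext fun _ => Subtype.ext (map_add _ _ _)
  map_smul' _ _ := funext fun _ => Subtype.ext (map_smul _ _ _)

theorem GalJ_rg {M : Type} [AddCommGroup M] [Module ℂ M] (i : Ix L.b) (a : Fin L.b → ℝ)
    (f : (Fin L.b → ℤ) → M) :
    (π.r i (-a) : ℂ) • f (π.g i (-a)) = (π.r i.neg a : ℂ) • f (-π.g i.neg a) := by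
  have h1 := π.r_neg i.neg a
  have h2 := π.g_neg i.neg a
  rw [Ix.neg_neg] at h1 h2
  rw [h1]
  rcases h2 with e | e <;> simp [e]

theorem GalJ_pj (a : Fin L.b → ℝ) (t : G.Sec (wm 0)) :
    pj L π Λ (-a) (G.jm hu t) = GalJm h Λ L.b (pj L π Λ a t) := by
  funext i
  rw [pj_apply, GalJ_rg L π i a fun m => G.pm Λ (G.mulS (L.u (-m)) (G.jm hu t))]
  refine Subtype.ext ?_
  change _ • (_ : G.Sec (wm 0)) = G.jm hu (_ • (G.pm Λ (G.mulS _ t) : G.Sec (wm 0)))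
  rw [Pre.jm_smul, Complex.conj_ofReal, ← pm_jm h, Pre.jm_mul]

theorem GalJ_Th (a : Fin L.b → ℝ) (ψ : G.Sec (wp 0)) (e e' : G.Um L.b Λ) :
    (Th L π Λ (-a) (G.jp hu ψ, e')).1 = GalJp h Λ L.b (Th L π Λ a (ψ, e)).1 := by
  funext i
  rw [Th_fst, GalJ_rg L π i a fun m => G.pp Λ (G.mulS (L.u (-m)) (G.jp hu ψ))]
  refine Subtype.ext ?_
  change _ • (_ : G.Sec (wp 0)) = G.jp hu (_ • (G.pp Λ (G.mulS _ ψ) : G.Sec (wp 0)))
  rw [Pre.jp_smul, Complex.conj_ofReal, ← pp_jp h, Pre.jp_mul]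

theorem GalJ_Lop (a : Fin L.b → ℝ) (ψ : G.Sec (wp 0)) (e : G.Um L.b Λ) :
    Lop L π Λ (-a) (G.jp hu ψ, GalJm h Λ L.b e) = G.jm hu (Lop L π Λ a (ψ, e)) := by
  rw [Lop_apply, Lop_apply, io_apply, io_apply, map_add, map_sum, ← Ix.sum_neg fun i =>
    G.jm hu ((π.r i a : ℂ) • G.mulS (L.u (π.g i a)) (e i : G.Sec (wm 0))), π.κ_neg, map_neg]
  congr 1
  · change G.dirac 0 _ + G.rho 0 _ _ = G.jm hu (G.dirac 0 _ + G.rho 0 _ _)
    rw [map_add, h.comm, Pre.rho_jp]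
  · refine Finset.sum_congr rfl fun i _ => ?_
    rw [GalJ_rg L π i a fun m => G.mulS (L.u m) (GalJm h Λ L.b e i : G.Sec (wm 0)), Pre.jm_smul,
      Complex.conj_ofReal, Pre.jm_mul]
    rfl

theorem GalJ_Eqn (a : Fin L.b → ℝ) (ψ : G.Sec (wp 0)) (e : G.Um L.b Λ) (y : G.Sec (wm 0)) :
    Eqn L π Λ (-a) (G.jp hu ψ) (GalJm h Λ L.b e) (-y) =
      (GalJm h Λ L.b (Eqn L π Λ a ψ e y).1, -(Eqn L π Λ a ψ e y).2) := by
  have : -y + L.hm (-a - -π.κ a) = -(y + L.hm (a - π.κ a)) := by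
    rw [neg_add, ← map_neg, neg_sub']
  simp only [Eqn]
  rw [π.κ_neg, this, Pre.rho_jp, GalJ_pj L π h, map_sub (GalJm h Λ L.b), h.sig_jp, map_neg, ← neg_add, map_neg]

end

theorem exists_sym {u : A} {hu : u ∈ B.W (1, 1)} (h : G.JS hu) : ∃ C : ℝ, 0 ≤ C ∧ ∀ Λ : ℝ,
    Lev L π Λ → ∀ Φ : Fam L.b (G.Ut L.b Λ) (G.Um L.b Λ) (G.Ym Λ) (G.Yp Λ), Φ.W = Wg L π Λ →
      Φ.F = Fg L π Λ → ∃ (j : G.Ut L.b Λ →L[ℝ] G.Ut L.b Λ) (j' : G.Um L.b Λ →L[ℝ] G.Um L.b Λ),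
        Φ.Sym j j' ∧ ∀ w y, Ng Λ (j w, -y) ≤ C * Ng Λ (w, y) := by
  obtain ⟨C, hC, hn⟩ := Pre.jm_nS hu 3
  refine ⟨max 1 C, by positivity, fun Λ hΛ Φ hW hF => ?_⟩
  have m1 : ∀ (z : ℂ) e, GalJm h Λ L.b (z • e) = (starRingEnd ℂ) z • GalJm h Λ L.b e :=
    fun z e => funext fun i => Subtype.ext (Pre.jm_smul hu z _)
  have m2 : ∀ e, GalJm h Λ L.b (GalJm h Λ L.b e) = -e := fun e => funext fun i =>
    Subtype.ext ((h.jm_jm _).trans (by rw [Ix.neg_neg]; rfl))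
  have key : ∀ a ψ w, Th L π Λ a (ψ, w.2) = w → Th L π Λ (-a) (G.jp hu ψ, GalJm h Λ L.b w.2) =
      (GalJp h Λ L.b w.1, GalJm h Λ L.b w.2) := fun a ψ w e =>
    Prod.ext ((GalJ_Th L π h Λ a ψ w.2 _).trans (by rw [e])) rfl
  refine ⟨((GalJp h Λ L.b).prodMap (GalJm h Λ L.b)).toContinuousLinearMap,
    (GalJm h Λ L.b).toContinuousLinearMap, ⟨fun z w => Prod.ext
      (funext fun i => Subtype.ext (Pre.jp_smul hu z _)) (m1 z _), fun w => Prod.ext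
      (funext fun i => Subtype.ext ((h.jp_jp _).trans (by rw [Ix.neg_neg]; rfl))) (m2 _), m1, m2,
      fun a w hw => ?_, fun a w y hw => ?_⟩, fun w y => ?_⟩
  · rw [hW, mem_Wg] at hw ⊢
    obtain ⟨ψ, h1, h2⟩ := hw
    exact ⟨G.jp hu ψ, (GalJ_Lop L π h Λ a ψ w.2).trans (by rw [h1, map_zero]), key a ψ w h2⟩
  · rw [hW, mem_Wg] at hw
    obtain ⟨ψ, h1, h2⟩ := hw
    have e1 := hΛ.Fg_eq h1 y
    have e2 := hΛ.Fg_eq ((GalJ_Lop L π h Λ a ψ _).trans (by rw [h1, map_zero])) (-y)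
    rw [h2] at e1
    rw [key a ψ w h2] at e2
    rw [hF, e1]
    exact e2.trans (GalJ_Eqn L π h Λ a ψ _ y)
  · have a1 : ‖GalJp h Λ L.b w.1‖ ≤ ‖w.1‖ := (pi_norm_le_iff_of_nonneg (norm_nonneg _)).2 fun i => by
      refine le_trans (le_of_eq ?_) (norm_le_pi_norm w.1 i.neg)
      change ‖G.jp hu _‖ = ‖(w.1 i.neg : G.Sec (wp 0))‖
      rw [norm_eq_sqrt_real_inner, h.inner_jp, ← norm_eq_sqrt_real_inner]
    have a2 : ∑ i, (GalJm h Λ L.b w.2 i : G.Sec (wm 0)).nS 3 ≤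
        max 1 C * ∑ i, (w.2 i : G.Sec (wm 0)).nS 3 := by
      rw [← Ix.sum_neg fun i => (w.2 i : G.Sec (wm 0)).nS 3, Finset.mul_sum]
      exact Finset.sum_le_sum fun i _ => (hn _).trans
        (mul_le_mul_of_nonneg_right (le_max_right _ _) (Pre.Sec.nS_nonneg _ _))
    have a3 := le_mul_of_one_le_left (norm_nonneg w.1) (le_max_left 1 C)
    have a4 := le_mul_of_one_le_left ((y : G.Sec (wm 0)).nS_nonneg 4) (le_max_left 1 C)
    change ‖GalJp h Λ L.b w.1‖ + ∑ i, (GalJm h Λ L.b w.2 i : G.Sec (wm 0)).nS 3 +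
      (-y : G.Sec (wm 0)).nS 4 ≤ max 1 C * (‖w.1‖ + ∑ i, (w.2 i : G.Sec (wm 0)).nS 3 +
        (y : G.Sec (wm 0)).nS 4)
    rw [Pre.Sec.nS_neg]
    linarith

end Geo

end SX4
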