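import Pool.Agent.P.MP_0a0487_an.GZ.ADefs
import Pool.Agent.P.MP_0a0487_an.SX.Bil

/-! Gauge transformations and projections. -/

set_option autoImplicit false
set_option linter.unusedSectionVars false

noncomputable section

namespace SX4

open scoped ComplexOrder ContDiff
open Filter Topology Module GZ

variable {P A : Type} [TopologicalSpace P] [CompactSpace P] [CommRing A] [StarRing A] [Algebra ℂ A]
  [StarModule ℂ A] {B : Base P A}

theorem gauge_fd {V T : Type} [NormedAddCommGroup V] [NormedSpace ℝ V] [FiniteDimensional ℝ V]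
    (N : V → T → ℝ) (m : T → ℝ) (hm : ∀ t, 0 ≤ m t)
    (ha : ∀ v v' t, N (v + v') t ≤ N v t + N v' t) (hs : ∀ (r : ℝ) v t, N (r • v) t = |r| * N v t)
    (hb : ∀ v, ∃ C : ℝ, 0 ≤ C ∧ ∀ t, N v t ≤ C * m t) :
    ∃ C : ℝ, 0 ≤ C ∧ ∀ v t, N v t ≤ C * ‖v‖ * m t := by
  choose C hC h using hb
  let b := Module.finBasis ℝ V
  let K := fun i => ‖LinearMap.toContinuousLinearMap (b.coord i)‖
  refine ⟨∑ i, K i * C (b i), Finset.sum_nonneg fun i _ => mul_nonneg (norm_nonneg _) (hC _),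
    fun v t => ?_⟩
  have h0 : N 0 t ≤ 0 := by simpa using (hs 0 0 t).le
  have h1 := Finset.le_sum_of_subadditive (fun v => N v t) h0 (fun x y => ha x y t) Finset.univ
    fun i => b.repr v i • b i
  rw [b.sum_repr v] at h1
  rw [Finset.sum_mul, Finset.sum_mul]
  refine h1.trans (Finset.sum_le_sum fun i _ => ?_)
  have h2 : |b.repr v i| ≤ K i * ‖v‖ := (LinearMap.toContinuousLinearMap (b.coord i)).le_opNorm v
  rw [hs, mul_right_comm (K i), mul_assoc]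
  exact (mul_le_mul_of_nonneg_left (h _ t) (abs_nonneg _)).trans
    (mul_le_mul_of_nonneg_right h2 (mul_nonneg (hC _) (hm t)))

namespace Pre

variable {G : Pre B} {ι : Type} [Fintype ι] {w : ι → Wt}

theorem mulS_c (u : B.W 0) (s : G.Sec w) (i : ι) : (G.mulS u s).c i = u.1 * s.c i := rfl

theorem dirC_apply (χ : G.Sec (wm 0)) (s : G.Sec (wp 0)) :
    G.dirC χ s = G.dirac 0 s + G.rho 0 χ s := rfl

theorem mulS_nS (u : B.W 0) (k : ℕ) :
    ∃ C : ℝ, 0 ≤ C ∧ ∀ s : G.Sec w, (G.mulS u s).nS k ≤ C * s.nS k := by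
  obtain ⟨C, hC, h⟩ := G.nn_mul_le k u.1
  refine ⟨C, hC, fun s => ?_⟩
  rw [Sec.nS, Sec.nS, Finset.mul_sum]
  exact Finset.sum_le_sum fun i _ => h _

theorem rho_mulS (u : B.W 0) (χ : G.Sec (wm 0)) (ψ : G.Sec (wp 0)) :
    G.rho 0 χ (G.mulS u ψ) = G.mulS u (G.rho 0 χ ψ) := by
  refine dirac_ext ?_ ?_
  · simp only [dirac_rho_c0, mulS_c, Algebra.smul_def]
    ring
  · simp only [dirac_rho_c1, mulS_c, Algebra.smul_def]
    ring

theorem rho_zero_left (ψ : G.Sec (wp 0)) : G.rho 0 0 ψ = 0 := by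
  exact dirac_ext (by simp [dirac_rho_c0]) (by simp [dirac_rho_c1])

theorem rho_sub_left (χ χ' : G.Sec (wm 0)) (ψ : G.Sec (wp 0)) :
    G.rho 0 (χ - χ') ψ = G.rho 0 χ ψ - G.rho 0 χ' ψ := by
  rw [eq_sub_iff_add_eq, ← G.rho_add_left, sub_add_cancel]

theorem dirC_ell (χ : G.Sec (wm 0)) :
    ∃ D' : G.Sec (wm 0) →ₗ[ℝ] G.Sec (wp 0), Ell (G.dirac 0 + G.rho 0 χ) D' := by
  obtain ⟨Z', -, h⟩ := (G.dirac_ell 0).add_zo (G.rho_zo 0 χ)
  exact ⟨_, h⟩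

/-- Linear maps from finite-dimensional spaces are bounded in every Sobolev norm. -/
theorem nS_fd {V : Type} [NormedAddCommGroup V] [NormedSpace ℝ V] [FiniteDimensional ℝ V]
    (h : V →ₗ[ℝ] G.Sec w) (k : ℕ) : ∃ C : ℝ, 0 ≤ C ∧ ∀ v, (h v).nS k ≤ C * ‖v‖ := by
  obtain ⟨C, hC, h1⟩ := gauge_fd (fun v (_ : Unit) => (h v).nS k) (fun _ => 1)
    (fun _ => zero_le_one) (fun v v' _ => by rw [map_add]; exact Sec.nS_add _ _ k)
    (fun r v _ => by rw [map_smul, Sec.nS_rsmul])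
    fun v => ⟨(h v).nS k, Sec.nS_nonneg _ k, fun _ => (mul_one _).ge⟩
  exact ⟨C, hC, fun v => by simpa only [mul_one] using h1 v ()⟩

theorem rho_fd {V : Type} [NormedAddCommGroup V] [NormedSpace ℝ V] [FiniteDimensional ℝ V]
    (h : V →ₗ[ℝ] G.Sec (wm 0)) :
    ∃ C : ℝ, 0 ≤ C ∧ ∀ v ψ, ‖G.rho 0 (h v) ψ‖ ≤ C * ‖v‖ * ‖ψ‖ := by
  exact gauge_fd (fun v ψ => ‖G.rho 0 (h v) ψ‖) (fun ψ => ‖ψ‖) (fun _ => norm_nonneg _)
    (fun v v' ψ => by rw [map_add, G.rho_add_left]; exact norm_add_le _ _)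
    (fun r v ψ => by rw [map_smul, G.rho_smul_left, norm_smul, Real.norm_eq_abs])
    fun v => (G.rho_zo 0 (h v)).norm_le

theorem gauge_sig (ψ ψ' u : G.Sec (wp 0)) :
    |inner ℝ (G.sig ψ ψ') u| ≤ 2 * (∑ k, ‖B.ev (star (u.c k))‖) * (‖ψ‖ * ‖ψ'‖) := by
  have h : ∀ (s t : G.Sec (wp 0)) i j k, ‖G.I (star (u.c k) * (star (s.c i) * t.c j))‖ ≤
      (∑ k, ‖B.ev (star (u.c k))‖) * (‖s‖ * ‖t‖) := fun s t i j k => by
    rw [mul_left_comm]
    refine (G.norm_I_le _ _).trans ?_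
    rw [mul_left_comm]
    refine mul_le_mul (s.nrm_le_norm i) ((G.nrm_mul_le _ _).trans (mul_le_mul ?_ (t.nrm_le_norm j)
      (G.nrm_nonneg _) (by positivity))) (G.nrm_nonneg _) (norm_nonneg _)
    exact Finset.single_le_sum (f := fun k => ‖B.ev (star (u.c k))‖) (fun _ _ => norm_nonneg _)
      (Finset.mem_univ k)
  have h1 : |inner ℝ (G.sig ψ ψ') u| ≤ ‖inner ℂ u (G.sig ψ ψ')‖ := by
    rw [real_inner_comm]
    exact Complex.abs_re_le_norm _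
  have h2 : ∀ a b c d e f : ℂ, ‖Complex.I / 4 * (a + b - c - d) + Complex.I / 2 * (e + f)‖ ≤
      (‖a‖ + ‖b‖ + ‖c‖ + ‖d‖) / 4 + (‖e‖ + ‖f‖) / 2 := fun a b c d e f => by
    refine (norm_add_le _ _).trans ?_
    have e1 := norm_sub_le (a + b - c) d
    have e2 := norm_sub_le (a + b) c
    have e3 := norm_add_le a b
    have e4 := norm_add_le e f
    simp only [norm_mul, norm_div, Complex.norm_I, Complex.norm_ofNat]
    linarith
  refine h1.trans ?_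
  rw [inner_complex, Fin.sum_univ_two, dirac_sig_c0, dirac_sig_c1]
  rw [mul_smul_comm, mul_smul_comm, map_smul, map_smul, mul_sub, mul_sub, mul_add, mul_add,
    map_sub, map_sub, map_add, map_add]
  refine (h2 _ _ _ _ _ _).trans ?_
  have a1 := h ψ ψ' 0 0 0
  have a2 := h ψ' ψ 0 0 0
  have a3 := h ψ ψ' 1 1 0
  have a4 := h ψ' ψ 1 1 0
  have a5 := h ψ ψ' 0 1 1
  have a6 := h ψ' ψ 0 1 1
  rw [mul_comm ‖ψ'‖] at a2 a4 a6
  linarith

theorem sig_fd (E : Submodule ℝ (G.Sec (wp 0))) [FiniteDimensional ℝ E] :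
    ∃ C : ℝ, 0 ≤ C ∧ ∀ u ∈ E, ∀ ψ ψ', |inner ℝ (G.sig ψ ψ') u| ≤ C * ‖u‖ * ‖ψ‖ * ‖ψ'‖ := by
  obtain ⟨C, hC, h1⟩ := gauge_fd
    (fun (u : E) (t : G.Sec (wp 0) × G.Sec (wp 0)) => |inner ℝ (G.sig t.1 t.2) (u : G.Sec (wp 0))|)
    (fun t => ‖t.1‖ * ‖t.2‖) (fun _ => by positivity)
    (fun v v' t => by rw [Submodule.coe_add, inner_add_right]; exact abs_add_le _ _)
    (fun r v t => by rw [Submodule.coe_smul, real_inner_smul_right, abs_mul])
    fun v => ⟨_, by positivity, fun t => gauge_sig t.1 t.2 v⟩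
  exact ⟨C, hC, fun u hu ψ ψ' => by rw [mul_assoc]; exact h1 ⟨u, hu⟩ (ψ, ψ')⟩

namespace Latt

variable (L : G.Latt)

theorem mul_mul (m n : Fin L.b → ℤ) (s : G.Sec w) :
    G.mulS (L.u m) (G.mulS (L.u n) s) = G.mulS (L.u (m + n)) s := by
  exact Sec.ext fun i => by rw [mulS_c, mulS_c, mulS_c, L.u_add, mul_assoc]

theorem mul_zero (s : G.Sec w) : G.mulS (L.u 0) s = s := by
  exact Sec.ext fun i => by rw [mulS_c, L.u_zero, one_mul]

theorem inner_mul (m : Fin L.b → ℤ) (s t : G.Sec w) :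
    inner ℂ (G.mulS (L.u m) s) t = inner ℂ s (G.mulS (L.u (-m)) t) := by
  simp only [inner_complex, mulS_c, star_mul, L.u_star, mul_assoc]

theorem norm_mul (m : Fin L.b → ℤ) (s : G.Sec w) : ‖G.mulS (L.u m) s‖ = ‖s‖ := by
  rw [norm_eq_sqrt_re_inner (𝕜 := ℂ), norm_eq_sqrt_re_inner (𝕜 := ℂ) s, L.inner_mul, L.mul_mul,
    neg_add_cancel, L.mul_zero]

theorem dirC_mul (m : Fin L.b → ℤ) (χ : G.Sec (wm 0)) (ψ : G.Sec (wp 0)) :
    G.dirC (χ + L.hm (zc m)) (G.mulS (L.u m) ψ) = G.mulS (L.u m) (G.dirC χ ψ) := by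
  have h : ∀ γ, G.D γ (L.u m).1 = -(Complex.I • ((L.hm (zc m)).form γ * (L.u m).1)) := fun γ =>
    eq_neg_of_add_eq_zero_left (L.par m γ)
  have h0 : G.D 0 (L.u m).1 = -(Complex.I • (star ((L.hm (zc m)).c 0) * (L.u m).1)) := h 0
  have h1 : G.D 1 (L.u m).1 = -(Complex.I • ((L.hm (zc m)).c 0 * (L.u m).1)) := h 1
  have h2 : G.D 2 (L.u m).1 = -(Complex.I • (star ((L.hm (zc m)).c 1) * (L.u m).1)) := h 2
  have h3 : G.D 3 (L.u m).1 = -(Complex.I • ((L.hm (zc m)).c 1 * (L.u m).1)) := h 3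
  refine dirac_ext ?_ ?_
  · simp only [dirC_apply, Sec.c_add, dirac_c0, dirac_rho_c0, mulS_c, Dt, G.D_mul, h1, h2,
      star_add, Algebra.smul_def]
    ring
  · simp only [dirC_apply, Sec.c_add, dirac_c1, dirac_rho_c1, mulS_c, Dt, G.D_mul, h0, h3,
      star_add, Algebra.smul_def]
    ring

theorem gauge_unit (m : Fin L.b → ℤ) : star (L.u m).1 * (L.u m).1 = 1 := by
  rw [L.u_star, ← L.u_add, neg_add_cancel, L.u_zero]

theorem sig_mul (m : Fin L.b → ℤ) (ψ ψ' : G.Sec (wp 0)) :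
    G.sig (G.mulS (L.u m) ψ) (G.mulS (L.u m) ψ') = G.sig ψ ψ' := by
  have h : ∀ a b : A, star ((L.u m).1 * a) * ((L.u m).1 * b) = star a * b := fun a b => by
    rw [star_mul, mul_assoc, ← mul_assoc (star _) _ b, L.gauge_unit, one_mul]
  exact dirac_ext (by simp only [dirac_sig_c0, mulS_c, h]) (by simp only [dirac_sig_c1, mulS_c, h])

theorem Q_hm (a : Fin L.b → ℝ) : G.Q (L.hm a) = 0 := by
  exact LinearMap.mem_ker.1 (L.rng ▸ LinearMap.mem_range_self L.hm a)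

theorem finrank_ker : finrank ℝ (LinearMap.ker G.Q) = L.b := by
  rw [← L.rng, LinearMap.finrank_range_of_inj L.inj, Module.finrank_fin_fun]

end Latt

end Pre

namespace Geo

variable (G : Geo B)

theorem mem_Ep {Λ : ℝ} {s : G.Sec (wp 0)} :
    s ∈ G.Ep Λ ↔ s ∈ eig (G.dirac 0) (G.diracAdj 0) Λ := Iff.rfl

theorem mem_Em {Λ : ℝ} {s : G.Sec (wm 0)} :
    s ∈ G.Em Λ ↔ s ∈ eig (G.diracAdj 0) (G.dirac 0) Λ := Iff.rfl

theorem isOP_pp (Λ : ℝ) : IsOP (eig (G.dirac 0) (G.diracAdj 0) Λ)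
    (((G.Ep Λ).subtype ∘ₗ G.pp Λ).restrictScalars ℝ) := by
  exact ⟨fun t => (G.pp Λ t).2, fun t u hu =>
    congrArg Complex.re ((G.Ep Λ).starProjection_inner_eq_zero t u hu)⟩

theorem isOP_pm (Λ : ℝ) : IsOP (eig (G.diracAdj 0) (G.dirac 0) Λ)
    (((G.Em Λ).subtype ∘ₗ G.pm Λ).restrictScalars ℝ) := by
  exact ⟨fun t => (G.pm Λ t).2, fun t u hu =>
    congrArg Complex.re ((G.Em Λ).starProjection_inner_eq_zero t u hu)⟩

theorem isOP_qp (Λ : ℝ) : IsOP (G.Yp Λ) ((G.Yp Λ).subtype ∘ₗ G.qp Λ) := by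
  exact ⟨fun t => (G.qp Λ t).2, fun t u hu => (G.Yp Λ).starProjection_inner_eq_zero t u hu⟩

theorem inner_pm (Λ : ℝ) (e : G.Em Λ) (t : G.Sec (wm 0)) :
    inner ℂ (e : G.Sec (wm 0)) (G.pm Λ t : G.Sec (wm 0)) = inner ℂ (e : G.Sec (wm 0)) t := by
  have h := inner_eq_zero_symm.1 ((G.Em Λ).starProjection_inner_eq_zero t e e.2)
  rw [inner_sub_right, sub_eq_zero] at h
  exact h.symm

theorem Qa_eq_zero {ξ : G.Sec (wp 0)} : G.Qa ξ = 0 ↔ ∀ χ, inner ℝ (G.Q χ) ξ = 0 := by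
  exact ⟨fun h χ => by rw [G.Qa_ell.adj, h, inner_zero_right], fun h =>
    (inner_self_eq_zero (𝕜 := ℝ)).1 (by rw [← G.Qa_ell.adj]; exact h _)⟩

theorem Qa_e1 (z : ℂ) : G.Qa (z • G.e1) = 0 := by
  refine G.Qa_eq_zero.2 fun χ => ?_
  have h : inner ℂ (G.Q χ) (z • G.e1) = 0 := by
    rw [inner_smul_right, inner_eq_zero_symm.1 (G.inner_e1_Q χ), mul_zero]
  exact congrArg Complex.re h

theorem gauge_e1 (Λ : ℝ) : Submodule.span ℝ {G.e1} ≤ eig G.Qa G.Q Λ :=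
  (Submodule.span_singleton_le_iff_mem _ _).2
    (ker_le_eig _ _ Λ (LinearMap.mem_ker.2 (by simpa only [one_smul] using G.Qa_e1 1)))

theorem qp_eq_zero {Λ : ℝ} {x : G.Sec (wp 0)} (hx : inner ℝ G.e1 x = 0) :
    G.qp Λ x = 0 ↔ ∀ u ∈ eig G.Qa G.Q Λ, inner ℝ x u = 0 := by
  refine (Submodule.orthogonalProjectionOnto_eq_zero_iff (K := G.Yp Λ)).trans
    ⟨fun h u hu => ?_, fun h => (Submodule.mem_orthogonal' _ _).2 fun u hu => h u hu.1⟩
  obtain ⟨y, hy, z, hz, e⟩ := (Submodule.span ℝ {G.e1}).exists_add_mem_mem_orthogonal u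
  have h1 : z ∈ eig G.Qa G.Q Λ := by
    rw [eq_sub_of_add_eq' e.symm]
    exact sub_mem hu (G.gauge_e1 Λ hy)
  obtain ⟨t, rfl⟩ := Submodule.mem_span_singleton.1 hy
  rw [e, inner_add_right, real_inner_smul_right, real_inner_comm, hx, mul_zero, zero_add]
  exact (Submodule.mem_orthogonal' _ _).1 h z ⟨h1, hz⟩

theorem dim_Y [Nonempty P] (L : G.Latt) (Λ : ℝ) :
    (L.b : ℤ) + finrank ℝ (G.Ym Λ) + G.ind 0 = finrank ℝ (G.Yp Λ) + 1 := by
  have hp := G.pair G.Qa_ell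
  have := hp.eig_fd Λ
  have := hp.symm.eig_fd Λ
  have h1 := hp.index_eig Λ
  have h2 : G.Q.index = -G.ind 0 :=
    (G.index_add_zo (G.dirac_ell 0).symm G.Zq_zo).trans (G.pair (G.dirac_ell 0)).index_adj
  have h3 := Submodule.finrank_add_inf_finrank_orthogonal (ker_le_eig G.Q G.Qa Λ)
  have h4 := Submodule.finrank_add_inf_finrank_orthogonal (G.gauge_e1 Λ)
  have h5 : G.e1 ≠ 0 := fun h => by
    obtain ⟨m, hm, e⟩ := gal1_e1 (G := G)
    rw [h, inner_zero_left] at e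
    exact hm.ne' (Complex.ofReal_eq_zero.1 e.symm)
  rw [L.finrank_ker, inf_comm] at h3
  rw [finrank_span_singleton h5, inf_comm] at h4
  have h6 : L.b + finrank ℝ (G.Ym Λ) = _ := h3
  have h7 : 1 + finrank ℝ (G.Yp Λ) = _ := h4
  omega

/-- The solutions at the first end form one gauge orbit. -/
theorem end_orbit [Nonempty P] (L : G.Latt) (h : G.AK) : ∃ c₀ : ℝ, ∀ c ≥ c₀, ∀ ψ χ,
    G.SW (((c : ℂ) ^ 2 * Complex.I / 2) • G.e1) ψ χ → ∃ (m : Fin L.b → ℤ) (z : ℂ), ‖z‖ = 1 ∧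
      χ = L.hm (zc m) ∧ ψ = z • G.mulS (L.u m) ((c : ℂ) • G.e1) := by
  obtain ⟨c₀, h0⟩ := G.end_zero h
  refine ⟨max c₀ 1, fun c hc ψ χ hs => ?_⟩
  obtain ⟨hQ, h1, hn, hX⟩ := h0 c ((le_max_left _ _).trans hc) ψ χ hs
  have hc0 : (c : ℂ) ≠ 0 :=
    Complex.ofReal_ne_zero.2 (one_pos.trans_le ((le_max_right _ _).trans hc)).ne'
  obtain ⟨v, hv⟩ : ∃ v, v = (c : ℂ)⁻¹ • ψ.c 0 := ⟨_, rfl⟩
  have hm : v ∈ B.W 0 := hv ▸ Submodule.smul_mem _ _ (ψ.mem 0)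
  have hu : star v * v = 1 := by
    rw [hv, star_smul, smul_mul_smul_comm, hn, Algebra.algebraMap_eq_smul_one, smul_smul,
      ← Complex.ofReal_inv, Complex.star_def, Complex.conj_ofReal, Complex.ofReal_inv,
      Complex.ofReal_pow, show (c : ℂ)⁻¹ * (c : ℂ)⁻¹ * (c : ℂ) ^ 2 = 1 by field_simp, one_smul]
  have hx : ∀ γ, G.X χ.form γ v = 0 := fun γ => by
    have h2 := congrArg ((c : ℂ)⁻¹ • ·) (hX γ)
    simp only [Calc.X, smul_add, smul_zero] at h2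
    rw [hv, Calc.X, map_smul, mul_smul_comm, smul_comm]
    exact h2
  obtain ⟨m, rfl⟩ := L.full χ hQ v hm hu hx
  obtain ⟨z, hz⟩ := G.const (star (L.u m).1 * v)
    (B.mul_mem' (B.star_mem (L.u m).2) hm (by simp)) fun α => by
      rw [G.D_star_mul (L.hm (zc m)).form_re, L.par, hx, star_zero, zero_mul, mul_zero, add_zero]
  have h2 : v = z • (L.u m).1 := by
    rw [Algebra.smul_def, ← hz, mul_right_comm, L.gauge_unit, one_mul]
  refine ⟨m, z, ?_, rfl, Pre.dirac_ext ?_ ?_⟩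
  · rw [h2, star_smul, smul_mul_smul_comm, L.gauge_unit, ← Algebra.algebraMap_eq_smul_one,
      ← map_one (algebraMap ℂ A)] at hu
    have h3 := ends_inj B hu
    rw [Complex.star_def, Complex.conj_mul', ← Complex.ofReal_pow, Complex.ofReal_eq_one] at h3
    exact (pow_eq_one_iff_of_nonneg (norm_nonneg z) two_ne_zero).1 h3
  · rw [Pre.Sec.c_smul, Pre.mulS_c, Pre.Sec.c_smul, Pre.dirac_e1_c0, mul_smul_comm, mul_one,
      smul_comm, ← h2, hv, smul_inv_smul₀ hc0]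
  · rw [h1, Pre.Sec.c_smul, Pre.mulS_c, Pre.Sec.c_smul, Pre.dirac_e1_c1, smul_zero, mul_zero,
      smul_zero]

end Geo

end SX4
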