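import Pool.Agent.P.MP_0a0487_an.GZ.HDefs

/-! The Mayer-Vietoris step. -/

set_option autoImplicit false
set_option linter.unusedSectionVars false

noncomputable section

namespace GZ

open Pool.Agent.P.MP_9699e0_gt HK3 Set Filter Topology Module

variable {X : Type} [TopologicalSpace X]

theorem GoodA_bd_bdy {S : Set X} {n : ℕ} {c : Chn (ZMod 2) X (n + 1)} (h : c ∈ bdy (ZMod 2) S (n + 1)) :
    bd (ZMod 2) X n c = 0 := by
  obtain ⟨s, -, rfl⟩ := h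
  exact bd_bd n s

theorem GoodA_bd_mem {n : ℕ} (u : Chn (ZMod 2) X (n + 1)) : bd (ZMod 2) X n u ∈ bdy (ZMod 2) (univ : Set X) n :=
  ⟨u, by rw [chn_univ]; trivial, rfl⟩

theorem GoodA_split {K K' : Set X} (hK : IsClosed K) (hK' : IsClosed K') {n : ℕ}
    {t : Chn (ZMod 2) X (n + 1)} (ht : t ∈ chn (ZMod 2) (K ∩ K')ᶜ (n + 1))
    (hb : bd (ZMod 2) X n t ∈ chn (ZMod 2) Kᶜ n ⊔ chn (ZMod 2) K'ᶜ n) :
    ∃ a ∈ chn (ZMod 2) Kᶜ (n + 1), ∃ b ∈ chn (ZMod 2) K'ᶜ (n + 1), t - a - b ∈ bdy (ZMod 2) (univ : Set X) (n + 1) := by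
  obtain ⟨a, ha, b, hb', h⟩ := mv_rel hK.isOpen_compl hK'.isOpen_compl
    (O := (K ∩ K')ᶜ) (by rw [compl_inter]) ht hb
  exact ⟨a, chn_mono inter_subset_right _ ha, b, chn_mono inter_subset_right _ hb',
    bdy_mono (subset_univ _) _ h⟩

theorem GoodA_sup_le (K K' : Set X) (n : ℕ) :
    chn (ZMod 2) Kᶜ n ⊔ chn (ZMod 2) K'ᶜ n ≤ chn (ZMod 2) (K ∩ K')ᶜ n :=
  sup_le (chn_mono (compl_subset_compl.2 inter_subset_left) n)
    (chn_mono (compl_subset_compl.2 inter_subset_right) n)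

theorem GoodA_mem_union {K K' : Set X} {n : ℕ} {c : Chn (ZMod 2) X n} (h : c ∈ chn (ZMod 2) Kᶜ n)
    (h' : c ∈ chn (ZMod 2) K'ᶜ n) : c ∈ chn (ZMod 2) (K ∪ K')ᶜ n := by
  rw [compl_union, chn_inter]
  exact ⟨h, h'⟩

theorem GoodA_step {K K' : Set X} (hK : IsClosed K) (hK' : IsClosed K') {n : ℕ}
    (hi : ∀ ζ : Chn (ZMod 2) X (n + 1), bd (ZMod 2) X n ζ ∈ chn (ZMod 2) (K ∩ K')ᶜ n →
      ζ ∈ bdy (ZMod 2) univ (n + 1) ⊔ chn (ZMod 2) (K ∩ K')ᶜ (n + 1))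
    {ζ : Chn (ZMod 2) X n} (h : ζ ∈ bdy (ZMod 2) univ n ⊔ chn (ZMod 2) Kᶜ n) (h' : ζ ∈ bdy (ZMod 2) univ n ⊔ chn (ZMod 2) K'ᶜ n) :
    ζ ∈ bdy (ZMod 2) univ n ⊔ chn (ZMod 2) (K ∪ K')ᶜ n := by
  obtain ⟨_, ⟨u, -, rfl⟩, v, hv, e⟩ := Submodule.mem_sup.1 h
  obtain ⟨_, ⟨u', -, rfl⟩, v', hv', e'⟩ := Submodule.mem_sup.1 h'
  have e1 : bd (ZMod 2) X n (u - u') = v' - v := by
    rw [map_sub, sub_eq_sub_iff_add_eq_add, e, add_comm, e']
  have m1 : v' - v ∈ chn (ZMod 2) Kᶜ n ⊔ chn (ZMod 2) K'ᶜ n :=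
    Submodule.sub_mem _ (Submodule.mem_sup_right hv') (Submodule.mem_sup_left hv)
  obtain ⟨s, hs, t, ht, e2⟩ := Submodule.mem_sup.1 (hi (u - u') (e1 ▸ GoodA_sup_le K K' n m1))
  have e3 : bd (ZMod 2) X n t = v' - v := by
    rw [← e1, ← e2, map_add, GoodA_bd_bdy hs, zero_add]
  obtain ⟨a, ha, b, hb, hab⟩ := GoodA_split hK hK' ht (e3 ▸ m1)
  have e4 := GoodA_bd_bdy hab
  rw [map_sub, map_sub, e3] at e4
  have e5 : v + bd (ZMod 2) X n a = v' - bd (ZMod 2) X n b := by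
    rw [← sub_eq_zero, ← neg_eq_zero, ← e4]; abel
  refine Submodule.mem_sup.2 ⟨bd (ZMod 2) X n (u - a), GoodA_bd_mem _, v + bd (ZMod 2) X n a,
    GoodA_mem_union (Submodule.add_mem _ hv (bd_mem ha))
      (e5 ▸ Submodule.sub_mem _ hv' (bd_mem hb)), ?_⟩
  rw [← e, map_sub]; abel

theorem GoodA_pt {K : Set X} {x : X} (hx : x ∈ K) (n : ℕ) : chn (ZMod 2) Kᶜ n ≤ chn (ZMod 2) {x}ᶜ n :=
  chn_mono (compl_subset_compl.2 (singleton_subset_iff.2 hx)) n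

theorem good_empty (n : ℕ) : Good n (∅ : Set X) := by
  refine ⟨fun n _ ζ _ => Submodule.mem_sup_right ?_, fun ζ _ _ => Submodule.mem_sup_right ?_,
    0, by rw [Rc, map_zero]; exact Submodule.zero_mem _, fun x hx => hx.elim⟩
  all_goals rw [compl_empty, chn_univ]; trivial

theorem Good.union {n : ℕ} {K K' : Set X} (hl : ∀ x ∈ K ∩ K', LocH n x) (hK : IsClosed K)
    (hK' : IsClosed K') (h : Good n K) (h' : Good n K') (h'' : Good n (K ∩ K')) :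
    Good n (K ∪ K') := by
  refine ⟨fun k hk ζ hζ => ?_, fun ζ hζ h0 => ?_, ?_⟩
  · exact GoodA_step hK hK' (h''.high (k + 1) (by omega))
      (h.high k hk ζ (hζ.mono subset_union_left)) (h'.high k hk ζ (hζ.mono subset_union_right))
  · exact GoodA_step hK hK' (h''.high (n + 1) (by omega))
      (h.inj ζ (hζ.mono subset_union_left) fun x hx => h0 x (Or.inl hx))
      (h'.inj ζ (hζ.mono subset_union_right) fun x hx => h0 x (Or.inr hx))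
  obtain ⟨ζ, hζ, hn⟩ := h.ex
  obtain ⟨ζ', hζ', hn'⟩ := h'.ex
  have m1 : bd (ZMod 2) X n (ζ - ζ') ∈ chn (ZMod 2) Kᶜ n ⊔ chn (ZMod 2) K'ᶜ n := by
    rw [map_sub]
    exact Submodule.sub_mem _ (Submodule.mem_sup_left hζ) (Submodule.mem_sup_right hζ')
  obtain ⟨s, hs, t, ht, e⟩ := Submodule.mem_sup.1 (h''.inj (ζ - ζ') (GoodA_sup_le K K' n m1)
    fun x hx => (hl x hx).uniq ζ ζ' (GoodA_pt hx.1 n hζ) (GoodA_pt hx.2 n hζ') (hn x hx.1)
      (hn' x hx.2))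
  have e3 : bd (ZMod 2) X n t = bd (ZMod 2) X n (ζ - ζ') := by
    rw [← e, map_add, GoodA_bd_bdy hs, zero_add]
  obtain ⟨a, ha, b, hb, hab⟩ := GoodA_split hK hK' ht (e3 ▸ m1)
  have e4 : ζ - a - ζ' = (s + (t - a - b)) + b := by
    rw [sub_right_comm, ← e]; abel
  have m2 : s + (t - a - b) ∈ bdy (ZMod 2) (univ : Set X) (n + 1) := Submodule.add_mem _ hs hab
  refine ⟨ζ - a, GoodA_mem_union ?_ ?_, fun x hx h0 => ?_⟩
  · rw [map_sub]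
    exact Submodule.sub_mem _ hζ (bd_mem ha)
  · rw [sub_eq_iff_eq_add.1 e4, map_add, map_add, GoodA_bd_bdy m2, zero_add]
    exact Submodule.add_mem _ (bd_mem hb) hζ'
  · rcases hx with hx | hx
    · refine hn x hx ?_
      rw [← sub_add_cancel ζ a]
      exact h0.add (Submodule.mem_sup_right (GoodA_pt hx _ ha))
    · refine hn' x hx ?_
      rw [← sub_sub_cancel (ζ - a) ζ', e4]
      exact h0.sub (Submodule.add_mem_sup m2 (GoodA_pt hx _ hb))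

end GZ
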