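import Pool.Agent.P.MP_0a0487_an.GZ.LocE
import Pool.Agent.P.MP_0a0487_an.GZ.GoodA

/-! Compact subsets of Euclidean space. -/

set_option autoImplicit false
set_option linter.unusedSectionVars false

noncomputable section

namespace GZ

open Pool.Agent.P.MP_9699e0_gt HK3 Set Filter Topology Module

variable {E : Type} [NormedAddCommGroup E] [NormedSpace ℝ E] [FiniteDimensional ℝ E]

theorem GoodB_top {Y : Type} [TopologicalSpace Y] {n : ℕ} (c : C2 Y n) :
    c ∈ chn (ZMod 2) (univ : Set Y) n := by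
  rw [chn_univ]
  exact Submodule.mem_top

theorem GoodB_far {a : E} {n : ℕ} {c : C2 E n} (h : c ∈ chn (ZMod 2) {a}ᶜ n) :
    ∃ δ : ℝ, 0 < δ ∧ c ∈ chn (ZMod 2) {p | δ ≤ ‖p - a‖} n := by
  obtain ⟨C, hC, hCa, hc⟩ := exists_compact h
  obtain ⟨δ, hδ, hb⟩ := Metric.isOpen_iff.1 hC.isClosed.isOpen_compl a fun ha => hCa ha rfl
  refine ⟨δ, hδ, chn_mono (fun p hp => ?_) n hc⟩
  by_contra hlt
  exact hb (mem_ball_iff_norm.2 (not_le.1 hlt)) hp

/-- A homothety moves the points far from `a` out of `K`. -/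
theorem GoodB_out {K : Set E} (hK : IsCompact K) (a : E) {δ : ℝ} (hδ : 0 < δ) :
    ∃ μ : ℝ, 0 < μ ∧ MapsTo (fun x => a + (1 + 1 * μ) • (x - a)) {p | δ ≤ ‖p - a‖} Kᶜ := by
  obtain ⟨r, hr0, hr⟩ := hK.isBounded.subset_closedBall_lt 0 a
  refine ⟨r / δ, div_pos hr0 hδ, fun p hp hK' => ?_⟩
  have h3 := mem_closedBall_iff_norm.1 (hr hK')
  simp only [add_sub_cancel_left, one_mul, norm_smul] at h3
  rw [Real.norm_of_nonneg (by positivity)] at h3
  have h4 : (1 + r / δ) * δ ≤ (1 + r / δ) * ‖p - a‖ :=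
    mul_le_mul_of_nonneg_left hp (by positivity)
  have h5 : (1 + r / δ) * δ = δ + r := by field_simp
  linarith

/-- A homothety with centre in a convex set does not change relative classes. -/
theorem GoodB_hom {K : Set E} (hc : Convex ℝ K) {a : E} (ha : a ∈ K) {μ : ℝ} (hμ : 0 < μ) {n : ℕ}
    {ξ : C2 E (n + 1)} (hb : Rc K ξ) :
    Nul K (cmap (ZMod 2) (fun x => a + (1 + 1 * μ) • (x - a)) (n + 1) ξ - ξ) := by
  have h1 := htpy_rel (fun s x => a + (1 + s * μ) • (x - a)) (S := univ) (T := Kᶜ) (S' := univ)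
    (T' := Kᶜ) (Continuous.continuousOn (by fun_prop)) (fun _ _ _ _ => mem_univ _)
    (fun s hs x hx hK' => hx.2 ?_) (GoodB_top ξ) hb
  · have e0 : (fun x : E => a + (1 + 0 * μ) • (x - a)) = id := by
      funext x; simp
    rw [e0, cmap_id] at h1
    exact h1
  · have hl : 1 ≤ 1 + s * μ := le_add_of_nonneg_right (mul_nonneg hs.1 hμ.le)
    have hl0 : 0 < 1 + s * μ := zero_lt_one.trans_le hl
    have := hc.add_smul_sub_mem ha hK' (t := (1 + s * μ)⁻¹)
      ⟨inv_nonneg.2 hl0.le, inv_le_one_of_one_le₀ hl⟩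
    simpa only [add_sub_cancel_left, smul_smul, inv_mul_cancel₀ hl0.ne', one_smul,
      add_sub_cancel] using this

theorem GoodB_cover {K C : Set E} (hK : IsCompact K) (hC : IsCompact C) (hCK : C ⊆ Kᶜ) :
    ∃ l : List (Set E), (∀ L ∈ l, IsCompact L ∧ Convex ℝ L) ∧
      (∀ L ∈ l, C ⊆ Lᶜ ∧ ∃ a ∈ K, a ∈ L) ∧ K ⊆ ⋃ L ∈ l, L := by
  have h1 : ∀ a ∈ K, ∃ r, 0 < r ∧ Metric.closedBall a r ⊆ Cᶜ := fun a ha =>
    Metric.nhds_basis_closedBall.mem_iff.1
      (hC.isClosed.isOpen_compl.mem_nhds fun h => hCK h ha)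
  choose! r hr0 hr using h1
  obtain ⟨t, ht, hcov⟩ := hK.elim_nhds_subcover (fun a => Metric.closedBall a (r a))
    fun a ha => Metric.closedBall_mem_nhds a (hr0 a ha)
  refine ⟨t.toList.map fun a => Metric.closedBall a (r a), fun L hL => ?_, fun L hL => ?_,
    fun x hx => ?_⟩
  · obtain ⟨a, -, rfl⟩ := List.mem_map.1 hL
    exact ⟨isCompact_closedBall _ _, convex_closedBall _ _⟩
  · obtain ⟨a, ha, rfl⟩ := List.mem_map.1 hL
    have haK := ht a (Finset.mem_toList.1 ha)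
    exact ⟨subset_compl_comm.1 (hr a haK), a, haK, Metric.mem_closedBall_self (hr0 a haK).le⟩
  · obtain ⟨a, ha, hxa⟩ := mem_iUnion₂.1 (hcov hx)
    exact mem_iUnion₂.2 ⟨_, List.mem_map.2 ⟨a, Finset.mem_toList.2 ha, rfl⟩, hxa⟩

/-- A compact convex set has the local homology of each of its points. -/
theorem nul_convex {K : Set E} (hK : IsCompact K) (hc : Convex ℝ K) {a : E} (ha : a ∈ K) {n : ℕ}
    {ξ : C2 E (n + 1)} (hb : Rc K ξ) (h : Nul {a} ξ) : Nul K ξ := by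
  obtain ⟨u, hu, t, ht, rfl⟩ := Submodule.mem_sup.1 h
  obtain ⟨δ, hδ, ht'⟩ := GoodB_far ht
  obtain ⟨μ, hμ, hm⟩ := GoodB_out hK a hδ
  have hcont : Continuous fun x : E => a + (1 + 1 * μ) • (x - a) := by fun_prop
  have h2 : Nul K (cmap (ZMod 2) (fun x => a + (1 + 1 * μ) • (x - a)) (n + 1) (u + t)) := by
    rw [map_add]
    exact Submodule.add_mem_sup (cmap_bdy hcont.continuousOn (mapsTo_univ _ _) hu)
      (cmap_mem hcont.continuousOn hm ht')
  have := h2.sub (GoodB_hom hc ha hμ hb)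
  rwa [sub_sub_cancel] at this

theorem rc_convex {K : Set E} (hK : IsCompact K) {a : E} (ha : a ∈ K) {n : ℕ}
    {ξ : C2 E (n + 1)} (hb : Rc {a} ξ) : ∃ ξ' : C2 E (n + 1), Rc K ξ' ∧ Nul {a} (ξ - ξ') := by
  obtain ⟨δ, hδ, ht⟩ := GoodB_far hb
  obtain ⟨μ, hμ, hm⟩ := GoodB_out hK a hδ
  have hcont : Continuous fun x : E => a + (1 + 1 * μ) • (x - a) := by fun_prop
  refine ⟨cmap (ZMod 2) (fun x => a + (1 + 1 * μ) • (x - a)) (n + 1) ξ, ?_, ?_⟩
  · rw [Rc, cmap_bd hcont.continuousOn (GoodB_top ξ)]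
    exact cmap_mem hcont.continuousOn hm ht
  · rw [← neg_sub]
    exact neg_mem (GoodB_hom (convex_singleton a) rfl hμ hb)

theorem good_convex {n : ℕ} (hd : finrank ℝ E = n + 2) {K : Set E} (hK : IsCompact K)
    (hc : Convex ℝ K) : Good (n + 1) K := by
  rcases K.eq_empty_or_nonempty with rfl | ⟨a, ha⟩
  · exact good_empty _
  have hs := singleton_subset_iff.2 ha
  refine ⟨fun k hk ζ hζ => nul_convex hK hc ha hζ ((locH_lin hd a).high k hk ζ (hζ.mono hs)),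
    fun ζ hζ h0 => nul_convex hK hc ha hζ (h0 a ha), ?_⟩
  obtain ⟨ζ, h1, h2⟩ := (locH_lin hd a).ex
  obtain ⟨ξ, h3, h4⟩ := rc_convex hK ha h1
  refine ⟨ξ, h3, fun x hx h5 => h2 ?_⟩
  have := h4.add ((nul_convex hK hc hx h3 h5).mono hs)
  rwa [sub_add_cancel] at this

theorem good_finite {n : ℕ} (hd : finrank ℝ E = n + 2) (l : List (Set E))
    (hl : ∀ K ∈ l, IsCompact K ∧ Convex ℝ K) : Good (n + 1) (⋃ K ∈ l, K) := by
  obtain ⟨m, hm⟩ : ∃ m, l.length = m := ⟨_, rfl⟩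
  induction m generalizing l with
  | zero =>
    obtain rfl := List.eq_nil_of_length_eq_zero hm
    simpa using good_empty (X := E) (n + 1)
  | succ m ih =>
    obtain ⟨K, l', rfl⟩ := List.exists_cons_of_length_eq_add_one hm
    have hm' : l'.length = m := by simpa using hm
    have hK := hl K List.mem_cons_self
    have hl' : ∀ L ∈ l', IsCompact L ∧ Convex ℝ L := fun L hL => hl L (List.mem_cons_of_mem _ hL)
    have hUc : IsCompact (⋃ L ∈ l', L) :=
      l'.finite_toSet.isCompact_biUnion fun L hL => (hl' L hL).1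
    have e1 : (⋃ L ∈ K :: l', L) = K ∪ ⋃ L ∈ l', L := by
      ext x; simp
    have e2 : K ∩ (⋃ L ∈ l', L) = ⋃ L ∈ l'.map (K ∩ ·), L := by
      ext x
      simp only [mem_inter_iff, mem_iUnion, List.mem_map, exists_prop]
      constructor
      · rintro ⟨hx, L, hL, hxL⟩
        exact ⟨_, ⟨L, hL, rfl⟩, hx, hxL⟩
      · rintro ⟨_, ⟨L, hL, rfl⟩, hx, hxL⟩
        exact ⟨hx, L, hL, hxL⟩
    rw [e1]
    refine Good.union (fun x _ => locH_lin hd x) hK.1.isClosed hUc.isClosed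
      (good_convex hd hK.1 hK.2) (ih l' hl' hm') ?_
    rw [e2]
    refine ih _ (fun L hL => ?_) (by simpa using hm')
    obtain ⟨L', hL', rfl⟩ := List.mem_map.1 hL
    exact ⟨hK.1.inter (hl' L' hL').1, hK.2.inter (hl' L' hL').2⟩

theorem good_lin {n : ℕ} (hd : finrank ℝ E = n + 2) {K : Set E} (hK : IsCompact K) :
    Good (n + 1) K := by
  refine ⟨fun k hk ζ hζ => ?_, fun ζ hζ h0 => ?_, ?_⟩
  · obtain ⟨C, hC, hCK, hc⟩ := exists_compact hζ
    obtain ⟨l, h1, h2, h3⟩ := GoodB_cover hK hC hCK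
    refine ((good_finite hd l h1).high k hk ζ (chn_mono (fun x hx hx' => ?_) k hc)).mono h3
    obtain ⟨L, hL, hxL⟩ := mem_iUnion₂.1 hx'
    exact (h2 L hL).1 hx hxL
  · obtain ⟨C, hC, hCK, hc⟩ := exists_compact hζ
    obtain ⟨l, h1, h2, h3⟩ := GoodB_cover hK hC hCK
    refine ((good_finite hd l h1).inj ζ (chn_mono (fun x hx hx' => ?_) _ hc)
      fun x hx => ?_).mono h3
    · obtain ⟨L, hL, hxL⟩ := mem_iUnion₂.1 hx'
      exact (h2 L hL).1 hx hxL
    · obtain ⟨L, hL, hxL⟩ := mem_iUnion₂.1 hx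
      obtain ⟨h4, a, haK, haL⟩ := h2 L hL
      exact (nul_convex (h1 L hL).1 (h1 L hL).2 haL (chn_mono h4 _ hc) (h0 a haK)).mono
        (singleton_subset_iff.2 hxL)
  · obtain ⟨r, -, hr⟩ := hK.isBounded.subset_closedBall_lt 0 (0 : E)
    obtain ⟨ζ, h1, h2⟩ := (good_convex hd (isCompact_closedBall 0 r) (convex_closedBall 0 r)).ex
    exact ⟨ζ, h1.mono hr, fun x hx => h2 x (hr hx)⟩

end GZ
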