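import Pool.Agent.P.MP_9699e0_gt.MvA
import Pool.Agent.P.MP_9699e0_gt.CvA

/-! Local homology with coefficients in the field with two elements. -/

set_option autoImplicit false
set_option linter.unusedSectionVars false

noncomputable section

namespace GZ

open Pool.Agent.P.MP_9699e0_gt HK3 Set Filter Topology Module

/-- Singular chains modulo two. -/
abbrev C2 (X : Type) [TopologicalSpace X] (n : ℕ) : Type := Chn (ZMod 2) X n

variable {X : Type} [TopologicalSpace X]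

/-- The chain `ζ` is a cycle relative to the complement of `K`. -/
def Rc (K : Set X) {n : ℕ} (ζ : C2 X (n + 1)) : Prop := bd (ZMod 2) X n ζ ∈ chn (ZMod 2) Kᶜ n

/-- The chain `ζ` is null-homologous relative to the complement of `K`. -/
def Nul (K : Set X) {n : ℕ} (ζ : C2 X n) : Prop :=
  ζ ∈ bdy (ZMod 2) univ n ⊔ chn (ZMod 2) Kᶜ n

/-- The local homology at `x` is that of a manifold of dimension `n + 1`. -/
structure LocH (n : ℕ) (x : X) : Prop where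
  high : ∀ k, n < k → ∀ ζ : C2 X (k + 1), Rc {x} ζ → Nul {x} ζ
  ex : ∃ ζ : C2 X (n + 1), Rc {x} ζ ∧ ¬ Nul {x} ζ
  uniq : ∀ ζ ζ' : C2 X (n + 1), Rc {x} ζ → Rc {x} ζ' → ¬ Nul {x} ζ → ¬ Nul {x} ζ' →
    Nul {x} (ζ - ζ')

/-- The statement proved for all compact sets in the construction of the fundamental class. -/
structure Good (n : ℕ) (K : Set X) : Prop where
  high : ∀ k, n < k → ∀ ζ : C2 X (k + 1), Rc K ζ → Nul K ζ
  inj : ∀ ζ : C2 X (n + 1), Rc K ζ → (∀ x ∈ K, Nul {x} ζ) → Nul K ζ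
  ex : ∃ ζ : C2 X (n + 1), Rc K ζ ∧ ∀ x ∈ K, ¬ Nul {x} ζ

theorem Nul.mono {K K' : Set X} (h : K' ⊆ K) {n : ℕ} {ζ : C2 X n} (hζ : Nul K ζ) : Nul K' ζ :=
  (sup_le_sup_left (chn_mono (R := ZMod 2) (compl_subset_compl.2 h) n) _ :) hζ

theorem Rc.mono {K K' : Set X} (h : K' ⊆ K) {n : ℕ} {ζ : C2 X (n + 1)} (hζ : Rc K ζ) : Rc K' ζ :=
  chn_mono (compl_subset_compl.2 h) n hζ

theorem Nul.add {K : Set X} {n : ℕ} {ζ ζ' : C2 X n} (h : Nul K ζ) (h' : Nul K ζ') :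
    Nul K (ζ + ζ') := add_mem h h'

theorem Nul.sub {K : Set X} {n : ℕ} {ζ ζ' : C2 X n} (h : Nul K ζ) (h' : Nul K ζ') :
    Nul K (ζ - ζ') := sub_mem h h'

theorem Rc.sub {K : Set X} {n : ℕ} {ζ ζ' : C2 X (n + 1)} (h : Rc K ζ) (h' : Rc K ζ') :
    Rc K (ζ - ζ') := by
  unfold Rc
  rw [map_sub]
  exact sub_mem h h'

end GZ
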