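import Pool.Agent.P.MP_0a0487_an.GZ.HgDefs
import Pool.Agent.P.MP_0a0487_an.SX.IndConj

/-! The operator on 1-forms is elliptic; harmonic 1-forms. -/

set_option autoImplicit false
set_option linter.unusedSectionVars false

noncomputable section

namespace SX4

open scoped ComplexOrder ContDiff
open Filter Topology Module

variable {P A : Type} [TopologicalSpace P] [CompactSpace P] [CommRing A] [StarRing A] [Algebra ℂ A]
  [StarModule ℂ A] {B : Base P A}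

namespace Pre

variable (G : Pre B)

theorem Qn_c0 (χ : G.Sec (wm 0)) :
    (G.Qn χ).c 0 = (-1 / 2 : ℂ) • (G.dvg χ.form + lam (G.d1 χ.form)) := rfl

theorem Qn_c1 (χ : G.Sec (wm 0)) : (G.Qn χ).c 1 = -G.d1 χ.form 1 3 := rfl

theorem form_ofForm {a : Fin 4 → A} (ha : B.Re1 a) : (G.ofForm fun α => (ha α).1).form = a := by
  funext α
  fin_cases α
  exacts [(ha 1).2, rfl, (ha 3).2, rfl]

theorem form_inj {χ χ' : G.Sec (wm 0)} (h : χ.form = χ'.form) : χ = χ' :=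
  dirac_ext (congrFun h 1) (congrFun h 3)

theorem dvg_re {a : Fin 4 → A} (ha : B.Re1 a) : B.Re0 (G.dvg a) := by
  refine ⟨G.dvg_mem fun α => (ha α).1, ?_⟩
  rw [dvg, star_sum, ← sum_bar fun α => G.Dt (bar α) (a α)]
  exact Finset.sum_congr rfl fun α _ => by rw [dirac_star_Dt, (ha α).2]

theorem I_dvg {a : Fin 4 → A} (ha : B.Form1 a) {s : A} (hs : s ∈ B.W 0) :
    G.I (G.dvg a * s) = -∑ α, G.I (a α * G.D (bar α) s) := by
  rw [dvg, Finset.sum_mul, map_sum, ← Finset.sum_neg_distrib]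
  refine Finset.sum_congr rfl fun α _ => ?_
  rw [mul_comm (a α), G.ibp (bar α) hs (ha α) (by rw [wt_bar, zero_add, add_neg_cancel]), neg_neg,
    mul_comm s]
  rfl

theorem hgA_inner {w : Fin 2 → Wt} (s t : G.Sec w) : ((inner ℝ s t : ℝ) : ℂ) =
    (G.I (star (s.c 0) * t.c 0) + G.I (star (t.c 0) * s.c 0)) / 2 +
      (G.I (star (s.c 1) * t.c 1) + G.I (star (t.c 1) * s.c 1)) / 2 := by
  rw [inner_real, Fin.sum_univ_two, Complex.ofReal_add, Complex.re_eq_add_conj,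
    Complex.re_eq_add_conj, G.integ_conj, G.integ_conj]

theorem hgA_star (χ : G.Sec (wm 0)) :
    star ((G.Qn χ).c 0) = (-1 / 2 : ℂ) • (G.dvg χ.form - lam (G.d1 χ.form)) := by
  obtain ⟨hb, hst⟩ := G.d1_re χ.form_re
  have s01 : star (G.d1 χ.form 0 1) = -G.d1 χ.form 0 1 := (hst 0 1).trans (hb 0 1).2
  have s23 : star (G.d1 χ.form 2 3) = -G.d1 χ.form 2 3 := (hst 2 3).trans (hb 2 3).2
  rw [Qn_c0, star_smul, star_add, (G.dvg_re χ.form_re).2, lam, star_add, s01, s23, ← neg_add,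
    ← sub_eq_add_neg]
  simp

theorem inner_form (χ χ' : G.Sec (wm 0)) :
    ((inner ℝ χ χ' : ℝ) : ℂ) = (1 / 2) * ∑ α, G.I (χ.form α * χ'.form (bar α)) := by
  rw [G.hgA_inner, Fin.sum_univ_four]
  change _ = 1 / 2 * (G.I (star (χ.c 0) * χ'.c 0) + G.I (χ.c 0 * star (χ'.c 0)) +
    G.I (star (χ.c 1) * χ'.c 1) + G.I (χ.c 1 * star (χ'.c 1)))
  rw [mul_comm (χ.c 0), mul_comm (χ.c 1)]
  ring

theorem sd_re (ξ : G.Sec (wp 0)) : B.Re2 ξ.sd := by
  have m0 : ξ.c 0 ∈ B.W 0 := ξ.mem 0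
  have m1 : ξ.c 1 ∈ B.W (-1, -1) := ξ.mem 1
  have m2 : star (ξ.c 1) ∈ B.W (1, 1) := B.star_mem m1
  have mg : (1 / 2 : ℂ) • (ξ.c 0 - star (ξ.c 0)) ∈ B.W 0 :=
    Submodule.smul_mem _ _ (sub_mem m0 (B.star_mem' m0 neg_zero))
  have sg : star ((1 / 2 : ℂ) • (ξ.c 0 - star (ξ.c 0))) =
      -((1 / 2 : ℂ) • (ξ.c 0 - star (ξ.c 0))) := by
    rw [star_smul, star_sub, star_star, ← smul_neg, neg_sub]
    simp
  rw [Sec.sd]
  generalize (1 / 2 : ℂ) • (ξ.c 0 - star (ξ.c 0)) = g at mg sg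
  refine ⟨fun α β => ⟨?_, ?_⟩, fun α β => ?_⟩
  · fin_cases α <;> fin_cases β
    exacts [zero_mem _, mg, m2, zero_mem _, neg_mem mg, zero_mem _, zero_mem _, m1, neg_mem m2,
      zero_mem _, zero_mem _, mg, zero_mem _, neg_mem m1, neg_mem mg, zero_mem _]
  · fin_cases α <;> fin_cases β <;> simp
  · fin_cases α <;> fin_cases β <;> simp [bar, sg]

theorem inner_Qn (χ : G.Sec (wm 0)) (ξ : G.Sec (wp 0)) : ((inner ℝ (G.Qn χ) ξ : ℝ) : ℂ) =
    (-1 / 4) * G.I (G.dvg χ.form * (ξ.c 0 + star (ξ.c 0))) +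
      (1 / 2) * G.I (wg (G.d1 χ.form) ξ.sd) := by
  have h13 : star (G.d1 χ.form 1 3) = G.d1 χ.form 0 2 := (G.d1_re χ.form_re).2 1 3
  have hw : wg (G.d1 χ.form) ξ.sd = (1 / 2 : ℂ) • (lam (G.d1 χ.form) * (ξ.c 0 - star (ξ.c 0))) -
      G.d1 χ.form 0 2 * ξ.c 1 - G.d1 χ.form 1 3 * star (ξ.c 1) := by
    simp only [wg, Sec.sd, lam, Matrix.cons_val, Algebra.smul_def]
    ring
  rw [G.hgA_inner, G.hgA_star, Qn_c0, Qn_c1, star_neg, h13, hw, mul_comm (star (ξ.c 0)),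
    mul_comm (star (ξ.c 1))]
  simp only [smul_mul_assoc, add_mul, sub_mul, mul_add, mul_sub, neg_mul, map_smul, map_add,
    map_sub, map_neg, smul_eq_mul]
  ring

theorem Qn_zo : ∃ Z, IsZO Z ∧ G.Qn = G.Q + Z := by
  refine ⟨G.Qn - G.Q, ⟨![![(1 / 2 : ℂ) • (G.τ 0 + G.T 0 1 1 + G.T 2 3 1),
    (1 / 2 : ℂ) • (G.τ 2 + G.T 0 1 3 + G.T 2 3 3)], 0],
    ![![(1 / 2 : ℂ) • (G.T 0 1 0 + G.T 2 3 0 - G.τ 1),
      (1 / 2 : ℂ) • (G.T 0 1 2 + G.T 2 3 2 - G.τ 3)], 0], ?_, ?_, fun s => ?_⟩, by abel⟩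
  · simp only [Fin.forall_fin_two]
    exact ⟨⟨Submodule.smul_mem _ _ (add_mem (add_mem (dirac_mem (G.τ_spec 0).1 (by decide))
        (dirac_mem (G.T_mem 0 1 1) (by decide))) (dirac_mem (G.T_mem 2 3 1) (by decide))),
      Submodule.smul_mem _ _ (add_mem (add_mem (dirac_mem (G.τ_spec 2).1 (by decide))
        (dirac_mem (G.T_mem 0 1 3) (by decide))) (dirac_mem (G.T_mem 2 3 3) (by decide)))⟩,
      zero_mem _, zero_mem _⟩
  · simp only [Fin.forall_fin_two]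
    exact ⟨⟨Submodule.smul_mem _ _ (sub_mem (add_mem (dirac_mem (G.T_mem 0 1 0) (by decide))
        (dirac_mem (G.T_mem 2 3 0) (by decide))) (dirac_mem (G.τ_spec 1).1 (by decide))),
      Submodule.smul_mem _ _ (sub_mem (add_mem (dirac_mem (G.T_mem 0 1 2) (by decide))
        (dirac_mem (G.T_mem 2 3 2) (by decide))) (dirac_mem (G.τ_spec 3).1 (by decide)))⟩,
      zero_mem _, zero_mem _⟩
  · rw [Fin.forall_fin_two, LinearMap.sub_apply, Sec.c_sub, Sec.c_sub, Qn_c0, Qn_c1, Q_one,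
      dirac_Q_c0]
    refine ⟨?_, by simp⟩
    simp only [dvg, lam, Calc.d1, Dt, Fin.sum_univ_four, Fin.sum_univ_two, Sec.form, bar,
      Matrix.cons_val, smul_mul_assoc, add_mul, sub_mul]
    module

theorem AK.Qn_eq {G : Pre B} (h : G.AK) : G.Qn = G.Q := by
  refine LinearMap.ext fun χ => dirac_ext ?_ (G.Q_one χ).symm
  have h1 := G.Q_add_star χ
  have h2 := h.Q_zero χ
  rw [Qn_c0, dvg, ← neg_neg (∑ α, _), ← h1, ← neg_neg (lam _), ← h2]
  module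

theorem exists_Qn_adj : ∃ Q' : G.Sec (wp 0) →ₗ[ℝ] G.Sec (wm 0), Ell G.Qn Q' := by
  obtain ⟨Z, hZ, e⟩ := G.Qn_zo
  obtain ⟨Q', h⟩ := G.exists_Q_adj
  obtain ⟨Z', -, h'⟩ := h.add_zo hZ
  exact ⟨_, e ▸ h'⟩

theorem Qn_closed {χ : G.Sec (wm 0)} (h0 : G.Qn χ = 0) : G.dvg χ.form = 0 ∧ G.d1 χ.form = 0 := by
  have hf := χ.form1
  obtain ⟨hb, hst⟩ := G.d1_re χ.form_re
  have e13 : G.d1 χ.form 1 3 = 0 := by
    have := G.Qn_c1 χ
    rw [h0, Sec.c_zero] at this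
    exact neg_eq_zero.1 this.symm
  have c0 := G.Qn_c0 χ
  have c0' := G.hgA_star χ
  rw [h0, Sec.c_zero] at c0 c0'
  rw [star_zero] at c0'
  have ed : G.dvg χ.form = 0 := by linear_combination (norm := module) c0 + c0'
  have el : lam (G.d1 χ.form) = 0 := by linear_combination (norm := module) c0 - c0'
  refine ⟨ed, ?_⟩
  have elam : G.d1 χ.form 2 3 = -G.d1 χ.form 0 1 := eq_neg_of_add_eq_zero_right el
  have hI := (G.closed_d1 hf).d1 hf
  generalize G.d1 χ.form = b at hb hst e13 elam hI ⊢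
  have e02 : b 0 2 = 0 := by
    have := hst 1 3
    rw [e13, star_zero] at this
    exact this.symm
  have s01 : star (b 0 1) = -b 0 1 := (hst 0 1).trans (hb 0 1).2
  have s03 : star (b 0 3) = b 1 2 := hst 0 3
  have e : wg b b = (2 : ℂ) • (star (b 0 1) * b 0 1 + star (b 0 3) * b 0 3) := by
    rw [wg, e13, e02, elam, s01, s03, two_smul]; ring
  have hre := congrArg Complex.re hI
  rw [e, map_smul, map_add, two_smul] at hre
  simp only [Complex.add_re, ← G.nrm_sq, Complex.zero_re] at hre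
  have z01 : b 0 1 = 0 := G.nrm_eq_zero ⟨_, (hb 0 1).1⟩ (by
    nlinarith [sq_nonneg (G.nrm (b 0 1)), sq_nonneg (G.nrm (b 0 3))])
  have z03 : b 0 3 = 0 := G.nrm_eq_zero ⟨_, (hb 0 3).1⟩ (by
    nlinarith [sq_nonneg (G.nrm (b 0 1)), sq_nonneg (G.nrm (b 0 3))])
  have z12 : b 1 2 = 0 := by rw [← s03, z03, star_zero]
  have z23 : b 2 3 = 0 := by rw [elam, z01, neg_zero]
  have zd : ∀ α, b α α = 0 := fun α => by
    have : (2 : ℂ) • b α α = 0 := by rw [two_smul]; linear_combination (hb α α).2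
    exact (smul_eq_zero.1 this).resolve_left two_ne_zero
  have zs : ∀ α β, b α β = 0 → b β α = 0 := fun α β e => by rw [(hb α β).2, e, neg_zero]
  have hz : ∀ α β, b α β = 0 := by
    simp only [Fin.forall_fin_succ, Fin.succ_zero_eq_one, IsEmpty.forall_iff, and_true]
    exact ⟨⟨zd _, z01, e02, z03⟩, ⟨zs _ _ z01, zd _, z12, e13⟩,
      ⟨zs _ _ e02, zs _ _ z12, zd _, z23⟩, zs _ _ z03, zs _ _ e13, zs _ _ z23, zd _⟩
  exact funext₂ hz

theorem Qn_exact {χ : G.Sec (wm 0)} (h0 : G.Qn χ = 0) {s : A} (hs : s ∈ B.W 0)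
    (hD : ∀ α, G.D α s = χ.form α) : χ = 0 := by
  have ha := χ.form_re
  have h1 := G.inner_form χ χ
  have h2 := G.I_dvg χ.form1 hs
  simp only [hD] at h2
  rw [(G.Qn_closed h0).1, zero_mul, map_zero, eq_comm, neg_eq_zero] at h2
  rw [h2, mul_zero, Complex.ofReal_eq_zero] at h1
  exact inner_self_eq_zero.1 h1

end Pre

namespace Geo

variable (G : Geo B)

theorem Qn_index : G.Qn.index = -G.ind 0 := by
  obtain ⟨Z, hZ, e⟩ := G.Qn_zo
  obtain ⟨Q', h⟩ := G.exists_Q_adj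
  rw [e, G.index_add_zo h hZ, G.Q_index]

theorem ker_Qn_fd : FiniteDimensional ℝ (LinearMap.ker G.Qn) := by
  obtain ⟨Q', h⟩ := G.exists_Qn_adj
  exact (G.pair h).ker_fd

/-- Every closed real 1-form is cohomologous to a harmonic form. -/
theorem exists_harm {a : Fin 4 → A} (ha : B.Re1 a) (hc : G.d1 a = 0) :
    ∃ (χ : G.Sec (wm 0)) (s : A), G.Qn χ = 0 ∧ B.Re0 s ∧ ∀ α, a α = χ.form α + G.D α s := by
  obtain ⟨Q', hE⟩ := G.exists_Qn_adj
  obtain ⟨_, ⟨ξ, rfl⟩, h, hh, e⟩ := Submodule.mem_sup.1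
    ((G.pair hE).symm.abs2_range.sup_eq_top ▸ Submodule.mem_top (x := G.ofForm fun α => (ha α).1))
  have hh : G.Qn h = 0 := hh
  have m0 : ξ.c 0 ∈ B.W 0 := ξ.mem 0
  have hf : ξ.c 0 + star (ξ.c 0) ∈ B.W 0 := add_mem m0 (B.star_mem' m0 neg_zero)
  have hs : B.Re0 ((1 / 2 : ℂ) • (ξ.c 0 + star (ξ.c 0))) :=
    ⟨Submodule.smul_mem _ _ hf, by rw [star_smul, star_add, star_star, add_comm]; simp⟩
  have hd := G.d0_re hs
  have e1 : (Q' ξ).form + h.form = a := by rw [← Pre.Sec.form_add, e, G.form_ofForm ha]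
  have e2 := G.form_ofForm hd
  generalize (G.ofForm fun α => (hd α).1) = η at e2
  have e3 : (Q' ξ - η).form + η.form = (Q' ξ).form := by rw [← Pre.Sec.form_add, sub_add_cancel]
  have c3 : G.d1 (Q' ξ - η).form = 0 := by
    funext α β
    have k1 := G.d1_add (Q' ξ).form h.form α β
    have k2 := G.d1_add (Q' ξ - η).form η.form α β
    rw [e1, hc, (G.Qn_closed hh).2] at k1
    rw [e3, e2, G.d1_d0 hs.1] at k2
    simpa using k2.symm.trans (by simpa using k1.symm)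
  have k : ∀ x : G.Sec (wm 0), G.d1 x.form = 0 → inner ℝ x (Q' ξ - η) = 0 := fun x hx => by
    have k1 := G.inner_Qn x ξ
    have k2 := G.inner_form x η
    have k3 := G.I_dvg x.form1 hf
    simp only [e2, Calc.d0, map_smul, mul_smul_comm, smul_eq_mul, ← Finset.mul_sum] at k2
    rw [hE.adj, hx, show wg 0 ξ.sd = (0 : A) by simp [wg], map_zero] at k1
    rw [inner_sub_right, ← Complex.ofReal_eq_zero, Complex.ofReal_sub, k1, k2, k3]
    ring
  refine ⟨h, _, hh, hs, fun α => ?_⟩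
  rw [← e1, sub_eq_zero.1 (inner_self_eq_zero.1 (k _ c3)), e2, Pi.add_apply, add_comm]
  rfl

end Geo

end SX4
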