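import Pool.Agent.P.MP_0a0487_an.GZ.HgA

/-! Self-dual harmonic forms and the cokernel. -/

set_option autoImplicit false
set_option linter.unusedSectionVars false

noncomputable section

namespace SX4

open scoped ComplexOrder ContDiff
open Filter Topology Module

variable {P A : Type} [TopologicalSpace P] [CompactSpace P] [CommRing A] [StarRing A] [Algebra ℂ A]
  [StarModule ℂ A] {B : Base P A}

theorem hgb_star {b : Fin 4 → Fin 4 → A} (hb : B.Re2 b) : star (b 0 1) = -b 0 1 ∧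
    star (b 0 2) = b 1 3 ∧ star (b 0 3) = b 1 2 ∧ star (b 1 2) = b 0 3 ∧ star (b 1 3) = b 0 2 ∧
      star (b 2 3) = -b 2 3 :=
  ⟨(hb.2 0 1).trans (hb.1 0 1).2, hb.2 0 2, hb.2 0 3, hb.2 1 2, hb.2 1 3,
    (hb.2 2 3).trans (hb.1 2 3).2⟩

theorem hgb_zero : B.Form2 (0 : Fin 4 → Fin 4 → A) := fun _ _ => ⟨zero_mem _, neg_zero.symm⟩

theorem hgb_ext {a b : Fin 4 → Fin 4 → A} (ha : B.Form2 a) (hb : B.Form2 b) (h1 : a 0 1 = b 0 1)
    (h2 : a 0 2 = b 0 2) (h3 : a 0 3 = b 0 3) (h4 : a 1 2 = b 1 2) (h5 : a 1 3 = b 1 3)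
    (h6 : a 2 3 = b 2 3) : a = b := by
  have d : ∀ α, a α α = b α α := fun α => (ha.diag α).trans (hb.diag α).symm
  have n : ∀ {α β}, a α β = b α β → a β α = b β α := fun {α β} h => by
    rw [(ha α β).2, (hb α β).2, h]
  funext α β
  fin_cases α <;> fin_cases β
  exacts [d _, h1, h2, h3, n h1, d _, h4, h5, n h2, n h4, d _, h6, n h3, n h5, n h6, d _]

theorem hgb_ker {V V' : Type} [NormedAddCommGroup V] [InnerProductSpace ℝ V]
    [NormedAddCommGroup V'] [InnerProductSpace ℝ V'] {L : V →ₗ[ℝ] V'} {L' : V' →ₗ[ℝ] V}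
    (h : Pair L L') : (LinearMap.range L)ᗮ = LinearMap.ker L' := by
  ext t
  rw [Submodule.mem_orthogonal, LinearMap.mem_ker]
  constructor
  · intro ht
    rw [← inner_self_eq_zero (𝕜 := ℝ), ← h.adj]
    exact ht _ (LinearMap.mem_range_self _ _)
  · rintro ht _ ⟨s, rfl⟩
    rw [h.adj, ht, inner_zero_right]

namespace Pre

variable (G : Pre B)

theorem mem_Z2r {b : Fin 4 → Fin 4 → A} : b ∈ G.Z2r ↔ B.Re2 b ∧ G.Closed b := Iff.rfl

theorem mem_SD {b : Fin 4 → Fin 4 → A} :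
    b ∈ G.SD ↔ b ∈ G.Z2r ∧ b 0 1 = b 2 3 ∧ b 0 3 = 0 ∧ b 1 2 = 0 := Iff.rfl

theorem mem_ASD {b : Fin 4 → Fin 4 → A} :
    b ∈ G.ASD ↔ b ∈ G.Z2r ∧ b 0 1 = -b 2 3 ∧ b 0 2 = 0 ∧ b 1 3 = 0 := Iff.rfl

theorem d1_mem_Z2r {a : Fin 4 → A} (ha : B.Re1 a) : G.d1 a ∈ G.Z2r := by
  exact ⟨G.d1_re ha, G.closed_d1 fun α => (ha α).1⟩

/-- It suffices to test closedness on real forms. -/
theorem closed_of_re {b : Fin 4 → Fin 4 → A}
    (h : ∀ a, B.Re1 a → G.I (wg (G.d1 a) b) = 0) : G.Closed b := by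
  have key : ∀ p q, B.Re0 p → B.Re0 q → G.I (wg b (G.dd p q)) = 0 := by
    intro p q hp hq
    have e : G.d1 (fun γ => p * G.D γ q) = G.dd p q :=
      funext fun α => funext fun β => G.d1_mul_d0 p hq.1 α β
    have h1 := h (fun γ => p * G.D γ q) fun γ =>
      ⟨B.mul_mem' hp.1 (G.D_mem' γ hq.1 (zero_add _)) (zero_add _), by
        rw [star_mul', hp.2, G.D_star, hq.2]⟩
    rwa [e, integ_wg_comm] at h1
  intro p hp q hq
  obtain ⟨p1, p2, hp1, hp2, rfl⟩ := B.exists_re_im hp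
  obtain ⟨q1, q2, hq1, hq2, rfl⟩ := B.exists_re_im hq
  have e : wg b (G.dd (p1 + Complex.I • p2) (q1 + Complex.I • q2)) =
      wg b (G.dd p1 q1) + Complex.I • wg b (G.dd p1 q2) + Complex.I • wg b (G.dd p2 q1) +
        Complex.I • Complex.I • wg b (G.dd p2 q2) := by
    simp only [wg, Calc.dd, w1, Calc.d0, map_add, map_smul]
    simp only [Algebra.smul_def]
    ring
  rw [e]
  simp only [map_add, map_smul, key _ _ hp1 hq1, key _ _ hp1 hq2, key _ _ hp2 hq1,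
    key _ _ hp2 hq2, smul_zero, add_zero]

theorem I_wg_im {a b : Fin 4 → Fin 4 → A} (ha : B.Re2 a) (hb : B.Re2 b) :
    (G.I (wg a b)).im = 0 := by
  obtain ⟨a1, a2, a3, a4, a5, a6⟩ := hgb_star ha
  obtain ⟨b1, b2, b3, b4, b5, b6⟩ := hgb_star hb
  have e : star (wg a b) = wg a b := by
    simp only [wg, star_add, star_sub, star_mul', a1, a2, a3, a4, a5, a6, b1, b2, b3, b4, b5, b6]
    ring
  have h := G.I_star (wg a b)
  rw [e] at h
  exact Complex.conj_eq_iff_im.1 h.symm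

theorem SD_neg {b : Fin 4 → Fin 4 → A} (hb : b ∈ G.SD) :
    (G.I (wg b b)).re ≤ 0 ∧ ((G.I (wg b b)).re = 0 → b = 0) := by
  obtain ⟨⟨hr, -⟩, h1, h2, h3⟩ := hb
  obtain ⟨b1, b2, b3, b4, b5, b6⟩ := hgb_star hr
  have e : wg b b = (-2 : ℂ) • (star (b 0 1) * b 0 1) + (-2 : ℂ) • (star (b 1 3) * b 1 3) := by
    rw [b1, b5]
    simp only [wg, h2, h3, ← h1, Algebra.smul_def, map_neg, map_ofNat]
    ring
  have e' : (G.I (wg b b)).re = -2 * G.nrm (b 0 1) ^ 2 - 2 * G.nrm (b 1 3) ^ 2 := by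
    rw [e, G.nrm_sq, G.nrm_sq]
    simp only [map_add, map_smul, smul_eq_mul, Complex.add_re, Complex.mul_re]
    simp
    ring
  have n1 := sq_nonneg (G.nrm (b 0 1))
  have n2 := sq_nonneg (G.nrm (b 1 3))
  refine ⟨by linarith, fun h0 => ?_⟩
  have z1 : b 0 1 = 0 := G.nrm_eq_zero ⟨_, (hr.1 0 1).1⟩
    (pow_eq_zero_iff two_ne_zero |>.1 (by linarith))
  have z2 : b 1 3 = 0 := G.nrm_eq_zero ⟨_, (hr.1 1 3).1⟩
    (pow_eq_zero_iff two_ne_zero |>.1 (by linarith))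
  refine hgb_ext hr.1 hgb_zero z1 ?_ h2 h3 z2 (h1 ▸ z1)
  rw [← b5, z2, star_zero]
  rfl

theorem ASD_pos {b : Fin 4 → Fin 4 → A} (hb : b ∈ G.ASD) :
    0 ≤ (G.I (wg b b)).re ∧ ((G.I (wg b b)).re = 0 → b = 0) := by
  obtain ⟨⟨hr, -⟩, h1, h2, h3⟩ := hb
  obtain ⟨b1, b2, b3, b4, b5, b6⟩ := hgb_star hr
  have e : wg b b = (2 : ℂ) • (star (b 2 3) * b 2 3) + (2 : ℂ) • (star (b 0 3) * b 0 3) := by
    rw [b6, b3]
    simp only [wg, h2, h3, h1, Algebra.smul_def, map_ofNat]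
    ring
  have e' : (G.I (wg b b)).re = 2 * G.nrm (b 2 3) ^ 2 + 2 * G.nrm (b 0 3) ^ 2 := by
    rw [e, G.nrm_sq, G.nrm_sq]
    simp only [map_add, map_smul, smul_eq_mul, Complex.add_re, Complex.mul_re]
    simp
  have n1 := sq_nonneg (G.nrm (b 2 3))
  have n2 := sq_nonneg (G.nrm (b 0 3))
  refine ⟨by linarith, fun h0 => ?_⟩
  have z1 : b 2 3 = 0 := G.nrm_eq_zero ⟨_, (hr.1 2 3).1⟩
    (pow_eq_zero_iff two_ne_zero |>.1 (by linarith))
  have z2 : b 0 3 = 0 := G.nrm_eq_zero ⟨_, (hr.1 0 3).1⟩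
    (pow_eq_zero_iff two_ne_zero |>.1 (by linarith))
  refine hgb_ext hr.1 hgb_zero ?_ h2 z2 ?_ h3 z1
  · rw [h1, z1, neg_zero]
    rfl
  · rw [← b3, z2, star_zero]
    rfl

theorem wg_SD_ASD {a b : Fin 4 → Fin 4 → A} (ha : a ∈ G.SD) (hb : b ∈ G.ASD) : wg a b = 0 := by
  obtain ⟨-, a1, a2, a3⟩ := ha
  obtain ⟨-, b1, b2, b3⟩ := hb
  simp only [wg, a1, a2, a3, b1, b2, b3]
  ring

/-- The section defined by a closed self-dual form. -/
def hgbSec : G.SD →ₗ[ℝ] G.Sec (wp 0) where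
  toFun b := G.mk' ![b.1 0 1, b.1 1 3] (mem2
    (dirac_mem (b.2.1.1.1 0 1).1 (by ext <;> simp [wp, wt]))
    (by simpa [wp, wt] using (b.2.1.1.1 1 3).1))
  map_add' a b := Sec.ext fun i => by fin_cases i <;> rfl
  map_smul' r b := Sec.ext fun i => by fin_cases i <;> rfl

theorem hgb_sd (b : G.SD) : (G.hgbSec b).sd = b.1 := by
  obtain ⟨b, ⟨hr, hc⟩, h1, h2, h3⟩ := b
  have e : (1 / 2 : ℂ) • (b 0 1 - star (b 0 1)) = b 0 1 := by
    rw [(hgb_star hr).1]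
    module
  exact hgb_ext (G.sd_re _).1 hr.1 e (hgb_star hr).2.2.2.2.1 h2.symm h3.symm rfl (e.trans h1)

theorem hgb_inj : Function.Injective G.hgbSec := fun a b h =>
  Subtype.ext (by rw [← G.hgb_sd a, h, G.hgb_sd])

end Pre

namespace Geo

variable (G : Geo B)

theorem mem_coker {ξ : G.Sec (wp 0)} : ξ ∈ (LinearMap.range G.Qn)ᗮ ↔
    (∃ t : ℝ, ξ.c 0 + star (ξ.c 0) = algebraMap ℂ A t) ∧ ξ.sd ∈ G.SD := by
  have hc : ∀ {a : Fin 4 → A} (_ : B.Form1 a) (t : ℂ), G.I (G.dvg a * algebraMap ℂ A t) = 0 := by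
    intro a ha t
    rw [G.I_dvg ha (B.algebraMap_mem t)]
    simp only [G.D_algebraMap, mul_zero, map_zero, Finset.sum_const_zero, neg_zero]
  constructor
  · intro h
    have h0 : ∀ a, B.Re1 a → (-1 / 4) * G.I (G.dvg a * (ξ.c 0 + star (ξ.c 0))) +
        (1 / 2) * G.I (wg (G.d1 a) ξ.sd) = 0 := by
      intro a ha
      have h1 := G.inner_Qn (G.ofForm fun α => (ha α).1) ξ
      rw [G.form_ofForm ha, (Submodule.mem_orthogonal _ _).1 h _ (LinearMap.mem_range_self _ _),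
        Complex.ofReal_zero] at h1
      exact h1.symm
    have hm : ξ.c 0 ∈ B.W 0 := ξ.mem 0
    have hf : B.Re0 (ξ.c 0 + star (ξ.c 0)) :=
      ⟨add_mem hm (B.star_mem' hm neg_zero), by rw [star_add, star_star, add_comm]⟩
    generalize ξ.c 0 + star (ξ.c 0) = f at h0 hf
    have h1 := h0 _ (G.d0_re hf)
    have e1 : G.d1 (G.d0 f) = 0 := funext fun α => funext fun β => G.d1_d0 hf.1 α β
    have e2 : wg (0 : Fin 4 → Fin 4 → A) ξ.sd = 0 := by simp [wg]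
    have e3 : ∀ α, G.d0 f α * G.D (bar α) f = star (G.D α f) * G.D α f := by
      intro α
      rw [G.D_star, hf.2, mul_comm]
      rfl
    rw [e1, e2, map_zero, mul_zero, add_zero, G.I_dvg (G.d0_form hf.1) hf.1] at h1
    simp only [e3] at h1
    have h2 : ∑ α, G.I (star (G.D α f) * G.D α f) = 0 := by linear_combination 4 * h1
    have h3 : ∑ α, G.nrm (G.D α f) ^ 2 = 0 := by
      simp only [G.nrm_sq]
      rw [← Complex.re_sum, h2, Complex.zero_re]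
    have h4 : ∀ α, G.D α f = 0 := fun α =>
      G.nrm_eq_zero ⟨_, G.D_mem α hf.1⟩ (pow_eq_zero_iff two_ne_zero |>.1
        ((Finset.sum_eq_zero_iff_of_nonneg fun _ _ => sq_nonneg _).1 h3 α (Finset.mem_univ α)))
    obtain ⟨c, rfl⟩ := G.const f hf.1 h4
    refine ⟨⟨c.re, ?_⟩, ⟨G.sd_re ξ, G.closed_of_re fun a ha => ?_⟩, rfl, rfl, rfl⟩
    · have h5 := hf.2
      rw [← algebraMap_star_comm] at h5
      have h6 : ((c.re : ℝ) : ℂ) = (1 / 2) * (c + star c) := by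
        rw [Complex.star_def, Complex.add_conj]
        push_cast
        ring
      rw [h6, map_mul, map_add, h5, ← map_add, ← map_mul]
      congr 1
      ring
    · have h5 := h0 a ha
      rw [hc fun α => (ha α).1] at h5
      linear_combination 2 * h5
  · rintro ⟨⟨t, ht⟩, hs⟩
    refine (Submodule.mem_orthogonal _ _).2 ?_
    rintro _ ⟨χ, rfl⟩
    have h1 := G.inner_Qn χ ξ
    rw [ht, hc χ.form1, integ_wg_comm, Pre.Closed.d1 hs.1.2 χ.form1, mul_zero, mul_zero,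
      add_zero] at h1
    exact_mod_cast h1

theorem coker_fd : FiniteDimensional ℝ (LinearMap.range G.Qn)ᗮ := by
  obtain ⟨Q', h⟩ := G.exists_Qn_adj
  rw [hgb_ker (G.pair h)]
  exact (G.pair h).symm.ker_fd

theorem solve_Qn {ξ : G.Sec (wp 0)} (h : ∀ k ∈ (LinearMap.range G.Qn)ᗮ, inner ℝ ξ k = 0) :
    ∃ χ, G.Qn χ = ξ := by
  obtain ⟨Q', hQ⟩ := G.exists_Qn_adj
  rw [hgb_ker (G.pair hQ)] at h
  exact (G.pair hQ).solve h

theorem hgb_mem (b : G.SD) : G.hgbSec b ∈ (LinearMap.range G.Qn)ᗮ := by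
  refine G.mem_coker.2 ⟨⟨0, ?_⟩, ?_⟩
  · change b.1 0 1 + star (b.1 0 1) = _
    rw [(hgb_star b.2.1.1).1, add_neg_cancel, Complex.ofReal_zero, map_zero]
  · rw [G.hgb_sd]
    exact b.2

theorem SD_fd : FiniteDimensional ℝ G.SD := by
  have := G.coker_fd
  refine FiniteDimensional.of_injective (G.hgbSec.codRestrict _ G.hgb_mem) fun a b h => ?_
  exact G.hgb_inj (congrArg Subtype.val h)

theorem finrank_coker [Nonempty P] :
    finrank ℝ (LinearMap.range G.Qn)ᗮ = 1 + finrank ℝ G.SD := by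
  have := G.SD_fd
  let Ψ : ℝ × G.SD →ₗ[ℝ] G.Sec (wp 0) :=
    LinearMap.coprod (LinearMap.toSpanSingleton ℝ _ G.e1) G.hgbSec
  have hΨ : ∀ t b, Ψ (t, b) = t • G.e1 + G.hgbSec b := fun t b => rfl
  have c0 : ∀ t b, (Ψ (t, b)).c 0 = algebraMap ℂ A t + b.1 0 1 := fun t b => by
    rw [hΨ, Algebra.algebraMap_eq_smul_one]
    rfl
  have c1 : ∀ t b, (Ψ (t, b)).c 1 = b.1 1 3 := fun t b => by
    rw [hΨ]
    change (t : ℂ) • (0 : A) + b.1 1 3 = _
    rw [smul_zero, zero_add]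
  have hs : ∀ t : ℝ, star (algebraMap ℂ A t) = algebraMap ℂ A t := fun t => by
    rw [← algebraMap_star_comm, Complex.star_def, Complex.conj_ofReal]
  have hi : Function.Injective Ψ := by
    refine (injective_iff_map_eq_zero Ψ).2 ?_
    rintro ⟨t, b⟩ h
    have h1 := c0 t b
    rw [h, Pre.Sec.c_zero] at h1
    have h2 := congrArg star h1
    rw [star_zero, star_add, hs, (hgb_star b.2.1.1).1] at h2
    have h3 : algebraMap ℂ A (2 * t) = 0 := by
      rw [map_mul, map_ofNat]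
      linear_combination -h1 - h2
    have h4 : t = 0 := by
      have h5 := congrArg (fun s => B.ev s (Classical.arbitrary P)) h3
      simp only [Algebra.algebraMap_eq_smul_one, map_smul, map_one, map_zero] at h5
      simpa using h5
    subst h4
    rw [hΨ, zero_smul, zero_add, ← map_zero G.hgbSec] at h
    rw [G.hgb_inj h]
    rfl
  have hr : LinearMap.range Ψ = (LinearMap.range G.Qn)ᗮ := by
    refine le_antisymm ?_ fun ξ hξ => ?_
    · rintro _ ⟨⟨t, b⟩, rfl⟩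
      rw [hΨ]
      refine add_mem (Submodule.smul_mem _ _ (G.mem_coker.2 ⟨⟨2, ?_⟩, ?_⟩)) (G.hgb_mem b)
      · change (1 : A) + star 1 = _
        rw [star_one, Complex.ofReal_ofNat, map_ofNat, one_add_one_eq_two]
      · have e : G.e1.sd = 0 := by
          funext α β
          fin_cases α <;> fin_cases β <;> simp [Pre.Sec.sd, Pre.e1]
        rw [e]
        exact zero_mem _
    · obtain ⟨⟨t, ht⟩, hb⟩ := G.mem_coker.1 hξ
      refine ⟨(t / 2, ⟨_, hb⟩), Pre.Sec.ext fun i => ?_⟩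
      fin_cases i
      · refine (c0 _ _).trans ?_
        change _ + (1 / 2 : ℂ) • (ξ.c 0 - star (ξ.c 0)) = ξ.c 0
        have e : algebraMap ℂ A ((t / 2 : ℝ) : ℂ) = (1 / 2 : ℂ) • algebraMap ℂ A t := by
          rw [Algebra.smul_def, ← map_mul]
          congr 1
          push_cast
          ring
        rw [e, ← ht]
        module
      · exact c1 _ _
  rw [← hr, LinearMap.finrank_range_of_inj hi, finrank_prod, finrank_self]

theorem ind_eq_SD [Nonempty P] :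
    G.ind 0 = 1 + (finrank ℝ G.SD : ℤ) - finrank ℝ (LinearMap.ker G.Qn) := by
  obtain ⟨Q', h⟩ := G.exists_Qn_adj
  have h1 := G.finrank_coker
  have h2 := (G.pair h).index_eq
  have h3 := G.Qn_index
  rw [hgb_ker (G.pair h)] at h1
  rw [h1] at h2
  push_cast at h2
  linarith

/-- The Hodge decomposition of closed real 2-forms. -/
theorem sd_decomp {b : Fin 4 → Fin 4 → A} (hb : b ∈ G.Z2r) :
    ∃ x ∈ G.SD, ∃ y ∈ G.ASD, ∃ a, B.Re1 a ∧ b = x + y + G.d1 a := by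
  obtain ⟨Q', hQ⟩ := G.exists_Qn_adj
  let ξ : G.Sec (wp 0) := G.mk' ![(-1 / 2 : ℂ) • lam b, -b 1 3] (mem2
    (Submodule.smul_mem _ _ (add_mem
      (Pre.dirac_mem (hb.1.1 0 1).1 (by ext <;> simp [wp, wt]))
      (Pre.dirac_mem (hb.1.1 2 3).1 (by ext <;> simp [wp, wt]))))
    (neg_mem (by simpa [wp, wt] using (hb.1.1 1 3).1)))
  have hξ : ξ ∈ LinearMap.range G.Qn ⊔ LinearMap.ker Q' := by
    rw [(G.pair hQ).abs2_range.sup_eq_top]
    exact Submodule.mem_top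
  obtain ⟨_, ⟨χ, rfl⟩, k, hk, e⟩ := Submodule.mem_sup.1 hξ
  rw [← hgb_ker (G.pair hQ)] at hk
  obtain ⟨-, hk⟩ := G.mem_coker.1 hk
  have e0 : (-1 / 2 : ℂ) • (G.dvg χ.form + lam (G.d1 χ.form)) + k.c 0 = (-1 / 2 : ℂ) • lam b :=
    congrArg (fun s => Pre.Sec.c s 0) e
  have e1 : -G.d1 χ.form 1 3 + k.c 1 = -b 1 3 := congrArg (fun s => Pre.Sec.c s 1) e
  have hd := G.d1_mem_Z2r χ.form_re
  have hy : b + k.sd - G.d1 χ.form ∈ G.Z2r := sub_mem (add_mem hb hk.1) hd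
  have y13 : (b + k.sd - G.d1 χ.form) 1 3 = 0 := by
    change b 1 3 + k.c 1 - G.d1 χ.form 1 3 = 0
    linear_combination e1
  refine ⟨-k.sd, neg_mem hk, b + k.sd - G.d1 χ.form, ⟨hy, ?_, ?_, y13⟩, χ.form, χ.form_re,
    by abel⟩
  · have hl : ∀ {c : Fin 4 → Fin 4 → A}, B.Re2 c → star (lam c) = -lam c := fun hc => by
      rw [lam, star_add, (hgb_star hc).1, (hgb_star hc).2.2.2.2.2, neg_add]
    have e2 := congrArg star e0
    have hh : star (-1 / 2 : ℂ) = -1 / 2 := by simp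
    rw [star_add, star_smul, star_smul, star_add, hl hb.1, hl hd.1, (G.dvg_re χ.form_re).2,
      hh] at e2
    change b 0 1 + (1 / 2 : ℂ) • (k.c 0 - star (k.c 0)) - G.d1 χ.form 0 1 =
      -(b 2 3 + (1 / 2 : ℂ) • (k.c 0 - star (k.c 0)) - G.d1 χ.form 2 3)
    rw [eq_sub_of_add_eq' e2, eq_sub_of_add_eq' e0]
    simp only [lam]
    module
  · rw [← (hgb_star hy.1).2.2.2.2.1, y13, star_zero]

end Geo

end SX4
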