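import Pool.Agent.P.MP_0a0487_an.GZ.HgB
import Pool.Agent.P.MP_0a0487_an.SX.Flip

/-! Invariance of the numbers of self-dual and anti-self-dual harmonic forms. -/

set_option autoImplicit false
set_option linter.unusedSectionVars false

noncomputable section

namespace SX4

open scoped ComplexOrder ContDiff
open Filter Topology Module

variable {P A : Type} [TopologicalSpace P] [CompactSpace P] [CommRing A] [StarRing A] [Algebra ℂ A]
  [StarModule ℂ A] {B : Base P A}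

theorem HgC_wt (α β : Fin 4) :
    (((wt α + wt β).1, -(wt α + wt β).2) : Wt) = wt (sw α) + wt (sw β) := by
  rw [flip_wt_sw, flip_wt_sw]
  ext <;> simp [add_comm]

theorem HgC_re {b : Fin 4 → Fin 4 → A} :
    B.Re2 b ↔ B.flip.Re2 fun α β => b (sw α) (sw β) := by
  constructor
  · refine fun h => ⟨fun α β => ⟨?_, (h.1 _ _).2⟩, fun α β => ?_⟩
    · rw [flip_mem, HgC_wt]
      exact (h.1 _ _).1
    · simp only [flip_sw_bar]
      exact h.2 _ _
  · refine fun h => ⟨fun α β => ⟨?_, ?_⟩, fun α β => ?_⟩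
    · simpa only [flip_mem, HgC_wt, flip_sw_sw] using (h.1 (sw α) (sw β)).1
    · simpa only [flip_sw_sw] using (h.1 (sw α) (sw β)).2
    · simpa only [flip_sw_bar, flip_sw_sw] using h.2 (sw α) (sw β)

theorem HgC_wg {G : Pre B} {G' : Pre B.flip} (h : Flp G G') {b : Fin 4 → Fin 4 → A}
    (hb : b 3 2 = -b 2 3) (p q : A) :
    G'.I (wg (fun α β => b (sw α) (sw β)) (G'.dd p q)) = -G.I (wg b (G.dd p q)) := by
  rw [h.I_eq, ← map_neg]
  congr 1
  simp only [wg, Calc.dd, w1, Calc.d0, h.D_eq]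
  have e0 : sw 0 = 0 := rfl
  have e1 : sw 1 = 1 := rfl
  have e2 : sw 2 = 3 := rfl
  have e3 : sw 3 = 2 := rfl
  simp only [e0, e1, e2, e3, hb]
  ring

theorem Flp.mem_SD {G : Pre B} {G' : Pre B.flip} (h : Flp G G') {b : Fin 4 → Fin 4 → A} :
    b ∈ G.ASD ↔ (fun α β => b (sw α) (sw β)) ∈ G'.SD := by
  constructor
  · rintro ⟨⟨h1, h2⟩, h3, h4, h5⟩
    have e := (h1.1 2 3).2
    exact ⟨⟨HgC_re.1 h1, fun p hp q hq => by rw [HgC_wg h e, h2 p hp q hq, neg_zero]⟩,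
      h3.trans e.symm, h4, h5⟩
  · rintro ⟨⟨h1, h2⟩, h3, h4, h5⟩
    have h0 := HgC_re.2 h1
    have e := (h0.1 2 3).2
    exact ⟨⟨h0, fun p hp q hq => neg_eq_zero.1 ((HgC_wg h e p q).symm.trans (h2 p hp q hq))⟩,
      h3.trans e, h4, h5⟩

theorem Flp.exists_equiv {G : Pre B} {G' : Pre B.flip} (h : Flp G G') :
    Nonempty (G.ASD ≃ₗ[ℝ] G'.SD) :=
  ⟨{ toFun := fun b => ⟨fun α β => b.1 (sw α) (sw β), h.mem_SD.1 b.2⟩
     invFun := fun c => ⟨fun α β => c.1 (sw α) (sw β),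
       h.mem_SD.2 (by simpa only [flip_sw_sw] using c.2)⟩
     map_add' := fun _ _ => rfl
     map_smul' := fun _ _ => rfl
     left_inv := fun b => Subtype.ext (by simp only [flip_sw_sw])
     right_inv := fun b => Subtype.ext (by simp only [flip_sw_sw]) }⟩

theorem Geo.flp_flipG (G : Geo B) : Flp G.toPre G.flipG.toPre := ⟨fun _ _ => rfl, fun _ => rfl⟩

theorem Geo.ASD_fd (G : Geo B) : FiniteDimensional ℝ G.ASD := by
  obtain ⟨e⟩ := G.flp_flipG.exists_equiv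
  have := G.flipG.SD_fd
  exact Module.Finite.equiv e.symm

theorem Chg.mem_Z2r {G G' : Pre B} {g : Matrix (Fin 4) (Fin 4) A} (h : Chg G G' g)
    {b : Fin 4 → Fin 4 → A} (hb : b ∈ G.Z2r) : tr2 g b ∈ G'.Z2r := by
  refine ⟨⟨h.frame.form2 hb.1.1, fun α β => ?_⟩, h.closed hb.1.1 hb.2⟩
  simp only [tr2, star_sum, star_mul', h.frame.star_eq, hb.1.2]
  refine Fintype.sum_equiv chgBar _ _ fun γ => ?_
  exact Fintype.sum_equiv chgBar _ _ fun δ => rfl

theorem HgC_sylv {V : Type} [AddCommGroup V] [Module ℝ V] {X X' N : Submodule ℝ V}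
    [FiniteDimensional ℝ X'] (φ : V →ₗ[ℝ] V) (h1 : ∀ b ∈ X, ∃ x ∈ X', φ b - x ∈ N)
    (h2 : ∀ b ∈ X, φ b ∈ N → b = 0) : finrank ℝ X ≤ finrank ℝ X' := by
  let ψ : X →ₗ[ℝ] X'.map N.mkQ := LinearMap.codRestrict _ (N.mkQ ∘ₗ φ ∘ₗ X.subtype) fun b => by
    obtain ⟨x, hx, e⟩ := h1 b b.2
    exact ⟨x, hx, ((Submodule.Quotient.eq N).2 e).symm⟩
  refine (LinearMap.finrank_le_finrank_of_injective (f := ψ) ?_).trans
    (Submodule.finrank_map_le _ _)
  refine (injective_iff_map_eq_zero ψ).2 fun b hb => Subtype.ext (h2 b b.2 ?_)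
  exact (Submodule.Quotient.mk_eq_zero N).1 (congrArg Subtype.val hb)

/-- The change of frame as a real linear map. -/
def HgC_tr (g : Matrix (Fin 4) (Fin 4) A) : (Fin 4 → Fin 4 → A) →ₗ[ℝ] (Fin 4 → Fin 4 → A) where
  toFun := tr2 g
  map_add' a b := by
    funext α β
    simp only [tr2, Pi.add_apply, mul_add, Finset.sum_add_distrib]
  map_smul' r a := by
    funext α β
    change tr2 g ((r : ℂ) • a) α β = (r : ℂ) • tr2 g a α β
    simp only [tr2, Pi.smul_apply, Finset.smul_sum, mul_smul_comm]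

theorem HgC_add (a b c : Fin 4 → Fin 4 → A) : wg a (b + c) = wg a b + wg a c := by
  simp only [wg, Pi.add_apply]
  ring

/-- The radical of the intersection form. -/
def HgC_rad (G : Pre B) : Submodule ℝ (Fin 4 → Fin 4 → A) where
  carrier := {c | c ∈ G.Z2r ∧ ∀ z ∈ G.Z2r, G.I (wg z c) = 0}
  add_mem' := fun {a b} ha hb => ⟨add_mem ha.1 hb.1, fun z hz => by
    rw [HgC_add, map_add, ha.2 z hz, hb.2 z hz, add_zero]⟩
  zero_mem' := ⟨zero_mem _, fun z _ => by simp [wg]⟩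
  smul_mem' := fun r b hb => ⟨Submodule.smul_mem _ r hb.1, fun z hz => by
    have e : wg z (r • b) = (r : ℂ) • wg z b := by
      change wg z ((r : ℂ) • b) = _
      simp only [wg, Pi.smul_apply, Algebra.smul_def]
      ring
    rw [e, map_smul, hb.2 z hz, smul_zero]⟩

theorem HgC_le {G G' : Pre B} {g : Matrix (Fin 4) (Fin 4) A} (h : Chg G G' g)
    {X X' Y' : Submodule ℝ (Fin 4 → Fin 4 → A)} [FiniteDimensional ℝ X'] (hX : X ≤ G.Z2r)
    (hY : Y' ≤ G'.Z2r)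
    (dec : ∀ b ∈ G'.Z2r, ∃ x ∈ X', ∃ y ∈ Y', ∃ a, B.Re1 a ∧ b = x + y + G'.d1 a)
    (sep : ∀ b ∈ X, ∀ y ∈ Y', G.I (wg b b) = G'.I (wg y y) → b = 0) :
    finrank ℝ X ≤ finrank ℝ X' := by
  refine HgC_sylv (N := Y' ⊔ HgC_rad G') (HgC_tr g) (fun b hb => ?_) fun b hb h0 => ?_
  · obtain ⟨x, hx, y, hy, a, ha, e⟩ := dec _ (h.mem_Z2r (hX hb))
    refine ⟨x, hx, ?_⟩
    change tr2 g b - x ∈ _
    rw [e, add_assoc, add_sub_cancel_left]
    exact Submodule.add_mem_sup hy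
      ⟨G'.d1_mem_Z2r ha, fun z hz => hz.2.d1 fun α => (ha α).1⟩
  · obtain ⟨y, hy, c, hc, e⟩ := Submodule.mem_sup.1 h0
    refine sep b hb y hy ?_
    have e' : y + c = tr2 g b := e
    rw [← h.I_wg (hX hb).1.1 (hX hb).1.1, ← e', HgC_add, map_add,
      hc.2 _ (add_mem (hY hy) hc.1), add_zero, integ_wg_comm, HgC_add, map_add, hc.2 _ (hY hy),
      add_zero]

theorem HgC_SD {G G' : Geo B} {g : Matrix (Fin 4) (Fin 4) A} (h : Chg G.toPre G'.toPre g) :
    finrank ℝ G.SD ≤ finrank ℝ G'.SD := by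
  have := G'.SD_fd
  refine HgC_le h (Y' := G'.ASD) (fun _ hb => hb.1) (fun _ hb => hb.1)
    (fun _ hb => G'.sd_decomp hb) fun b hb y hy e => (G.SD_neg hb).2 ?_
  exact (G.SD_neg hb).1.antisymm (e ▸ (G'.ASD_pos hy).1)

theorem HgC_ASD {G G' : Geo B} {g : Matrix (Fin 4) (Fin 4) A} (h : Chg G.toPre G'.toPre g) :
    finrank ℝ G.ASD ≤ finrank ℝ G'.ASD := by
  have := G'.ASD_fd
  refine HgC_le h (Y' := G'.SD) (fun _ hb => hb.1) (fun _ hb => hb.1) (fun _ hb => ?_)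
    fun b hb y hy e => (G.ASD_pos hb).2 ?_
  · obtain ⟨x, hx, y, hy, a, ha, e⟩ := G'.sd_decomp hb
    exact ⟨y, hy, x, hx, a, ha, by rw [e, add_comm x]⟩
  · exact le_antisymm (e ▸ (G'.SD_neg hy).1) (G.ASD_pos hb).1

theorem Chg.finrank_SD {G G' : Geo B} {g : Matrix (Fin 4) (Fin 4) A}
    (h : Chg G.toPre G'.toPre g) : finrank ℝ G'.SD = finrank ℝ G.SD := by
  obtain ⟨g', h1, -, h2⟩ := G.toCalc.exists_frame_inv h.frame
  exact le_antisymm (HgC_SD (h.symm h1 h2)) (HgC_SD h)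

theorem Chg.finrank_ASD {G G' : Geo B} {g : Matrix (Fin 4) (Fin 4) A}
    (h : Chg G.toPre G'.toPre g) : finrank ℝ G'.ASD = finrank ℝ G.ASD := by
  obtain ⟨g', h1, -, h2⟩ := G.toCalc.exists_frame_inv h.frame
  exact le_antisymm (HgC_ASD (h.symm h1 h2)) (HgC_ASD h)

end SX4
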