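import Pool.Agent.P.MP_0a0487_an.GZ.HgC
import Pool.Agent.P.MP_0a0487_an.SX.CohGeo

/-! Hodge theory for the truncated de Rham complex. -/

set_option autoImplicit false
set_option linter.unusedSectionVars false

noncomputable section

namespace SX4

open scoped ComplexOrder ContDiff
open Filter Topology Module

variable {P A : Type} [TopologicalSpace P] [CompactSpace P] [CommRing A] [StarRing A] [Algebra ℂ A]
  [StarModule ℂ A] {B : Base P A}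

theorem HgD_abs {V M : Type} [AddCommGroup V] [Module ℝ V] [FiniteDimensional ℝ V]
    [AddCommGroup M] [Module ℂ M] (ψ : V → M) (h1 : ∀ v w, ψ (v + w) = ψ v + ψ w)
    (h2 : ∀ (r : ℝ) v, ψ (r • v) = (r : ℂ) • ψ v) (h3 : ∀ m, ∃ v w, m = ψ v + Complex.I • ψ w) :
    FiniteDimensional ℂ M ∧ ((∀ v w, ψ v + Complex.I • ψ w = 0 → v = 0 ∧ w = 0) →
      finrank ℂ M = finrank ℝ V) := by
  let Ψ : V × V →ₗ[ℝ] M :=
    { toFun := fun v => ψ v.1 + Complex.I • ψ v.2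
      map_add' := fun v w => by
        rw [Prod.fst_add, Prod.snd_add, h1, h1, smul_add, add_add_add_comm]
      map_smul' := fun r v => by
        rw [Prod.smul_fst, Prod.smul_snd, h2, h2, RingHom.id_apply, ← Complex.coe_smul, smul_add,
          smul_comm Complex.I] }
  have hs : Function.Surjective Ψ := fun m => by
    obtain ⟨v, w, e⟩ := h3 m
    exact ⟨(v, w), e.symm⟩
  have := Module.Finite.of_surjective Ψ hs
  refine ⟨Module.Finite.of_restrictScalars_finite ℝ ℂ M, fun h => ?_⟩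
  have e := (LinearEquiv.ofBijective Ψ ⟨(injective_iff_map_eq_zero Ψ).2 fun v hv =>
    Prod.ext (h _ _ hv).1 (h _ _ hv).2, hs⟩).finrank_eq
  rw [finrank_prod, finrank_real_of_complex] at e
  omega

theorem HgD_quot {V N : Type} [AddCommGroup V] [Module ℝ V] [FiniteDimensional ℝ V]
    [AddCommGroup N] [Module ℂ N] (S : Submodule ℂ N) (φ : V → N)
    (h1 : ∀ v w, φ (v + w) = φ v + φ w) (h2 : ∀ (r : ℝ) v, φ (r • v) = (r : ℂ) • φ v)
    (h3 : ∀ n, ∃ v w, n - (φ v + Complex.I • φ w) ∈ S) :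
    FiniteDimensional ℂ (N ⧸ S) ∧ ((∀ v w, φ v + Complex.I • φ w ∈ S → v = 0 ∧ w = 0) →
      finrank ℂ (N ⧸ S) = finrank ℝ V) := by
  have H := HgD_abs (fun v => S.mkQ (φ v)) (fun v w => by rw [h1, map_add])
    (fun r v => by rw [h2, map_smul]) fun m => by
      obtain ⟨n, rfl⟩ := S.mkQ_surjective m
      obtain ⟨v, w, e⟩ := h3 n
      refine ⟨v, w, ?_⟩
      rw [← map_smul, ← map_add]
      exact (Submodule.Quotient.eq S).2 e
  refine ⟨H.1, fun h => H.2 fun v w e => h v w ?_⟩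
  rw [← map_smul, ← map_add] at e
  exact (Submodule.Quotient.mk_eq_zero S).1 e

theorem HgD_re {a : Fin 4 → A} (ha : B.Form1 a) (c : ℂ) :
    B.Re1 fun α => c • a α + star c • star (a (bar α)) := fun α =>
  ⟨add_mem (Submodule.smul_mem _ _ (ha α)) (Submodule.smul_mem _ _
    (B.star_mem' (ha _) (by rw [wt_bar, neg_neg]))), by
      simp only [star_add, star_smul, star_star, bar_bar]
      rw [add_comm]⟩

theorem HgD_d1 (G : Pre B) (a a' : Fin 4 → A) :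
    G.d1 (a + Complex.I • a') = G.d1 a + Complex.I • G.d1 a' := by
  funext α β
  rw [G.d1_add, G.d1_smul]
  rfl

theorem HgD_split (G : Pre B) {x y z : Fin 4 → Fin 4 → A} (hx : B.Re2 x) (hy : B.Re2 y)
    (hz : B.Re2 z) (h : G.I (wg (x + Complex.I • y) z) = 0) :
    G.I (wg x z) = 0 ∧ G.I (wg y z) = 0 := by
  rw [coh_wg_add, coh_wg_smul, map_add, map_smul, smul_eq_mul] at h
  have h1 := G.I_wg_im hx hz
  have h2 := G.I_wg_im hy hz
  have h3 := congrArg Complex.re h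
  have h4 := congrArg Complex.im h
  simp only [Complex.add_re, Complex.mul_re, Complex.I_re, zero_mul, Complex.I_im, h2, mul_zero,
    sub_self, add_zero, Complex.zero_re, Complex.add_im, h1, Complex.mul_im, one_mul, zero_add,
    Complex.zero_im] at h3 h4
  exact ⟨Complex.ext h3 h1, Complex.ext h4 h2⟩

theorem HgD_orth (G : Pre B) {x y : Fin 4 → Fin 4 → A} (hx : x ∈ G.SD) (hy : y ∈ G.ASD)
    (h : ∀ z ∈ G.Z2r, G.I (wg (x + y) z) = 0) : x = 0 ∧ y = 0 := by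
  have h1 := h x hx.1
  have h2 := h y hy.1
  rw [coh_wg_add, integ_wg_comm y, G.wg_SD_ASD hx hy, add_zero] at h1
  rw [coh_wg_add, G.wg_SD_ASD hx hy, zero_add] at h2
  exact ⟨(G.SD_neg hx).2 (by rw [h1]; rfl), (G.ASD_pos hy).2 (by rw [h2]; rfl)⟩

theorem HgD_dz (G : Pre B) {a : Fin 4 → A} (ha : B.Re1 a) {z : Fin 4 → Fin 4 → A}
    (hz : z ∈ G.Z2r) : G.I (wg (G.d1 a) z) = 0 := by
  rw [integ_wg_comm]
  exact Pre.Closed.d1 hz.2 fun α => (ha α).1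

theorem HgD_exact (G : Geo B) {b : Fin 4 → Fin 4 → A} (hb : b ∈ G.Z2r)
    (h : ∀ z ∈ G.Z2r, G.I (wg b z) = 0) : ∃ a, B.Re1 a ∧ b = G.d1 a := by
  obtain ⟨x, hx, y, hy, a, ha, rfl⟩ := G.sd_decomp hb
  obtain ⟨rfl, rfl⟩ := HgD_orth G.toPre hx hy fun z hz => by
    have := h z hz
    rwa [coh_wg_add, map_add, HgD_dz G.toPre ha hz, add_zero] at this
  exact ⟨a, ha, by rw [add_zero, zero_add]⟩

theorem HgD_form {a a' : Fin 4 → A} (ha : B.Re1 a) (ha' : B.Re1 a') :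
    a + Complex.I • a' ∈ B.F1 :=
  B.F1.add_mem (fun α => (ha α).1) (B.F1.smul_mem _ fun α => (ha' α).1)

theorem Base.Form1.exists_re_im {a : Fin 4 → A} (ha : B.Form1 a) :
    ∃ a₁ a₂, B.Re1 a₁ ∧ B.Re1 a₂ ∧ a = a₁ + Complex.I • a₂ := by
  refine ⟨_, _, HgD_re ha (1 / 2), HgD_re ha (-Complex.I / 2), funext fun α => ?_⟩
  have e1 : star (1 / 2 : ℂ) = 1 / 2 := by simp
  have e2 : star (-Complex.I / 2 : ℂ) = Complex.I / 2 := by simp
  simp only [Pi.add_apply, Pi.smul_apply, e1, e2]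
  match_scalars
  · linear_combination (1 / 2) * Complex.I_mul_I
  · linear_combination (-1 / 2) * Complex.I_mul_I

theorem Base.Re2.eq_of {x y x' y' : Fin 4 → Fin 4 → A} (hx : B.Re2 x) (hy : B.Re2 y)
    (hx' : B.Re2 x') (hy' : B.Re2 y') (h : x + Complex.I • y = x' + Complex.I • y') :
    x = x' ∧ y = y' := by
  have h1 : ∀ α β, x α β + Complex.I • y α β = x' α β + Complex.I • y' α β :=
    fun α β => congrFun (congrFun h α) β
  have h2 : ∀ α β, x α β - Complex.I • y α β = x' α β - Complex.I • y' α β := fun α β => by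
    have := congrArg star (h1 (bar α) (bar β))
    simpa only [star_add, star_smul, hx.2, hy.2, hx'.2, hy'.2, bar_bar, Complex.star_def,
      Complex.conj_I, neg_smul, ← sub_eq_add_neg] using this
  have e : x = x' := funext fun α => funext fun β => by
    linear_combination (norm := module) (1 / 2 : ℂ) • h1 α β + (1 / 2 : ℂ) • h2 α β
  refine ⟨e, ?_⟩
  rw [e, add_right_inj] at h
  have := congrArg (fun z => (-Complex.I) • z) h
  simpa only [smul_smul, neg_mul, Complex.I_mul_I, neg_neg, one_smul] using this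

theorem Pre.closed_re_im (G : Pre B) {x y : Fin 4 → Fin 4 → A} (hx : B.Re2 x) (hy : B.Re2 y)
    (h : G.Closed (x + Complex.I • y)) : x ∈ G.Z2r ∧ y ∈ G.Z2r := by
  have key : ∀ a, B.Re1 a → G.I (wg x (G.d1 a)) = 0 ∧ G.I (wg y (G.d1 a)) = 0 := fun a ha =>
    HgD_split G hx hy (G.d1_re ha) (Pre.Closed.d1 h fun α => (ha α).1)
  exact ⟨⟨hx, G.closed_of_re fun a ha => by rw [integ_wg_comm, (key a ha).1]⟩,
    hy, G.closed_of_re fun a ha => by rw [integ_wg_comm, (key a ha).2]⟩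

namespace Geo

variable (G : Geo B)

theorem hodge_nd : G.cx.ND := by
  rintro ⟨x, hx⟩ hc h
  obtain ⟨b₁, b₂, h1, h2, rfl, -⟩ := Base.Form2.exists_re_im hx
  obtain ⟨k1, k2⟩ := G.closed_re_im h1 h2 hc
  have key : ∀ z ∈ G.Z2r, G.I (wg b₁ z) = 0 ∧ G.I (wg b₂ z) = 0 := fun z hz =>
    HgD_split G.toPre h1 h2 hz.1 (h ⟨z, hz.1.1⟩ hz.2)
  obtain ⟨a₁, ha₁, rfl⟩ := HgD_exact G k1 fun z hz => (key z hz).1
  obtain ⟨a₂, ha₂, rfl⟩ := HgD_exact G k2 fun z hz => (key z hz).2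
  exact ⟨⟨_, HgD_form ha₁ ha₂⟩, Subtype.ext (HgD_d1 G.toPre a₁ a₂)⟩

theorem hodge_H1 : FiniteDimensional ℂ G.cx.H1 := by
  have := G.ker_Qn_fd
  refine (HgD_quot (V := LinearMap.ker G.Qn) (N := G.cx.Z1) _
    (fun χ => ⟨⟨χ.1.form, χ.1.form1⟩, Subtype.ext (G.Qn_closed χ.2).2⟩)
    (fun v w => Subtype.ext (Subtype.ext (Pre.Sec.form_add _ _)))
    (fun r v => Subtype.ext (Subtype.ext (Pre.Sec.form_smul _ _))) ?_).1
  rintro ⟨⟨a, ha⟩, hc⟩
  obtain ⟨a₁, a₂, h1, h2, rfl⟩ := Base.Form1.exists_re_im ha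
  have hz : B.Re2 (0 : Fin 4 → Fin 4 → A) := G.Z2r.zero_mem.1
  have e : G.d1 a₁ + Complex.I • G.d1 a₂ = 0 + Complex.I • 0 := by
    rw [← HgD_d1, smul_zero, add_zero]
    exact congrArg Subtype.val hc
  obtain ⟨e1, e2⟩ := Base.Re2.eq_of (G.d1_re h1) (G.d1_re h2) hz hz e
  obtain ⟨χ₁, s₁, k1, l1, m1⟩ := G.exists_harm h1 e1
  obtain ⟨χ₂, s₂, k2, l2, m2⟩ := G.exists_harm h2 e2
  refine ⟨⟨χ₁, k1⟩, ⟨χ₂, k2⟩, ⟨s₁ + Complex.I • s₂, add_mem l1.1 (Submodule.smul_mem _ _ l2.1)⟩,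
    Subtype.ext (funext fun α => ?_)⟩
  change G.D α (s₁ + Complex.I • s₂) =
    a₁ α + Complex.I • a₂ α - (χ₁.form α + Complex.I • χ₂.form α)
  rw [m1, m2, map_add, map_smul, smul_add]
  abel

theorem hodge_H2 : FiniteDimensional ℂ G.cx.H2 ∧
    finrank ℂ G.cx.H2 = finrank ℝ G.SD + finrank ℝ G.ASD := by
  have := G.SD_fd
  have := G.ASD_fd
  have hm : ∀ v : G.SD × G.ASD, v.1.1 + v.2.1 ∈ G.Z2r := fun v => add_mem v.1.2.1 v.2.2.1
  have H := HgD_quot (V := G.SD × G.ASD) (N := G.cx.Z2)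
    ((LinearMap.range G.cx.d1).submoduleOf G.cx.Z2)
    (fun v => ⟨⟨v.1.1 + v.2.1, (hm v).1.1⟩, (hm v).2⟩)
    (fun v w => Subtype.ext (Subtype.ext (add_add_add_comm _ _ _ _)))
    (fun r v => Subtype.ext (Subtype.ext (smul_add (r : ℂ) v.1.1 v.2.1).symm)) (by
      rintro ⟨⟨x, hx⟩, hc⟩
      obtain ⟨b₁, b₂, h1, h2, rfl, -⟩ := Base.Form2.exists_re_im hx
      obtain ⟨k1, k2⟩ := G.closed_re_im h1 h2 hc
      obtain ⟨x₁, hx₁, y₁, hy₁, a₁, ha₁, rfl⟩ := G.sd_decomp k1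
      obtain ⟨x₂, hx₂, y₂, hy₂, a₂, ha₂, rfl⟩ := G.sd_decomp k2
      refine ⟨(⟨x₁, hx₁⟩, ⟨y₁, hy₁⟩), (⟨x₂, hx₂⟩, ⟨y₂, hy₂⟩), ⟨_, HgD_form ha₁ ha₂⟩,
        Subtype.ext ?_⟩
      change G.d1 (a₁ + Complex.I • a₂) = x₁ + y₁ + G.d1 a₁ + Complex.I • (x₂ + y₂ + G.d1 a₂) -
        (x₁ + y₁ + Complex.I • (x₂ + y₂))
      rw [HgD_d1 G.toPre, smul_add _ (x₂ + y₂)]
      abel)
  refine ⟨H.1, (H.2 ?_).trans finrank_prod⟩
  rintro v w ⟨⟨a, ha⟩, e⟩
  obtain ⟨a₁, a₂, h1, h2, rfl⟩ := Base.Form1.exists_re_im ha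
  have e' : G.d1 a₁ + Complex.I • G.d1 a₂ = v.1.1 + v.2.1 + Complex.I • (w.1.1 + w.2.1) := by
    rw [← HgD_d1]
    exact congrArg Subtype.val e
  obtain ⟨e1, e2⟩ := Base.Re2.eq_of (G.d1_re h1) (G.d1_re h2) (hm v).1 (hm w).1 e'
  have k1 := HgD_orth G.toPre v.1.2 v.2.2 fun z hz => by rw [← e1, HgD_dz G.toPre h1 hz]
  have k2 := HgD_orth G.toPre w.1.2 w.2.2 fun z hz => by rw [← e2, HgD_dz G.toPre h2 hz]
  exact ⟨Prod.ext (Subtype.ext k1.1) (Subtype.ext k1.2),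
    Prod.ext (Subtype.ext k2.1) (Subtype.ext k2.2)⟩

end Geo

end SX4
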