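import Pool.Agent.P.MP_0a0487_an.GZ.LatA
import Pool.Agent.P.MP_0a0487_an.GZ.HgB
import Pool.Agent.P.MP_0a0487_an.GZ.ADefs

/-! Harmonic representatives of the lattice. -/

set_option autoImplicit false
set_option linter.unusedSectionVars false

noncomputable section

namespace SX4

open scoped ComplexOrder ContDiff
open Filter Topology Module GZ

variable {P A : Type} [TopologicalSpace P] [CompactSpace P] [CommRing A] [StarRing A] [Algebra ℂ A]
  [StarModule ℂ A] {B : Base P A}

/-- The 1-form of a section, as an additive map. -/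
def latBForm (G : Pre B) : G.Sec (wm 0) →+ Fin 4 → A :=
  AddMonoidHom.mk' Pre.Sec.form Pre.Sec.form_add

theorem latB_sum {G : Pre B} {ι : Type} [Fintype ι] (x : ι → ℝ) (χ : ι → G.Sec (wm 0))
    (α : Fin 4) : (∑ i, x i • χ i).form α = ∑ i, (x i : ℂ) • (χ i).form α := by
  have h := congrFun (map_sum (latBForm G) (fun i => x i • χ i) Finset.univ) α
  rw [Finset.sum_apply] at h
  exact h.trans (Finset.sum_congr rfl fun i _ => congrFun (Pre.Sec.form_smul (x i) (χ i)) α)

theorem latB_neg {G : Pre B} (χ : G.Sec (wm 0)) (α : Fin 4) : (-χ).form α = -χ.form α :=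
  congrFun (map_neg (latBForm G) χ) α

theorem latB_sub {G : Pre B} (χ χ' : G.Sec (wm 0)) (α : Fin 4) :
    (χ - χ').form α = χ.form α - χ'.form α :=
  congrFun (map_sub (latBForm G) χ χ') α

/-- Flat connections with a parallel section of modulus one. -/
def latBPar (G : Pre B) : AddSubgroup (G.Sec (wm 0) × Additive (unitary A)) where
  carrier := {p | (p.2.toMul : A) ∈ B.W 0 ∧ ∀ γ, G.X p.1.form γ (p.2.toMul : A) = 0}
  add_mem' := fun {p q} hp hq => ⟨B.mul_mem' hp.1 hq.1 (add_zero _), fun γ => by
    have h1 := hp.2 γ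
    have h2 := hq.2 γ
    change G.X (p.1 + q.1).form γ ((p.2.toMul : A) * (q.2.toMul : A)) = 0
    simp only [Calc.X, G.D_mul, Pre.Sec.form_add, Pi.add_apply, Algebra.smul_def] at h1 h2 ⊢
    linear_combination (q.2.toMul : A) * h1 + (p.2.toMul : A) * h2⟩
  zero_mem' := ⟨B.one_mem, fun γ => by
    have h : (0 : G.Sec (wm 0)).form γ = 0 := congrFun (map_zero (latBForm G)) γ
    change G.D γ 1 + Complex.I • ((0 : G.Sec (wm 0)).form γ * 1) = 0
    rw [h, G.D_one, zero_mul, smul_zero, add_zero]⟩
  neg_mem' := fun {p} hp => ⟨B.star_mem' hp.1 neg_zero, fun γ => by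
    have h := congrArg star (hp.2 (bar γ))
    change G.D γ (star (p.2.toMul : A)) +
      Complex.I • ((-p.1).form γ * star (p.2.toMul : A)) = 0
    rw [Calc.X, star_add, star_smul, star_mul', G.D_star, (p.1.form_re _).2, bar_bar, star_zero,
      Complex.star_def, Complex.conj_I, neg_smul] at h
    rwa [latB_neg, neg_mul, smul_neg]⟩

theorem Calc.exists_exp (G : Calc B) {s : A} (hs : B.Re0 s) :
    ∃ E ∈ B.W 0, star E * E = 1 ∧ ∀ α, G.D α E = Complex.I • (G.D α s * E) := by
  obtain ⟨c1, c2, c3⟩ := G.app_spec Real.contDiff_cos hs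
  obtain ⟨s1, s2, s3⟩ := G.app_spec Real.contDiff_sin hs
  have e1 : B.app (deriv Real.cos) s = -B.app Real.sin s :=
    Calc.mapA_app (neg_mem s1.1) fun p => by simp [s2]
  rw [e1] at c3
  rw [Real.deriv_sin] at s3
  refine ⟨B.app Real.cos s + Complex.I • B.app Real.sin s,
    add_mem c1.1 (Submodule.smul_mem _ _ s1.1), B.ext' fun p => ?_, fun α => ?_⟩
  · have h := congrArg Complex.ofReal (Real.cos_sq_add_sin_sq (B.ev s p).re)
    rw [star_add, star_smul, c1.2, s1.2, Complex.star_def, Complex.conj_I]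
    simp only [map_mul, map_add, map_smul, map_one, ContinuousMap.mul_apply,
      ContinuousMap.add_apply, ContinuousMap.smul_apply, ContinuousMap.one_apply, c2, s2,
      smul_eq_mul]
    rw [Complex.ofReal_add, Complex.ofReal_pow, Complex.ofReal_pow, Complex.ofReal_one] at h
    linear_combination h - (Real.sin (B.ev s p).re : ℂ) ^ 2 * Complex.I_mul_I
  · rw [map_add, map_smul, c3, s3, mul_add, mul_smul_comm, smul_add, smul_smul, Complex.I_mul_I,
      neg_one_smul, mul_comm (G.D α s), mul_comm (G.D α s), neg_mul, add_comm]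

namespace Geo

variable (G : Geo B) {b : ℕ} {u : Fin b → A}

theorem lat_basis (hu : G.Lat u) : ∃ (h : (Fin b → ℝ) →ₗ[ℝ] G.Sec (wm 0)) (s : Fin b → A),
    Function.Injective h ∧ LinearMap.range h = LinearMap.ker G.Qn ∧ (∀ i, B.Re0 (s i)) ∧
      ∀ i α, G.lg (u i) α = (h (Pi.single i 1)).form α + G.D α (s i) := by
  choose χ s h1 h2 h3 using fun i =>
    G.exists_harm (G.lg_re (hu.mem i) (hu.unit i)) (G.lg_closed (hu.mem i) (hu.unit i))
  have h4 : ∀ x : Fin b → ℝ, ∑ i, (x i : ℂ) • s i ∈ B.W 0 := fun x =>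
    Submodule.sum_mem _ fun i _ => Submodule.smul_mem _ _ (h2 i).1
  have h5 : ∀ (x : Fin b → ℝ) α, ∑ i, (x i : ℂ) • G.lg (u i) α =
      (Fintype.linearCombination ℝ χ x).form α + G.D α (∑ i, (x i : ℂ) • s i) := fun x α => by
    rw [Fintype.linearCombination_apply, latB_sum]
    simp only [h3, smul_add, Finset.sum_add_distrib, map_sum, map_smul]
  have h6 : ∀ x, G.Qn (Fintype.linearCombination ℝ χ x) = 0 := fun x => by
    simp only [Fintype.linearCombination_apply, map_sum, map_smul, h1, smul_zero,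
      Finset.sum_const_zero]
  refine ⟨Fintype.linearCombination ℝ χ, s, (injective_iff_map_eq_zero _).2 fun x hx =>
    hu.indep x _ (h4 x) fun α => ?_, le_antisymm ?_ fun ψ hψ => ?_, h2, fun i α => ?_⟩
  · have h : (0 : G.Sec (wm 0)).form α = 0 := congrFun (map_zero (latBForm G.toPre)) α
    rw [h5, hx, h, zero_add]
  · rintro _ ⟨x, rfl⟩
    exact h6 x
  · obtain ⟨x, t, ht, e⟩ := hu.span _ ψ.form_re (G.Qn_closed hψ).2
    refine ⟨x, (sub_eq_zero.1 (G.Qn_exact (χ := ψ - Fintype.linearCombination ℝ χ x) ?_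
      (add_mem (h4 x) ht.1) fun α => ?_)).symm⟩
    · rw [map_sub, h6, LinearMap.mem_ker.1 hψ, sub_zero]
    · rw [latB_sub, e, h5, map_add]
      ring
  · rw [Fintype.linearCombination_apply_single, one_smul, h3]

theorem ind_zero [Nonempty P] (hu : G.Lat u) : G.ind 0 = 1 + (finrank ℝ G.SD : ℤ) - b := by
  obtain ⟨φ, -, h1, h2, -⟩ := G.lat_basis hu
  rw [G.ind_eq_SD, ← h2, LinearMap.finrank_range_of_inj h1, finrank_fin_fun]

theorem exists_latt (h : G.AK) (hu : G.Lat u) : Nonempty G.Latt := by
  obtain ⟨φ, s, h1, h2, h3, h4⟩ := G.lat_basis hu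
  rw [h.Qn_eq] at h2
  choose E e1 e2 e3 using fun i =>
    G.exists_exp (s := -s i) ⟨neg_mem (h3 i).1, by rw [star_neg, (h3 i).2]⟩
  have hI : algebraMap ℂ A Complex.I * algebraMap ℂ A Complex.I = -1 := by
    rw [← map_mul, Complex.I_mul_I, map_neg, map_one]
  have h5 : ∀ i, star (u i * E i) * (u i * E i) = 1 := fun i => by
    rw [star_mul']
    linear_combination star (E i) * E i * hu.unit i + e2 i
  have h6 : ∀ x α, (φ x).form α = ∑ i, (x i : ℂ) • (φ (Pi.single i 1)).form α := fun x α => by
    conv_lhs => rw [pi_eq_sum_univ' x]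
    simp only [map_sum, map_smul, latB_sum]
  let w : Fin b → Additive (unitary A) := fun i =>
    Additive.ofMul ⟨u i * E i, h5 i, (mul_comm _ _).trans (h5 i)⟩
  have h7 : ∀ i, (-φ (Pi.single i 1), w i) ∈ latBPar G.toPre := fun i =>
    ⟨B.mul_mem' (hu.mem i) (e1 i) (add_zero _), fun γ => by
      have k1 := h4 i γ
      have k2 := e3 i γ
      change G.D γ (u i * E i) + Complex.I • ((-φ (Pi.single i 1)).form γ * (u i * E i)) = 0
      rw [latB_neg, G.D_mul, k2, map_neg]
      simp only [Calc.lg, Algebra.smul_def, map_neg] at k1 ⊢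
      linear_combination algebraMap ℂ A Complex.I * u i * E i * k1 +
        star (u i) * u i * G.D γ (u i) * E i * hI - G.D γ (u i) * E i * hu.unit i⟩
  have h8 : ∀ m : Fin b → ℤ,
      ((-φ) (zc m), Fintype.linearCombination ℤ w m) ∈ latBPar G.toPre := fun m => by
    have e : ((-φ) (zc m), Fintype.linearCombination ℤ w m) =
        ∑ i, m i • (-φ (Pi.single i 1), w i) := by
      refine Prod.ext ?_ ?_
      · conv_lhs => rw [pi_eq_sum_univ' (zc m)]
        simp only [map_sum, map_zsmul, Prod.fst_sum, Prod.smul_fst, zc, Int.cast_smul_eq_zsmul,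
          LinearMap.neg_apply]
      · simp only [Fintype.linearCombination_apply, Prod.snd_sum, Prod.smul_snd]
    rw [e]
    exact sum_mem fun i _ => zsmul_mem (h7 i) _
  refine ⟨{ b := b
            hm := -φ
            inj := neg_injective.comp h1
            rng := (LinearMap.range_neg φ).trans h2
            u := fun m => ⟨_, (h8 m).1⟩
            u_zero := congrArg (fun x : Additive (unitary A) => (x.toMul : A)) (map_zero _)
            u_add := fun m n =>
              congrArg (fun x : Additive (unitary A) => (x.toMul : A)) (map_add _ m n)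
            u_star := fun m =>
              (congrArg (fun x : Additive (unitary A) => (x.toMul : A)) (map_neg _ m)).symm
            par := fun m => (h8 m).2
            full := fun χ hχ v hv h9 h10 => ?_ }⟩
  obtain ⟨x, rfl⟩ : χ ∈ LinearMap.range φ := h2 ▸ hχ
  choose n hn using hu.int v hv h9 (-x) (∑ i, (x i : ℂ) • s i)
    (Submodule.sum_mem _ fun i _ => Submodule.smul_mem _ _ (h3 i).1) fun α => by
      have k1 := h10 α
      have k2 : G.lg v α = -(φ x).form α := by
        simp only [Calc.X, Calc.lg, Algebra.smul_def, map_neg] at k1 ⊢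
        linear_combination -algebraMap ℂ A Complex.I * star v * k1 +
          (φ x).form α * star v * v * hI - (φ x).form α * h9
      rw [k2, h6]
      simp only [h4, Pi.neg_apply, Complex.ofReal_neg, neg_smul, smul_add, map_sum, map_smul,
        Finset.sum_neg_distrib, Finset.sum_add_distrib]
      ring
  refine ⟨n, ?_⟩
  rw [LinearMap.neg_apply, ← map_neg, show zc n = -x from (funext hn).symm, neg_neg]

end Geo

end SX4
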