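import Pool.Agent.P.MP_0a0487_an.GZ.Sph

/-! Local homology of Euclidean space and of charts. -/

set_option autoImplicit false
set_option linter.unusedSectionVars false

noncomputable section

namespace GZ

open Pool.Agent.P.MP_9699e0_gt HK3 Set Filter Topology Module

variable {X E : Type} [TopologicalSpace X] [NormedAddCommGroup E] [NormedSpace ℝ E]
  [FiniteDimensional ℝ E]

theorem LocE_nul (K : Set E) {k : ℕ} (ζ : C2 E (k + 1)) :
    Nul K ζ ↔ bd (ZMod 2) E k ζ ∈ bdy (ZMod 2) Kᶜ k := by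
  constructor
  · intro h
    obtain ⟨_, ⟨a, -, rfl⟩, b, hb, rfl⟩ := Submodule.mem_sup.1 h
    exact ⟨b, hb, by rw [map_add, bd_bd, zero_add]⟩
  · rintro ⟨b, hb, e⟩
    have h1 : ζ - b ∈ cyc (ZMod 2) (univ : Set E) (k + 1) :=
      ⟨mem_chn_iff.2 fun _ _ => subset_univ _, by
        change bd (ZMod 2) E k (ζ - b) = 0
        rw [map_sub, e, sub_self]⟩
    exact Submodule.mem_sup.2 ⟨ζ - b, cyc_le_of_star (starConvex_univ (0 : E)) k h1, b, hb,
      sub_add_cancel ζ b⟩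

theorem LocE_cyc {K : Set X} {k : ℕ} {ζ : C2 X (k + 2)} (h : Rc K ζ) :
    bd (ZMod 2) X (k + 1) ζ ∈ cyc (ZMod 2) Kᶜ (k + 1) := ⟨h, bd_bd k ζ⟩

section

variable {Y : Type} [TopologicalSpace Y]

theorem LocE_maps (g : X ≃ₜ Y) {x : X} {y : Y} (e : g x = y) : MapsTo g {x}ᶜ {y}ᶜ :=
  fun _ hz hz' => hz (g.injective (Eq.trans hz' e.symm))

theorem LocE_rc (g : X ≃ₜ Y) {x : X} {y : Y} (e : g x = y) {k : ℕ} {ζ : C2 X (k + 1)}
    (h : Rc {x} ζ) : Rc {y} (cmap (ZMod 2) g (k + 1) ζ) := by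
  unfold Rc
  rw [cmap_bd (S := univ) g.continuous.continuousOn (mem_chn_iff.2 fun _ _ => subset_univ _)]
  exact cmap_mem g.continuous.continuousOn (LocE_maps g e) h

theorem LocE_push (g : X ≃ₜ Y) {x : X} {y : Y} (e : g x = y) {k : ℕ} {ζ : C2 X k}
    (h : Nul {x} ζ) : Nul {y} (cmap (ZMod 2) g k ζ) := by
  obtain ⟨a, ha, b, hb, rfl⟩ := Submodule.mem_sup.1 h
  rw [map_add]
  exact Submodule.add_mem_sup (cmap_bdy g.continuous.continuousOn (mapsTo_univ _ _) ha)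
    (cmap_mem g.continuous.continuousOn (LocE_maps g e) hb)

theorem LocE_inv (g : X ≃ₜ Y) {k : ℕ} (ζ : C2 X k) :
    cmap (ZMod 2) g.symm k (cmap (ZMod 2) g k ζ) = ζ := by
  rw [cmap_comp (S := univ) g.continuous.continuousOn (mem_chn_iff.2 fun _ _ => subset_univ _),
    g.symm_comp_self, cmap_id]

theorem LocE_pull (g : X ≃ₜ Y) {x : X} {y : Y} (e : g x = y) {k : ℕ} {ζ : C2 X k}
    (h : Nul {y} (cmap (ZMod 2) g k ζ)) : Nul {x} ζ := by
  have h1 := LocE_push g.symm (g.symm_apply_eq.2 e.symm) h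
  rwa [LocE_inv] at h1

end

theorem locH_pi (n : ℕ) : LocH (n + 1) (0 : Fin (n + 2) → ℝ) := by
  obtain ⟨z, hz, hz', hu⟩ := sph_gen n
  refine ⟨fun k hk ζ h => ?_, ?_, fun ζ ζ' h h' m m' => ?_⟩
  · obtain ⟨k, rfl⟩ : ∃ j, k = j + 1 := ⟨k - 1, by omega⟩
    exact (LocE_nul _ ζ).2 (sph_van n k (by omega) (LocE_cyc h))
  · obtain ⟨ζ, -, e⟩ := cyc_le_of_star (starConvex_univ (0 : Fin (n + 2) → ℝ)) n
      (cyc_mono (subset_univ _) _ hz)
    refine ⟨ζ, ?_, fun h => hz' ?_⟩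
    · unfold Rc
      rw [e]
      exact cyc_le _ _ hz
    · rw [← e]
      exact (LocE_nul _ ζ).1 h
  · rw [LocE_nul] at m m' ⊢
    rw [map_sub, ← sub_sub_sub_cancel_right _ _ z]
    exact sub_mem ((hu _ (LocE_cyc h)).resolve_left m) ((hu _ (LocE_cyc h')).resolve_left m')

theorem LocH.homeo {Y : Type} [TopologicalSpace Y] (g : X ≃ₜ Y) {n : ℕ} {x : X} (h : LocH n x) :
    LocH n (g x) := by
  have e := g.symm_apply_apply x
  refine ⟨fun k hk ζ hζ => LocE_pull g.symm e (h.high k hk _ (LocE_rc g.symm e hζ)), ?_,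
    fun ζ ζ' hζ hζ' m m' => LocE_pull g.symm e ?_⟩
  · obtain ⟨ζ, h1, h2⟩ := h.ex
    exact ⟨_, LocE_rc g rfl h1, fun h3 => h2 (LocE_pull g rfl h3)⟩
  · rw [map_sub]
    exact h.uniq _ _ (LocE_rc g.symm e hζ) (LocE_rc g.symm e hζ')
      (fun h3 => m (LocE_pull g.symm e h3)) fun h3 => m' (LocE_pull g.symm e h3)

theorem locH_lin {n : ℕ} (hd : finrank ℝ E = n + 2) (a : E) : LocH (n + 1) a := by
  have hd' : finrank ℝ (Fin (n + 2) → ℝ) = finrank ℝ E := by rw [hd, finrank_fin_fun]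
  have h := (locH_pi n).homeo
    ((ContinuousLinearEquiv.ofFinrankEq hd').toHomeomorph.trans (Homeomorph.addRight a))
  have e : ((ContinuousLinearEquiv.ofFinrankEq hd').toHomeomorph.trans (Homeomorph.addRight a)) 0
      = a := by
    change ContinuousLinearEquiv.ofFinrankEq hd' 0 + a = a
    rw [map_zero, zero_add]
  rwa [e] at h

end GZ
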