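import Pool.Agent.P.MP_0a0487_an.GZ.HDefs

/-! The homology of punctured Euclidean space. -/

set_option autoImplicit false
set_option linter.unusedSectionVars false

noncomputable section

namespace GZ

open Pool.Agent.P.MP_9699e0_gt HK3 Set Filter Topology Module

section

variable {X Y : Type} [TopologicalSpace X] [TopologicalSpace Y]

/-- Reduced cycles. -/
def SphR (S : Set X) : ∀ n, Submodule (ZMod 2) (C2 X n)
  | 0 => chn (ZMod 2) S 0 ⊓ LinearMap.ker (aug (ZMod 2))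
  | n + 1 => cyc (ZMod 2) S (n + 1)

/-- The quotient has exactly two elements. -/
def SphOne {W : Type} [AddCommGroup W] [Module (ZMod 2) W] (Z B : Submodule (ZMod 2) W) : Prop :=
  ∃ z ∈ Z, z ∉ B ∧ ∀ c ∈ Z, c ∈ B ∨ c - z ∈ B

theorem Sph_corr {W W' : Type} [AddCommGroup W] [Module (ZMod 2) W] [AddCommGroup W']
    [Module (ZMod 2) W'] {Z B : Submodule (ZMod 2) W} {Z' B' : Submodule (ZMod 2) W'}
    (r : W → W' → Prop) (h1 : ∀ c ∈ Z, ∃ d ∈ Z', r c d) (h2 : ∀ d ∈ Z', ∃ c ∈ Z, r c d)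
    (h3 : ∀ c d, r c d → (c ∈ B ↔ d ∈ B'))
    (h4 : ∀ c d c' d', r c d → r c' d' → r (c - c') (d - d')) :
    (Z' ≤ B' → Z ≤ B) ∧ (SphOne Z' B' → SphOne Z B) := by
  refine ⟨fun h c hc => ?_, ?_⟩
  · obtain ⟨d, hd, e⟩ := h1 c hc
    exact (h3 c d e).2 (h hd)
  · rintro ⟨z', a1, a2, a3⟩
    obtain ⟨z, hz, e⟩ := h2 z' a1
    refine ⟨z, hz, fun h => a2 ((h3 _ _ e).1 h), fun c hc => ?_⟩
    obtain ⟨d, hd, e'⟩ := h1 c hc
    exact (a3 d hd).imp (h3 _ _ e').2 (h3 _ _ (h4 _ _ _ _ e' e)).2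

theorem SphR_le (S : Set X) (n : ℕ) : SphR S n ≤ cyc (ZMod 2) S n := by
  cases n with
  | zero => exact inf_le_left
  | succ n => exact le_rfl

theorem SphR_cmap {f : X → Y} {S : Set X} {T : Set Y} (hf : ContinuousOn f S) (hT : MapsTo f S T)
    {n : ℕ} {c : C2 X n} (h : c ∈ SphR S n) : cmap (ZMod 2) f n c ∈ SphR T n := by
  cases n with
  | zero => exact ⟨cmap_mem hf hT h.1, (aug_cmap f c).trans h.2⟩
  | succ n => exact cmap_cyc hf hT h

theorem SphR_mono {S T : Set X} (h : S ⊆ T) (n : ℕ) : SphR S n ≤ SphR T n := by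
  cases n with
  | zero => exact inf_le_inf_right _ (chn_mono h 0)
  | succ n => exact cyc_mono h _

theorem SphR_bd {S : Set X} {n : ℕ} {a : C2 X (n + 1)}
    (h : bd (ZMod 2) X n a ∈ chn (ZMod 2) S n) : bd (ZMod 2) X n a ∈ SphR S n := by
  cases n with
  | zero => exact ⟨h, aug_bd a⟩
  | succ n => exact ⟨h, bd_bd n a⟩

theorem Sph_htpy {S : Set X} {T : Set Y} {f : X → Y} {g : Y → X}
    (hf : ContinuousOn f S) (hfT : MapsTo f S T) (hg : ContinuousOn g T) (hgS : MapsTo g T S)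
    (hfg : ∀ y ∈ T, f (g y) = y)
    (H : ℝ → X → X) (hH : ContinuousOn (fun p : ℝ × X => H p.1 p.2) (Icc 0 1 ×ˢ S))
    (hS : ∀ s ∈ Icc (0 : ℝ) 1, ∀ x ∈ S, H s x ∈ S) (h0 : ∀ x ∈ S, H 0 x = g (f x))
    (h1 : ∀ x ∈ S, H 1 x = x) (n : ℕ) :
    (SphR T n ≤ bdy (ZMod 2) T n → SphR S n ≤ bdy (ZMod 2) S n) ∧
      (SphOne (SphR T n) (bdy (ZMod 2) T n) → SphOne (SphR S n) (bdy (ZMod 2) S n)) := by
  refine Sph_corr (fun c d => c ∈ SphR S n ∧ d = cmap (ZMod 2) f n c)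
    (fun c hc => ⟨_, SphR_cmap hf hfT hc, hc, rfl⟩) (fun d hd => ?_) ?_ ?_
  · have hd' := cyc_le _ n (SphR_le T n hd)
    refine ⟨_, SphR_cmap hg hgS hd, SphR_cmap hg hgS hd, ?_⟩
    rw [cmap_comp hg hd', cmap_congr (f := f ∘ g) (g := id) hfg hd', cmap_id]
  · rintro z _ ⟨hz, rfl⟩
    refine ⟨cmap_bdy hf hfT, fun hb => ?_⟩
    have hc := SphR_le S n hz
    have hc' := cyc_le S n hc
    have a1 := htpy_cyc H hH hS hc
    have a2 := cmap_bdy hg hgS hb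
    rw [cmap_comp hf hc'] at a2
    rw [cmap_congr (f := H 1) (g := id) h1 hc', cmap_id,
      cmap_congr (f := H 0) (g := g ∘ f) h0 hc'] at a1
    have a3 := add_mem a1 a2
    rwa [sub_add_cancel] at a3
  · rintro c _ c' _ ⟨hc, rfl⟩ ⟨hc', rfl⟩
    exact ⟨sub_mem hc hc', (map_sub _ _ _).symm⟩

theorem Sph_mv {O U V : Set X} (hU : IsOpen U) (hV : IsOpen V) (h : O ⊆ U ∪ V)
    (hOU : ∀ n, SphR (O ∩ U) n ≤ bdy (ZMod 2) (O ∩ U) n)
    (hOV : ∀ n, SphR (O ∩ V) n ≤ bdy (ZMod 2) (O ∩ V) n) (n : ℕ) :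
    (SphR (O ∩ U ∩ V) n ≤ bdy (ZMod 2) (O ∩ U ∩ V) n →
        SphR O (n + 1) ≤ bdy (ZMod 2) O (n + 1)) ∧
      (SphOne (SphR (O ∩ U ∩ V) n) (bdy (ZMod 2) (O ∩ U ∩ V) n) →
        SphOne (SphR O (n + 1)) (bdy (ZMod 2) O (n + 1))) := by
  have hsub : O ∩ U ∩ V ⊆ O ∩ V := fun x hx => ⟨hx.1.1, hx.2⟩
  have key : ∀ c a b : C2 X (n + 1), c ∈ SphR O (n + 1) → c - a - b ∈ bdy (ZMod 2) O (n + 1) →
      bd (ZMod 2) X n a = -bd (ZMod 2) X n b := by
    intro c a b hc hf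
    have h2 := LinearMap.mem_ker.1 (bdy_le O _ hf).2
    rw [map_sub, map_sub, LinearMap.mem_ker.1 hc.2, zero_sub, sub_eq_zero] at h2
    rw [← h2, neg_neg]
  refine Sph_corr (fun c d => c ∈ SphR O (n + 1) ∧ ∃ a ∈ chn (ZMod 2) (O ∩ U) (n + 1),
    ∃ b ∈ chn (ZMod 2) (O ∩ V) (n + 1), c - a - b ∈ bdy (ZMod 2) O (n + 1) ∧
      d = bd (ZMod 2) X n a) (fun c hc => ?_) (fun d hd => ?_) ?_ ?_
  · obtain ⟨a, ha, b, hb, hf⟩ := mv_split hU hV h hc
    refine ⟨_, SphR_bd ?_, hc, a, ha, b, hb, hf, rfl⟩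
    rw [chn_inter]
    refine ⟨bd_mem ha, ?_⟩
    show bd (ZMod 2) X n a ∈ chn (ZMod 2) V n
    rw [key c a b hc hf]
    exact neg_mem (chn_mono inter_subset_right n (bd_mem hb))
  · obtain ⟨a, ha, ea⟩ := hOU n (SphR_mono inter_subset_left n hd)
    obtain ⟨b, hb, eb⟩ := hOV n (SphR_mono hsub n hd)
    have hc : a - b ∈ SphR O (n + 1) :=
      ⟨sub_mem (chn_mono inter_subset_left _ ha) (chn_mono inter_subset_left _ hb),
        LinearMap.mem_ker.2 (by rw [map_sub, ea, eb, sub_self])⟩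
    refine ⟨a - b, hc, hc, a, ha, -b, neg_mem hb, ?_, ea.symm⟩
    have : a - b - a - -b = 0 := by abel
    rw [this]
    exact zero_mem _
  · rintro c _ ⟨hc, a, ha, b, hb, hf, rfl⟩
    constructor
    · intro h0
      have h1 := sub_mem h0 hf
      have e : c - (c - a - b) = a + b := by abel
      rw [e] at h1
      obtain ⟨x, hx, y, hy, hxy⟩ := Submodule.mem_sup.1 (mv_bdy hU hV h (Submodule.add_mem_sup
        (chn_mono inter_subset_right _ ha) (chn_mono inter_subset_right _ hb)) h1)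
      refine ⟨a - x, ?_, ?_⟩
      · show a - x ∈ chn (ZMod 2) (O ∩ U ∩ V) (n + 1)
        rw [chn_inter]
        refine ⟨sub_mem ha (bdy_le _ _ hx).1, ?_⟩
        have e2 : a - x = y - b := by
          rw [sub_eq_sub_iff_add_eq_add, ← hxy, add_comm x y]
        show a - x ∈ chn (ZMod 2) V (n + 1)
        rw [e2]
        exact chn_mono inter_subset_right _ (sub_mem (bdy_le _ _ hy).1 hb)
      · rw [map_sub, LinearMap.mem_ker.1 (bdy_le _ _ hx).2, sub_zero]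
    · rintro ⟨e, he, he'⟩
      have a1 : a - e ∈ bdy (ZMod 2) (O ∩ U) (n + 1) :=
        hOU (n + 1) ⟨sub_mem ha (chn_mono inter_subset_left _ he),
          LinearMap.mem_ker.2 (by rw [map_sub, he', sub_self])⟩
      have a2 : b + e ∈ bdy (ZMod 2) (O ∩ V) (n + 1) :=
        hOV (n + 1) ⟨add_mem hb (chn_mono hsub _ he),
          LinearMap.mem_ker.2 (by rw [map_add, he', key c a b hc hf, add_neg_cancel])⟩
      have a3 := add_mem (add_mem (bdy_mono inter_subset_left _ a1)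
        (bdy_mono inter_subset_left _ a2)) hf
      have e3 : a - e + (b + e) + (c - a - b) = c := by abel
      rwa [e3] at a3
  · rintro c _ c' _ ⟨hc, a, ha, b, hb, hf, rfl⟩ ⟨hc', a', ha', b', hb', hf', rfl⟩
    refine ⟨sub_mem hc hc', a - a', sub_mem ha ha', b - b', sub_mem hb hb', ?_,
      (map_sub _ _ _).symm⟩
    have e : c - c' - (a - a') - (b - b') = (c - a - b) - (c' - a' - b') := by abel
    rw [e]
    exact sub_mem hf hf'

theorem Sph_disj {O U V : Set X} (hU : IsOpen U) (hV : IsOpen V) (h : O ⊆ U ∪ V)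
    (hOU : ∀ n, SphR (O ∩ U) n ≤ bdy (ZMod 2) (O ∩ U) n)
    (hOV : ∀ n, SphR (O ∩ V) n ≤ bdy (ZMod 2) (O ∩ V) n) (h0 : O ∩ U ∩ V = ∅) {p q : X}
    (hp : p ∈ O ∩ U) (hq : q ∈ O ∩ V) : SphOne (SphR O 0) (bdy (ZMod 2) O 0) := by
  obtain ⟨P, hP, aP⟩ : ∃ P ∈ chn (ZMod 2) (O ∩ U) 0, aug (ZMod 2) P = 1 :=
    ⟨Finsupp.single (ContinuousMap.const _ p) 1, single_mem (by rintro _ ⟨t, rfl⟩; exact hp) _,
      by rw [aug, ev_single, one_smul]⟩
  obtain ⟨Q, hQ, aQ⟩ : ∃ Q ∈ chn (ZMod 2) (O ∩ V) 0, aug (ZMod 2) Q = 1 :=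
    ⟨Finsupp.single (ContinuousMap.const _ q) 1, single_mem (by rintro _ ⟨t, rfl⟩; exact hq) _,
      by rw [aug, ev_single, one_smul]⟩
  have hb : ∀ (S : Set X), ∀ x ∈ bdy (ZMod 2) S 0, aug (ZMod 2) x = 0 := by
    rintro S _ ⟨e, -, rfl⟩
    exact aug_bd e
  refine ⟨P - Q, ⟨sub_mem (chn_mono inter_subset_left _ hP) (chn_mono inter_subset_left _ hQ),
    LinearMap.mem_ker.2 (by rw [map_sub, aP, aQ, sub_self])⟩, fun h1 => ?_, fun c hc => ?_⟩
  · rw [sub_eq_add_neg] at h1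
    obtain ⟨x, hx, y, hy, hxy⟩ := Submodule.mem_sup.1 (mv_bdy hU hV h (Submodule.add_mem_sup
      (chn_mono inter_subset_right _ hP) (chn_mono inter_subset_right _ (neg_mem hQ))) h1)
    have h2 : P - x ∈ chn (ZMod 2) (O ∩ U ∩ V) 0 := by
      rw [chn_inter]
      refine ⟨sub_mem hP (bdy_le _ _ hx), ?_⟩
      have e2 : P - x = y - -Q := by
        rw [sub_eq_sub_iff_add_eq_add, ← hxy, add_comm x y]
      show P - x ∈ chn (ZMod 2) V 0
      rw [e2]
      exact chn_mono inter_subset_right _ (sub_mem (bdy_le _ _ hy) (neg_mem hQ))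
    rw [h0, chn_empty, Submodule.mem_bot, sub_eq_zero] at h2
    have h3 := hb _ x hx
    rw [← h2, aP] at h3
    exact one_ne_zero h3
  · obtain ⟨a, ha, b, hb', hf⟩ := mv_split hU hV h (SphR_le O 0 hc)
    have h1 := hb _ _ hf
    rw [map_sub, map_sub, LinearMap.mem_ker.1 hc.2, zero_sub, sub_eq_zero] at h1
    have h2 : ∀ t : ZMod 2, t = 0 ∨ t = 1 := by decide
    rcases h2 (aug (ZMod 2) a) with h3 | h3
    · left
      have a1 := hOU 0 ⟨ha, LinearMap.mem_ker.2 h3⟩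
      have a2 := hOV 0 ⟨hb', LinearMap.mem_ker.2 (by rw [← h1, h3, neg_zero])⟩
      have a3 := add_mem (add_mem (bdy_mono inter_subset_left _ a1)
        (bdy_mono inter_subset_left _ a2)) hf
      have e3 : a + b + (c - a - b) = c := by abel
      rwa [e3] at a3
    · right
      have a1 := hOU 0 ⟨sub_mem ha hP, LinearMap.mem_ker.2 (by rw [map_sub, h3, aP, sub_self])⟩
      have a2 := hOV 0 ⟨add_mem hb' hQ,
        LinearMap.mem_ker.2 (by rw [map_add, ← h1, h3, aQ, neg_add_cancel])⟩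
      have a3 := add_mem (add_mem (bdy_mono inter_subset_left _ a1)
        (bdy_mono inter_subset_left _ a2)) hf
      have e3 : a - P + (b + Q) + (c - a - b) = c - (P - Q) := by abel
      rwa [e3] at a3

end

/-- The complement of a ray. -/
def SphU (m : ℕ) (s : ℝ) : Set (Fin (m + 1) → ℝ) := {x | Fin.tail x ≠ 0 ∨ 0 < s * x 0}

theorem SphU_open (m : ℕ) (s : ℝ) : IsOpen (SphU m s) :=
  (isOpen_ne_fun continuous_id.finTail continuous_const).union
    (isOpen_lt continuous_const (continuous_const.mul (continuous_apply 0)))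

theorem SphU_inter (m : ℕ) (s : ℝ) : {0}ᶜ ∩ SphU m s = SphU m s := by
  refine inter_eq_right.2 ?_
  rintro x (h | h) rfl
  · exact h rfl
  · simp at h

theorem SphU_mem (m : ℕ) {s : ℝ} (hs : s ≠ 0) : (Fin.cons s 0 : Fin (m + 1) → ℝ) ∈ SphU m s :=
  Or.inr (mul_self_pos.2 hs)

theorem SphU_acy (m : ℕ) {s : ℝ} (hs : s ≠ 0) (n : ℕ) :
    SphR ({0}ᶜ ∩ SphU m s) n ≤ bdy (ZMod 2) ({0}ᶜ ∩ SphU m s) n := by
  rw [SphU_inter]
  have h : StarConvex ℝ (Fin.cons s 0 : Fin (m + 1) → ℝ) (SphU m s) := by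
    intro y hy a b ha hb hab
    rcases hb.eq_or_lt with rfl | hb'
    · rw [add_zero] at hab
      rw [hab, one_smul, zero_smul, add_zero]
      exact SphU_mem m hs
    · rcases hy with hy | hy
      · refine Or.inl fun h0 => hy (funext fun i => ?_)
        have := congrFun h0 i
        simp only [Fin.tail, Pi.add_apply, Pi.smul_apply, Fin.cons_succ, Pi.zero_apply,
          smul_eq_mul, mul_zero, zero_add] at this
        exact (mul_eq_zero.1 this).resolve_left hb'.ne'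
      · refine Or.inr ?_
        simp only [Pi.add_apply, Pi.smul_apply, Fin.cons_zero, smul_eq_mul]
        nlinarith [mul_nonneg ha (mul_self_nonneg s), mul_pos hb' hy]
  cases n with
  | zero => exact fun c hc => mem_bdy_zero (h.isPathConnected (SphU_mem m hs)) hc.1 hc.2
  | succ n => exact cyc_le_of_star h n

theorem SphU_cover (m : ℕ) : ({0}ᶜ : Set (Fin (m + 1) → ℝ)) ⊆ SphU m 1 ∪ SphU m (-1) := by
  intro x hx
  by_cases h : Fin.tail x = 0
  · rcases lt_trichotomy (x 0) 0 with h1 | h1 | h1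
    · exact Or.inr (Or.inr (by linarith))
    · refine absurd ?_ hx
      rw [mem_singleton_iff, ← Fin.cons_self_tail x, h, h1]
      exact funext fun i => Fin.cases rfl (fun _ => rfl) i
    · exact Or.inl (Or.inr (by linarith))
  · exact Or.inl (Or.inl h)

theorem SphU_both (m : ℕ) :
    {0}ᶜ ∩ SphU m 1 ∩ SphU m (-1) = {x : Fin (m + 1) → ℝ | Fin.tail x ≠ 0} := by
  rw [SphU_inter]
  ext x
  constructor
  · rintro ⟨h1 | h1, h2 | h2⟩
    · exact h1
    · exact h1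
    · exact h2
    · exact absurd h1 (by linarith)
  · exact fun h => ⟨Or.inl h, Or.inl h⟩

theorem Sph_step (m n : ℕ) :
    (SphR ({0}ᶜ : Set (Fin m → ℝ)) n ≤ bdy (ZMod 2) {0}ᶜ n →
        SphR ({0}ᶜ : Set (Fin (m + 1) → ℝ)) (n + 1) ≤ bdy (ZMod 2) {0}ᶜ (n + 1)) ∧
      (SphOne (SphR ({0}ᶜ : Set (Fin m → ℝ)) n) (bdy (ZMod 2) {0}ᶜ n) →
        SphOne (SphR ({0}ᶜ : Set (Fin (m + 1) → ℝ)) (n + 1)) (bdy (ZMod 2) {0}ᶜ (n + 1))) := by
  have h1 := Sph_mv (SphU_open m 1) (SphU_open m (-1)) (SphU_cover m)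
    (SphU_acy m one_ne_zero) (SphU_acy m (neg_ne_zero.2 one_ne_zero)) n
  rw [SphU_both] at h1
  have h2 := Sph_htpy (S := {x : Fin (m + 1) → ℝ | Fin.tail x ≠ 0})
    (T := ({0}ᶜ : Set (Fin m → ℝ))) (f := fun x => Fin.tail x) (g := fun y => Fin.cons 0 y)
    continuous_id.finTail.continuousOn (fun x hx => hx)
    (Continuous.finCons (A := fun _ => ℝ) continuous_const continuous_id).continuousOn
    (fun y hy => hy) (fun y _ => rfl)
    (fun t x => Fin.cons (t * x 0) (Fin.tail x))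
    (Continuous.finCons (A := fun _ => ℝ) (f := fun p : ℝ × (Fin (m + 1) → ℝ) => p.1 * p.2 0)
      (by fun_prop) continuous_snd.finTail).continuousOn
    (fun t _ x hx => hx) (fun x _ => by simp only [zero_mul])
    (fun x _ => by simp only [one_mul, Fin.cons_self_tail]) n
  exact ⟨fun h => h1.1 (h2.1 h), fun h => h1.2 (h2.2 h)⟩

theorem Sph_all (m : ℕ) :
    (∀ k, k ≠ m → SphR ({0}ᶜ : Set (Fin (m + 1) → ℝ)) k ≤ bdy (ZMod 2) {0}ᶜ k) ∧
      SphOne (SphR ({0}ᶜ : Set (Fin (m + 1) → ℝ)) m) (bdy (ZMod 2) {0}ᶜ m) := by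
  induction m with
  | zero =>
    have e : ({0}ᶜ : Set (Fin 0 → ℝ)) = ∅ :=
      eq_empty_of_forall_notMem fun x hx => hx (Subsingleton.elim _ _)
    refine ⟨fun k hk => ?_, ?_⟩
    · obtain ⟨k, rfl⟩ := Nat.exists_eq_succ_of_ne_zero hk
      refine (Sph_step 0 k).1 fun c hc => ?_
      have h1 := cyc_le _ k (SphR_le _ k hc)
      rw [e, chn_empty, Submodule.mem_bot] at h1
      rw [h1]
      exact zero_mem _
    · refine Sph_disj (SphU_open 0 1) (SphU_open 0 (-1)) (SphU_cover 0)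
        (SphU_acy 0 one_ne_zero) (SphU_acy 0 (neg_ne_zero.2 one_ne_zero)) ?_
        (p := Fin.cons 1 0) (q := Fin.cons (-1) 0) ?_ ?_
      · rw [SphU_both]
        exact eq_empty_of_forall_notMem fun x hx => hx (Subsingleton.elim _ _)
      · rw [SphU_inter]
        exact SphU_mem 0 one_ne_zero
      · rw [SphU_inter]
        exact SphU_mem 0 (neg_ne_zero.2 one_ne_zero)
  | succ m ih =>
    refine ⟨fun k hk => ?_, (Sph_step (m + 1) m).2 ih.2⟩
    cases k with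
    | zero =>
      refine fun c hc => mem_bdy_zero (isPathConnected_compl_singleton_of_one_lt_rank ?_ 0)
        hc.1 hc.2
      rw [rank_fun', Fintype.card_fin]
      exact_mod_cast (by omega : 1 < m + 1 + 1)
    | succ k => exact (Sph_step (m + 1) k).1 (ih.1 k (by omega))

theorem sph_van (n k : ℕ) (h : k ≠ n) :
    cyc (ZMod 2) ({0}ᶜ : Set (Fin (n + 2) → ℝ)) (k + 1) ≤
      bdy (ZMod 2) ({0}ᶜ : Set (Fin (n + 2) → ℝ)) (k + 1) := by
  exact (Sph_all (n + 1)).1 (k + 1) (by omega)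

theorem sph_gen (n : ℕ) : ∃ z ∈ cyc (ZMod 2) ({0}ᶜ : Set (Fin (n + 2) → ℝ)) (n + 1),
    z ∉ bdy (ZMod 2) ({0}ᶜ : Set (Fin (n + 2) → ℝ)) (n + 1) ∧
    ∀ c ∈ cyc (ZMod 2) ({0}ᶜ : Set (Fin (n + 2) → ℝ)) (n + 1),
      c ∈ bdy (ZMod 2) ({0}ᶜ : Set (Fin (n + 2) → ℝ)) (n + 1) ∨
      c - z ∈ bdy (ZMod 2) ({0}ᶜ : Set (Fin (n + 2) → ℝ)) (n + 1) := by
  exact (Sph_all (n + 1)).2

end GZ
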