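import Pool.Agent.P.MP_0a0487_an.GZ.FamDeg
import Pool.Agent.P.MP_0a0487_an.GZ.FamGen

/-! The cobordism argument over a torus. -/

set_option autoImplicit false
set_option linter.unusedSectionVars false

noncomputable section

namespace GZ

open Set Filter Topology Module
open scoped ComplexConjugate

variable {b : ℕ} {U U' Y Y' Z : Type} [NormedAddCommGroup U] [NormedSpace ℂ U] [NormedSpace ℝ U]
  [IsScalarTower ℝ ℂ U] [FiniteDimensional ℂ U] [NormedAddCommGroup U'] [NormedSpace ℂ U']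
  [NormedSpace ℝ U'] [IsScalarTower ℝ ℂ U'] [FiniteDimensional ℂ U'] [NormedAddCommGroup Y]
  [NormedSpace ℝ Y] [FiniteDimensional ℝ Y] [NormedAddCommGroup Y'] [NormedSpace ℝ Y']
  [FiniteDimensional ℝ Y'] [NormedAddCommGroup Z] [NormedSpace ℝ Z] [FiniteDimensional ℝ Z]

theorem Top2_rank : finrank ℝ U' = 2 * finrank ℂ U' := by
  rw [← Module.finrank_mul_finrank ℝ ℂ U', Complex.finrank_real_complex]

theorem Top2_fin : FiniteDimensional ℝ ((U →L[ℂ] U') × Y' × (U →L[ℂ] ℂ)) := by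
  have h1 : FiniteDimensional ℝ (U →L[ℂ] U') := Module.Finite.trans ℂ _
  have h2 : FiniteDimensional ℝ (U →L[ℂ] ℂ) := Module.Finite.trans ℂ _
  infer_instance

/-- The perturbation as a linear function of the parameter. -/
def Top2_M (x : U × ℝ) : ((U →L[ℂ] U') × Y' × (U →L[ℂ] ℂ)) →L[ℝ] (U' × Y') × ℂ where
  toFun π := ((-(x.2 • π.1 x.1), -(x.2 • π.2.1)), π.2.2 x.1)
  map_add' π π' := by
    refine Prod.ext (Prod.ext ?_ ?_) ?_
    · simp [add_comm]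
    · simp [add_comm]
    · simp
  map_smul' r π := by
    refine Prod.ext (Prod.ext ?_ ?_) ?_
    · simp [smul_comm r x.2]
    · simp [smul_comm r x.2]
    · simp
  cont := by fun_prop

theorem Top2_M_apply (x : U × ℝ) (π : (U →L[ℂ] U') × Y' × (U →L[ℂ] ℂ)) :
    Top2_M x π = ((-(x.2 • π.1 x.1), -(x.2 • π.2.1)), π.2.2 x.1) := rfl

/-- A small generic perturbation. -/
theorem Top2_gen (Φ : Fam b U U' Y Y') {w₀ : U} (hw : w₀ ≠ 0) {η : ℝ → Y'} (hη : ContDiff ℝ 1 η)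
    {δ B : ℝ} (hδ : 0 < δ) :
    ∃ (A : U →L[ℂ] U') (θ : Y') (l : U →L[ℂ] ℂ), ‖A‖ * B < δ ∧ ‖θ‖ < δ ∧ l w₀ ≠ 0 ∧
      ∀ t ∈ Ioc (0 : ℝ) 1, ∀ p : (Fin b → ℝ) × U × Y, p.2.1 ∈ Φ.W p.1 → p.2.1 ≠ 0 →
        Φ.F p = (t • A p.2.1, η t + t • θ) → l p.2.1 ≠ 0 := by
  have : FiniteDimensional ℝ U' := Module.Finite.trans ℂ _
  have := Top2_fin (U := U) (U' := U') (Y' := Y')
  have hth := Φ.thin (Z := ℝ) (T := (U' × Y') × ℂ) (Pm := (U →L[ℂ] U') × Y' × (U →L[ℂ] ℂ))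
    (by
      rw [finrank_prod, finrank_prod, Top2_rank (U' := U'), Complex.finrank_real_complex, finrank_self]
      omega)
    (D := Ioc 0 1) (f := fun x => (x.1 - (0, η x.2), 0)) (M := Top2_M)
    ((contDiff_fst.sub (contDiff_const.prodMk (hη.comp contDiff_snd))).prodMk contDiff_const)
    (fun π => by
      simp only [Top2_M_apply]
      exact ((contDiff_snd.smul ((π.1.restrictScalars ℝ).contDiff.comp contDiff_fst)).neg.prodMk
        (contDiff_snd.smul contDiff_const).neg).prodMk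
        ((π.2.2.restrictScalars ℝ).contDiff.comp contDiff_fst))
    (fun w hw t ht x => by
      obtain ⟨l, hl⟩ := SeparatingDual.exists_eq_one (R := ℂ) hw
      refine ⟨(l.smulRight (-(t⁻¹ • x.1.1)), -(t⁻¹ • x.1.2), x.2 • l), ?_⟩
      rw [Top2_M_apply]
      refine Prod.ext (Prod.ext ?_ ?_) ?_
      · simp [hl, smul_inv_smul₀ ht.1.ne']
      · simp [smul_inv_smul₀ ht.1.ne']
      · simp [hl])
    (fun π x w t z hz h => by
      have z0 : z ≠ 0 := by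
        rintro rfl
        simp at hz
      rw [Top2_M_apply] at h ⊢
      have a1 := congrArg (fun y => y.1.1) h
      have a2 := congrArg (fun y => y.1.2) h
      have a3 := congrArg (fun y => y.2) h
      simp only [Prod.fst_add, Prod.snd_add, Prod.fst_sub, Prod.snd_sub, Prod.fst_zero,
        Prod.snd_zero, map_smul, sub_zero, zero_add] at a1 a2 a3
      refine Prod.ext (Prod.ext ?_ a2) ?_
      · rw [smul_comm t z, ← smul_neg, ← smul_add] at a1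
        simpa using (smul_eq_zero.1 a1).resolve_left z0
      · simpa using (smul_eq_zero.1 a3).resolve_left z0)
  obtain ⟨l₀, hl₀⟩ := SeparatingDual.exists_eq_one (R := ℂ) hw
  have ho : IsOpen {π : (U →L[ℂ] U') × Y' × (U →L[ℂ] ℂ) |
      ‖π.1‖ * B < δ ∧ ‖π.2.1‖ < δ ∧ π.2.2 w₀ ≠ 0} := by
    refine IsOpen.and (isOpen_lt (by fun_prop) continuous_const)
      (IsOpen.and (isOpen_lt (by fun_prop) continuous_const)
        (isOpen_ne_fun (by fun_prop) continuous_const))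
  obtain ⟨π, ⟨p1, p2, p3⟩, hπ⟩ := hth.dense.inter_open_nonempty _ ho
    ⟨(0, 0, l₀), by simpa using hδ, by simpa using hδ, by simp [hl₀]⟩
  refine ⟨π.1, π.2.1, π.2.2, p1, p2, p3, fun t ht p hp hp0 hF hl => hπ ⟨p, t, hp, hp0, ht, ?_⟩⟩
  rw [Top2_M_apply, hF]
  refine Prod.ext (Prod.ext ?_ ?_) ?_
  · simp
  · simp
  · simpa using hl

/-- The cobordism argument along a path of parameters. -/
theorem Fam.top2 (Φ : Fam b U U' Y Y') {w₀ : U} {η : ℝ → Y'} (h : Φ.Base w₀ (η 0))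
    (hη : ContDiff ℝ 1 η) {N : U × Y → ℝ} {R : ℝ} (hN : Size N R)
    (h1 : ∀ t ∈ Icc (0 : ℝ) 1, ∀ p : (Fin b → ℝ) × U × Y, p.2.1 ∈ Φ.W p.1 → N p.2 ≤ R →
      Φ.F p = (0, η t) → N p.2 ≠ R ∧ p.2.1 ≠ 0 ∧ t ≠ 1)
    (hR : N (w₀, 0) ≤ R)
    (uniq : ∀ p : (Fin b → ℝ) × U × Y, p.2.1 ∈ Φ.W p.1 → N p.2 ≤ R → Φ.F p = (0, η 0) →
      ∃ (m : Fin b → ℤ) (z : ℂ), ‖z‖ = 1 ∧ p = (zc m, z • w₀, 0)) : False := by
  have : FiniteDimensional ℝ U' := Module.Finite.trans ℂ _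
  obtain ⟨δ, hδ, hp⟩ := Φ.pert (Z := ℝ) hN (C := Icc 0 1) isCompact_Icc hη.continuous
    (O := {x | N x.1 < R ∧ x.1.1 ≠ 0 ∧ x.2 ≠ 1})
    ((isOpen_lt (hN.cont.comp continuous_fst) continuous_const).inter
      ((isOpen_ne_fun (by fun_prop) continuous_const).inter
        (isOpen_ne_fun continuous_snd continuous_const)))
    (fun t ht p p1 p2 p3 =>
      ⟨p2.lt_of_ne (h1 t ht p p1 p2 p3).1, (h1 t ht p p1 p2 p3).2.1, (h1 t ht p p1 p2 p3).2.2⟩)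
  obtain ⟨B, hB⟩ := hN.bdd.exists_norm_le
  obtain ⟨A, θ, l, hA, hθ, hl, hg⟩ := Top2_gen Φ h.ne hη (B := B) hδ
  have nz : ∀ z : ℂ, ‖z‖ = 1 → z ≠ 0 := fun z hz h0 => by simp [h0] at hz
  have sol : ∀ t ∈ Icc (0 : ℝ) 1, ∀ p : (Fin b → ℝ) × U × Y, p.2.1 ∈ Φ.W p.1 → N p.2 ≤ R →
      Φ.F p = (t • A p.2.1, η t + t • θ) → (N p.2 < R ∧ l p.2.1 ≠ 0) ∧ t ≠ 1 := by
    intro t ht p p1 p2 p3
    have t1 : ‖t‖ ≤ 1 := by rw [Real.norm_of_nonneg ht.1]; exact ht.2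
    have q := hp t ht t (by simpa using hδ.le) p p1 p2 (by
      rw [p3, Prod.mk_sub_mk, sub_zero, add_sub_cancel_left, Prod.norm_mk, norm_smul, norm_smul]
      refine max_le ((mul_le_of_le_one_left (norm_nonneg _) t1).trans ?_)
        ((mul_le_of_le_one_left (norm_nonneg _) t1).trans hθ.le)
      exact ((A.le_opNorm _).trans (mul_le_mul_of_nonneg_left
        ((norm_fst_le p.2).trans (hB p.2 p2)) (norm_nonneg _))).trans hA.le)
    refine ⟨⟨q.1, ?_⟩, q.2.2⟩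
    rcases ht.1.eq_or_lt with rfl | t0
    · obtain ⟨m, z, hz, rfl⟩ := uniq p p1 p2 (by simpa using p3)
      simpa using ⟨nz z hz, hl⟩
    · exact hg t ⟨t0, ht.2⟩ p p1 q.2.1 p3
  obtain ⟨H, hH⟩ : ∃ H : ℝ → ((Fin b → ℝ) × U × Y) × (Fin 0 → ℝ) → U' × Y', ∀ t p, H t p =
      (conj (l p.1.2.1) • ((Φ.F p.1).1 - t • A p.1.2.1), (Φ.F p.1).2 - (η t + t • θ)) :=
    ⟨_, fun _ _ => rfl⟩
  have hz : ∀ t (p : ((Fin b → ℝ) × U × Y) × (Fin 0 → ℝ)), l p.1.2.1 ≠ 0 → H t p = 0 →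
      Φ.F p.1 = (t • A p.1.2.1, η t + t • θ) := by
    intro t p p1 p2
    rw [hH, Prod.mk_eq_zero, smul_eq_zero, sub_eq_zero, sub_eq_zero] at p2
    exact Prod.ext (p2.1.resolve_left (by simpa using p1)) p2.2
  have hr : ∀ t, ∀ p ∈ Φ.Tot (Fin 0 → ℝ), ∀ q, Rel False (0 : U →L[ℝ] U) p q → H t q = H t p := by
    rintro t ⟨⟨a, w, y⟩, ζ⟩ hp _ ⟨m, z, hz, rfl | ⟨hf, -⟩⟩
    · have hw : w ∈ Φ.W a := hp
      have e : conj z * z = 1 := by rw [Complex.conj_mul', hz]; simp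
      simp only [hH]
      rw [Φ.F_per a m _ y (Submodule.smul_mem _ z hw), Φ.F_rot a w y z hz hw]
      simp only [map_smul, smul_eq_mul, map_mul]
      rw [smul_comm t z, ← smul_sub, smul_smul, mul_right_comm, e, one_mul]
    · exact hf.elim
  obtain ⟨G, T, hG, hG', hT⟩ := h.nd
  have G0 : G (0, w₀, 0) = (0, η 0) := by rw [← hG'.self_of_nhds h.mem, h.sol]
  have hC := Φ.isCompact hN
  have hK : IsCompact (({p : (Fin b → ℝ) × U × Y | p.1 ∈ Icc 0 1 ∧ p.2.1 ∈ Φ.W p.1 ∧ N p.2 ≤ R} ×ˢ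
      Icc (0 : ℝ) 1) ∩ {x | Φ.F x.1 = (x.2 • A x.1.2.1, η x.2 + x.2 • θ)}) := by
    have c1 := hη.continuous
    refine (hC.prod isCompact_Icc).of_isClosed_subset ?_ inter_subset_left
    exact (hC.prod isCompact_Icc).isClosed.isClosed_eq
      (Φ.F_cont.comp continuousOn_fst fun x hx => hx.1.2.1) (by fun_prop)
  have hc : HasFDerivAt (fun p : ((Fin b → ℝ) × U × Y) × (Fin 0 → ℝ) => conj (l p.1.2.1)) _
      ((0, w₀, 0), 0) :=
    ((Complex.conjCLE : ℂ →L[ℝ] ℂ).comp ((l.restrictScalars ℝ).comp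
      ((ContinuousLinearMap.fst ℝ U Y).comp ((ContinuousLinearMap.snd ℝ (Fin b → ℝ) (U × Y)).comp
        (ContinuousLinearMap.fst ℝ ((Fin b → ℝ) × U × Y) (Fin 0 → ℝ)))))).hasFDerivAt
  have hG1 : HasFDerivAt (fun p : ((Fin b → ℝ) × U × Y) × (Fin 0 → ℝ) => G p.1) _
      ((0, w₀, 0), 0) := HasFDerivAt.comp _ hG hasFDerivAt_fst
  obtain ⟨p, hp, h0⟩ := Φ.deg (Z := Fin 0 → ℝ) (E' := U' × Y') h.mem h.const (c := False) (j := 0)
    False.elim False.elim False.elim (by rw [finrank_prod, Top2_rank (U' := U')]; simp)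
    (O := {p | N p.1.2 < R ∧ l p.1.2.1 ≠ 0})
    ((isOpen_lt (hN.cont.comp (by fun_prop)) continuous_const).inter
      (isOpen_ne_fun (by fun_prop) continuous_const))
    (fun p hp h0 => hp.2 (by rw [h0, map_zero]))
    (by
      rintro ⟨⟨a, w, y⟩, ζ⟩ hp _ ⟨m, z, hz, rfl | ⟨hf, -⟩⟩
      · refine ⟨(hN.rot z hz w y).trans_lt hp.1.1, ?_⟩
        change l (z • w) ≠ 0
        rw [map_smul]
        exact smul_ne_zero (nz z hz) hp.1.2
      · exact hf.elim)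
    H
    (by
      have c1 := hη.continuous
      have c2 : ContinuousOn (fun p : ℝ × (((Fin b → ℝ) × U × Y) × (Fin 0 → ℝ)) => Φ.F p.2.1)
          (Icc 0 1 ×ˢ ({p | N p.1.2 < R ∧ l p.1.2.1 ≠ 0} ∩ Φ.Tot (Fin 0 → ℝ))) :=
        Φ.F_cont.comp (by fun_prop) fun x hx => hx.2.2
      simp only [hH]
      exact (ContinuousOn.smul (Continuous.continuousOn (by fun_prop))
        (c2.fst.sub (by fun_prop))).prodMk (c2.snd.sub (by fun_prop)))
    (fun t _ p hp => hr t p hp.2)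
    (hK.image (f := fun x => (x.1, (0 : Fin 0 → ℝ))) (by fun_prop))
    (by
      rintro _ ⟨x, ⟨⟨p1, p2⟩, p3⟩, rfl⟩
      exact ⟨(sol x.2 p2 x.1 p1.2.1 p1.2.2 p3).1, p1.2.1⟩)
    (by
      rintro t ht ⟨⟨a, w, y⟩, ζ⟩ hp h0
      obtain ⟨a', ha', m, rfl⟩ := exists_red a
      have hw : w ∈ Φ.W a' := Φ.W_per a' m ▸ hp.2
      refine ⟨((a', w, y), 0), ⟨((a', w, y), t), ⟨⟨⟨ha', hw, hp.1.1.le⟩, ht⟩, ?_⟩, rfl⟩,
        -m, 1, norm_one, Or.inl ?_⟩
      · exact (Φ.F_per a' m w y hw).symm.trans (hz t _ hp.1.2 h0)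
      · rw [zc_neg, one_smul, add_neg_cancel_right, Subsingleton.elim ζ 0])
    (ζ₀ := 0) ⟨hR.lt_of_ne (h1 0 ⟨le_rfl, zero_le_one⟩ (0, w₀, 0) h.mem hR h.sol).1, hl⟩
    (by
      rintro ⟨p, ζ⟩ hp
      refine ⟨fun h0 => ?_, fun h0 => ?_⟩
      · obtain ⟨m, z, hz', rfl⟩ := uniq p hp.2 hp.1.1.le (by simpa using hz 0 _ hp.1.2 h0)
        have e : conj z * z = 1 := by rw [Complex.conj_mul', hz']; simp
        refine ⟨-m, conj z, by simpa using hz', Or.inl ?_⟩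
        rw [zc_neg, add_neg_cancel, smul_smul, e, one_smul, Subsingleton.elim ζ 0]
      · rw [← hr 0 _ hp.2 _ h0, hH]
        simp [h.sol])
    ((hc.smul hG1.fst).prodMk (hG1.snd.sub_const (η 0)))
    (by
      filter_upwards [(continuous_fst.tendsto' ((0, w₀, 0), (0 : Fin 0 → ℝ)) _ rfl).eventually hG']
        with p hp hw
      rw [hH, hp hw]
      simp)
    (by
      intro p hp h0
      have a1 := congrArg Prod.fst h0
      have a2 := congrArg Prod.snd h0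
      simp [G0, hl] at a1 a2
      obtain ⟨q1, q2, q3⟩ := hT p.1 hp (Prod.ext a1 a2)
      exact ⟨q1, q2, Subsingleton.elim _ _, q3⟩)
  exact (sol 1 ⟨zero_le_one, le_rfl⟩ p.1 hp.2 hp.1.1.le (hz 1 p hp.1.2 h0)).2 rfl

end GZ
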