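import Pool.Agent.P.MP_0a0487_an.GZ.Top3Aux

/-! Small perturbations, orbits and the derivative at the base point. -/

set_option autoImplicit false
set_option linter.unusedSectionVars false

noncomputable section

namespace GZ

open Set Filter Topology Module
open scoped ComplexConjugate

variable {b : ℕ} {U U' Y Y' Z : Type} [NormedAddCommGroup U] [NormedSpace ℂ U] [NormedSpace ℝ U]
  [IsScalarTower ℝ ℂ U] [FiniteDimensional ℂ U] [NormedAddCommGroup U'] [NormedSpace ℂ U']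
  [NormedSpace ℝ U'] [IsScalarTower ℝ ℂ U'] [FiniteDimensional ℂ U'] [NormedAddCommGroup Y]
  [NormedSpace ℝ Y] [FiniteDimensional ℝ Y] [NormedAddCommGroup Y'] [NormedSpace ℝ Y']
  [FiniteDimensional ℝ Y'] [NormedAddCommGroup Z] [NormedSpace ℝ Z] [FiniteDimensional ℝ Z]

theorem Top3_small (Φ : Fam b U U' Y Y') {j : U →L[ℝ] U} {j' : U' →L[ℝ] U'} (hs : Φ.Sym j j')
    (ε : (Fin 4 → ℝ) →L[ℝ] Y') {w₀ : U} (hw : w₀ ≠ 0) {N : U × Y → ℝ} {R : ℝ} (hN : Size N R)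
    (h1 : ∀ η : Fin 4 → ℝ, ∑ i, η i ^ 2 = 1 → ∀ p : (Fin b → ℝ) × U × Y, p.2.1 ∈ Φ.W p.1 →
      N p.2 ≤ R → Φ.F p = (0, ε η) → N p.2 ≠ R ∧ p.2.1 ≠ 0) :
    ∃ (P : Top3Eq j j') (B : (Fin 4 → ℝ) →L[ℝ] Y') (L : Top3Eq j Top3j), L.1 w₀ ≠ 0 ∧
      ∀ t ∈ Icc (0 : ℝ) 1, ∀ (η : Fin 4 → ℝ) (p : (Fin b → ℝ) × U × Y), ∑ i, η i ^ 2 = 1 →
        p.2.1 ∈ Φ.W p.1 → N p.2 ≤ R → Φ.F p = (t • P.1 p.2.1, ε η + t • B η) → N p.2 < R ∧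
          (t ≠ 0 → (t = 1 ∨ η = η 3 • (Pi.single 3 1 : Fin 4 → ℝ)) → L.1 p.2.1 ≠ 0) := by
  obtain ⟨δ, hδ, hp⟩ := Φ.pert hN Top3_cpt ε.continuous (O := {x | N x.1 ≠ R ∧ x.1.1 ≠ 0})
    (IsOpen.and (isOpen_ne_fun (hN.cont.comp continuous_fst) continuous_const)
      (isOpen_ne_fun continuous_fst.fst continuous_const)) h1
  obtain ⟨R', hR0, hR'⟩ := hN.bdd.exists_pos_norm_le
  obtain ⟨P, B, L, hP, hB, hL, gen⟩ := Top3_gen Φ hs ε hw (div_pos hδ (add_pos hR0 one_pos))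
  refine ⟨P, B, L, hL, fun t ht η p hη hW hR hF => ?_⟩
  rw [lt_div_iff₀ (add_pos hR0 one_pos)] at hP hB
  have sm : ∀ x : ℝ, 0 ≤ x → ‖t‖ * x ≤ x := fun x hx =>
    mul_le_of_le_one_left hx (by rw [Real.norm_of_nonneg ht.1]; exact ht.2)
  have h2 : ‖Φ.F p - (0, ε η)‖ ≤ δ := by
    rw [hF, Prod.mk_sub_mk, sub_zero, add_sub_cancel_left, Prod.norm_mk, norm_smul, norm_smul]
    refine max_le ((sm _ (norm_nonneg _)).trans ((P.1.le_opNorm _).trans (le_trans ?_ hP.le)))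
      ((sm _ (norm_nonneg _)).trans ((B.le_opNorm _).trans (le_trans ?_ hB.le)))
    · exact mul_le_mul_of_nonneg_left (((norm_fst_le _).trans (hR' _ hR)).trans
        (le_add_of_nonneg_right zero_le_one)) (norm_nonneg _)
    · exact mul_le_mul_of_nonneg_left ((Top3_le hη).trans (le_add_of_nonneg_left hR0.le))
        (norm_nonneg _)
  have h3 := hp η hη η (by simpa using hδ.le) p hW hR h2
  exact ⟨lt_of_le_of_ne hR h3.1, fun a c => gen t η p a hη c hW h3.2 hF⟩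

theorem Top3_zero (Φ : Fam b U U' Y Y') {j : U →L[ℝ] U} {j' : U' →L[ℝ] U'} (hs : Φ.Sym j j')
    {ε : (Fin 4 → ℝ) →L[ℝ] Y'} {w₀ : U} {N : U × Y → ℝ} {R : ℝ}
    (hj : ∀ w y, N (j w, -y) = N (w, y))
    (uniq : ∀ p : (Fin b → ℝ) × U × Y, p.2.1 ∈ Φ.W p.1 → N p.2 ≤ R →
      Φ.F p = (0, ε (Pi.single 3 1)) →
      ∃ (m : Fin b → ℤ) (z : ℂ), ‖z‖ = 1 ∧ p = (zc m, z • w₀, 0))
    {p : (Fin b → ℝ) × U × Y} {η : Fin 4 → ℝ} (hη : ∑ i, η i ^ 2 = 1)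
    (h3 : η = η 3 • (Pi.single 3 1 : Fin 4 → ℝ)) (hW : p.2.1 ∈ Φ.W p.1) (hR : N p.2 ≤ R)
    (hF : Φ.F p = (0, ε η)) :
    Rel True j (p, (η, (0 : Z))) ((0, w₀, 0), (Pi.single 3 1, 0)) := by
  have e : ∀ z : ℂ, ‖z‖ = 1 → conj z • z • w₀ = w₀ := fun z hz => by
    rw [smul_smul, mul_comm, Complex.mul_conj, Complex.normSq_eq_norm_sq, hz]
    simp
  have h4 : η 3 ^ 2 = 1 := by
    rw [h3] at hη
    simpa [Fin.sum_univ_four] using hη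
  obtain ⟨a, w, y⟩ := p
  rcases sq_eq_one_iff.1 h4 with h5 | h5
  · rw [h5, one_smul] at h3
    subst h3
    obtain ⟨m, z, hz, h6⟩ := uniq _ hW hR hF
    rw [h6]
    exact ⟨-m, conj z, by simp [hz], Or.inl (by simp [zc_neg, e z hz])⟩
  · rw [h5, neg_smul, one_smul] at h3
    subst h3
    obtain ⟨m, z, hz, h6⟩ := uniq (-a, j w, -y) (hs.W_neg a w hW) ((hj w y).trans_le hR)
      (by rw [hs.F_neg a w y hW, hF]; simp)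
    simp only [Prod.mk.injEq] at h6
    exact ⟨-m, conj z, by simp [hz], Or.inr ⟨trivial, by simp [zc_neg, h6, e z hz]⟩⟩

theorem Top3_rel (Φ : Fam b U U' Y Y') {j : U →L[ℝ] U} {j' : U' →L[ℝ] U'} (hs : Φ.Sym j j')
    {p q : ((Fin b → ℝ) × U × Y) × Z} (hp : p ∈ Φ.Tot Z) (h : Rel True j p q) :
    ∃ z : ℂ, ‖z‖ = 1 ∧ ((q.1.2 = (z • p.1.2.1, p.1.2.2) ∧ q.2 = p.2 ∧
      Φ.F q.1 = (z • (Φ.F p.1).1, (Φ.F p.1).2)) ∨ (q.1.2 = (z • j p.1.2.1, -p.1.2.2) ∧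
        q.2 = -p.2 ∧ Φ.F q.1 = (z • j' (Φ.F p.1).1, -(Φ.F p.1).2))) := by
  obtain ⟨m, z, hz, rfl | ⟨-, rfl⟩⟩ := h
  · refine ⟨z, hz, Or.inl ⟨rfl, rfl, ?_⟩⟩
    rw [Φ.F_per _ m _ _ (Submodule.smul_mem _ z hp), Φ.F_rot _ _ _ z hz hp]
  · have hp' := hs.W_neg _ _ hp
    refine ⟨z, hz, Or.inr ⟨rfl, rfl, ?_⟩⟩
    rw [Φ.F_per _ m _ _ (Submodule.smul_mem _ z hp'), Φ.F_rot _ _ _ z hz hp', hs.F_neg _ _ _ hp]

/-- The odd part of the target. -/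
abbrev Top3Q (Y' : Type) : Type := Y' × ℝ × ℂ

/-- The additional variables. -/
abbrev Top3Z (Y' : Type) : Type := (Fin 4 → ℝ) × Top3Q Y' × Top3Q Y' × Top3Q Y'

/-- The target. -/
abbrev Top3E (U' Y' : Type) : Type := U' × (Top3Q Y' × Top3Q Y' × Top3Q Y' × Top3Q Y') × ℝ

theorem Top3_der (Φ : Fam b U U' Y Y') {ε : (Fin 4 → ℝ) →L[ℝ] Y'} {w₀ : U}
    (h : Φ.Base w₀ (ε (Pi.single 3 1))) (μ : U →L[ℝ] U' →L[ℝ] U') (hμ : ∀ v, μ w₀ v = 0 → v = 0)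
    (q : (Fin 4 → ℝ) →L[ℝ] (Top3Q Y' × Top3Q Y' × Top3Q Y' × Top3Q Y') →L[ℝ]
      Top3Q Y' × Top3Q Y' × Top3Q Y' × Top3Q Y') (hq : ∀ v, q (Pi.single 3 1) v = 0 → v = 0)
    {pr : (Fin 4 → ℝ) →L[ℝ] ℝ × ℂ} (hpr : ∀ η, pr η = 0 ↔ η = η 3 • (Pi.single 3 1 : Fin 4 → ℝ)) :
    ∃ (G : ((Fin b → ℝ) × U × Y) × Top3Z Y' → Top3E U' Y')
      (T : (((Fin b → ℝ) × U × Y) × Top3Z Y') →L[ℝ] Top3E U' Y'),
      HasFDerivAt G T ((0, w₀, 0), (Pi.single 3 1, 0)) ∧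
      (∀ᶠ p in 𝓝 (((0, w₀, 0), (Pi.single 3 1, 0)) : ((Fin b → ℝ) × U × Y) × Top3Z Y'),
        p.1.2.1 ∈ Φ.W 0 → (μ p.1.2.1 (Φ.F p.1).1,
          q p.2.1 (((Φ.F p.1).2 - ε p.2.1, pr p.2.1), p.2.2), ∑ i, p.2.1 i ^ 2 - 1) = G p) ∧
      ∀ p : ((Fin b → ℝ) × U × Y) × Top3Z Y', p.1.2.1 ∈ Φ.W 0 → T p = 0 →
        p.1.1 = 0 ∧ p.1.2.2 = 0 ∧ p.2 = 0 ∧ ∃ t : ℝ, p.1.2.1 = ((t : ℂ) * Complex.I) • w₀ := by
  obtain ⟨G, T, hG, hG', hT⟩ := h.nd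
  obtain ⟨s, hs, hs'⟩ := Top3_sq
  have hb : G (0, w₀, 0) = (0, ε (Pi.single 3 1)) := (hG'.self_of_nhds h.mem).symm.trans h.sol
  set x₀ : ((Fin b → ℝ) × U × Y) × Top3Z Y' := ((0, w₀, 0), (Pi.single 3 1, 0)) with hx
  have d1 : HasFDerivAt (fun p : ((Fin b → ℝ) × U × Y) × Top3Z Y' => G p.1) _ x₀ :=
    HasFDerivAt.comp x₀ hG hasFDerivAt_fst
  have d2 : HasFDerivAt (𝕜 := ℝ) (fun p : ((Fin b → ℝ) × U × Y) × Top3Z Y' => p.2.1) _ x₀ :=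
    hasFDerivAt_snd.fst
  have d3 : HasFDerivAt (𝕜 := ℝ) (fun p : ((Fin b → ℝ) × U × Y) × Top3Z Y' => p.2.2) _ x₀ :=
    hasFDerivAt_snd.snd
  have d4 : HasFDerivAt (𝕜 := ℝ) (fun p : ((Fin b → ℝ) × U × Y) × Top3Z Y' => p.1.2.1) _ x₀ :=
    hasFDerivAt_fst.snd.fst
  have e1 := (μ.hasFDerivAt.comp x₀ d4).clm_apply d1.fst
  have e2 := (q.hasFDerivAt.comp x₀ d2).clm_apply (((d1.snd.sub (ε.hasFDerivAt.comp x₀ d2)).prodMk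
    (pr.hasFDerivAt.comp x₀ d2)).prodMk d3)
  have e3 := HasFDerivAt.comp x₀ hs d2
  refine ⟨_, _, e1.prodMk (e2.prodMk e3), ?_, fun p hp e => ?_⟩
  · filter_upwards [(continuous_fst.tendsto x₀).eventually hG'] with p h1 h2
    rw [h1 h2]
    rfl
  · have p3 : pr (Pi.single 3 1) = 0 := (hpr _).2 (by simp)
    have f1 : μ w₀ (T p.1).1 = 0 := by simpa [hx, hb] using congrArg (·.1) e
    have f2 : q (Pi.single 3 1) (((T p.1).2 - ε p.2.1, pr p.2.1), p.2.2) = 0 := by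
      simpa [hx, hb, p3, Prod.mk_zero_zero] using congrArg (·.2.1) e
    have f3 : s p.2.1 = 0 := congrArg (·.2.2) e
    have f4 := hq _ f2
    simp only [Prod.mk_eq_zero] at f4
    have f5 : p.2.1 = 0 := by
      rw [(hpr _).1 f4.1.2, (mul_eq_zero.1 ((hs' _).symm.trans f3)).resolve_left two_ne_zero,
        zero_smul]
    have f6 := hT p.1 hp (Prod.ext (hμ _ f1) (by simpa [f5] using f4.1.1))
    exact ⟨f6.1, f6.2.1, Prod.ext f5 f4.2, f6.2.2⟩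

end GZ
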