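import Pool.Agent.P.MP_0a0487_an.GZ.FamDeg
import Pool.Agent.P.MP_0a0487_an.GZ.FamGen
import Pool.Agent.P.MP_0a0487_an.GZ.Top3AuxB

/-! The quaternionic cobordism argument. -/

set_option autoImplicit false
set_option linter.unusedSectionVars false

noncomputable section

namespace GZ

open Set Filter Topology Module
open scoped ComplexConjugate

variable {b : ℕ} {U U' Y Y' Z : Type} [NormedAddCommGroup U] [NormedSpace ℂ U] [NormedSpace ℝ U]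
  [IsScalarTower ℝ ℂ U] [FiniteDimensional ℂ U] [NormedAddCommGroup U'] [NormedSpace ℂ U']
  [NormedSpace ℝ U'] [IsScalarTower ℝ ℂ U'] [FiniteDimensional ℂ U'] [NormedAddCommGroup Y]
  [NormedSpace ℝ Y] [FiniteDimensional ℝ Y] [NormedAddCommGroup Y'] [NormedSpace ℝ Y']
  [FiniteDimensional ℝ Y'] [NormedAddCommGroup Z] [NormedSpace ℝ Z] [FiniteDimensional ℝ Z]

/-- The quaternionic cobordism argument over a three-sphere of parameters. -/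
theorem Fam.top3 (Φ : Fam b U U' Y Y') {j : U →L[ℝ] U} {j' : U' →L[ℝ] U'} (hs : Φ.Sym j j')
    (ε : (Fin 4 → ℝ) →L[ℝ] Y') {w₀ : U} (h : Φ.Base w₀ (ε (Pi.single 3 1)))
    {N : U × Y → ℝ} {R : ℝ} (hN : Size N R) (hj : ∀ w y, N (j w, -y) = N (w, y))
    (h1 : ∀ η : Fin 4 → ℝ, ∑ i, η i ^ 2 = 1 → ∀ p : (Fin b → ℝ) × U × Y, p.2.1 ∈ Φ.W p.1 →
      N p.2 ≤ R → Φ.F p = (0, ε η) → N p.2 ≠ R ∧ p.2.1 ≠ 0)
    (hR : N (w₀, 0) ≤ R)
    (uniq : ∀ p : (Fin b → ℝ) × U × Y, p.2.1 ∈ Φ.W p.1 → N p.2 ≤ R →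
      Φ.F p = (0, ε (Pi.single 3 1)) →
      ∃ (m : Fin b → ℤ) (z : ℂ), ‖z‖ = 1 ∧ p = (zc m, z • w₀, 0)) : False := by
  have := Top3_fin (U := U)
  have := Top3_fin (U := U')
  obtain ⟨μ, μ1, μ2, μ3⟩ := Top3_mu hs.j'_smul hs.j'_j'
  obtain ⟨q, hq⟩ := Top3_qm (Y := Top3Q Y')
  obtain ⟨hp, hpc, hp1, hp2, hp3⟩ := Top3_hopf
  obtain ⟨pr, hpr⟩ := Top3_pr
  obtain ⟨P, B, L, hL, gen⟩ := Top3_small Φ hs ε h.ne hN h1
  have e30 : (Pi.single 3 1 : Fin 4 → ℝ) ≠ 0 := by simp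
  have e31 : ∑ i, (Pi.single 3 1 : Fin 4 → ℝ) i ^ 2 = 1 := by simp [Fin.sum_univ_four]
  have p3 : pr (Pi.single 3 1) = 0 := (hpr _).2 (by simp)
  obtain ⟨G, T, hG, hG', hT⟩ := Top3_der Φ h (μ.comp L.1) (μ3 _ hL) q (hq _ e30) hpr
  obtain ⟨e, he⟩ : ∃ e : ℝ → ((Fin b → ℝ) × U × Y) × Top3Z Y' → Top3E U' Y', ∀ t p, e t p =
      ((Φ.F p.1).1 - t • P.1 p.1.2.1, (((Φ.F p.1).2 - (ε p.2.1 + t • B p.2.1),
        (1 - t) • pr p.2.1 + t • hp (L.1 p.1.2.1)), p.2.2), ∑ i, p.2.1 i ^ 2 - 1) :=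
    ⟨_, fun _ _ => rfl⟩
  have he0 : ∀ t p, e t p = 0 ↔ Φ.F p.1 = (t • P.1 p.1.2.1, ε p.2.1 + t • B p.2.1) ∧
      (1 - t) • pr p.2.1 + t • hp (L.1 p.1.2.1) = 0 ∧ p.2.2 = 0 ∧ ∑ i, p.2.1 i ^ 2 = 1 := by
    intro t p
    simp only [he, Prod.mk_eq_zero, sub_eq_zero, Prod.ext_iff (x := Φ.F p.1), and_assoc]
  have ec : ContinuousOn (fun x : ℝ × (((Fin b → ℝ) × U × Y) × Top3Z Y') => e x.1 x.2)
      (univ ×ˢ Φ.Tot _) := by
    have c1 : ContinuousOn (fun x : ℝ × (((Fin b → ℝ) × U × Y) × Top3Z Y') => Φ.F x.2.1)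
        (univ ×ˢ Φ.Tot _) := Φ.F_cont.comp continuous_snd.fst.continuousOn fun x hx => hx.2
    simp only [he]
    fun_prop
  obtain ⟨H, hH⟩ : ∃ H : ℝ → ((Fin b → ℝ) × U × Y) × Top3Z Y' → Top3E U' Y', ∀ t p, H t p =
      (μ (L.1 p.1.2.1) (e t p).1, q p.2.1 (e t p).2.1, (e t p).2.2) := ⟨_, fun _ _ => rfl⟩
  let O : Set (((Fin b → ℝ) × U × Y) × Top3Z Y') :=
    {p | N p.1.2 < R ∧ L.1 p.1.2.1 ≠ 0 ∧ p.2.1 ≠ 0}
  have hH0 : ∀ t, ∀ p ∈ O, H t p = 0 ↔ e t p = 0 := fun t p hp => by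
    refine ⟨fun h => ?_, fun h => by simp [hH, h]⟩
    rw [hH] at h
    exact Prod.ext (μ3 _ hp.2.1 _ (congrArg (·.1) h))
      (Prod.ext (hq _ hp.2.2 _ (congrArg (·.2.1) h)) (congrArg (·.2.2) h))
  have inv : ∀ p ∈ Φ.Tot (Top3Z Y'), ∀ p', Rel True j p p' → N p'.1.2 = N p.1.2 ∧
      (L.1 p'.1.2.1 = 0 ↔ L.1 p.1.2.1 = 0) ∧ (p'.2.1 = 0 ↔ p.2.1 = 0) ∧ ∀ t, H t p' = H t p := by
    intro p hp' p' hr
    obtain ⟨z, hz, ⟨r1, r2, r3⟩ | ⟨r1, r2, r3⟩⟩ := Top3_rel Φ hs hp' hr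
    all_goals have hz0 : z ≠ 0 := norm_ne_zero_iff.1 (by rw [hz]; exact one_ne_zero)
    · refine ⟨by rw [r1, hN.rot z hz], by simp [r1, L.2.1, hz0], by rw [r2], fun t => ?_⟩
      simp only [hH, he, r1, r2, r3, L.2.1, P.2.1, hp1 z _ hz, smul_comm t z, ← smul_sub,
        μ1 z _ _ hz]
    · refine ⟨by rw [r1, hN.rot z hz, hj], ?_, by simp [r2], fun t => ?_⟩
      · simp only [r1, L.2.1, L.2.2, smul_eq_zero, hz0, false_or]
        refine ⟨fun h => ?_, fun h => by rw [h, map_zero]⟩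
        rw [← neg_eq_zero, ← Top3j_j, h, map_zero]
      · have k1 : (e t p').1 = z • j' (e t p).1 := by
          simp only [he, r1, r3, P.2.1, P.2.2, map_sub, map_smul, smul_comm t z, smul_sub]
        have k2 : (e t p').2.1 = -(e t p).2.1 := by
          simp only [he, r1, r2, r3, L.2.1, L.2.2, hp1 z _ hz, hp2, Prod.fst_neg, Prod.snd_neg,
            map_neg, smul_neg, Prod.neg_mk, Prod.mk.injEq, and_true]
          constructor <;> abel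
        have k3 : (e t p').2.2 = (e t p).2.2 := by simp [he, r2]
        rw [hH, hH, k1, k2, k3, r1, r2]
        simp only [L.2.1, L.2.2, μ1 z _ _ hz, μ2, Prod.fst_neg, map_neg, neg_apply, neg_neg]
  have hOr : ∀ p ∈ O ∩ Φ.Tot _, ∀ p', Rel True j p p' → p' ∈ O := fun p hp' p' hr => by
    obtain ⟨i1, i2, i3, -⟩ := inv p hp'.2 p' hr
    exact ⟨i1.trans_lt hp'.1.1, mt i2.1 hp'.1.2.1, mt i3.1 hp'.1.2.2⟩
  have zero : ∀ p ∈ Φ.Tot (Top3Z Y'), N p.1.2 ≤ R → e 0 p = 0 →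
      Rel True j p ((0, w₀, 0), (Pi.single 3 1, 0)) := fun p hp' hR' h0 => by
    obtain ⟨a1, a2, a3, a4⟩ := (he0 0 p).1 h0
    have e' : p = (p.1, (p.2.1, 0)) := by rw [← a3]
    rw [e']
    exact Top3_zero Φ hs hj uniq a4 ((hpr _).1 (by simpa using a2)) hp' hR' (by simpa using a1)
  have hb : e 0 ((0, w₀, 0), (Pi.single 3 1, 0)) = 0 :=
    (he0 _ _).2 ⟨by simpa using h.sol, by simpa using p3, rfl, e31⟩
  let C : Set (ℝ × (((Fin b → ℝ) × U × Y) × Top3Z Y')) := Icc 0 1 ×ˢ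
    ({p | p.1 ∈ Icc 0 1 ∧ p.2.1 ∈ Φ.W p.1 ∧ N p.2 ≤ R} ×ˢ ({η | ∑ i, η i ^ 2 = 1} ×ˢ {0}))
  have hC : IsCompact C :=
    isCompact_Icc.prod ((Φ.isCompact hN).prod (Top3_cpt.prod isCompact_singleton))
  have hK : IsCompact (C ∩ (fun x => e x.1 x.2) ⁻¹' {0}) := hC.of_isClosed_subset
    ((ec.mono fun x hx => ⟨trivial, hx.2.1.2.1⟩).preimage_isClosed_of_isClosed hC.isClosed
      isClosed_singleton) inter_subset_left
  suffices key : ∃ p ∈ O ∩ Φ.Tot _, H 1 p = 0 by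
    obtain ⟨p, hp', h2⟩ := key
    have h3 := ((he0 _ _).1 ((hH0 1 p hp'.1).1 h2)).2.1
    rw [sub_self, zero_smul, zero_add, one_smul, hp3] at h3
    exact hp'.1.2.1 h3
  refine Φ.deg (E' := Top3E U' Y') (O := O) (c := True) (j := j) h.mem h.const
    (fun _ => hs.j_smul) (fun _ => hs.j_j) (fun _ => hs.W_neg) ?_ ?_
    (fun p hp' h0 => hp'.2.1 (by rw [h0, map_zero])) hOr H ?_
    (fun t _ p hp' p' hr => (inv p hp'.2 p' hr).2.2.2 t) (hK.image continuous_snd) ?_ ?_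
    (ζ₀ := (Pi.single 3 1, 0)) ⟨lt_of_le_of_ne hR (h1 _ e31 (0, w₀, 0) h.mem hR h.sol).1, hL, e30⟩
    (fun p hp' => ⟨fun h0 => zero p hp'.2 hp'.1.1.le ((hH0 0 p hp'.1).1 h0), fun hr => ?_⟩)
    hG ?_ hT
  · simp only [finrank_prod, Top3_rank (U := U'), Complex.finrank_real_complex, finrank_self,
      finrank_fin_fun]
    omega
  · have := hN.cont
    refine IsOpen.and (isOpen_lt ?_ ?_) (IsOpen.and (isOpen_ne_fun ?_ ?_) (isOpen_ne_fun ?_ ?_)) <;>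
      fun_prop
  · have ec' := ec.mono (t := Icc 0 1 ×ˢ (O ∩ Φ.Tot _)) fun x hx => ⟨trivial, hx.2.2⟩
    simp only [hH]
    exact ((μ.continuous.comp (L.1.continuous.comp continuous_snd.fst.snd.fst)).continuousOn.clm_apply
      ec'.fst).prodMk (((q.continuous.comp continuous_snd.snd.fst).continuousOn.clm_apply
        ec'.snd.fst).prodMk ec'.snd.snd)
  · rintro _ ⟨⟨t, p⟩, ⟨⟨ht, ⟨-, hW, hR'⟩, -⟩, h0⟩, rfl⟩
    obtain ⟨a1, a2, -, a4⟩ := (he0 t p).1 h0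
    obtain ⟨g1, g2⟩ := gen t ht _ _ a4 hW hR' a1
    refine ⟨⟨g1, fun h2 => ?_, fun h2 => by simp [show p.2.1 = 0 from h2] at a4⟩, hW⟩
    by_cases ht0 : t = 0
    · subst ht0
      exact hL ((inv p hW _ (zero p hW hR' h0)).2.1.2 h2)
    · refine g2 ht0 ?_ h2
      rw [show L.1 p.1.2.1 = 0 from h2, (hp3 0).2 rfl, smul_zero, add_zero, smul_eq_zero,
        sub_eq_zero, hpr] at a2
      exact a2.imp_left Eq.symm
  · intro t ht p hp' h0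
    obtain ⟨a, ha, m, hm⟩ := exists_red p.1.1
    have hr : Rel True j p ((a, p.1.2), p.2) :=
      ⟨-m, 1, norm_one, Or.inl (by rw [hm, zc_neg, one_smul, add_neg_cancel_right])⟩
    have hO := hOr p hp' _ hr
    have h3 := (hH0 t _ hO).1 (((inv p hp'.2 _ hr).2.2.2 t).trans h0)
    have h4 := (he0 _ _).1 h3
    exact ⟨_, ⟨(t, _), ⟨⟨ht, ⟨ha, hr.tot Φ (fun _ => hs.W_neg) hp'.2, hO.1.le⟩, h4.2.2.2,
      h4.2.2.1⟩, h3⟩, rfl⟩, hr⟩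
  · rw [← (inv p hp'.2 _ hr).2.2.2 0, hH, hb]
    simp
  · filter_upwards [hG'] with p h2 h3
    rw [← h2 h3, hH, he]
    simp

end GZ
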