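import Pool.Agent.P.MP_0a0487_an.GZ.FamGen

/-! Algebra and generic parameters for the quaternionic cobordism argument. -/

set_option autoImplicit false
set_option linter.unusedSectionVars false

noncomputable section

namespace GZ

open Set Filter Topology Module
open scoped ComplexConjugate

variable {b : ℕ} {U U' Y Y' Z : Type} [NormedAddCommGroup U] [NormedSpace ℂ U] [NormedSpace ℝ U]
  [IsScalarTower ℝ ℂ U] [FiniteDimensional ℂ U] [NormedAddCommGroup U'] [NormedSpace ℂ U']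
  [NormedSpace ℝ U'] [IsScalarTower ℝ ℂ U'] [FiniteDimensional ℂ U'] [NormedAddCommGroup Y]
  [NormedSpace ℝ Y] [FiniteDimensional ℝ Y] [NormedAddCommGroup Y'] [NormedSpace ℝ Y']
  [FiniteDimensional ℝ Y'] [NormedAddCommGroup Z] [NormedSpace ℝ Z] [FiniteDimensional ℝ Z]

/-- The quaternionic structure of the complex plane. -/
def Top3j : ℂ × ℂ →L[ℝ] ℂ × ℂ :=
  ((Complex.conjCLE : ℂ →L[ℝ] ℂ).comp (ContinuousLinearMap.snd ℝ ℂ ℂ)).prod
    (-(Complex.conjCLE : ℂ →L[ℝ] ℂ).comp (ContinuousLinearMap.fst ℝ ℂ ℂ))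

theorem Top3j_apply (c : ℂ × ℂ) : Top3j c = (conj c.2, -conj c.1) := rfl

theorem Top3j_smul (z : ℂ) (c : ℂ × ℂ) : Top3j (z • c) = conj z • Top3j c := by
  simp [Top3j_apply]

theorem Top3j_j (c : ℂ × ℂ) : Top3j (Top3j c) = -c := by
  ext <;> simp [Top3j_apply]

theorem Top3_fin : FiniteDimensional ℝ U := Module.Finite.trans ℂ U

theorem Top3_rank : finrank ℝ U = 2 * finrank ℂ U := by
  rw [← Module.finrank_mul_finrank ℝ ℂ U, Complex.finrank_real_complex]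

/-- Quaternionic linear maps. -/
def Top3Eq (j : U →L[ℝ] U) (j' : U' →L[ℝ] U') : Submodule ℝ (U →L[ℝ] U') where
  carrier := {P | (∀ (z : ℂ) w, P (z • w) = z • P w) ∧ ∀ w, P (j w) = j' (P w)}
  add_mem' := fun hP hQ => ⟨fun z w => by simp [hP.1, hQ.1], fun w => by simp [hP.2, hQ.2]⟩
  zero_mem' := ⟨by simp, by simp⟩
  smul_mem' := fun r P hP => ⟨fun z w => by
    rw [smul_apply, smul_apply, hP.1, smul_comm],
    fun w => by simp [hP.2]⟩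

theorem Top3_surj {j : U →L[ℝ] U} {j' : U' →L[ℝ] U'}
    (h1 : ∀ (z : ℂ) w, j (z • w) = conj z • j w) (h2 : ∀ w, j (j w) = -w)
    (h3 : ∀ (z : ℂ) w, j' (z • w) = conj z • j' w) (h4 : ∀ w, j' (j' w) = -w) {w : U} (hw : w ≠ 0)
    (v : U') : ∃ P : Top3Eq j j', P.1 w = v := by
  obtain ⟨l, hl⟩ := SeparatingDual.exists_eq_one (R := ℂ) hw
  set c := conj (l (j w)) with hc
  have hn : (1 + c * conj c : ℂ) ≠ 0 := by
    rw [Complex.mul_conj]
    exact_mod_cast (add_pos_of_pos_of_nonneg one_pos (Complex.normSq_nonneg c)).ne'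
  set n := (1 + c * conj c : ℂ)⁻¹ with hn'
  have hn2 : conj n = n := by simp [hn', mul_comm]
  let A : U →L[ℝ] U' := (l.smulRight (n • (v + c • j' v))).restrictScalars ℝ
  have hA : ∀ u, A u = l u • n • (v + c • j' v) := fun u => rfl
  refine ⟨⟨A - j'.comp (A.comp j), fun z u => ?_, fun u => ?_⟩, ?_⟩
  · simp only [sub_apply, ContinuousLinearMap.comp_apply, hA, h1, map_smul,
      smul_eq_mul, mul_smul, h3, Complex.conj_conj, smul_sub]
  · simp only [sub_apply, ContinuousLinearMap.comp_apply, h2, map_neg, map_sub,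
      h4]
    abel
  · simp only [sub_apply, ContinuousLinearMap.comp_apply, hA, hl, h3, map_add,
      h4, hn2, ← hc]
    have e : n * (1 + c * conj c) = 1 := inv_mul_cancel₀ hn
    linear_combination (norm := module) e • v

theorem Top3_mu {j' : U' →L[ℝ] U'} (h3 : ∀ (z : ℂ) w, j' (z • w) = conj z • j' w)
    (h4 : ∀ w, j' (j' w) = -w) : ∃ μ : (ℂ × ℂ) →L[ℝ] U' →L[ℝ] U',
      (∀ (z : ℂ) c v, ‖z‖ = 1 → μ (z • c) (z • v) = μ c v) ∧
      (∀ c v, μ (Top3j c) (j' v) = μ c v) ∧ ∀ c ≠ 0, ∀ v, μ c v = 0 → v = 0 := by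
  have := Top3_fin (U := U')
  let m : (ℂ × ℂ) →ₗ[ℝ] U' →ₗ[ℝ] U' := LinearMap.mk₂ ℝ (fun c v => conj c.1 • v + c.2 • j' v)
    (fun c d v => by simp only [Prod.fst_add, Prod.snd_add, map_add, add_smul]; abel)
    (fun r c v => by
      simp only [Prod.smul_fst, Prod.smul_snd, smul_add, ← smul_assoc, Complex.real_smul, map_mul,
        Complex.conj_ofReal])
    (fun c v w => by simp only [map_add, smul_add]; abel)
    (fun r c v => by simp only [map_smul, smul_add, smul_comm r])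
  have hm : ∀ c v, m.toContinuousBilinearMap c v = conj c.1 • v + c.2 • j' v := fun _ _ => rfl
  refine ⟨m.toContinuousBilinearMap, fun z c v hz => ?_, fun c v => ?_, fun c hc v h => ?_⟩
  · have e : z * conj z = 1 := by simp [Complex.mul_conj, Complex.normSq_eq_norm_sq, hz]
    simp only [hm, Prod.smul_fst, Prod.smul_snd, smul_eq_mul, map_mul, h3]
    linear_combination (norm := module) e • (conj c.1 • v + c.2 • j' v)
  · simp only [hm, Top3j_apply, Complex.conj_conj, h4]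
    module
  · rw [hm] at h
    have h' := congrArg j' h
    simp only [map_add, h3, h4, Complex.conj_conj, map_zero] at h'
    have e : (c.1 * conj c.1 + c.2 * conj c.2) • v = 0 := by
      linear_combination (norm := module) c.1 • h - c.2 • h'
    refine (smul_eq_zero.1 e).resolve_left fun e' => hc ?_
    rw [Complex.mul_conj, Complex.mul_conj, ← Complex.ofReal_add, Complex.ofReal_eq_zero,
      add_eq_zero_iff_of_nonneg (Complex.normSq_nonneg _) (Complex.normSq_nonneg _),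
      Complex.normSq_eq_zero, Complex.normSq_eq_zero] at e'
    exact Prod.ext e'.1 e'.2

theorem Top3_qm : ∃ q : (Fin 4 → ℝ) →L[ℝ] (Y × Y × Y × Y) →L[ℝ] Y × Y × Y × Y,
    ∀ η ≠ 0, ∀ v, q η v = 0 → v = 0 := by
  let m : (Fin 4 → ℝ) →ₗ[ℝ] (Y × Y × Y × Y) →ₗ[ℝ] Y × Y × Y × Y := LinearMap.mk₂ ℝ
    (fun η v => (η 0 • v.1 - η 1 • v.2.1 - η 2 • v.2.2.1 - η 3 • v.2.2.2,
      η 1 • v.1 + η 0 • v.2.1 - η 3 • v.2.2.1 + η 2 • v.2.2.2,
      η 2 • v.1 + η 3 • v.2.1 + η 0 • v.2.2.1 - η 1 • v.2.2.2,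
      η 3 • v.1 - η 2 • v.2.1 + η 1 • v.2.2.1 + η 0 • v.2.2.2))
    (fun c d v => by ext <;> simp only [Pi.add_apply, Prod.fst_add, Prod.snd_add] <;> module)
    (fun r c v => by
      ext <;> simp only [Pi.smul_apply, smul_eq_mul, Prod.smul_fst, Prod.smul_snd] <;> module)
    (fun c v w => by ext <;> simp only [Prod.fst_add, Prod.snd_add] <;> module)
    (fun r c v => by ext <;> simp only [Prod.smul_fst, Prod.smul_snd] <;> module)
  refine ⟨m.toContinuousBilinearMap, fun η hη v h => ?_⟩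
  have h0 : η 0 • v.1 - η 1 • v.2.1 - η 2 • v.2.2.1 - η 3 • v.2.2.2 = 0 := congrArg (·.1) h
  have h1 : η 1 • v.1 + η 0 • v.2.1 - η 3 • v.2.2.1 + η 2 • v.2.2.2 = 0 := congrArg (·.2.1) h
  have h2 : η 2 • v.1 + η 3 • v.2.1 + η 0 • v.2.2.1 - η 1 • v.2.2.2 = 0 := congrArg (·.2.2.1) h
  have h3 : η 3 • v.1 - η 2 • v.2.1 + η 1 • v.2.2.1 + η 0 • v.2.2.2 = 0 := congrArg (·.2.2.2) h
  have hn : ∑ i, η i ^ 2 ≠ 0 := fun e => hη (funext fun i => pow_eq_zero_iff two_ne_zero |>.1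
    ((Finset.sum_eq_zero_iff_of_nonneg fun i _ => sq_nonneg _).1 e i (Finset.mem_univ i)))
  rw [Fin.sum_univ_four] at hn
  have k : ∀ y : Y, (η 0 ^ 2 + η 1 ^ 2 + η 2 ^ 2 + η 3 ^ 2) • y = 0 → y = 0 := fun y e =>
    (smul_eq_zero.1 e).resolve_left hn
  refine Prod.ext (k _ ?_) (Prod.ext (k _ ?_) (Prod.ext (k _ ?_) (k _ ?_)))
  · linear_combination (norm := module) η 0 • h0 + η 1 • h1 + η 2 • h2 + η 3 • h3
  · linear_combination (norm := module) η 0 • h1 - η 1 • h0 + η 3 • h2 - η 2 • h3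
  · linear_combination (norm := module) η 0 • h2 - η 2 • h0 - η 3 • h1 + η 1 • h3
  · linear_combination (norm := module) η 0 • h3 - η 3 • h0 + η 2 • h1 - η 1 • h2

theorem Top3_hopf : ∃ hp : ℂ × ℂ → ℝ × ℂ, Continuous hp ∧
    (∀ (z : ℂ) c, ‖z‖ = 1 → hp (z • c) = hp c) ∧ (∀ c, hp (Top3j c) = -hp c) ∧
      ∀ c, hp c = 0 ↔ c = 0 := by
  refine ⟨fun c => (‖c.1‖ - ‖c.2‖, c.1 * conj c.2), by fun_prop, fun z c hz => ?_, fun c => ?_,
    fun c => ⟨fun h => ?_, fun h => by simp [h]⟩⟩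
  · have e : z * conj z = 1 := by simp [Complex.mul_conj, Complex.normSq_eq_norm_sq, hz]
    refine Prod.ext (by simp [hz]) ?_
    simp only [Prod.smul_fst, Prod.smul_snd, smul_eq_mul, map_mul]
    linear_combination (c.1 * conj c.2) * e
  · refine Prod.ext (by simp [Top3j_apply]) (by simp [Top3j_apply, mul_comm])
  · have h1 : ‖c.1‖ = ‖c.2‖ := sub_eq_zero.1 (congrArg (·.1) h)
    have h2 : c.1 * conj c.2 = 0 := congrArg (·.2) h
    rcases mul_eq_zero.1 h2 with h3 | h3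
    · exact Prod.ext h3 (norm_eq_zero.1 (by rw [← h1, h3, norm_zero]))
    · rw [map_eq_zero] at h3
      exact Prod.ext (norm_eq_zero.1 (by rw [h1, h3, norm_zero])) h3

theorem Top3_pr : ∃ pr : (Fin 4 → ℝ) →L[ℝ] ℝ × ℂ,
    ∀ η, pr η = 0 ↔ η = η 3 • (Pi.single 3 1 : Fin 4 → ℝ) := by
  refine ⟨(ContinuousLinearMap.proj 0).prod ((Complex.equivRealProdCLM.symm : ℝ × ℝ →L[ℝ] ℂ).comp
    ((ContinuousLinearMap.proj 1).prod (ContinuousLinearMap.proj 2))), fun η => ?_⟩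
  simp [Prod.ext_iff, funext_iff, Fin.forall_fin_succ]

theorem Top3_sph : ∃ σ : ℝ × ℝ × ℝ → Fin 4 → ℝ, ContDiff ℝ 1 σ ∧
    ∀ η : Fin 4 → ℝ, ∑ i, η i ^ 2 = 1 → ∃ x, σ x = η := by
  refine ⟨fun x => ![Real.cos x.1 * Real.cos x.2.1, Real.cos x.1 * Real.sin x.2.1,
    Real.sin x.1 * Real.cos x.2.2, Real.sin x.1 * Real.sin x.2.2], contDiff_pi.2 fun i => ?_,
    fun η h => ?_⟩
  · fin_cases i <;> simp <;> fun_prop
  · let u : ℂ := ⟨η 0, η 1⟩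
    let v : ℂ := ⟨η 2, η 3⟩
    let s : ℂ := ⟨‖u‖, ‖v‖⟩
    have hs : ‖s‖ = 1 := by
      rw [Fin.sum_univ_four] at h
      have e : ‖s‖ ^ 2 = 1 := by
        simp only [Complex.sq_norm, Complex.normSq_mk, s, ← sq, u, v]
        linarith
      exact (pow_eq_one_iff_of_nonneg (norm_nonneg _) two_ne_zero).1 e
    have e1 := Complex.norm_mul_cos_arg s
    have e2 := Complex.norm_mul_sin_arg s
    rw [hs, one_mul] at e1 e2
    refine ⟨(s.arg, u.arg, v.arg), funext fun i => ?_⟩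
    fin_cases i
    · exact (congrArg (· * _) e1).trans (Complex.norm_mul_cos_arg u)
    · exact (congrArg (· * _) e1).trans (Complex.norm_mul_sin_arg u)
    · exact (congrArg (· * _) e2).trans (Complex.norm_mul_cos_arg v)
    · exact (congrArg (· * _) e2).trans (Complex.norm_mul_sin_arg v)

theorem Top3_le {η : Fin 4 → ℝ} (h : ∑ i, η i ^ 2 = 1) : ‖η‖ ≤ 1 :=
  (pi_norm_le_iff_of_nonneg zero_le_one).2 fun i => (sq_le_one_iff_abs_le_one _).1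
    ((Finset.single_le_sum (fun i _ => sq_nonneg (η i)) (Finset.mem_univ i)).trans h.le)

theorem Top3_cpt : IsCompact {η : Fin 4 → ℝ | ∑ i, η i ^ 2 = 1} :=
  (isCompact_closedBall (0 : Fin 4 → ℝ) 1).of_isClosed_subset
    (isClosed_eq (by fun_prop) continuous_const) fun _ h => mem_closedBall_zero_iff.2 (Top3_le h)

theorem Top3_sq : ∃ s : (Fin 4 → ℝ) →L[ℝ] ℝ,
    HasFDerivAt (fun η : Fin 4 → ℝ => ∑ i, η i ^ 2 - 1) s (Pi.single 3 1) ∧
      ∀ η, s η = 2 * η 3 := by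
  refine ⟨_, (HasFDerivAt.fun_sum fun i _ => (hasFDerivAt_apply i _).pow 2).sub_const 1,
    fun η => ?_⟩
  simp [Fin.sum_univ_four]

theorem Top3_thin (Φ : Fam b U U' Y Y') {j : U →L[ℝ] U} {j' : U' →L[ℝ] U'} (hs : Φ.Sym j j')
    (ε : (Fin 4 → ℝ) →L[ℝ] Y') (hd : finrank ℝ Z < 4) {τ : Z → ℝ} {η : Z → Fin 4 → ℝ}
    (hτ : ContDiff ℝ 1 τ) (hη : ContDiff ℝ 1 η) [FiniteDimensional ℝ U] [FiniteDimensional ℝ U'] :
    Thin {π : Top3Eq j j' × ((Fin 4 → ℝ) →L[ℝ] Y') × Top3Eq j Top3j |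
      ∃ (p : (Fin b → ℝ) × U × Y) (ζ : Z), p.2.1 ∈ Φ.W p.1 ∧ p.2.1 ≠ 0 ∧ τ ζ ≠ 0 ∧ η ζ ≠ 0 ∧
        Φ.F p = (τ ζ • π.1.1 p.2.1, ε (η ζ) + τ ζ • π.2.1 (η ζ)) ∧ π.2.2.1 p.2.1 = 0} := by
  let M : U × Z → (Top3Eq j j' × ((Fin 4 → ℝ) →L[ℝ] Y') × Top3Eq j Top3j) →L[ℝ]
      U' × Y' × ℂ × ℂ := fun x => LinearMap.toContinuousLinearMap
    { toFun := fun π => (-(τ x.2 • π.1.1 x.1), -(τ x.2 • π.2.1 (η x.2)), π.2.2.1 x.1)
      map_add' := fun π π' => by simp [add_comm]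
      map_smul' := fun r π => by simp [smul_comm r] }
  have hM : ∀ x π, M x π = (-(τ x.2 • π.1.1 x.1), -(τ x.2 • π.2.1 (η x.2)), π.2.2.1 x.1) :=
    fun _ _ => rfl
  refine (Φ.thin (D := {ζ | τ ζ ≠ 0 ∧ η ζ ≠ 0}) (M := M)
    (f := fun x => (x.1.1, x.1.2 - ε (η x.2), 0)) ?_ (by fun_prop) (fun π => ?_)
    (fun w hw ζ hζ v => ?_) fun π x w ζ z hz h => ?_).mono ?_
  · simp only [finrank_prod, Top3_rank (U := U'), Complex.finrank_real_complex]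
    omega
  · simp only [hM]
    fun_prop
  · obtain ⟨P, hP⟩ := Top3_surj hs.j_smul hs.j_j hs.j'_smul hs.j'_j' hw (-((τ ζ)⁻¹ • v.1))
    obtain ⟨L, hL⟩ := Top3_surj hs.j_smul hs.j_j Top3j_smul Top3j_j hw v.2.2
    obtain ⟨l, hl⟩ := SeparatingDual.exists_eq_one (R := ℝ) hζ.2
    refine ⟨(P, l.smulRight (-((τ ζ)⁻¹ • v.2.1)), L), ?_⟩
    simp [hM, hP, hL, hl, hζ.1]
  · have hz0 : z ≠ 0 := norm_ne_zero_iff.1 (by rw [hz]; exact one_ne_zero)
    simp only [hM, π.1.2.1, π.2.2.2.1, Prod.mk_add_mk, Prod.mk_eq_zero, zero_add, smul_comm _ z,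
      ← smul_neg z, ← smul_add, smul_eq_zero, hz0, false_or] at h ⊢
    exact h
  · rintro π ⟨p, ζ, a1, a2, a3, a4, a5, a6⟩
    exact ⟨p, ζ, a1, a2, ⟨a3, a4⟩, by simp [hM, a5, a6]⟩

theorem Top3_gen (Φ : Fam b U U' Y Y') {j : U →L[ℝ] U} {j' : U' →L[ℝ] U'} (hs : Φ.Sym j j')
    (ε : (Fin 4 → ℝ) →L[ℝ] Y') {w₀ : U} (hw : w₀ ≠ 0) {δ : ℝ} (hδ : 0 < δ) :
    ∃ (P : Top3Eq j j') (B : (Fin 4 → ℝ) →L[ℝ] Y') (L : Top3Eq j Top3j), ‖P.1‖ < δ ∧ ‖B‖ < δ ∧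
      L.1 w₀ ≠ 0 ∧ ∀ (t : ℝ) (η : Fin 4 → ℝ) (p : (Fin b → ℝ) × U × Y), t ≠ 0 →
        ∑ i, η i ^ 2 = 1 → (t = 1 ∨ η = η 3 • (Pi.single 3 1 : Fin 4 → ℝ)) → p.2.1 ∈ Φ.W p.1 →
          p.2.1 ≠ 0 → Φ.F p = (t • P.1 p.2.1, ε η + t • B η) → L.1 p.2.1 ≠ 0 := by
  have := Top3_fin (U := U)
  have := Top3_fin (U := U')
  obtain ⟨σ, hσ, hσ'⟩ := Top3_sph
  have t1 := Top3_thin Φ hs ε (Z := ℝ × ℝ × ℝ) (τ := fun _ => 1) (by simp) contDiff_const hσ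
  have t2 := Top3_thin Φ hs ε (Z := ℝ × ℝ) (τ := fun x => x.1)
    (η := fun x => x.2 • (Pi.single 3 1 : Fin 4 → ℝ)) (by simp) contDiff_fst
    (contDiff_snd.smul contDiff_const)
  obtain ⟨L₀, hL₀⟩ := Top3_surj hs.j_smul hs.j_j Top3j_smul Top3j_j hw (1, 0)
  obtain ⟨π, hπ, h1, h2, h3⟩ := (t1.union t2).dense.exists_mem_open
    (U := {π | ‖π.1.1‖ < δ ∧ ‖π.2.1‖ < δ ∧ π.2.2.1 w₀ ≠ 0})
    (by
      refine IsOpen.and (isOpen_lt ?_ ?_) (IsOpen.and (isOpen_lt ?_ ?_) (isOpen_ne_fun ?_ ?_)) <;>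
        fun_prop)
    ⟨(0, 0, L₀), by simpa using hδ, by simpa using hδ, by simp [hL₀]⟩
  refine ⟨π.1, π.2.1, π.2.2, h1, h2, h3, fun t η p ht hη hc hp hp0 hF hL => hπ ?_⟩
  have hη0 : η ≠ 0 := by
    rintro rfl
    simp at hη
  rcases hc with rfl | hc
  · obtain ⟨x, rfl⟩ := hσ' η hη
    exact Or.inl ⟨p, x, hp, hp0, one_ne_zero, hη0, hF, hL⟩
  · refine Or.inr ⟨p, (t, η 3), hp, hp0, ht, ?_⟩
    simp only [← hc]
    exact ⟨hη0, hF, hL⟩

end GZ
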