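import Pool.Agent.P.MP_0a0487_an.GZ.GalC
import Pool.Agent.P.MP_0a0487_an.GZ.GalE
import Pool.Agent.P.MP_0a0487_an.GZ.GalF
import Pool.Agent.P.MP_0a0487_an.GZ.GalJ
import Pool.Agent.P.MP_0a0487_an.GZ.Top3
import Pool.Agent.P.MP_0a0487_an.SX.NoPair

/-! The bound for the number of self-dual harmonic forms. -/

set_option autoImplicit false
set_option linter.unusedSectionVars false

noncomputable section

namespace SX4

open scoped ComplexOrder ContDiff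
open Filter Topology Module GZ

variable {P A : Type} [TopologicalSpace P] [CompactSpace P] [CommRing A] [StarRing A] [Algebra ℂ A]
  [StarModule ℂ A] {B : Base P A}

theorem TpP_compact : IsCompact {η : Fin 4 → ℝ | ∑ i, η i ^ 2 = 1} := by
  refine (isCompact_closedBall (0 : Fin 4 → ℝ) 1).of_isClosed_subset
    (isClosed_eq (by fun_prop) continuous_const) fun η hη => ?_
  rw [mem_closedBall_zero_iff, pi_norm_le_iff_of_nonneg zero_le_one]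
  intro i
  rw [Real.norm_eq_abs, ← sq_le_one_iff_abs_le_one, ← show ∑ i, η i ^ 2 = 1 from hη]
  exact Finset.single_le_sum (f := fun i => η i ^ 2) (fun j _ => sq_nonneg _) (Finset.mem_univ i)

theorem Geo.TpP_irr [Nonempty P] (G : Geo B) {ζ : Fin 3 → G.Sec (wp 0)}
    (hζ : LinearIndependent ℝ ζ) (h1 : ∀ i, inner ℂ G.e1 (ζ i) = 0)
    (h2 : ∀ i χ, inner ℝ (G.Q χ) (ζ i) = 0) {k : ℂ} (hk : k ≠ 0) {η : Fin 4 → ℝ}
    (hη : ∑ i, η i ^ 2 = 1) (χ : G.Sec (wm 0)) :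
    ¬ G.SW (η 0 • ζ 0 + η 1 • ζ 1 + η 2 • ζ 2 + η 3 • k • G.e1) 0 χ := by
  rintro ⟨-, h⟩
  rw [map_zero, add_zero] at h
  have e1 := G.inner_e1_Q χ
  rw [h] at e1
  simp only [← Complex.coe_smul, inner_add_right, inner_smul_right, h1, mul_zero, zero_add] at e1
  have e2 : η 3 = 0 :=
    Complex.ofReal_eq_zero.1 ((mul_eq_zero.1 e1).resolve_right (mul_ne_zero hk G.noPair_e1))
  rw [e2, zero_smul, add_zero] at h
  have e3 : inner ℝ (G.Q χ) (G.Q χ) = 0 := by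
    nth_rewrite 2 [h]
    simp only [inner_add_right, real_inner_smul_right, h2, mul_zero, add_zero]
  rw [inner_self_eq_zero, h] at e3
  have e4 := Fintype.linearIndependent_iff.1 hζ ![η 0, η 1, η 2] (by
    rw [Fin.sum_univ_three]
    exact e3)
  have a0 : η 0 = 0 := e4 0
  have a1 : η 1 = 0 := e4 1
  have a2 : η 2 = 0 := e4 2
  rw [Fin.sum_univ_four, a0, a1, a2, e2] at hη
  norm_num at hη

theorem Geo.no_three [Nonempty P] (G : Geo B) (h : G.AK) (L : G.Latt) {u : A}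
    {hu : u ∈ B.W (1, 1)} (hj : G.JS hu) {ζ : Fin 3 → G.Sec (wp 0)} (hζ : LinearIndependent ℝ ζ)
    (h1 : ∀ i, inner ℂ G.e1 (ζ i) = 0) (h2 : ∀ i χ, inner ℝ (G.Q χ) (ζ i) = 0) : False := by
  obtain ⟨π⟩ := exists_pat L.b
  obtain ⟨c₁, hc₁⟩ := G.end_lin h
  obtain ⟨c₂, hc₂⟩ := G.end_orbit L h
  obtain ⟨c, k1, k2, hc⟩ : ∃ c : ℝ, c₁ ≤ c ∧ c₂ ≤ c ∧ 0 < c :=
    ⟨max (max c₁ c₂) 1, (le_max_left _ _).trans (le_max_left _ _),
      (le_max_right _ _).trans (le_max_left _ _), one_pos.trans_le (le_max_right _ _)⟩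
  have hk : (c : ℂ) ^ 2 * Complex.I / 2 ≠ 0 := by simp [hc.ne']
  obtain ⟨ξ, hξ⟩ : ∃ ξ : (Fin 4 → ℝ) →ₗ[ℝ] G.Sec (wp 0), ∀ η, ξ η =
      η 0 • ζ 0 + η 1 • ζ 1 + η 2 • ζ 2 + η 3 • ((c : ℂ) ^ 2 * Complex.I / 2) • G.e1 :=
    ⟨Fintype.linearCombination ℝ ![ζ 0, ζ 1, ζ 2, ((c : ℂ) ^ 2 * Complex.I / 2) • G.e1],
      fun η => by rw [Fintype.linearCombination_apply, Fin.sum_univ_four]; rfl⟩
  have x3 : ξ (Pi.single 3 1) = ((c : ℂ) ^ 2 * Complex.I / 2) • G.e1 := by simp [hξ]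
  have xe : ∀ η, inner ℝ G.e1 (ξ η) = 0 := fun η => by
    obtain ⟨m, -, hm⟩ := Geo.gal1_e1 (G := G)
    rw [hξ, G.noPair_re]
    simp only [← Complex.coe_smul, inner_add_right, inner_smul_right, h1, hm, mul_zero, zero_add]
    simp [← Complex.ofReal_pow]
  obtain ⟨R₀, hR₀⟩ := Geo.gal_bd L π h ξ xe TpP_compact fun η hη χ => by
    rw [hξ]
    exact G.TpP_irr hζ h1 h2 hk hη χ
  obtain ⟨C, hC, hs⟩ := Geo.exists_sym L π hj
  obtain ⟨M, m1, m2⟩ : ∃ M, R₀ ≤ M ∧ ‖(c : ℂ) • G.e1‖ ≤ M := ⟨_, le_max_left _ _, le_max_right _ _⟩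
  obtain ⟨Λ₁, l1⟩ := Geo.exists_lev L π
  obtain ⟨Λ₂, l2⟩ := hR₀ ((1 + C) * M + 1)
  obtain ⟨Λ₃, l3⟩ := Geo.gal_one L π hc (hc₂ c k2) (hc₁ c k1) ((1 + C) * M + 1)
  obtain ⟨Λ₄, l4⟩ := Geo.gal_base L π hc (hc₁ c k1)
  obtain ⟨Λ, b1, b2, b3, b4⟩ : ∃ Λ, Λ ≥ Λ₁ ∧ Λ ≥ Λ₂ ∧ Λ ≥ Λ₃ ∧ Λ ≥ Λ₄ :=
    ⟨max (max Λ₁ Λ₂) (max Λ₃ Λ₄), by simp, by simp, by simp, by simp⟩
  have hL := l1 Λ b1
  obtain ⟨Φ, hW, hF⟩ := hL.exists_fam
  obtain ⟨j, j', hS, hN⟩ := hs Λ hL Φ hW hF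
  have sz := Geo.size_Ng (G := G) Λ L.b ((1 + C) * M + 1)
  have le1 : ∀ p : G.Ut L.b Λ × G.Ym Λ, Geo.Ng Λ p ≤ Geo.Ng Λ p + Geo.Ng Λ (j p.1, -p.2) :=
    fun p => le_add_of_nonneg_right (Geo.Ng_nonneg Λ _)
  have le2 : ∀ p : G.Ut L.b Λ × G.Ym Λ, Geo.Ng Λ p ≤ M →
      Geo.Ng Λ p + Geo.Ng Λ (j p.1, -p.2) < (1 + C) * M + 1 := fun p hp => by
    have a1 := hN p.1 p.2
    have a2 := mul_le_mul_of_nonneg_left hp hC
    linarith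
  refine Fam.top3 Φ hS (LinearMap.toContinuousLinearMap (G.qp Λ ∘ₗ ξ))
    (w₀ := Geo.Th L π Λ 0 ((c : ℂ) • G.e1, 0)) ?_
    (N := fun p => Geo.Ng Λ p + Geo.Ng Λ (j p.1, -p.2)) (R := (1 + C) * M + 1)
    ⟨sz.cont.add (sz.cont.comp ((j.continuous.comp continuous_fst).prodMk continuous_snd.neg)),
      sz.bdd.subset fun p hp => (le1 p).trans hp, fun z hz w y => ?_⟩ (fun w y => ?_)
    (fun η hη p hp hle hFp => ?_) (le2 _ ((Geo.Ng_base L π Λ _).trans m2)).le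
    fun p hp hle hFp => ?_
  · rw [LinearMap.coe_toContinuousLinearMap', LinearMap.comp_apply, x3]
    exact l4 Λ b4 hL Φ hW hF
  · dsimp only
    rw [hS.j_smul, sz.rot z hz, sz.rot _ ((Complex.norm_conj z).trans hz)]
  · dsimp only
    rw [hS.j_j, neg_neg, add_comm, ← neg_one_smul ℂ w, sz.rot _ (by simp)]
  · rw [hW] at hp
    rw [hF] at hFp
    obtain ⟨ψ, g1, g2⟩ := hL.exists_gs hp ((le1 _).trans hle) hFp
    have a := l2 Λ b2 η hη _ _ _ _ g1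
    rw [g2] at a
    exact ⟨(le2 _ (a.1.trans m1)).ne, a.2⟩
  · rw [hW] at hp
    rw [hF, LinearMap.coe_toContinuousLinearMap', LinearMap.comp_apply, x3] at hFp
    obtain ⟨ψ, g1, g2⟩ := hL.exists_gs hp ((le1 _).trans hle) hFp
    obtain ⟨m, z, hz, a1, a2, a3⟩ := l3 Λ b3 _ _ _ _ g1
    exact ⟨m, z, hz, Prod.ext a1 (Prod.ext (g2.symm.trans a2) a3)⟩

end SX4
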