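import Pool.Agent.P.MP_0a0487_an.GZ.GalC
import Pool.Agent.P.MP_0a0487_an.GZ.GalE
import Pool.Agent.P.MP_0a0487_an.GZ.GalF
import Pool.Agent.P.MP_0a0487_an.GZ.Top2
import Pool.Agent.P.MP_0a0487_an.SX.NoPair

/-! Triviality of the canonical bundle. -/

set_option autoImplicit false
set_option linter.unusedSectionVars false

noncomputable section

namespace SX4

open scoped ComplexOrder ContDiff
open Filter Topology Module GZ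

variable {P A : Type} [TopologicalSpace P] [CompactSpace P] [CommRing A] [StarRing A] [Algebra ℂ A]
  [StarModule ℂ A] {B : Base P A}

theorem Geo.unit_of [Nonempty P] (G : Geo B) (h : G.AK) (hF : ∀ j, G.I (lam (G.F j)) = 0)
    (L : G.Latt) {ζ : G.Sec (wp 0)} (hζ : ζ ≠ 0) (h1 : inner ℂ G.e1 ζ = 0)
    (h2 : ∀ χ, inner ℝ (G.Q χ) ζ = 0) : ∃ u ∈ B.W (1, 1), ∀ p, B.ev u p ≠ 0 := by
  by_contra hno
  obtain ⟨π⟩ := exists_pat L.b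
  obtain ⟨c₀, e₀⟩ := G.end_orbit L h
  obtain ⟨c₁, e₁⟩ := G.end_lin h
  obtain ⟨φ, hφ, c₂, e₂⟩ := G.end_one h hF
  obtain ⟨c, hc, d₀, d₁, d₂⟩ : ∃ c : ℝ, 0 < c ∧ c₀ ≤ c ∧ c₁ ≤ c ∧ c₂ ≤ c :=
    ⟨max 1 (max c₀ (max c₁ c₂)), by simp, by simp, by simp, by simp⟩
  obtain ⟨κ, hκ⟩ : ∃ κ : ℝ, inner ℝ φ ζ / 2 + κ * inner ℝ ζ ζ / 4 ≠ 0 := by
    by_cases h3 : inner ℝ φ ζ = 0
    · exact ⟨1, by simpa [h3] using hζ⟩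
    · exact ⟨0, by simpa using h3⟩
  set k : ℂ := (c : ℂ) ^ 2 * Complex.I / 2 with hk
  have k0 : k ≠ 0 := by simp [hk, hc.ne']
  have o₀ : inner ℝ G.e1 (k • G.e1) = 0 := by
    rw [G.noPair_re, inner_smul_right, inner_self_eq_norm_sq_to_K, hk]
    simp [← Complex.ofReal_pow]
  have o₁ : inner ℝ G.e1 (φ - k • G.e1) = 0 := by
    rw [inner_sub_right, o₀, G.noPair_re, hφ, Complex.zero_re, sub_zero]
  have o₂ : inner ℝ G.e1 (κ • ζ) = 0 := by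
    rw [real_inner_smul_right, G.noPair_re, h1, Complex.zero_re, mul_zero]
  obtain ⟨ξ, hξ⟩ : ∃ ξ : (Fin 3 → ℝ) →ₗ[ℝ] G.Sec (wp 0),
      ∀ z, ξ z = z 0 • k • G.e1 + z 1 • (φ - k • G.e1) + z 2 • κ • ζ :=
    ⟨Fintype.linearCombination ℝ ![k • G.e1, φ - k • G.e1, κ • ζ], fun z => by
      rw [Fintype.linearCombination_apply, Fin.sum_univ_three]
      rfl⟩
  have hγ : ∀ t : ℝ, ξ ![1 - t, t, t * (1 - t)] =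
      (1 - t) • k • G.e1 + t • (φ - k • G.e1) + (t * (1 - t)) • κ • ζ := fun t => hξ _
  obtain ⟨R₀, hR⟩ := Geo.gal_bd L π h ξ (fun z => by
      rw [hξ, inner_add_right, inner_add_right, real_inner_smul_right, real_inner_smul_right,
        real_inner_smul_right, o₀, o₁, o₂, mul_zero, mul_zero, mul_zero, add_zero, add_zero])
    (C := (fun t : ℝ => ![1 - t, t, t * (1 - t)]) '' Set.Icc 0 1)
    (isCompact_Icc.image (by fun_prop)) (by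
      rintro _ ⟨t, -, rfl⟩ χ
      rw [hγ]
      exact G.noPair_irr h1 h2 hφ k0 hκ t χ)
  obtain ⟨R, r₀, r₁⟩ : ∃ R : ℝ, R₀ < R ∧ ‖(c : ℂ) • G.e1‖ ≤ R :=
    ⟨max (R₀ + 1) _, lt_max_of_lt_left (lt_add_one _), le_max_right _ _⟩
  obtain ⟨Λ₀, b₀⟩ := Geo.exists_lev L π
  obtain ⟨Λ₁, b₁⟩ := hR R
  obtain ⟨Λ₂, b₂⟩ := Geo.gal_none L π o₁ (fun ψ χ hs => hno (e₂ c d₂ ψ χ hs)) R
  obtain ⟨Λ₃, b₃⟩ := Geo.gal_one L π hc (e₀ c d₀) (e₁ c d₁) R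
  obtain ⟨Λ₄, b₄⟩ := Geo.gal_base L π hc (e₁ c d₁)
  obtain ⟨Λ, l₀, l₁, l₂, l₃, l₄⟩ : ∃ Λ : ℝ, Λ₀ ≤ Λ ∧ Λ₁ ≤ Λ ∧ Λ₂ ≤ Λ ∧ Λ₃ ≤ Λ ∧ Λ₄ ≤ Λ :=
    ⟨max Λ₀ (max Λ₁ (max Λ₂ (max Λ₃ Λ₄))), by simp, by simp, by simp, by simp, by simp⟩
  have lev := b₀ Λ l₀
  obtain ⟨Φ, hW, hΦ⟩ := lev.exists_fam
  obtain ⟨η, hη, hη'⟩ : ∃ η : ℝ → G.Yp Λ, ContDiff ℝ 1 η ∧
      ∀ t, η t = G.qp Λ (ξ ![1 - t, t, t * (1 - t)]) :=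
    ⟨fun t => (1 - t) • G.qp Λ (k • G.e1) + t • G.qp Λ (φ - k • G.e1) +
      (t * (1 - t)) • G.qp Λ (κ • ζ), by fun_prop, fun t => by
        rw [hγ, map_add, map_add, (G.qp Λ).map_smul (1 - t), (G.qp Λ).map_smul t,
          (G.qp Λ).map_smul (t * (1 - t))]⟩
  have η₀ : η 0 = G.qp Λ (k • G.e1) := by
    rw [hη', hγ, sub_zero, one_smul, zero_smul, add_zero, zero_mul, zero_smul, add_zero]
  refine Φ.top2 (w₀ := Geo.Th L π Λ 0 ((c : ℂ) • G.e1, 0)) (η₀ ▸ b₄ Λ l₄ lev Φ hW hΦ) hη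
    (Geo.size_Ng Λ L.b R) (fun t ht p hp hN hs => ?_) ((Geo.Ng_base L π Λ _).trans r₁)
    fun p hp hN hs => ?_
  · rw [hW] at hp
    rw [hΦ, hη'] at hs
    obtain ⟨ψ, g₁, g₂⟩ := lev.exists_gs hp hN hs
    obtain ⟨g₃, g₄⟩ := b₁ Λ l₁ _ ⟨t, ht, rfl⟩ _ _ _ _ g₁
    rw [g₂] at g₃ g₄
    refine ⟨(g₃.trans_lt r₀).ne, g₄, ?_⟩
    rintro rfl
    refine b₂ Λ l₂ p.1 ψ p.2.1.2 p.2.2 ?_
    rwa [hγ, sub_self, zero_smul, zero_add, one_smul, mul_zero, zero_smul, add_zero] at g₁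
  · rw [hW] at hp
    rw [hΦ, η₀] at hs
    obtain ⟨ψ, g₁, g₂⟩ := lev.exists_gs hp hN hs
    obtain ⟨m, z, hz, g₃, g₄, g₅⟩ := b₃ Λ l₃ _ _ _ _ g₁
    exact ⟨m, z, hz, Prod.ext g₃ (Prod.ext (g₂.symm.trans g₄) g₅)⟩

end SX4
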