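import Pool.Agent.P.MP_0a0487_an.GZ.TpT
import Pool.Agent.P.MP_0a0487_an.GZ.TpP
import Pool.Agent.P.MP_0a0487_an.GZ.LatB
import Pool.Agent.P.MP_0a0487_an.GZ.ConnB
import Pool.Agent.P.MP_0a0487_an.GZ.HgC

/-! The number of self-dual harmonic forms of an almost Kaehler structure. -/

set_option autoImplicit false
set_option linter.unusedSectionVars false

noncomputable section

namespace SX4

open scoped ComplexOrder ContDiff
open Filter Topology Module GZ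

variable {P A : Type} [TopologicalSpace P] [CompactSpace P] [CommRing A] [StarRing A] [Algebra ℂ A]
  [StarModule ℂ A] {B : Base P A}

namespace Geo

variable [Nonempty P] (G : Geo B)

theorem tri_k0 (h : G.AK) : ∃ K : Submodule ℝ (G.Sec (wp 0)), FiniteDimensional ℝ K ∧
    finrank ℝ K + 1 = finrank ℝ G.SD ∧
      ∀ ζ, ζ ∈ K ↔ inner ℂ G.e1 ζ = 0 ∧ ∀ χ, inner ℝ (G.Q χ) ζ = 0 := by
  have hfd := G.coker_fd
  have hrk := G.finrank_coker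
  rw [h.Qn_eq] at hfd hrk
  set K := (LinearMap.range G.Q)ᗮ
  have mem : ∀ ζ, ζ ∈ K ↔ ∀ χ, inner ℝ (G.Q χ) ζ = 0 := fun ζ =>
    ⟨fun hζ χ => hζ _ ⟨χ, rfl⟩, fun hζ _ ⟨χ, e⟩ => e ▸ hζ χ⟩
  let φ : K →ₗ[ℝ] ℂ :=
    { toFun := fun ζ => inner ℂ G.e1 (ζ : G.Sec (wp 0))
      map_add' := fun s t => inner_add_right _ _ _
      map_smul' := fun r s => inner_smul_right _ _ (r : ℂ) }
  have hφ : LinearMap.range φ = ⊤ := by
    refine LinearMap.range_eq_top.2 fun z => ⟨⟨(z / inner ℂ G.e1 G.e1) • G.e1, (mem _).2 fun χ => ?_⟩, ?_⟩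
    · rw [G.noPair_re, inner_smul_right, inner_eq_zero_symm.1 (G.inner_e1_Q χ), mul_zero,
        Complex.zero_re]
    · exact (inner_smul_right _ _ _).trans (div_mul_cancel₀ _ G.noPair_e1)
  have h1 := φ.finrank_range_add_finrank_ker
  rw [hφ, finrank_top, Complex.finrank_real_complex, hrk] at h1
  refine ⟨(LinearMap.ker φ).map K.subtype, inferInstance, ?_, fun ζ => ⟨?_, fun hζ =>
    ⟨⟨ζ, (mem ζ).2 hζ.2⟩, hζ.1, rfl⟩⟩⟩
  · rw [Submodule.finrank_map_subtype_eq]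
    omega
  · rintro ⟨ζ, hζ, rfl⟩
    exact ⟨hζ, (mem _).1 ζ.2⟩

theorem tri (hB : B.Gr) (h : G.AK) (hF : ∀ j, G.I (lam (G.F j)) = 0) {b : ℕ} {u : Fin b → A}
    (hu : G.Lat u) : 1 ≤ finrank ℝ G.SD ∧ finrank ℝ G.SD ≤ 3 ∧
      (2 ≤ finrank ℝ G.SD → ∀ c : ℤ, G.ind (0, -c) = G.ind (0, c)) ∧
      (finrank ℝ G.SD < 2 → ∃ K : ℤ, ∀ w, G.ind w ≤ K) := by
  obtain ⟨K, hfd, hK, mem⟩ := G.tri_k0 h
  have hunit : 2 ≤ finrank ℝ G.SD → ∃ v ∈ B.W (1, 1), ∀ p, B.ev v p ≠ 0 := fun h2 => by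
    obtain ⟨L⟩ := G.exists_latt h hu
    have : Nontrivial K := Module.nontrivial_of_finrank_pos (R := ℝ) (by omega)
    obtain ⟨ζ, hζ⟩ := exists_ne (0 : K)
    exact G.unit_of h hF L (fun e => hζ (Subtype.ext e)) ((mem _).1 ζ.2).1 ((mem _).1 ζ.2).2
  refine ⟨by omega, ?_, fun h2 c => ?_, fun h2 => G.ind_bdd h hF fun ξ hξ => ?_⟩
  · by_contra h3
    obtain ⟨v, hv, hv'⟩ := hunit (by omega)
    obtain ⟨G', a, a', w, hw, hc, hj⟩ := G.exists_js hB hv hv'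
    obtain ⟨L⟩ := G'.exists_latt (hc.ak h) (hc.lat hu)
    obtain ⟨K', hfd', hK', mem'⟩ := G'.tri_k0 (hc.ak h)
    rw [hc.SD_eq] at hK'
    obtain ⟨ζ, hζ⟩ := exists_linearIndependent_of_le_finrank (R := ℝ) (M := K') (n := 3) (by omega)
    exact G'.no_three (hc.ak h) L hj (hζ.map' K'.subtype K'.ker_subtype)
      (fun i => ((mem' _).1 (ζ i).2).1) fun i => ((mem' _).1 (ζ i).2).2
  · obtain ⟨v, hv, hv'⟩ := hunit h2
    rw [← G.ind_unit hv hv' (0, -c), ← G.ind_serre (0, c)]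
    congr 1
    ext
    · simp
    · simp only [Prod.snd_add, Prod.snd_sub]
      ring
  · have hK0 : K = ⊥ := Submodule.finrank_eq_zero.1 (by omega)
    refine (G.pair G.Qa_ell).solve fun t ht => ?_
    have key : ∀ (s : G.Sec (wp 0)) (a : ℂ), inner ℂ G.e1 s = 0 → inner ℝ s (a • G.e1) = 0 :=
      fun s a hs => by
        rw [G.noPair_re, inner_smul_right, inner_eq_zero_symm.1 hs, mul_zero, Complex.zero_re]
    have h0 : t - (inner ℂ G.e1 t / inner ℂ G.e1 G.e1) • G.e1 ∈ K := (mem _).2 ⟨?_, fun χ => ?_⟩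
    · rw [hK0, Submodule.mem_bot] at h0
      rw [sub_eq_zero.1 h0]
      exact key _ _ hξ
    · rw [inner_sub_right, inner_smul_right, div_mul_cancel₀ _ G.noPair_e1, sub_self]
    · rw [inner_sub_right, key _ _ (G.inner_e1_Q χ), G.Qa_ell.adj, ht, inner_zero_right, sub_zero]

/-- The index function attached to a pair of almost Kaehler structures. -/
theorem tri_pair (hB : B.Gr) (h : G.AKP) {b : ℕ} {u : Fin b → A} (hu : G.Lat u) :
    ∃ q : ℤ → ℤ, (∀ c, q c + 3 * q (c + 2) = 3 * q (c + 1) + q (c + 3)) ∧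
      q 0 = 1 + (finrank ℝ G.SD : ℤ) - b ∧ q 1 = -(1 + (finrank ℝ G.ASD : ℤ) - b) ∧
      (1 ≤ finrank ℝ G.SD ∧ finrank ℝ G.SD ≤ 3) ∧ (1 ≤ finrank ℝ G.ASD ∧ finrank ℝ G.ASD ≤ 3) ∧
      (2 ≤ finrank ℝ G.SD → ∀ c, q (-c) = q c) ∧ (finrank ℝ G.SD < 2 → ∃ K, ∀ c, q c ≤ K) ∧
      (2 ≤ finrank ℝ G.ASD → ∀ c, q (1 + c) = q (1 - c)) ∧
      (finrank ℝ G.ASD < 2 → ∃ K, ∀ c, -q c ≤ K) := by
  obtain ⟨G₁, G₂, G₃, g₁, g₂, c₁, c₂, hf, a₁, f₁, a₃, f₃, e⟩ := h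
  have e' : ∀ c : ℤ, G₃.ind (0, c) = -G₁.ind (0, 1 - c) := fun c => by rw [hf.ind_eq, e]
  have l₃ := hf.lat (c₂.lat hu)
  obtain ⟨s1, s2, s3, s4⟩ := G₁.tri hB a₁ f₁ (c₁.lat hu)
  obtain ⟨t1, t2, t3, t4⟩ := G₃.tri hB.flip a₃ f₃ l₃
  have z₁ := G₁.ind_zero (c₁.lat hu)
  have z₃ := G₃.ind_zero l₃
  obtain ⟨E⟩ := hf.exists_equiv
  rw [c₁.finrank_SD] at s1 s2 s3 s4 z₁
  rw [← E.finrank_eq, c₂.finrank_ASD] at t1 t2 t3 t4 z₃
  refine ⟨fun c => G₁.ind (0, c), fun c => by simpa using G₁.ind_koszul (0, c), z₁, ?_, ⟨s1, s2⟩,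
    ⟨t1, t2⟩, s3, fun h => (s4 h).imp fun K hK c => hK _, fun h c => ?_,
    fun h => (t4 h).imp fun K hK c => ?_⟩
  · have := (e' 0).symm.trans z₃
    rw [sub_zero] at this
    rw [← this, neg_neg]
  · have := t3 h c
    rwa [e', e', neg_inj, sub_neg_eq_add] at this
  · have := hK (0, 1 - c)
    rwa [e', sub_sub_cancel] at this

end Geo

end SX4
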